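import Pool.Agent.N236.UR.Stm2
import Pool.Agent.N236.UB.Asm

/-!
# Project UR (helper236): assembly
-/

set_option autoImplicit false

open Polynomial

namespace Pool.Agent.N236.UR

open Pool.Agent.N236.UB
open scoped LinearAlgebra.Projectivization

section basics

variable {K : Type} [Field K]

theorem wd_lin (A : Matrix (Fin 2) (Fin 2) K) (x y : K × K) : wd (lin A x) (lin A y) = A.det * wd x y := by
  unfold wd lin
  rw [Matrix.det_fin_two]
  ring

theorem lin_mul (A B : Matrix (Fin 2) (Fin 2) K) (x : K × K) : lin (A * B) x = lin A (lin B x) := by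
  unfold lin
  simp only [Matrix.mul_apply, Fin.sum_univ_two, Prod.mk.injEq]
  constructor <;> ring

theorem lin_smul (A : Matrix (Fin 2) (Fin 2) K) (a : K) (x : K × K) : lin A (a • x) = a • lin A x := by
  unfold lin
  simp only [Prod.smul_fst, Prod.smul_snd, smul_eq_mul, Prod.smul_mk, Prod.mk.injEq]
  constructor <;> ring

theorem pw_smul (l : ℕ) (a : K) (x : K × K) : pw l (a • x) = a ^ l • pw l x := by
  unfold pw
  simp only [Prod.smul_fst, Prod.smul_snd, smul_eq_mul, Prod.smul_mk, mul_pow]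

theorem lin_ne_zero {A : Matrix (Fin 2) (Fin 2) K} (hA : A.det ≠ 0) {x : K × K} (hx : x ≠ 0) :
    lin A x ≠ 0 := by
  intro h
  apply hx
  have h1 : A 0 0 * x.1 + A 0 1 * x.2 = 0 := congrArg Prod.fst h
  have h2 : A 1 0 * x.1 + A 1 1 * x.2 = 0 := congrArg Prod.snd h
  have e1 : A.det * x.1 = 0 := by
    rw [Matrix.det_fin_two]
    linear_combination A 1 1 * h1 - A 0 1 * h2
  have e2 : A.det * x.2 = 0 := by
    rw [Matrix.det_fin_two]
    linear_combination A 0 0 * h2 - A 1 0 * h1
  have f1 := (mul_eq_zero.mp e1).resolve_left hA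
  have f2 := (mul_eq_zero.mp e2).resolve_left hA
  exact Prod.ext f1 f2

theorem pw_ne_zero {l : ℕ} (_hl : l ≠ 0) {x : K × K} (hx : x ≠ 0) : pw l x ≠ 0 := by
  intro h
  apply hx
  have h1 : x.1 ^ l = 0 := congrArg Prod.fst h
  have h2 : x.2 ^ l = 0 := congrArg Prod.snd h
  exact Prod.ext ((pow_eq_zero_iff _hl).mp h1) ((pow_eq_zero_iff _hl).mp h2)

theorem run_ne_zero (st : List (Matrix (Fin 2) (Fin 2) K × ℕ)) (h : ∀ s ∈ st, s.1.det ≠ 0 ∧ s.2 ≠ 0) :
    ∀ {x : K × K}, x ≠ 0 → run st x ≠ 0 := by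
  induction st with
  | nil => intro x hx; exact hx
  | cons s t ih =>
    intro x hx
    have hs := h s (by simp)
    exact ih (fun s' hs' => h s' (by simp [hs'])) (pw_ne_zero hs.2 (lin_ne_zero hs.1 hx))

theorem run_smul (st : List (Matrix (Fin 2) (Fin 2) K × ℕ)) :
    ∀ (a : K) (x : K × K), a ≠ 0 → ∃ b : K, b ≠ 0 ∧ run st (a • x) = b • run st x := by
  induction st with
  | nil => intro a x ha; exact ⟨a, ha, rfl⟩
  | cons s t ih =>
    intro a x ha
    obtain ⟨b, hb, h⟩ := ih (a ^ s.2) (pw s.2 (lin s.1 x)) (pow_ne_zero _ ha)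
    refine ⟨b, hb, ?_⟩
    change run t (pw s.2 (lin s.1 (a • x))) = b • run t (pw s.2 (lin s.1 x))
    rw [lin_smul, pw_smul, h]

theorem run_append (s t : List (Matrix (Fin 2) (Fin 2) K × ℕ)) (x : K × K) :
    run (s ++ t) x = run t (run s x) := by
  induction s generalizing x with
  | nil => rfl
  | cons a s ih => exact ih _

theorem wd_eq_zero_iff {x y : K × K} (hx : x ≠ 0) (hy : y ≠ 0) :
    wd x y = 0 ↔ Projectivization.mk K x hx = Projectivization.mk K y hy := by
  rw [Projectivization.mk_eq_mk_iff']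
  constructor
  · intro h
    unfold wd at h
    have h' : x.1 * y.2 = x.2 * y.1 := sub_eq_zero.mp h
    by_cases h1 : y.1 = 0
    · have h2 : y.2 ≠ 0 := fun h2 => hy (Prod.ext h1 h2)
      refine ⟨x.2 / y.2, Prod.ext ?_ ?_⟩
      · have : x.1 = 0 := by
          rw [h1, mul_zero] at h'
          exact (mul_eq_zero.mp h').resolve_right h2
        simp [h1, this]
      · simp [h2]
    · refine ⟨x.1 / y.1, Prod.ext ?_ ?_⟩
      · simp [h1]
      · simp only [Prod.smul_snd, smul_eq_mul]
        field_simp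
        linear_combination h'
  · rintro ⟨a, rfl⟩
    unfold wd
    simp only [Prod.smul_fst, Prod.smul_snd, smul_eq_mul]
    ring

end basics

/-- The power map `(x : y) ↦ (x ^ l : y ^ l)` of the projective line. -/
noncomputable def powP {K : Type} [Field K] (l : ℕ) (P : ℙ K (K × K)) : ℙ K (K × K) :=
  open Classical in
  if h : (P.rep.1 ^ l, P.rep.2 ^ l) ≠ (0 : K × K) then
    Projectivization.mk K (P.rep.1 ^ l, P.rep.2 ^ l) h else P

/-- Compositions of Moebius maps (`mobius`) and power maps `(x : y) ↦ (x ^ l : y ^ l)` with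
`l > M + 1` prime, together with their degree. -/
inductive MoebPow {K : Type} [Field K] (M : ℕ) : (ℙ K (K × K) → ℙ K (K × K)) → ℕ → Prop
  | mobius (g : (K × K) ≃ₗ[K] (K × K)) : MoebPow M (fun P => P.map g.toLinearMap g.injective) 1
  | power (l : ℕ) (hl : l.Prime) (h : M + 1 < l) : MoebPow M (powP l) l
  | comp (f g : ℙ K (K × K) → ℙ K (K × K)) (d e : ℕ) (hf : MoebPow M f d) (hg : MoebPow M g e) :
      MoebPow M (f ∘ g) (d * e)

section nf

variable {K : Type} [Field K]

theorem powP_mk {l : ℕ} (hl : l ≠ 0) {x : K × K} (hx : x ≠ 0) :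
    powP l (Projectivization.mk K x hx) = Projectivization.mk K (pw l x) (pw_ne_zero hl hx) := by
  set P := Projectivization.mk K x hx with hP
  have hr : P.rep ≠ 0 := P.rep_nonzero
  have h : (P.rep.1 ^ l, P.rep.2 ^ l) ≠ (0 : K × K) := pw_ne_zero hl hr
  unfold powP
  rw [dif_pos h]
  have h1 : Projectivization.mk K P.rep hr = Projectivization.mk K x hx := by
    rw [Projectivization.mk_rep]
  rw [Projectivization.mk_eq_mk_iff'] at h1 ⊢
  obtain ⟨a, ha⟩ := h1
  refine ⟨a ^ l, ?_⟩
  rw [← pw_smul, ha]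
  rfl

/-- matrix of a linear equivalence -/
noncomputable def matOf (g : (K × K) ≃ₗ[K] (K × K)) : Matrix (Fin 2) (Fin 2) K :=
  !![(g (1, 0)).1, (g (0, 1)).1; (g (1, 0)).2, (g (0, 1)).2]

theorem lin_matOf (g : (K × K) ≃ₗ[K] (K × K)) (x : K × K) : lin (matOf g) x = g x := by
  have hx : x = x.1 • ((1, 0) : K × K) + x.2 • ((0, 1) : K × K) := by
    apply Prod.ext <;> simp
  have hg : g x = x.1 • g (1, 0) + x.2 • g (0, 1) := by
    conv_lhs => rw [hx]
    rw [map_add, map_smul, map_smul]
  rw [hg]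
  unfold lin matOf
  apply Prod.ext <;> simp <;> ring

theorem det_matOf (g : (K × K) ≃ₗ[K] (K × K)) : (matOf g).det ≠ 0 := by
  intro h
  have h1 : wd (lin (matOf g) (g.symm (1, 0))) (lin (matOf g) (g.symm (0, 1))) = 0 := by
    rw [wd_lin, h, zero_mul]
  rw [lin_matOf, lin_matOf, LinearEquiv.apply_symm_apply, LinearEquiv.apply_symm_apply] at h1
  unfold wd at h1
  simp at h1

/-- Normal form -/
theorem nf {M : ℕ} {φ : ℙ K (K × K) → ℙ K (K × K)} {d : ℕ} (h : MoebPow M φ d) :
    ∃ (st : List (Matrix (Fin 2) (Fin 2) K × ℕ)) (B : Matrix (Fin 2) (Fin 2) K),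
      (∀ s ∈ st, s.1.det ≠ 0 ∧ s.2.Prime ∧ M + 1 < s.2) ∧ B.det ≠ 0 ∧ (st.map Prod.snd).prod = d ∧
      ∀ (x : K × K) (hx : x ≠ 0) (hy : lin B (run st x) ≠ 0),
        φ (Projectivization.mk K x hx) = Projectivization.mk K (lin B (run st x)) hy := by
  induction h with
  | mobius g =>
    refine ⟨[], matOf g, by simp, det_matOf g, by simp, ?_⟩
    intro x hx hy
    simp only [Projectivization.map_mk]
    congr 1
    exact (lin_matOf g x).symm
  | power l hl h =>
    refine ⟨[(1, l)], 1, ?_, by simp, by simp, ?_⟩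
    · intro s hs
      simp only [List.mem_singleton] at hs
      subst hs
      exact ⟨by simp, hl, h⟩
    · intro x hx hy
      have e1 : lin (1 : Matrix (Fin 2) (Fin 2) K) x = x := by
        unfold lin; simp
      have e2 : lin (1 : Matrix (Fin 2) (Fin 2) K) (run [((1 : Matrix (Fin 2) (Fin 2) K), l)] x) = pw l x := by
        have : ∀ y : K × K, lin (1 : Matrix (Fin 2) (Fin 2) K) y = y := by
          intro y; unfold lin; simp
        rw [this]
        change pw l (lin 1 x) = pw l x
        rw [this]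
      rw [powP_mk hl.ne_zero hx]
      simp only [e2]
  | comp f g d e hf hg ihf ihg =>
    obtain ⟨sf, Bf, hsf, hBf, hpf, hf'⟩ := ihf
    obtain ⟨sg, Bg, hsg, hBg, hpg, hg'⟩ := ihg
    have hsg' : ∀ s ∈ sg, s.1.det ≠ 0 ∧ s.2 ≠ 0 := fun s hs => ⟨(hsg s hs).1, (hsg s hs).2.1.ne_zero⟩
    match sf, hsf, hpf, hf' with
    | [], _, hpf, hf' =>
      refine ⟨sg, Bf * Bg, hsg, by rw [Matrix.det_mul]; exact mul_ne_zero hBf hBg, ?_, ?_⟩
      · simp only [List.map_nil, List.prod_nil] at hpf
        rw [hpg, ← hpf, one_mul]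
      · intro x hx hy
        have h1 : lin Bg (run sg x) ≠ 0 := lin_ne_zero hBg (run_ne_zero sg hsg' hx)
        have h2 : lin Bf (run [] (lin Bg (run sg x))) ≠ 0 := lin_ne_zero hBf h1
        simp only [Function.comp_apply]
        rw [hg' x hx h1, hf' _ h1 h2]
        congr 1
        rw [lin_mul]
        rfl
    | (A, l) :: t, hsf, hpf, hf' =>
      have hA := hsf (A, l) (by simp)
      refine ⟨sg ++ (A * Bg, l) :: t, Bf, ?_, hBf, ?_, ?_⟩
      · intro s hs
        rw [List.mem_append, List.mem_cons] at hs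
        rcases hs with hs | hs | hs
        · exact hsg s hs
        · subst hs
          exact ⟨by simp only [Matrix.det_mul]; exact mul_ne_zero hA.1 hBg, hA.2⟩
        · exact hsf s (by simp [hs])
      · rw [List.map_append, List.prod_append, hpg, List.map_cons, List.prod_cons]
        rw [List.map_cons, List.prod_cons] at hpf
        rw [hpf, mul_comm]
      · intro x hx hy
        have h1 : lin Bg (run sg x) ≠ 0 := lin_ne_zero hBg (run_ne_zero sg hsg' hx)
        have e : run (sg ++ (A * Bg, l) :: t) x = run ((A, l) :: t) (lin Bg (run sg x)) := by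
          rw [run_append]
          change run t (pw l (lin (A * Bg) (run sg x))) = run t (pw l (lin A (lin Bg (run sg x))))
          rw [lin_mul]
        have h2 : lin Bf (run ((A, l) :: t) (lin Bg (run sg x))) ≠ 0 := by
          rw [← e]; exact hy
        simp only [Function.comp_apply]
        rw [hg' x hx h1, hf' _ h1 h2]
        simp only [e]

end nf

end Pool.Agent.N236.UR
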