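import Pool.Agent.N236.UR.Fin

/-!
# Project UR (helper236): the theorem
-/

set_option autoImplicit false

open Polynomial

namespace Pool.Agent.N236.UR

open Pool.Agent.N236.UB
open scoped LinearAlgebra.Projectivization

theorem finite_of_card_le {α : Type} {F : Set α} {b : ℕ} (h : ∀ S : Finset α, (↑S : Set α) ⊆ F → S.card ≤ b) :
    F.Finite ∧ F.ncard ≤ b := by
  have hfin : F.Finite := by
    by_contra hinf
    obtain ⟨S, hS, hc⟩ := Set.Infinite.exists_subset_card_eq hinf (b + 1)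
    have := h S hS
    omega
  refine ⟨hfin, ?_⟩
  rw [Set.ncard_eq_toFinset_card F hfin]
  apply h
  simp

theorem fix_count (hcnt : S_CNT) {K : Type} [Field K] [NumberField K] {M : ℕ}
    {φ : ℙ K (K × K) → ℙ K (K × K)} {d : ℕ} (hd : 2 ≤ d) (h : MoebPow M φ d) :
    {P : ℙ K (K × K) | φ P = P}.Finite ∧ {P : ℙ K (K × K) | φ P = P}.ncard ≤ d + 2 := by
  obtain ⟨st, B, hok, hB, hprod, hφ⟩ := nf h
  have hne : ∀ s ∈ st, s.1.det ≠ 0 ∧ s.2 ≠ 0 := fun s hs => ⟨(hok s hs).1, (hok s hs).2.1.ne_zero⟩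
  have hst : st ≠ [] := by
    rintro rfl
    simp at hprod
    omega
  set F : Set K := {x : K | wd (lin B (run st (x, 1))) (x, 1) = 0} with hF
  have hFc : F.Finite ∧ F.ncard ≤ d + 1 := by
    apply finite_of_card_le
    intro S hS
    have := hcnt K st B (fun s hs => ⟨(hok s hs).1, (hok s hs).2.1.two_le⟩) hB hst S (fun x hx => hS hx)
    rwa [hprod] at this
  have h10 : ((1 : K), (0 : K)) ≠ 0 := by simp
  have hx1 : ∀ x : K, ((x : K), (1 : K)) ≠ 0 := fun x => by simp
  have hsub : {P : ℙ K (K × K) | φ P = P} ⊆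
      insert (Projectivization.mk K ((1 : K), (0 : K)) h10)
        ((fun x : K => Projectivization.mk K (x, (1 : K)) (hx1 x)) '' F) := by
    intro P hP
    induction P using Projectivization.ind with
    | h y hy =>
    rw [Set.mem_insert_iff]
    by_cases h2 : y.2 = 0
    · left
      rw [← wd_eq_zero_iff hy h10]
      unfold wd
      simp [h2]
    · right
      have hyx : Projectivization.mk K y hy = Projectivization.mk K (y.1 / y.2, (1 : K)) (hx1 _) := by
        rw [← wd_eq_zero_iff hy (hx1 _)]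
        unfold wd
        field_simp
        ring
      refine ⟨y.1 / y.2, ?_, hyx.symm⟩
      have h3 : lin B (run st (y.1 / y.2, 1)) ≠ 0 := lin_ne_zero hB (run_ne_zero st hne (hx1 _))
      have hP' : φ (Projectivization.mk K y hy) = Projectivization.mk K y hy := hP
      rw [hyx, hφ _ (hx1 _) h3, ← wd_eq_zero_iff h3 (hx1 _)] at hP'
      exact hP'
  have hfin : (insert (Projectivization.mk K ((1 : K), (0 : K)) h10)
        ((fun x : K => Projectivization.mk K (x, (1 : K)) (hx1 x)) '' F)).Finite :=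
    (hFc.1.image _).insert _
  refine ⟨hfin.subset hsub, ?_⟩
  calc _ ≤ _ := Set.ncard_le_ncard hsub hfin
    _ ≤ ((fun x : K => Projectivization.mk K (x, (1 : K)) (hx1 x)) '' F).ncard + 1 := Set.ncard_insert_le _ _
    _ ≤ F.ncard + 1 := by
        have := Set.ncard_image_le (f := fun x : K => Projectivization.mk K (x, (1 : K)) (hx1 x)) hFc.1
        omega
    _ ≤ d + 2 := by have := hFc.2; omega

theorem main (hplace : S_PLACE) (hprime : S_PRIME) (hepow : S_EPOW) (hgeo : S_GEO) (hcomb : S_COMB)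
    (hcnt : S_CNT) (D d : ℕ) (hd : 2 ≤ d) : ∃ C : ℕ, ∀ (K : Type) [Field K] [NumberField K],
      Module.finrank ℚ K = D → ∀ φ : ℙ K (K × K) → ℙ K (K × K), MoebPow D φ d →
        {P : ℙ K (K × K) | ∃ m n : ℕ, m < n ∧ φ^[m] P = φ^[n] P}.Finite ∧
        {P : ℙ K (K × K) | ∃ m n : ℕ, m < n ∧ φ^[m] P = φ^[n] P}.ncard ≤ C := by
  obtain ⟨p₁, p₂, hne, hg₁, hg₂⟩ := good2 hprime d (by omega)
  refine ⟨d ^ (NP p₁ p₂ D d) + 2, ?_⟩
  intro K _ _ hD φ hφ
  obtain ⟨st, B, hok, hB, hprod, hnf⟩ := nf hφ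
  have hinj : Function.Injective φ := phi_inj hplace hepow hD.le hg₁ hok hB hprod hnf
  have hNpos : 1 ≤ NP p₁ p₂ D d := by
    unfold NP
    have := pow_pos (Nat.factorial_pos (max (p₁ ^ D) (p₂ ^ D) + 1)) ((2 * d + 2) * max (p₁ ^ D) (p₂ ^ D))
    omega
  set N := NP p₁ p₂ D d with hN
  have hsub : {P : ℙ K (K × K) | ∃ m n : ℕ, m < n ∧ φ^[m] P = φ^[n] P} ⊆ {P | φ^[N] P = P} := by
    rintro P ⟨m, n, hmn, hP⟩
    obtain ⟨k, rfl⟩ := Nat.exists_eq_add_of_lt hmn
    have hper : φ^[k + 1] P = P := by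
      have : φ^[m] (φ^[k + 1] P) = φ^[m] P := by
        rw [← Function.iterate_add_apply]
        exact hP.symm
      exact hinj.iterate m this
    have hp : Function.IsPeriodicPt φ (k + 1) P := hper
    have hmp : 1 ≤ Function.minimalPeriod φ P := hp.minimalPeriod_pos (by omega)
    have hdvd : Function.minimalPeriod φ P ∣ N := by
      apply dvd_NP hne hmp
      · intro h4
        exact cyc_bound hplace hgeo hcomb hD.le hg₁ hok hB hprod hnf P _ h4 rfl
      · intro h4
        exact cyc_bound hplace hgeo hcomb hD.le hg₂ hok hB hprod hnf P _ h4 rfl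
    exact (Function.isPeriodicPt_iff_minimalPeriod_dvd).mpr hdvd
  obtain ⟨N', hN'⟩ : ∃ N', N = N' + 1 := ⟨N - 1, by omega⟩
  have hit : MoebPow D φ^[N] (d ^ N) := by
    rw [hN']
    exact moebPow_iter hφ N'
  have hdN : 2 ≤ d ^ N := by
    calc 2 ≤ d := hd
      _ ≤ d ^ N := Nat.le_self_pow (by omega) d
  have hc := fix_count hcnt hdN hit
  exact ⟨hc.1.subset hsub, (Set.ncard_le_ncard hsub hc.1).trans hc.2⟩

end Pool.Agent.N236.UR
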