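import Pool.Agent.N236.UR.Stm5
import Pool.Agent.N236.UR.Top
import Pool.Agent.N491.UB.DICV

/-!
# Project UR (helper236), part 4: maps composed of Moebius maps, powers and Dickson polynomials
-/

set_option autoImplicit false

open Polynomial

namespace Pool.Agent.N236.UR

open Pool.Agent.N236.UB
open scoped LinearAlgebra.Projectivization

/-- The map of the projective line induced by a homogeneous map of vectors. -/
noncomputable def actP {E : Type} [Field E] (T : E × E → E × E) (P : ℙ E (E × E)) : ℙ E (E × E) :=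
  open Classical in if h : T P.rep ≠ 0 then Projectivization.mk E (T P.rep) h else P

/-- Self-maps of `ℙ¹ (E)` which are compositions of Moebius maps over `K`, power maps
`(x : y) ↦ (x ^ l : y ^ l)` with `l > M + 1` prime, and Dickson maps
`(x : y) ↦ (D_l (x, α y ^ 2) : y ^ l)` with `l > 2 M + 1` prime and `α ∈ K`, together with the degree. -/
inductive ExcP (K E : Type) [Field K] [Field E] [Algebra K E] (M : ℕ) :
    (ℙ E (E × E) → ℙ E (E × E)) → ℕ → Prop
  | mobius (A : Matrix (Fin 2) (Fin 2) K) (hA : A.det ≠ 0) :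
      ExcP K E M (actP (lin (A.map (algebraMap K E)))) 1
  | power (l : ℕ) (hl : l.Prime) (h : M + 1 < l) : ExcP K E M (actP (pw l)) l
  | dickson (l : ℕ) (α : K) (hl : l.Prime) (h : 2 * M + 1 < l) :
      ExcP K E M (actP (dkm l (algebraMap K E α))) l
  | comp (f g : ℙ E (E × E) → ℙ E (E × E)) (d e : ℕ) (hf : ExcP K E M f d) (hg : ExcP K E M g e) :
      ExcP K E M (f ∘ g) (d * e)

section hom

variable {K : Type} [Field K]

/-- homogeneous of degree `m` without zeros -/
def Hom (T : K × K → K × K) (m : ℕ) : Prop :=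
  (∀ (a : K) (x : K × K), T (a • x) = a ^ m • T x) ∧ ∀ x : K × K, x ≠ 0 → T x ≠ 0

theorem actP_mk {T : K × K → K × K} {m : ℕ} (hT : Hom T m) {x : K × K} (hx : x ≠ 0) (hy : T x ≠ 0) :
    actP T (Projectivization.mk K x hx) = Projectivization.mk K (T x) hy := by
  set P := Projectivization.mk K x hx with hP
  have hr : P.rep ≠ 0 := P.rep_nonzero
  have h : T P.rep ≠ 0 := hT.2 _ hr
  unfold actP
  rw [dif_pos h]
  have h1 : Projectivization.mk K P.rep hr = Projectivization.mk K x hx := by
    rw [Projectivization.mk_rep]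
  rw [Projectivization.mk_eq_mk_iff'] at h1 ⊢
  obtain ⟨a, ha⟩ := h1
  refine ⟨a ^ m, ?_⟩
  rw [← hT.1, ha]

theorem hom_lin {A : Matrix (Fin 2) (Fin 2) K} (hA : A.det ≠ 0) : Hom (lin A) 1 :=
  ⟨fun a x => by rw [lin_smul, pow_one], fun _ hx => lin_ne_zero hA hx⟩

theorem hom_pw {l : ℕ} (hl : l ≠ 0) : Hom (pw l : K × K → K × K) l :=
  ⟨fun a x => pw_smul l a x, fun _ hx => pw_ne_zero hl hx⟩

theorem dick_zero (x : K) (n : ℕ) : (dickson 1 (0 : K) (n + 1)).eval x = x ^ (n + 1) := by
  induction n with
  | zero => rw [Pool.Agent.N491.UB.ev1, zero_add, pow_one]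
  | succ n ih => rw [Pool.Agent.N491.UB.ev2, ih]; ring

theorem hom_dkm {l : ℕ} (hl : l ≠ 0) (α : K) : Hom (dkm l α) l := by
  constructor
  · intro a x
    unfold dkm
    have h := Pool.Agent.N491.UB.scale (α * x.2 ^ 2) a x.1 l
    apply Prod.ext
    · simp only [Prod.smul_fst, Prod.smul_snd, smul_eq_mul]
      rw [← h]
      congr 2
      ring
    · simp only [Prod.smul_snd, smul_eq_mul, mul_pow]
  · intro x hx h0
    have h2 : x.2 ^ l = 0 := congrArg Prod.snd h0
    have h1 : (dickson 1 (α * x.2 ^ 2) l).eval x.1 = 0 := congrArg Prod.fst h0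
    have h3 : x.2 = 0 := (pow_eq_zero_iff hl).mp h2
    obtain ⟨n, rfl⟩ : ∃ n, l = n + 1 := ⟨l - 1, by omega⟩
    rw [h3, zero_pow two_ne_zero, mul_zero, dick_zero] at h1
    have h4 : x.1 = 0 := (pow_eq_zero_iff (by omega)).mp h1
    exact hx (Prod.ext h4 h3)

theorem hom_fn {s : Sg K} (hs : s.deg ≠ 0) : Hom s.fn s.deg := by
  cases s with
  | pow m => exact hom_pw hs
  | dic l α => exact hom_dkm hs α

theorem Hom.comp {T U : K × K → K × K} {m k : ℕ} (hT : Hom T m) (hU : Hom U k) :
    Hom (fun x => T (U x)) (k * m) :=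
  ⟨fun a x => by simp only; rw [hU.1, hT.1, ← pow_mul], fun x hx => hT.2 _ (hU.2 x hx)⟩

theorem hom_runS (st : List (Matrix (Fin 2) (Fin 2) K × Sg K))
    (h : ∀ s ∈ st, s.1.det ≠ 0 ∧ s.2.deg ≠ 0) : ∃ m : ℕ, Hom (runS st) m := by
  induction st with
  | nil => exact ⟨1, fun a x => by rw [pow_one]; rfl, fun x hx => hx⟩
  | cons s t ih =>
    have hs := h s (by simp)
    obtain ⟨m, hm⟩ := ih (fun s' hs' => h s' (by simp [hs']))
    exact ⟨_, hm.comp ((hom_fn hs.2).comp (hom_lin hs.1))⟩

end hom

section basechange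

variable {K L : Type} [Field K] [Field L] (σ : K →+* L)

/-- base change of a stage -/
def Sg.map {K L : Type} [Field K] [Field L] (σ : K →+* L) : Sg K → Sg L
  | .pow m => .pow m
  | .dic l α => .dic l (σ α)

/-- base change of a list of steps -/
def mapS (st : List (Matrix (Fin 2) (Fin 2) K × Sg K)) : List (Matrix (Fin 2) (Fin 2) L × Sg L) :=
  st.map fun s => (s.1.map σ, s.2.map σ)

/-- the map on vectors -/
def vec (x : K × K) : L × L := (σ x.1, σ x.2)

theorem vec_inj {x y : K × K} (h : wd (vec σ x) (vec σ y) = 0) : wd x y = 0 := by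
  have e : wd (vec σ x) (vec σ y) = σ (wd x y) := by
    unfold wd vec
    simp
  rw [e] at h
  exact (map_eq_zero σ).mp h

theorem vec_wd {x y : K × K} (h : wd x y = 0) : wd (vec σ x) (vec σ y) = 0 := by
  have e : wd (vec σ x) (vec σ y) = σ (wd x y) := by
    unfold wd vec
    simp
  rw [e, h, map_zero]

theorem vec_ne {x : K × K} (h : x ≠ 0) : vec σ x ≠ 0 := by
  intro h0
  apply h
  have h1 : σ x.1 = 0 := congrArg Prod.fst h0
  have h2 : σ x.2 = 0 := congrArg Prod.snd h0
  exact Prod.ext ((map_eq_zero σ).mp h1) ((map_eq_zero σ).mp h2)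

theorem lin_vec (A : Matrix (Fin 2) (Fin 2) K) (x : K × K) : lin (A.map σ) (vec σ x) = vec σ (lin A x) := by
  unfold lin vec
  simp [Matrix.map_apply]

theorem fn_vec (s : Sg K) (x : K × K) : (s.map σ).fn (vec σ x) = vec σ (s.fn x) := by
  cases s with
  | pow m =>
    change pw m (vec σ x) = vec σ (pw m x)
    unfold pw vec
    simp
  | dic l α =>
    change dkm l (σ α) (vec σ x) = vec σ (dkm l α x)
    unfold dkm vec
    apply Prod.ext
    · simp only
      have h := Polynomial.map_dickson (k := 1) (a := α * x.2 ^ 2) σ l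
      rw [map_mul, map_pow] at h
      rw [← h]
      exact Polynomial.eval_map_apply σ x.1
    · simp

theorem runS_vec (st : List (Matrix (Fin 2) (Fin 2) K × Sg K)) :
    ∀ x : K × K, runS (mapS σ st) (vec σ x) = vec σ (runS st x) := by
  induction st with
  | nil => intro x; rfl
  | cons s t ih =>
    intro x
    have e : runS (mapS σ (s :: t)) (vec σ x) =
        runS (mapS σ t) ((s.2.map σ).fn (lin (s.1.map σ) (vec σ x))) := rfl
    rw [e, lin_vec, fn_vec, ih]
    rfl

theorem det_map {A : Matrix (Fin 2) (Fin 2) K} (hA : A.det ≠ 0) : (A.map σ).det ≠ 0 := by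
  have hd : (A.map σ).det = σ A.det := by
    have := (RingHom.map_det σ A).symm
    simpa using this
  rw [hd]
  exact fun h0 => hA ((map_eq_zero σ).mp h0)

theorem deg_map (s : Sg K) : (s.map σ).deg = s.deg := by
  cases s <;> rfl

theorem prod_mapS (st : List (Matrix (Fin 2) (Fin 2) K × Sg K)) :
    ((mapS σ st).map fun s => s.2.deg).prod = (st.map fun s => s.2.deg).prod := by
  unfold mapS
  rw [List.map_map]
  congr 1
  apply List.map_congr_left
  intro s _
  exact deg_map σ s.2

theorem mapS_append (s t : List (Matrix (Fin 2) (Fin 2) K × Sg K)) :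
    mapS σ (s ++ t) = mapS σ s ++ mapS σ t := by
  unfold mapS
  rw [List.map_append]

end basechange

section nf

variable {K E : Type} [Field K] [Field E] [Algebra K E]

/-- stages with good degrees -/
def SgOK {K : Type} (M : ℕ) : Sg K → Prop
  | .pow l => l.Prime ∧ M + 1 < l
  | .dic l _ => l.Prime ∧ 2 * M + 1 < l

theorem SgOK.prime {M : ℕ} {s : Sg K} (h : SgOK M s) : s.deg.Prime := by
  cases s with
  | pow m => exact h.1
  | dic l α => exact h.1

theorem runS_append' {L : Type} [Field L] (s t : List (Matrix (Fin 2) (Fin 2) L × Sg L)) (x : L × L) :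
    runS (s ++ t) x = runS t (runS s x) := by
  induction s generalizing x with
  | nil => rfl
  | cons a s ih => exact ih _

/-- Normal form -/
theorem nf5 {M : ℕ} {φ : ℙ E (E × E) → ℙ E (E × E)} {d : ℕ} (h : ExcP K E M φ d) :
    ∃ (st : List (Matrix (Fin 2) (Fin 2) K × Sg K)) (B : Matrix (Fin 2) (Fin 2) K),
      (∀ s ∈ st, s.1.det ≠ 0 ∧ SgOK M s.2) ∧ B.det ≠ 0 ∧ (st.map fun s => s.2.deg).prod = d ∧
      ∀ (x : E × E) (hx : x ≠ 0)
        (hy : lin (B.map (algebraMap K E)) (runS (mapS (algebraMap K E) st) x) ≠ 0),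
        φ (Projectivization.mk E x hx) =
          Projectivization.mk E (lin (B.map (algebraMap K E)) (runS (mapS (algebraMap K E) st) x)) hy := by
  have hone : ∀ y : E × E, lin ((1 : Matrix (Fin 2) (Fin 2) K).map (algebraMap K E)) y = y := by
    intro y
    rw [Matrix.map_one _ (map_zero _) (map_one _)]
    unfold lin
    simp
  induction h with
  | mobius A hA =>
    refine ⟨[], A, by simp, hA, by simp, ?_⟩
    intro x hx hy
    exact actP_mk (hom_lin (det_map _ hA)) hx hy
  | power l hl h =>
    refine ⟨[(1, .pow l)], 1, ?_, by simp, by simp [Sg.deg], ?_⟩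
    · intro s hs
      simp only [List.mem_singleton] at hs
      subst hs
      exact ⟨by simp, hl, h⟩
    · intro x hx hy
      have e2 : lin ((1 : Matrix (Fin 2) (Fin 2) K).map (algebraMap K E))
          (runS (mapS (algebraMap K E) [((1 : Matrix (Fin 2) (Fin 2) K), Sg.pow l)]) x) = pw l x := by
        rw [hone]
        change pw l (lin ((1 : Matrix (Fin 2) (Fin 2) K).map (algebraMap K E)) x) = pw l x
        rw [hone]
      rw [actP_mk (hom_pw hl.ne_zero) hx (pw_ne_zero hl.ne_zero hx)]
      simp only [e2]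
  | dickson l α hl h =>
    refine ⟨[(1, .dic l α)], 1, ?_, by simp, by simp [Sg.deg], ?_⟩
    · intro s hs
      simp only [List.mem_singleton] at hs
      subst hs
      exact ⟨by simp, hl, h⟩
    · intro x hx hy
      have e2 : lin ((1 : Matrix (Fin 2) (Fin 2) K).map (algebraMap K E))
          (runS (mapS (algebraMap K E) [((1 : Matrix (Fin 2) (Fin 2) K), Sg.dic l α)]) x) =
            dkm l (algebraMap K E α) x := by
        rw [hone]
        change dkm l (algebraMap K E α) (lin ((1 : Matrix (Fin 2) (Fin 2) K).map (algebraMap K E)) x) = _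
        rw [hone]
      rw [actP_mk (hom_dkm hl.ne_zero _) hx ((hom_dkm hl.ne_zero _).2 x hx)]
      simp only [e2]
  | comp f g d e hf hg ihf ihg =>
    obtain ⟨sf, Bf, hsf, hBf, hpf, hf'⟩ := ihf
    obtain ⟨sg, Bg, hsg, hBg, hpg, hg'⟩ := ihg
    have hsg' : ∀ s ∈ mapS (algebraMap K E) sg, s.1.det ≠ 0 ∧ s.2.deg ≠ 0 := by
      intro s hs
      unfold mapS at hs
      rw [List.mem_map] at hs
      obtain ⟨s', hs', rfl⟩ := hs
      refine ⟨det_map _ (hsg s' hs').1, ?_⟩
      rw [deg_map]
      exact (hsg s' hs').2.prime.ne_zero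
    obtain ⟨mg, hmg⟩ := hom_runS _ hsg'
    match sf, hsf, hpf, hf' with
    | [], _, hpf, hf' =>
      refine ⟨sg, Bf * Bg, hsg, by rw [Matrix.det_mul]; exact mul_ne_zero hBf hBg, ?_, ?_⟩
      · simp only [List.map_nil, List.prod_nil] at hpf
        rw [hpg, ← hpf, one_mul]
      · intro x hx hy
        have h1 : lin (Bg.map (algebraMap K E)) (runS (mapS (algebraMap K E) sg) x) ≠ 0 :=
          lin_ne_zero (det_map _ hBg) (hmg.2 x hx)
        have h2 : lin (Bf.map (algebraMap K E)) (runS (mapS (algebraMap K E) [])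
            (lin (Bg.map (algebraMap K E)) (runS (mapS (algebraMap K E) sg) x))) ≠ 0 :=
          lin_ne_zero (det_map _ hBf) h1
        simp only [Function.comp_apply]
        rw [hg' x hx h1, hf' _ h1 h2]
        congr 1
        rw [Matrix.map_mul, lin_mul]
        rfl
    | (A, s0) :: t, hsf, hpf, hf' =>
      have hA := hsf (A, s0) (by simp)
      refine ⟨sg ++ (A * Bg, s0) :: t, Bf, ?_, hBf, ?_, ?_⟩
      · intro s hs
        rw [List.mem_append, List.mem_cons] at hs
        rcases hs with hs | hs | hs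
        · exact hsg s hs
        · subst hs
          exact ⟨by simp only [Matrix.det_mul]; exact mul_ne_zero hA.1 hBg, hA.2⟩
        · exact hsf s (by simp [hs])
      · rw [List.map_append, List.prod_append, hpg, List.map_cons, List.prod_cons]
        rw [List.map_cons, List.prod_cons] at hpf
        rw [hpf, mul_comm]
      · intro x hx hy
        have h1 : lin (Bg.map (algebraMap K E)) (runS (mapS (algebraMap K E) sg) x) ≠ 0 :=
          lin_ne_zero (det_map _ hBg) (hmg.2 x hx)
        have e : runS (mapS (algebraMap K E) (sg ++ (A * Bg, s0) :: t)) x =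
            runS (mapS (algebraMap K E) ((A, s0) :: t))
              (lin (Bg.map (algebraMap K E)) (runS (mapS (algebraMap K E) sg) x)) := by
          rw [mapS_append, runS_append']
          change runS (mapS (algebraMap K E) t) ((s0.map (algebraMap K E)).fn
            (lin ((A * Bg).map (algebraMap K E)) (runS (mapS (algebraMap K E) sg) x))) =
            runS (mapS (algebraMap K E) t) ((s0.map (algebraMap K E)).fn
            (lin (A.map (algebraMap K E)) (lin (Bg.map (algebraMap K E)) (runS (mapS (algebraMap K E) sg) x))))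
          rw [Matrix.map_mul, lin_mul]
        have h2 : lin (Bf.map (algebraMap K E)) (runS (mapS (algebraMap K E) ((A, s0) :: t))
            (lin (Bg.map (algebraMap K E)) (runS (mapS (algebraMap K E) sg) x))) ≠ 0 := by
          rw [← e]; exact hy
        simp only [Function.comp_apply]
        rw [hg' x hx h1, hf' _ h1 h2]
        simp only [e]

theorem excP_iter {M : ℕ} {φ : ℙ E (E × E) → ℙ E (E × E)} {d : ℕ} (h : ExcP K E M φ d) (n : ℕ) :
    ExcP K E M φ^[n + 1] (d ^ (n + 1)) := by
  induction n with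
  | zero => simpa using h
  | succ n ih =>
    have e : φ^[n + 1 + 1] = φ ∘ φ^[n + 1] := by
      funext x
      exact Function.iterate_succ_apply' φ (n + 1) x
    rw [e, pow_succ' d (n + 1)]
    exact ExcP.comp _ _ _ _ h ih

end nf

end Pool.Agent.N236.UR
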