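import Pool.Agent.N236.UR.Stm2

/-!
# Project UR (helper236), part 2: bounds independent of the degree, statements
-/

set_option autoImplicit false

open Polynomial

namespace Pool.Agent.N236.UR

open Pool.Agent.N236.UB

/-- Power maps increase the cross-ratio of four positive numbers. -/
def S_CRP : Prop := ∀ (m : ℕ) (a b c d : ℝ), 2 ≤ m → 0 < a → a < b → b < c → c < d →
  (b ^ m - a ^ m) * (d ^ m - c ^ m) * ((d - a) * (c - b)) <
    (d ^ m - a ^ m) * (c ^ m - b ^ m) * ((b - a) * (d - c))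

/-- A composition of `k` odd powers and Moebius maps over `ℝ` has at most `8 k + 3` affine fixed
points. -/
def S_REAL : Prop := ∀ (st : List (Matrix (Fin 2) (Fin 2) ℝ × ℕ)) (B : Matrix (Fin 2) (Fin 2) ℝ),
  (∀ s ∈ st, s.1.det ≠ 0 ∧ 2 ≤ s.2 ∧ Odd s.2) → B.det ≠ 0 → st ≠ [] →
  ∀ S : Finset ℝ, (∀ x ∈ S, wd (lin B (run st (x, 1))) (x, 1) = 0) → S.card ≤ 8 * st.length + 3

end Pool.Agent.N236.UR
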