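import Pool.Agent.N236.UR.Top
import Pool.Agent.N236.UR.Stm3

/-!
# Project UR (helper236), part 2: bounds independent of the degree, assembly
-/

set_option autoImplicit false

open Polynomial

namespace Pool.Agent.N236.UR

open Pool.Agent.N236.UB
open scoped LinearAlgebra.Projectivization

/-- Compositions of Moebius maps over `K` (`mobius`) and of exactly `k` power maps
`(x : y) ↦ (x ^ m : y ^ m)`, all of whose exponents `m ≥ 2` are prime to `b`. -/
inductive PowMoeb {K : Type} [Field K] (b : ℕ) : ℕ → (ℙ K (K × K) → ℙ K (K × K)) → Prop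
  | mobius (g : (K × K) ≃ₗ[K] (K × K)) : PowMoeb b 0 (fun P => P.map g.toLinearMap g.injective)
  | power (m : ℕ) (hm : 2 ≤ m) (h : Nat.Coprime m b) : PowMoeb b 1 (powP m)
  | comp (f g : ℙ K (K × K) → ℙ K (K × K)) (j k : ℕ) (hf : PowMoeb b j f) (hg : PowMoeb b k g) :
      PowMoeb b (j + k) (f ∘ g)

/-- The product of `p₁`, `p₂` and of all `p₁ ^ f - 1` and `p₂ ^ f - 1` with `1 ≤ f ≤ D`. -/
def badN (D p₁ p₂ : ℕ) : ℕ := p₁ * p₂ * ∏ f ∈ Finset.Icc 1 D, ((p₁ ^ f - 1) * (p₂ ^ f - 1))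

section arith

theorem dvd_badN {D p₁ p₂ f : ℕ} (h1 : 1 ≤ f) (h2 : f ≤ D) :
    p₁ ^ f - 1 ∣ badN D p₁ p₂ ∧ p₂ ^ f - 1 ∣ badN D p₁ p₂ := by
  have h : (p₁ ^ f - 1) * (p₂ ^ f - 1) ∣ ∏ f ∈ Finset.Icc 1 D, ((p₁ ^ f - 1) * (p₂ ^ f - 1)) :=
    Finset.dvd_prod_of_mem _ (Finset.mem_Icc.mpr ⟨h1, h2⟩)
  unfold badN
  exact ⟨((Dvd.intro _ rfl).trans h).mul_left _, ((Dvd.intro_left _ rfl).trans h).mul_left _⟩

theorem p_dvd_badN {D p₁ p₂ : ℕ} : p₁ ∣ badN D p₁ p₂ ∧ p₂ ∣ badN D p₁ p₂ := by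
  unfold badN
  exact ⟨(Dvd.intro _ rfl : p₁ ∣ p₁ * p₂).mul_right _, (Dvd.intro_left _ rfl : p₂ ∣ p₁ * p₂).mul_right _⟩

theorem odd_of {D p₁ p₂ m : ℕ} (hD : 1 ≤ D) (h1 : p₁.Prime) (h2 : p₂.Prime) (hne : p₁ ≠ p₂)
    (h : Nat.Coprime m (badN D p₁ p₂)) : Odd m := by
  have key : ∀ p : ℕ, p.Prime → p ≠ 2 → p ^ 1 - 1 ∣ badN D p₁ p₂ → Odd m := by
    intro p hp hp2 hd
    have ho : Odd p := hp.odd_of_ne_two hp2
    obtain ⟨t, ht⟩ := ho
    have h3 : 2 ∣ badN D p₁ p₂ := by
      refine Dvd.dvd.trans ?_ hd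
      rw [pow_one, ht]
      exact ⟨t, by omega⟩
    have h4 : Nat.Coprime m 2 := Nat.Coprime.coprime_dvd_right h3 h
    exact Nat.coprime_two_right.mp h4
  rcases eq_or_ne p₁ 2 with h3 | h3
  · exact key p₂ h2 (fun h4 => hne (h3.trans h4.symm)) (dvd_badN le_rfl hD).2
  · exact key p₁ h1 h3 (dvd_badN le_rfl hD).1

end arith

section nf

variable {K : Type} [Field K]

/-- Normal form -/
theorem nfk {b k : ℕ} {φ : ℙ K (K × K) → ℙ K (K × K)} (h : PowMoeb b k φ) :
    ∃ (st : List (Matrix (Fin 2) (Fin 2) K × ℕ)) (B : Matrix (Fin 2) (Fin 2) K),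
      (∀ s ∈ st, s.1.det ≠ 0 ∧ 2 ≤ s.2 ∧ Nat.Coprime s.2 b) ∧ B.det ≠ 0 ∧ st.length = k ∧
      ∀ (x : K × K) (hx : x ≠ 0) (hy : lin B (run st x) ≠ 0),
        φ (Projectivization.mk K x hx) = Projectivization.mk K (lin B (run st x)) hy := by
  induction h with
  | mobius g =>
    refine ⟨[], matOf g, by simp, det_matOf g, by simp, ?_⟩
    intro x hx hy
    simp only [Projectivization.map_mk]
    congr 1
    exact (lin_matOf g x).symm
  | power m hm h =>
    refine ⟨[(1, m)], 1, ?_, by simp, by simp, ?_⟩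
    · intro s hs
      simp only [List.mem_singleton] at hs
      subst hs
      exact ⟨by simp, hm, h⟩
    · intro x hx hy
      have e2 : lin (1 : Matrix (Fin 2) (Fin 2) K) (run [((1 : Matrix (Fin 2) (Fin 2) K), m)] x) = pw m x := by
        have : ∀ y : K × K, lin (1 : Matrix (Fin 2) (Fin 2) K) y = y := by
          intro y; unfold lin; simp
        rw [this]
        change pw m (lin 1 x) = pw m x
        rw [this]
      rw [powP_mk (by omega) hx]
      simp only [e2]
  | comp f g j k hf hg ihf ihg =>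
    obtain ⟨sf, Bf, hsf, hBf, hpf, hf'⟩ := ihf
    obtain ⟨sg, Bg, hsg, hBg, hpg, hg'⟩ := ihg
    have hsg' : ∀ s ∈ sg, s.1.det ≠ 0 ∧ s.2 ≠ 0 := fun s hs =>
      ⟨(hsg s hs).1, by have := (hsg s hs).2.1; omega⟩
    match sf, hsf, hpf, hf' with
    | [], _, hpf, hf' =>
      refine ⟨sg, Bf * Bg, hsg, by rw [Matrix.det_mul]; exact mul_ne_zero hBf hBg, ?_, ?_⟩
      · simp only [List.length_nil] at hpf
        omega
      · intro x hx hy
        have h1 : lin Bg (run sg x) ≠ 0 := lin_ne_zero hBg (run_ne_zero sg hsg' hx)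
        have h2 : lin Bf (run [] (lin Bg (run sg x))) ≠ 0 := lin_ne_zero hBf h1
        simp only [Function.comp_apply]
        rw [hg' x hx h1, hf' _ h1 h2]
        congr 1
        rw [lin_mul]
        rfl
    | (A, l) :: t, hsf, hpf, hf' =>
      have hA := hsf (A, l) (by simp)
      refine ⟨sg ++ (A * Bg, l) :: t, Bf, ?_, hBf, ?_, ?_⟩
      · intro s hs
        rw [List.mem_append, List.mem_cons] at hs
        rcases hs with hs | hs | hs
        · exact hsg s hs
        · subst hs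
          exact ⟨by simp only [Matrix.det_mul]; exact mul_ne_zero hA.1 hBg, hA.2⟩
        · exact hsf s (by simp [hs])
      · rw [List.length_append, List.length_cons]
        rw [List.length_cons] at hpf
        omega
      · intro x hx hy
        have h1 : lin Bg (run sg x) ≠ 0 := lin_ne_zero hBg (run_ne_zero sg hsg' hx)
        have e : run (sg ++ (A * Bg, l) :: t) x = run ((A, l) :: t) (lin Bg (run sg x)) := by
          rw [run_append]
          change run t (pw l (lin (A * Bg) (run sg x))) = run t (pw l (lin A (lin Bg (run sg x))))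
          rw [lin_mul]
        have h2 : lin Bf (run ((A, l) :: t) (lin Bg (run sg x))) ≠ 0 := by
          rw [← e]; exact hy
        simp only [Function.comp_apply]
        rw [hg' x hx h1, hf' _ h1 h2]
        simp only [e]

theorem powMoeb_iter {b k : ℕ} {φ : ℙ K (K × K) → ℙ K (K × K)}
    (h : PowMoeb b k φ) (n : ℕ) : PowMoeb b (k * (n + 1)) φ^[n + 1] := by
  induction n with
  | zero => simpa using h
  | succ n ih =>
    have e : φ^[n + 1 + 1] = φ ∘ φ^[n + 1] := by
      funext x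
      exact Function.iterate_succ_apply' φ (n + 1) x
    rw [e, show k * (n + 1 + 1) = k + k * (n + 1) by ring]
    exact PowMoeb.comp _ _ _ _ h ih

end nf

section cyc

variable {K : Type} [Field K] [NumberField K]

/-- steps good at `p` -/
def OKp (M p : ℕ) (st : List (Matrix (Fin 2) (Fin 2) K × ℕ)) : Prop :=
  ∀ s ∈ st, s.1.det ≠ 0 ∧ 2 ≤ s.2 ∧ ¬ p ∣ s.2 ∧ ∀ f : ℕ, 1 ≤ f → f ≤ M → Nat.Coprime s.2 (p ^ f - 1)

theorem phi_injk (hplace : S_PLACE) (hepow : S_EPOW) {M p : ℕ} (hM : Module.finrank ℚ K ≤ M)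
    (hp : p.Prime) {φ : ℙ K (K × K) → ℙ K (K × K)} {st : List (Matrix (Fin 2) (Fin 2) K × ℕ)}
    {B : Matrix (Fin 2) (Fin 2) K} (hok : OKp M p st) (hB : B.det ≠ 0)
    (hφ : ∀ (x : K × K) (hx : x ≠ 0) (hy : lin B (run st x) ≠ 0),
        φ (Projectivization.mk K x hx) = Projectivization.mk K (lin B (run st x)) hy) :
    Function.Injective φ := by
  obtain ⟨v, f, e, hf1, hfM, he1, heM, hv⟩ := hplace K M p hp hM
  have hst : ∀ s ∈ st, s.1.det ≠ 0 ∧ 2 ≤ s.2 ∧ ¬ p ∣ s.2 ∧ Nat.Coprime s.2 (p ^ f - 1) :=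
    fun s hs => ⟨(hok s hs).1, (hok s hs).2.1, (hok s hs).2.2.1, (hok s hs).2.2.2 f hf1 hfM⟩
  intro P Q hPQ
  induction P using Projectivization.ind with
  | h x hx =>
  induction Q using Projectivization.ind with
  | h y hy =>
  have hne : ∀ s ∈ st, s.1.det ≠ 0 ∧ s.2 ≠ 0 := fun s hs => ⟨(hst s hs).1, by have := (hst s hs).2.1; omega⟩
  have h1 : lin B (run st x) ≠ 0 := lin_ne_zero hB (run_ne_zero st hne hx)
  have h2 : lin B (run st y) ≠ 0 := lin_ne_zero hB (run_ne_zero st hne hy)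
  rw [hφ x hx h1, hφ y hy h2, ← wd_eq_zero_iff h1 h2, wd_lin] at hPQ
  have h3 := (mul_eq_zero.mp hPQ).resolve_left hB
  rw [← wd_eq_zero_iff hx hy]
  by_contra h4
  exact run_inj (M := M) hepow v hv hp st hst x y h4 h3

/-- the bound for cycles at one prime -/
theorem cyc_boundk (hplace : S_PLACE) (hgeo : S_GEO) (hcomb : S_COMB) {M p : ℕ}
    (hM : Module.finrank ℚ K ≤ M)
    (hp : p.Prime) {φ : ℙ K (K × K) → ℙ K (K × K)} {st : List (Matrix (Fin 2) (Fin 2) K × ℕ)}
    {B : Matrix (Fin 2) (Fin 2) K} (hok : OKp M p st) (hB : B.det ≠ 0)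
    (hφ : ∀ (x : K × K) (hx : x ≠ 0) (hy : lin B (run st x) ≠ 0),
        φ (Projectivization.mk K x hx) = Projectivization.mk K (lin B (run st x)) hy)
    (P : ℙ K (K × K)) (n : ℕ) (hn : 4 ≤ n) (hmin : Function.minimalPeriod φ P = n) :
    ∀ r : ℕ, r.Prime → (r ∣ n → r ≤ p ^ M + 1) ∧
      (r ≠ p → ∀ a : ℕ, r ^ a ∣ n → a ≤ (2 * st.length + 2) * p ^ M) := by
  obtain ⟨v, f, e, hf1, hfM, he1, heM, hv⟩ := hplace K M p hp hM
  have hst : ∀ s ∈ st, s.1.det ≠ 0 ∧ 2 ≤ s.2 ∧ ¬ p ∣ s.2 ∧ Nat.Coprime s.2 (p ^ f - 1) :=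
    fun s hs => ⟨(hok s hs).1, (hok s hs).2.1, (hok s hs).2.2.1, (hok s hs).2.2.2 f hf1 hfM⟩
  have hne : ∀ s ∈ st, s.1.det ≠ 0 ∧ s.2 ≠ 0 := fun s hs => ⟨(hst s hs).1, by have := (hst s hs).2.1; omega⟩
  have hn0 : (0 : ℤ) < n := by exact_mod_cast (by omega : 0 < n)
  set V : ℤ → K × K := fun i => (φ^[(i % n).toNat] P).rep with hV
  have hVne : ∀ i, V i ≠ 0 := fun i => Projectivization.rep_nonzero _
  have hVmk : ∀ i, Projectivization.mk K (V i) (hVne i) = φ^[(i % n).toNat] P := fun i =>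
    Projectivization.mk_rep _
  have hfam : Fam n V := by
    constructor
    · intro i
      simp only [hV]
      rw [Int.add_emod_right]
    · intro i j
      rw [wd_eq_zero_iff (hVne i) (hVne j), hVmk, hVmk]
      have e1 : (i % n).toNat < n := by
        have := Int.emod_lt_of_pos i hn0
        have h0 := Int.emod_nonneg i hn0.ne'
        omega
      have e2 : (j % n).toNat < n := by
        have := Int.emod_lt_of_pos j hn0
        have h0 := Int.emod_nonneg j hn0.ne'
        omega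
      rw [Function.iterate_eq_iterate_iff_of_lt_minimalPeriod (by rw [hmin]; exact e1) (by rw [hmin]; exact e2)]
      have h0 := Int.emod_nonneg i hn0.ne'
      have h1 := Int.emod_nonneg j hn0.ne'
      constructor
      · intro h
        have : i % n = j % n := by omega
        exact Int.emod_emod_of_dvd i (dvd_refl (n : ℤ)) |> fun _ => (Int.modEq_iff_dvd.mp (show j ≡ i [ZMOD n] from this.symm))
      · intro h
        have : j ≡ i [ZMOD n] := Int.modEq_iff_dvd.mpr h
        have h2 : j % n = i % n := this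
        rw [h2]
  have hcyc : ∀ i, wd (lin B (run st (V i))) (V (i + 1)) = 0 := by
    intro i
    have h1 : lin B (run st (V i)) ≠ 0 := lin_ne_zero hB (run_ne_zero st hne (hVne i))
    rw [wd_eq_zero_iff h1 (hVne (i + 1)), ← hφ (V i) (hVne i) h1, hVmk, hVmk]
    rw [← Function.iterate_succ_apply' φ]
    have hper : Function.IsPeriodicPt φ n P := hmin ▸ Function.isPeriodicPt_minimalPeriod φ P
    have h0 := Int.emod_nonneg i hn0.ne'
    have hlt := Int.emod_lt_of_pos i hn0
    by_cases hc : i % n + 1 = n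
    · have e1 : (i % n).toNat + 1 = n := by omega
      have e2 : ((i + 1) % n).toNat = 0 := by
        have : (i + 1) % n = 0 := by
          rw [Int.add_emod]
          have : i % n = n - 1 := by omega
          rw [this]
          rcases Nat.lt_or_ge 1 n with h | h
          · have h1n : (1 : ℤ) % n = 1 := Int.emod_eq_of_lt (by norm_num) (by exact_mod_cast h)
            rw [h1n]
            simp
          · omega
        rw [this]; rfl
      rw [Nat.succ_eq_add_one, e1, e2]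
      exact hper
    · have e2 : ((i + 1) % n).toNat = (i % n).toNat + 1 := by
        have : (i + 1) % n = i % n + 1 := by
          rw [Int.add_emod]
          have h1n : (1 : ℤ) % n = 1 := Int.emod_eq_of_lt (by norm_num) (by omega)
          rw [h1n]
          exact Int.emod_eq_of_lt (by omega) (by omega)
        rw [this]; omega
      rw [e2]
  obtain ⟨c, rel, dd, hfull⟩ := hgeo K v p (p ^ f) e hv hp st B hst hB n V hn hfam hcyc
  have hmain := hcomb K v p (p ^ f) e n st.length V c rel dd hv hp hn hfull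
  have hqle : p ^ f ≤ p ^ M := Nat.pow_le_pow_right hp.pos hfM
  intro r hr
  refine ⟨fun h => ((hmain r hr).1 h).trans (by omega), fun h a ha => ((hmain r hr).2 h a ha).trans ?_⟩
  exact Nat.mul_le_mul_left _ hqle

end cyc

section real

variable {K : Type} [Field K]

/-- the image of a list of steps under a ring homomorphism -/
def mapSt {K L : Type} [Field K] [Field L] (σ : K →+* L) (st : List (Matrix (Fin 2) (Fin 2) K × ℕ)) :
    List (Matrix (Fin 2) (Fin 2) L × ℕ) := st.map fun s => (s.1.map σ, s.2)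

theorem lin_map {K L : Type} [Field K] [Field L] (σ : K →+* L) (A : Matrix (Fin 2) (Fin 2) K) (x : K × K) :
    lin (A.map σ) (σ x.1, σ x.2) = (σ (lin A x).1, σ (lin A x).2) := by
  unfold lin
  simp [Matrix.map_apply]

theorem run_mapSt {K L : Type} [Field K] [Field L] (σ : K →+* L)
    (st : List (Matrix (Fin 2) (Fin 2) K × ℕ)) :
    ∀ x : K × K, run (mapSt σ st) (σ x.1, σ x.2) = (σ (run st x).1, σ (run st x).2) := by
  induction st with
  | nil => intro x; rfl
  | cons s t ih =>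
    intro x
    have e : run (mapSt σ (s :: t)) (σ x.1, σ x.2) =
        run (mapSt σ t) (pw s.2 (lin (s.1.map σ) (σ x.1, σ x.2))) := rfl
    rw [e, lin_map]
    have e2 : pw s.2 (σ (lin s.1 x).1, σ (lin s.1 x).2) =
        (σ (pw s.2 (lin s.1 x)).1, σ (pw s.2 (lin s.1 x)).2) := by
      unfold pw
      simp
    rw [e2, ih]
    rfl

theorem fix_real (hreal : S_REAL) (σ : K →+* ℝ) {b k : ℕ} {φ : ℙ K (K × K) → ℙ K (K × K)}
    (hk : 1 ≤ k) (h : PowMoeb b k φ) (hodd : ∀ m : ℕ, Nat.Coprime m b → Odd m) :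
    {P : ℙ K (K × K) | φ P = P}.Finite ∧ {P : ℙ K (K × K) | φ P = P}.ncard ≤ 8 * k + 4 := by
  obtain ⟨st, B, hok, hB, hlen, hφ⟩ := nfk h
  have hne : ∀ s ∈ st, s.1.det ≠ 0 ∧ s.2 ≠ 0 := fun s hs =>
    ⟨(hok s hs).1, by have := (hok s hs).2.1; omega⟩
  set F : Set K := {x : K | wd (lin B (run st (x, 1))) (x, 1) = 0} with hF
  have hFc : F.Finite ∧ F.ncard ≤ 8 * k + 3 := by
    apply finite_of_card_le
    intro S hS
    have hmap : ∀ s ∈ mapSt σ st, s.1.det ≠ 0 ∧ 2 ≤ s.2 ∧ Odd s.2 := by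
      intro s hs
      unfold mapSt at hs
      rw [List.mem_map] at hs
      obtain ⟨s', hs', rfl⟩ := hs
      refine ⟨?_, (hok s' hs').2.1, hodd _ (hok s' hs').2.2⟩
      have hd : (s'.1.map σ).det = σ s'.1.det := by
        have := (RingHom.map_det σ s'.1).symm
        simpa using this
      change (s'.1.map σ).det ≠ 0
      rw [hd]
      exact fun h0 => (hok s' hs').1 ((map_eq_zero σ).mp h0)
    have hBm : (B.map σ).det ≠ 0 := by
      have hd : (B.map σ).det = σ B.det := by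
        have := (RingHom.map_det σ B).symm
        simpa using this
      rw [hd]
      exact fun h0 => hB ((map_eq_zero σ).mp h0)
    have hnil : mapSt σ st ≠ [] := by
      intro h0
      have : (mapSt σ st).length = 0 := by rw [h0]; rfl
      unfold mapSt at this
      rw [List.length_map] at this
      omega
    have hlen' : (mapSt σ st).length = k := by
      unfold mapSt
      rw [List.length_map, hlen]
    have h1 := hreal (mapSt σ st) (B.map σ) hmap hBm hnil (S.map ⟨σ, σ.injective⟩) (by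
      intro y hy
      rw [Finset.mem_map] at hy
      obtain ⟨x, hx, rfl⟩ := hy
      have hx' : wd (lin B (run st (x, 1))) (x, 1) = 0 := hS hx
      have e1 : run (mapSt σ st) ((σ x : ℝ), (1 : ℝ)) = (σ (run st (x, 1)).1, σ (run st (x, 1)).2) := by
        have := run_mapSt σ st (x, 1)
        simpa using this
      change wd (lin (B.map σ) (run (mapSt σ st) (σ x, 1))) (σ x, 1) = 0
      rw [e1, lin_map]
      have e2 : σ (wd (lin B (run st (x, 1))) (x, 1)) = 0 := by rw [hx', map_zero]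
      unfold wd at e2 ⊢
      simpa using e2)
    rw [Finset.card_map, hlen'] at h1
    exact h1
  have h10 : ((1 : K), (0 : K)) ≠ 0 := by simp
  have hx1 : ∀ x : K, ((x : K), (1 : K)) ≠ 0 := fun x => by simp
  have hsub : {P : ℙ K (K × K) | φ P = P} ⊆
      insert (Projectivization.mk K ((1 : K), (0 : K)) h10)
        ((fun x : K => Projectivization.mk K (x, (1 : K)) (hx1 x)) '' F) := by
    intro P hP
    induction P using Projectivization.ind with
    | h y hy =>
    rw [Set.mem_insert_iff]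
    by_cases h2 : y.2 = 0
    · left
      rw [← wd_eq_zero_iff hy h10]
      unfold wd
      simp [h2]
    · right
      have hyx : Projectivization.mk K y hy = Projectivization.mk K (y.1 / y.2, (1 : K)) (hx1 _) := by
        rw [← wd_eq_zero_iff hy (hx1 _)]
        unfold wd
        field_simp
        ring
      refine ⟨y.1 / y.2, ?_, hyx.symm⟩
      have h3 : lin B (run st (y.1 / y.2, 1)) ≠ 0 := lin_ne_zero hB (run_ne_zero st hne (hx1 _))
      have hP' : φ (Projectivization.mk K y hy) = Projectivization.mk K y hy := hP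
      rw [hyx, hφ _ (hx1 _) h3, ← wd_eq_zero_iff h3 (hx1 _)] at hP'
      exact hP'
  have hfin : (insert (Projectivization.mk K ((1 : K), (0 : K)) h10)
        ((fun x : K => Projectivization.mk K (x, (1 : K)) (hx1 x)) '' F)).Finite :=
    (hFc.1.image _).insert _
  refine ⟨hfin.subset hsub, ?_⟩
  calc _ ≤ _ := Set.ncard_le_ncard hsub hfin
    _ ≤ ((fun x : K => Projectivization.mk K (x, (1 : K)) (hx1 x)) '' F).ncard + 1 := Set.ncard_insert_le _ _
    _ ≤ F.ncard + 1 := by
        have := Set.ncard_image_le (f := fun x : K => Projectivization.mk K (x, (1 : K)) (hx1 x)) hFc.1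
        omega
    _ ≤ 8 * k + 4 := by have := hFc.2; omega

end real

theorem main_di (hplace : S_PLACE) (hepow : S_EPOW) (hgeo : S_GEO) (hcomb : S_COMB)
    (hreal : S_REAL) (D k p₁ p₂ : ℕ) (hk : 1 ≤ k) (h1 : p₁.Prime) (h2 : p₂.Prime) (hne : p₁ ≠ p₂) :
    ∃ N C : ℕ, 1 ≤ N ∧ ∀ (K : Type) [Field K] [NumberField K], Module.finrank ℚ K ≤ D →
      ∀ φ : ℙ K (K × K) → ℙ K (K × K), PowMoeb (badN D p₁ p₂) k φ →
        (∀ P : ℙ K (K × K), (∃ m n : ℕ, m < n ∧ φ^[m] P = φ^[n] P) → φ^[N] P = P) ∧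
        (Nonempty (K →+* ℝ) →
          {P : ℙ K (K × K) | ∃ m n : ℕ, m < n ∧ φ^[m] P = φ^[n] P}.Finite ∧
          {P : ℙ K (K × K) | ∃ m n : ℕ, m < n ∧ φ^[m] P = φ^[n] P}.ncard ≤ C) := by
  have hNpos : 1 ≤ NP p₁ p₂ D k := by
    unfold NP
    have := pow_pos (Nat.factorial_pos (max (p₁ ^ D) (p₂ ^ D) + 1)) ((2 * k + 2) * max (p₁ ^ D) (p₂ ^ D))
    omega
  refine ⟨NP p₁ p₂ D k, 8 * (k * NP p₁ p₂ D k) + 4, hNpos, ?_⟩
  intro K _ _ hD φ hφ
  have hD1 : 1 ≤ D := le_trans Module.finrank_pos hD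
  obtain ⟨st, B, hok, hB, hlen, hnf⟩ := nfk hφ
  have hok1 : OKp D p₁ st := fun s hs => ⟨(hok s hs).1, (hok s hs).2.1,
    (Nat.Prime.coprime_iff_not_dvd h1).mp
      (Nat.Coprime.coprime_dvd_right p_dvd_badN.1 (hok s hs).2.2).symm,
    fun f hf1 hf2 => Nat.Coprime.coprime_dvd_right (dvd_badN hf1 hf2).1 (hok s hs).2.2⟩
  have hok2 : OKp D p₂ st := fun s hs => ⟨(hok s hs).1, (hok s hs).2.1,
    (Nat.Prime.coprime_iff_not_dvd h2).mp
      (Nat.Coprime.coprime_dvd_right p_dvd_badN.2 (hok s hs).2.2).symm,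
    fun f hf1 hf2 => Nat.Coprime.coprime_dvd_right (dvd_badN hf1 hf2).2 (hok s hs).2.2⟩
  have hinj : Function.Injective φ := phi_injk hplace hepow hD h1 hok1 hB hnf
  set N := NP p₁ p₂ D k with hN
  have hsub : ∀ P : ℙ K (K × K), (∃ m n : ℕ, m < n ∧ φ^[m] P = φ^[n] P) → φ^[N] P = P := by
    rintro P ⟨m, n, hmn, hP⟩
    obtain ⟨t, rfl⟩ := Nat.exists_eq_add_of_lt hmn
    have hper : φ^[t + 1] P = P := by
      have : φ^[m] (φ^[t + 1] P) = φ^[m] P := by
        rw [← Function.iterate_add_apply]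
        exact hP.symm
      exact hinj.iterate m this
    have hp : Function.IsPeriodicPt φ (t + 1) P := hper
    have hmp : 1 ≤ Function.minimalPeriod φ P := hp.minimalPeriod_pos (by omega)
    have hdvd : Function.minimalPeriod φ P ∣ N := by
      apply dvd_NP hne hmp
      · intro h4
        have := cyc_boundk hplace hgeo hcomb hD h1 hok1 hB hnf P _ h4 rfl
        rw [hlen] at this
        exact this
      · intro h4
        have := cyc_boundk hplace hgeo hcomb hD h2 hok2 hB hnf P _ h4 rfl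
        rw [hlen] at this
        exact this
    exact (Function.isPeriodicPt_iff_minimalPeriod_dvd).mpr hdvd
  refine ⟨hsub, ?_⟩
  rintro ⟨σ⟩
  obtain ⟨N', hN'⟩ : ∃ N', N = N' + 1 := ⟨N - 1, by omega⟩
  have hit : PowMoeb (badN D p₁ p₂) (k * N) φ^[N] := by
    rw [hN']
    exact powMoeb_iter hφ N'
  have hc := fix_real hreal σ (Nat.mul_pos hk hNpos) hit (fun m hm => odd_of hD1 h1 h2 hne hm)
  have hss : {P : ℙ K (K × K) | ∃ m n : ℕ, m < n ∧ φ^[m] P = φ^[n] P} ⊆ {P | φ^[N] P = P} :=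
    fun P hP => hsub P hP
  exact ⟨hc.1.subset hss, (Set.ncard_le_ncard hss hc.1).trans hc.2⟩

end Pool.Agent.N236.UR
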