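import Pool.Agent.N236.UR.Stm3

/-!
# Project UR (helper236), part 3: exponents divisible by the residue characteristic, statements
-/

set_option autoImplicit false

open Polynomial

namespace Pool.Agent.N236.UR

open Pool.Agent.N236.UB

/-- The exponent `l` is good for `v`: `x ↦ x ^ l` has trivial kernel on the units modulo the maximal
ideal, and it is linear to first order on the one-units. -/
def GoodL {L : Type} [Field L] (v : AbsoluteValue L ℝ) (l : ℕ) : Prop :=
  2 ≤ l ∧ (l : L) ≠ 0 ∧ (∀ x : L, v x = 1 → v (x - 1) = 1 → v (x ^ l - 1) = 1) ∧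
  (∀ x : L, v (x - 1) < 1 → x ≠ 1 → v (x ^ l - 1 - (l : L) * (x - 1)) < v ((l : L) * (x - 1)))

/-- Exponents prime to `q - 1` are good, also those divisible by `p` if `e + 1 < p`. -/
def S_GL1 : Prop := ∀ (L : Type) [Field L] (v : AbsoluteValue L ℝ) (p q e l : ℕ), Loc v p q e →
  p.Prime → 2 ≤ l → Nat.Coprime l (q - 1) → (¬ p ∣ l ∨ e + 1 < p) → GoodL v l

/-- divided difference of the power -/
def FF {L : Type} [Field L] (l : ℕ) (A B : L) : L := ∑ t ∈ Finset.range l, A ^ t * B ^ (l - 1 - t)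

/-- The divided difference is unchanged to first order if an argument is multiplied by a one-unit. -/
def S_SC : Prop := ∀ (L : Type) [Field L] (v : AbsoluteValue L ℝ) (l : ℕ),
  (∀ x y : L, v (x + y) ≤ max (v x) (v y)) → GoodL v l →
  ∀ A B δ : L, v δ < 1 → A ≠ B → A * (1 + δ) ≠ B →
    v (FF l (A * (1 + δ)) B - FF l A B) < v (FF l A B)

/-- the loss at a pair of vectors on the same branch -/
noncomputable def lam {L : Type} [Field L] (v : AbsoluteValue L ℝ) (l : ℕ) (x y : L × L) : ℝ :=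
  open Classical in if v (wd x y) < mm v x y then v (l : L) else 1

/-- power maps on vectors: exact formula and four point inequalities. -/
def S_EP2 : Prop := ∀ (L : Type) [Field L] (v : AbsoluteValue L ℝ) (l : ℕ),
  (∀ x y : L, v (x + y) ≤ max (v x) (v y)) → GoodL v l →
  (∀ x y : L × L, v (wd (pw l x) (pw l y)) = v (wd x y) * (mm v x y ^ (l - 1) * lam v l x y)) ∧
  (∀ a b c d : L × L, wd a b ≠ 0 → wd a c ≠ 0 → wd a d ≠ 0 → wd b c ≠ 0 → wd b d ≠ 0 → wd c d ≠ 0 →
    v (wd a b) * v (wd c d) ≤ v (wd a c) * v (wd b d) →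
      mm v a b * mm v c d ≤ mm v a c * mm v b d ∧
      lam v l a b * lam v l c d ≤ lam v l a c * lam v l b d)

/-- A good stage: it is injective, it decreases the absolute values of cross-ratios which are at most
one, and if it does not change the absolute values of the cross-ratios of a family, then there are
stage data such that separated cross-ratios are unchanged modulo the maximal ideal. -/
def GS {L : Type} [Field L] (v : AbsoluteValue L ℝ) (T : L × L → L × L) : Prop :=
  (∀ x y : L × L, wd (T x) (T y) = 0 ↔ wd x y = 0) ∧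
  (∀ a b c d : L × L, wd a b ≠ 0 → wd a c ≠ 0 → wd a d ≠ 0 → wd b c ≠ 0 → wd b d ≠ 0 → wd c d ≠ 0 →
    v (wd a b) * v (wd c d) ≤ v (wd a c) * v (wd b d) →
    v (wd (T a) (T b)) * v (wd (T c) (T d)) * (v (wd a c) * v (wd b d)) ≤
      v (wd (T a) (T c)) * v (wd (T b) (T d)) * (v (wd a b) * v (wd c d))) ∧
  (∀ (n : ℕ) (V : ℤ → L × L), 4 ≤ n → Fam n V →
    (∀ a b c d : ℤ, Dis4 n a b c d →
      v (wd (T (V a)) (T (V b))) * v (wd (T (V c)) (T (V d))) *
          (v (wd (V a) (V c)) * v (wd (V b) (V d))) =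
        v (wd (T (V a)) (T (V c))) * v (wd (T (V b)) (T (V d))) *
          (v (wd (V a) (V b)) * v (wd (V c) (V d)))) →
    ∃ (rel : ℤ → ℤ → Prop) (d : ℤ → ℝ), Stg v n V (fun _ => 1) rel d ∧
      ∀ i u j j' : ℤ, Dis4 n i u j j' → (rel i u ∨ rel j j') →
        v (wd (T (V i)) (T (V j)) * wd (T (V u)) (T (V j')) * (wd (V i) (V j') * wd (V u) (V j)) -
           wd (T (V i)) (T (V j')) * wd (T (V u)) (T (V j)) * (wd (V i) (V j) * wd (V u) (V j'))) <
        v (wd (T (V i)) (T (V j')) * wd (T (V u)) (T (V j)) *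
          (wd (V i) (V j) * wd (V u) (V j'))))

/-- power maps with good exponents are good stages -/
def S_GSP : Prop := ∀ (L : Type) [Field L] (v : AbsoluteValue L ℝ) (l : ℕ),
  (∀ x y : L, v (x + y) ≤ max (v x) (v y)) → GoodL v l → GS v (pw l)

/-- A cycle of length `n >= 4` of a composition of good steps gives a full configuration. -/
def S_GEO2 : Prop := ∀ (L : Type) [Field L] (v : AbsoluteValue L ℝ) (p q e : ℕ), Loc v p q e →
  ∀ (st : List (Matrix (Fin 2) (Fin 2) L × ℕ)) (B : Matrix (Fin 2) (Fin 2) L),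
    (∀ s ∈ st, s.1.det ≠ 0 ∧ GS v (pw s.2)) → B.det ≠ 0 →
    ∀ (n : ℕ) (V : ℤ → L × L), 4 ≤ n → Fam n V →
      (∀ i, wd (lin B (run st (V i))) (V (i + 1)) = 0) →
      ∃ (c : ℤ → ℝ) (rel : Fin st.length → ℤ → ℤ → Prop) (d : Fin st.length → ℤ → ℝ),
        Full v n st.length V c rel d

end Pool.Agent.N236.UR
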