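import Pool.Agent.N236.UR.DI
import Pool.Agent.N236.UR.Stm4

/-!
# Project UR (helper236), part 3: exponents divisible by the residue characteristic, assembly
-/

set_option autoImplicit false

open Polynomial

namespace Pool.Agent.N236.UR

open Pool.Agent.N236.UB
open scoped LinearAlgebra.Projectivization

/-- The product of all `p₁ ^ f - 1` and `p₂ ^ f - 1` with `1 ≤ f ≤ D` and of those of `p₁`, `p₂` which
are at most `D + 1`. -/
def badM (D p₁ p₂ : ℕ) : ℕ :=
  (if p₁ ≤ D + 1 then p₁ else 1) * (if p₂ ≤ D + 1 then p₂ else 1) *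
    ∏ f ∈ Finset.Icc 1 D, ((p₁ ^ f - 1) * (p₂ ^ f - 1))

section arith

theorem dvd_badM {D p₁ p₂ f : ℕ} (h1 : 1 ≤ f) (h2 : f ≤ D) :
    p₁ ^ f - 1 ∣ badM D p₁ p₂ ∧ p₂ ^ f - 1 ∣ badM D p₁ p₂ := by
  have h : (p₁ ^ f - 1) * (p₂ ^ f - 1) ∣ ∏ f ∈ Finset.Icc 1 D, ((p₁ ^ f - 1) * (p₂ ^ f - 1)) :=
    Finset.dvd_prod_of_mem _ (Finset.mem_Icc.mpr ⟨h1, h2⟩)
  unfold badM
  exact ⟨((Dvd.intro _ rfl).trans h).mul_left _, ((Dvd.intro_left _ rfl).trans h).mul_left _⟩

theorem p_dvd_badM {D p₁ p₂ : ℕ} : (p₁ ≤ D + 1 → p₁ ∣ badM D p₁ p₂) ∧ (p₂ ≤ D + 1 → p₂ ∣ badM D p₁ p₂) := by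
  unfold badM
  constructor
  · intro h
    rw [if_pos h]
    exact (Dvd.intro _ rfl : p₁ ∣ p₁ * _).mul_right _
  · intro h
    rw [if_pos h]
    exact (Dvd.intro_left _ rfl : p₂ ∣ _ * p₂).mul_right _

theorem odd_of3 {D p₁ p₂ m : ℕ} (hD : 1 ≤ D) (h1 : p₁.Prime) (h2 : p₂.Prime) (hne : p₁ ≠ p₂)
    (h : Nat.Coprime m (badM D p₁ p₂)) : Odd m := by
  have key : ∀ p : ℕ, p.Prime → p ≠ 2 → p ^ 1 - 1 ∣ badM D p₁ p₂ → Odd m := by
    intro p hp hp2 hd
    have ho : Odd p := hp.odd_of_ne_two hp2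
    obtain ⟨t, ht⟩ := ho
    have h3 : 2 ∣ badM D p₁ p₂ := by
      refine Dvd.dvd.trans ?_ hd
      rw [pow_one, ht]
      exact ⟨t, by omega⟩
    have h4 : Nat.Coprime m 2 := Nat.Coprime.coprime_dvd_right h3 h
    exact Nat.coprime_two_right.mp h4
  rcases eq_or_ne p₁ 2 with h3 | h3
  · exact key p₂ h2 (fun h4 => hne (h3.trans h4.symm)) (dvd_badM le_rfl hD).2
  · exact key p₁ h1 h3 (dvd_badM le_rfl hD).1

theorem badM_one_two_three : badM 1 2 3 = 4 := by decide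

end arith

section cyc

variable {K : Type} [Field K]

/-- steps good at `p` -/
def OKq (M p : ℕ) (st : List (Matrix (Fin 2) (Fin 2) K × ℕ)) : Prop :=
  ∀ s ∈ st, s.1.det ≠ 0 ∧ 2 ≤ s.2 ∧ (p ≤ M + 1 → ¬ p ∣ s.2) ∧
    ∀ f : ℕ, 1 ≤ f → f ≤ M → Nat.Coprime s.2 (p ^ f - 1)

theorem gs_of (hgl : S_GL1) (hgsp : S_GSP) {M p f e : ℕ} {v : AbsoluteValue K ℝ}
    {st : List (Matrix (Fin 2) (Fin 2) K × ℕ)} (hok : OKq M p st) (hp : p.Prime) (hf1 : 1 ≤ f)
    (hfM : f ≤ M) (heM : e ≤ M) (hv : Loc v p (p ^ f) e) :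
    ∀ s ∈ st, s.1.det ≠ 0 ∧ GS v (pw s.2) := by
  intro s hs
  obtain ⟨h1, h2, h3, h4⟩ := hok s hs
  refine ⟨h1, hgsp K v s.2 hv.1 (hgl K v p (p ^ f) e s.2 hv hp h2 (h4 f hf1 hfM) ?_)⟩
  rcases le_or_gt p (M + 1) with h | h
  · exact Or.inl (h3 h)
  · exact Or.inr (by omega)

/-- Injectivity of the composition of good steps modulo scalars. -/
theorem run_inj3 (v : AbsoluteValue K ℝ) (st : List (Matrix (Fin 2) (Fin 2) K × ℕ))
    (h : ∀ s ∈ st, s.1.det ≠ 0 ∧ GS v (pw s.2)) :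
    ∀ x y : K × K, wd x y ≠ 0 → wd (run st x) (run st y) ≠ 0 := by
  induction st with
  | nil => intro x y h; exact h
  | cons s t ih =>
    intro x y hxy
    have hs := h s (by simp)
    apply ih (fun s' hs' => h s' (by simp [hs']))
    intro h0
    rw [hs.2.1, wd_lin] at h0
    exact mul_ne_zero hs.1 hxy h0

variable [NumberField K]

theorem phi_inj3 (hplace : S_PLACE) (hgl : S_GL1) (hgsp : S_GSP) {M p : ℕ} (hM : Module.finrank ℚ K ≤ M)
    (hp : p.Prime) {φ : ℙ K (K × K) → ℙ K (K × K)} {st : List (Matrix (Fin 2) (Fin 2) K × ℕ)}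
    {B : Matrix (Fin 2) (Fin 2) K} (hok : OKq M p st) (hB : B.det ≠ 0)
    (hφ : ∀ (x : K × K) (hx : x ≠ 0) (hy : lin B (run st x) ≠ 0),
        φ (Projectivization.mk K x hx) = Projectivization.mk K (lin B (run st x)) hy) :
    Function.Injective φ := by
  obtain ⟨v, f, e, hf1, hfM, he1, heM, hv⟩ := hplace K M p hp hM
  have hst := gs_of hgl hgsp hok hp hf1 hfM heM hv
  intro P Q hPQ
  induction P using Projectivization.ind with
  | h x hx =>
  induction Q using Projectivization.ind with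
  | h y hy =>
  have hne : ∀ s ∈ st, s.1.det ≠ 0 ∧ s.2 ≠ 0 := fun s hs => ⟨(hok s hs).1, by have := (hok s hs).2.1; omega⟩
  have h1 : lin B (run st x) ≠ 0 := lin_ne_zero hB (run_ne_zero st hne hx)
  have h2 : lin B (run st y) ≠ 0 := lin_ne_zero hB (run_ne_zero st hne hy)
  rw [hφ x hx h1, hφ y hy h2, ← wd_eq_zero_iff h1 h2, wd_lin] at hPQ
  have h3 := (mul_eq_zero.mp hPQ).resolve_left hB
  rw [← wd_eq_zero_iff hx hy]
  by_contra h4
  exact run_inj3 v st hst x y h4 h3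

/-- the bound for cycles at one prime -/
theorem cyc_bound3 (hplace : S_PLACE) (hgl : S_GL1) (hgsp : S_GSP) (hgeo : S_GEO2) (hcomb : S_COMB) {M p : ℕ}
    (hM : Module.finrank ℚ K ≤ M)
    (hp : p.Prime) {φ : ℙ K (K × K) → ℙ K (K × K)} {st : List (Matrix (Fin 2) (Fin 2) K × ℕ)}
    {B : Matrix (Fin 2) (Fin 2) K} (hok : OKq M p st) (hB : B.det ≠ 0)
    (hφ : ∀ (x : K × K) (hx : x ≠ 0) (hy : lin B (run st x) ≠ 0),
        φ (Projectivization.mk K x hx) = Projectivization.mk K (lin B (run st x)) hy)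
    (P : ℙ K (K × K)) (n : ℕ) (hn : 4 ≤ n) (hmin : Function.minimalPeriod φ P = n) :
    ∀ r : ℕ, r.Prime → (r ∣ n → r ≤ p ^ M + 1) ∧
      (r ≠ p → ∀ a : ℕ, r ^ a ∣ n → a ≤ (2 * st.length + 2) * p ^ M) := by
  obtain ⟨v, f, e, hf1, hfM, he1, heM, hv⟩ := hplace K M p hp hM
  have hst := gs_of hgl hgsp hok hp hf1 hfM heM hv
  have hne : ∀ s ∈ st, s.1.det ≠ 0 ∧ s.2 ≠ 0 := fun s hs => ⟨(hok s hs).1, by have := (hok s hs).2.1; omega⟩
  have hn0 : (0 : ℤ) < n := by exact_mod_cast (by omega : 0 < n)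
  set V : ℤ → K × K := fun i => (φ^[(i % n).toNat] P).rep with hV
  have hVne : ∀ i, V i ≠ 0 := fun i => Projectivization.rep_nonzero _
  have hVmk : ∀ i, Projectivization.mk K (V i) (hVne i) = φ^[(i % n).toNat] P := fun i =>
    Projectivization.mk_rep _
  have hfam : Fam n V := by
    constructor
    · intro i
      simp only [hV]
      rw [Int.add_emod_right]
    · intro i j
      rw [wd_eq_zero_iff (hVne i) (hVne j), hVmk, hVmk]
      have e1 : (i % n).toNat < n := by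
        have := Int.emod_lt_of_pos i hn0
        have h0 := Int.emod_nonneg i hn0.ne'
        omega
      have e2 : (j % n).toNat < n := by
        have := Int.emod_lt_of_pos j hn0
        have h0 := Int.emod_nonneg j hn0.ne'
        omega
      rw [Function.iterate_eq_iterate_iff_of_lt_minimalPeriod (by rw [hmin]; exact e1) (by rw [hmin]; exact e2)]
      have h0 := Int.emod_nonneg i hn0.ne'
      have h1 := Int.emod_nonneg j hn0.ne'
      constructor
      · intro h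
        have : i % n = j % n := by omega
        exact Int.emod_emod_of_dvd i (dvd_refl (n : ℤ)) |> fun _ => (Int.modEq_iff_dvd.mp (show j ≡ i [ZMOD n] from this.symm))
      · intro h
        have : j ≡ i [ZMOD n] := Int.modEq_iff_dvd.mpr h
        have h2 : j % n = i % n := this
        rw [h2]
  have hcyc : ∀ i, wd (lin B (run st (V i))) (V (i + 1)) = 0 := by
    intro i
    have h1 : lin B (run st (V i)) ≠ 0 := lin_ne_zero hB (run_ne_zero st hne (hVne i))
    rw [wd_eq_zero_iff h1 (hVne (i + 1)), ← hφ (V i) (hVne i) h1, hVmk, hVmk]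
    rw [← Function.iterate_succ_apply' φ]
    have hper : Function.IsPeriodicPt φ n P := hmin ▸ Function.isPeriodicPt_minimalPeriod φ P
    have h0 := Int.emod_nonneg i hn0.ne'
    have hlt := Int.emod_lt_of_pos i hn0
    by_cases hc : i % n + 1 = n
    · have e1 : (i % n).toNat + 1 = n := by omega
      have e2 : ((i + 1) % n).toNat = 0 := by
        have : (i + 1) % n = 0 := by
          rw [Int.add_emod]
          have : i % n = n - 1 := by omega
          rw [this]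
          rcases Nat.lt_or_ge 1 n with h | h
          · have h1n : (1 : ℤ) % n = 1 := Int.emod_eq_of_lt (by norm_num) (by exact_mod_cast h)
            rw [h1n]
            simp
          · omega
        rw [this]; rfl
      rw [Nat.succ_eq_add_one, e1, e2]
      exact hper
    · have e2 : ((i + 1) % n).toNat = (i % n).toNat + 1 := by
        have : (i + 1) % n = i % n + 1 := by
          rw [Int.add_emod]
          have h1n : (1 : ℤ) % n = 1 := Int.emod_eq_of_lt (by norm_num) (by omega)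
          rw [h1n]
          exact Int.emod_eq_of_lt (by omega) (by omega)
        rw [this]; omega
      rw [e2]
  obtain ⟨c, rel, dd, hfull⟩ := hgeo K v p (p ^ f) e hv st B hst hB n V hn hfam hcyc
  have hmain := hcomb K v p (p ^ f) e n st.length V c rel dd hv hp hn hfull
  have hqle : p ^ f ≤ p ^ M := Nat.pow_le_pow_right hp.pos hfM
  intro r hr
  refine ⟨fun h => ((hmain r hr).1 h).trans (by omega), fun h a ha => ((hmain r hr).2 h a ha).trans ?_⟩
  exact Nat.mul_le_mul_left _ hqle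

end cyc

theorem main_di3 (hplace : S_PLACE) (hgl : S_GL1) (hgsp : S_GSP) (hgeo : S_GEO2) (hcomb : S_COMB)
    (hreal : S_REAL) (D k p₁ p₂ : ℕ) (hk : 1 ≤ k) (h1 : p₁.Prime) (h2 : p₂.Prime) (hne : p₁ ≠ p₂) :
    ∃ N C : ℕ, 1 ≤ N ∧ ∀ (K : Type) [Field K] [NumberField K], Module.finrank ℚ K ≤ D →
      ∀ φ : ℙ K (K × K) → ℙ K (K × K), PowMoeb (badM D p₁ p₂) k φ →
        (∀ P : ℙ K (K × K), (∃ m n : ℕ, m < n ∧ φ^[m] P = φ^[n] P) → φ^[N] P = P) ∧
        (Nonempty (K →+* ℝ) →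
          {P : ℙ K (K × K) | ∃ m n : ℕ, m < n ∧ φ^[m] P = φ^[n] P}.Finite ∧
          {P : ℙ K (K × K) | ∃ m n : ℕ, m < n ∧ φ^[m] P = φ^[n] P}.ncard ≤ C) := by
  have hNpos : 1 ≤ NP p₁ p₂ D k := by
    unfold NP
    have := pow_pos (Nat.factorial_pos (max (p₁ ^ D) (p₂ ^ D) + 1)) ((2 * k + 2) * max (p₁ ^ D) (p₂ ^ D))
    omega
  refine ⟨NP p₁ p₂ D k, 8 * (k * NP p₁ p₂ D k) + 4, hNpos, ?_⟩
  intro K _ _ hD φ hφ
  have hD1 : 1 ≤ D := le_trans Module.finrank_pos hD
  obtain ⟨st, B, hok, hB, hlen, hnf⟩ := nfk hφ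
  have hok1 : OKq D p₁ st := fun s hs => ⟨(hok s hs).1, (hok s hs).2.1,
    fun hle => (Nat.Prime.coprime_iff_not_dvd h1).mp
      (Nat.Coprime.coprime_dvd_right (p_dvd_badM.1 hle) (hok s hs).2.2).symm,
    fun f hf1 hf2 => Nat.Coprime.coprime_dvd_right (dvd_badM hf1 hf2).1 (hok s hs).2.2⟩
  have hok2 : OKq D p₂ st := fun s hs => ⟨(hok s hs).1, (hok s hs).2.1,
    fun hle => (Nat.Prime.coprime_iff_not_dvd h2).mp
      (Nat.Coprime.coprime_dvd_right (p_dvd_badM.2 hle) (hok s hs).2.2).symm,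
    fun f hf1 hf2 => Nat.Coprime.coprime_dvd_right (dvd_badM hf1 hf2).2 (hok s hs).2.2⟩
  have hinj : Function.Injective φ := phi_inj3 hplace hgl hgsp hD h1 hok1 hB hnf
  set N := NP p₁ p₂ D k with hN
  have hsub : ∀ P : ℙ K (K × K), (∃ m n : ℕ, m < n ∧ φ^[m] P = φ^[n] P) → φ^[N] P = P := by
    rintro P ⟨m, n, hmn, hP⟩
    obtain ⟨t, rfl⟩ := Nat.exists_eq_add_of_lt hmn
    have hper : φ^[t + 1] P = P := by
      have : φ^[m] (φ^[t + 1] P) = φ^[m] P := by
        rw [← Function.iterate_add_apply]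
        exact hP.symm
      exact hinj.iterate m this
    have hp : Function.IsPeriodicPt φ (t + 1) P := hper
    have hmp : 1 ≤ Function.minimalPeriod φ P := hp.minimalPeriod_pos (by omega)
    have hdvd : Function.minimalPeriod φ P ∣ N := by
      apply dvd_NP hne hmp
      · intro h4
        have := cyc_bound3 hplace hgl hgsp hgeo hcomb hD h1 hok1 hB hnf P _ h4 rfl
        rw [hlen] at this
        exact this
      · intro h4
        have := cyc_bound3 hplace hgl hgsp hgeo hcomb hD h2 hok2 hB hnf P _ h4 rfl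
        rw [hlen] at this
        exact this
    exact (Function.isPeriodicPt_iff_minimalPeriod_dvd).mpr hdvd
  refine ⟨hsub, ?_⟩
  rintro ⟨σ⟩
  obtain ⟨N', hN'⟩ : ∃ N', N = N' + 1 := ⟨N - 1, by omega⟩
  have hit : PowMoeb (badM D p₁ p₂) (k * N) φ^[N] := by
    rw [hN']
    exact powMoeb_iter hφ N'
  have hc := fix_real hreal σ (Nat.mul_pos hk hNpos) hit (fun m hm => odd_of3 hD1 h1 h2 hne hm)
  have hss : {P : ℙ K (K × K) | ∃ m n : ℕ, m < n ∧ φ^[m] P = φ^[n] P} ⊆ {P | φ^[N] P = P} :=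
    fun P hP => hsub P hP
  exact ⟨hc.1.subset hss, (Set.ncard_le_ncard hss hc.1).trans hc.2⟩

end Pool.Agent.N236.UR
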