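import Pool.Agent.N236.UR.Stm5

/-!
# Project UR (helper236), part 5: places of finitely generated fields, statements
-/

set_option autoImplicit false

open Polynomial

namespace Pool.Agent.N236.UR

open Pool.Agent.N236.UB

/-- Extension of the `p`-adic absolute value to an algebraic extension of a subfield of `ℚ_p`. -/
def S_EXT1 : Prop := ∀ (p : ℕ) [Fact p.Prime] (K₀ L : Type) [Field K₀] [Field L] [Algebra K₀ L]
  [Algebra.IsAlgebraic K₀ L] (σ : K₀ →+* ℚ_[p]), ∃ v : AbsoluteValue L ℝ,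
    (∀ x y : L, v (x + y) ≤ max (v x) (v y)) ∧ ∀ x : K₀, v (algebraMap K₀ L x) = ‖σ x‖

/-- The residue field of a finite extension. -/
def S_RESF : Prop := ∀ (K₀ L : Type) [Field K₀] [Field L] [Algebra K₀ L] [FiniteDimensional K₀ L]
  (v : AbsoluteValue L ℝ) (p : ℕ), p.Prime → (∀ x y : L, v (x + y) ≤ max (v x) (v y)) →
  0 < v (p : L) → v (p : L) < 1 →
  (∀ x : K₀, x ≠ 0 → ∃ k : ℤ, v (algebraMap K₀ L x) = v (p : L) ^ k) →
  (∀ x : K₀, v (algebraMap K₀ L x) ≤ 1 → ∃ a : ℕ, v (algebraMap K₀ L x - (a : L)) < 1) →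
  ∃ f : ℕ, 1 ≤ f ∧ f ≤ Module.finrank K₀ L ∧
    ∃ (O : Subring L) (k : Type) (_ : Field k) (_ : Fintype k) (red : O →+* k),
      (∀ x : L, x ∈ O ↔ v x ≤ 1) ∧ (∀ x : O, red x = 0 ↔ v (x : L) < 1) ∧
      Function.Surjective red ∧ Fintype.card k = p ^ f

/-- The value group of a finite extension. -/
def S_DISC : Prop := ∀ (K₀ L : Type) [Field K₀] [Field L] [Algebra K₀ L] [FiniteDimensional K₀ L]
  (v : AbsoluteValue L ℝ) (p : ℕ), p.Prime → (∀ x y : L, v (x + y) ≤ max (v x) (v y)) →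
  0 < v (p : L) → v (p : L) < 1 →
  (∀ x : K₀, x ≠ 0 → ∃ k : ℤ, v (algebraMap K₀ L x) = v (p : L) ^ k) →
  ∃ (w : L) (e : ℕ), 0 < v w ∧ v w < 1 ∧ (∀ x : L, v x < 1 → v x ≤ v w) ∧ 1 ≤ e ∧
    e ≤ Module.finrank K₀ L ∧ v w ^ e = v (p : L)

/-- Purely transcendental extensions of `ℚ` embed in `ℚ_p`. -/
def S_TRANS : Prop := ∀ (p : ℕ) [Fact p.Prime] (n : ℕ),
  Nonempty (FractionRing (MvPolynomial (Fin n) ℚ) →+* ℚ_[p])

end Pool.Agent.N236.UR
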