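import Pool.Agent.N236.UR.Top5
import Pool.Agent.N236.UR.Stm6

/-!
# Project UR (helper236), part 5: fields with places
-/

set_option autoImplicit false

open Polynomial

namespace Pool.Agent.N236.UR

open Pool.Agent.N236.UB
open scoped LinearAlgebra.Projectivization

/-- `L` has places above all primes `p` with residue fields of at most `p ^ M` elements. -/
def HasPl (L : Type) [Field L] (M : ℕ) : Prop :=
  ∀ p : ℕ, p.Prime → ∃ (v : AbsoluteValue L ℝ) (f e : ℕ), 1 ≤ f ∧ f ≤ M ∧ Loc v p (p ^ f) e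

/-- The finite extensions `F` of `K` have places above all primes `p` with residue fields of at most
`p ^ (D [F : K])` elements. -/
def PlAll (K : Type) [Field K] (D : ℕ) : Prop :=
  ∀ (F : Type) [Field F] [Algebra K F] [FiniteDimensional K F] (M : ℕ),
    D * Module.finrank K F ≤ M → HasPl F M

section cyc

variable {K : Type} [Field K]

theorem inj6 (hgl : S_GL1) (hgsp : S_GSP) (hdgs : S_DGS) {M d p : ℕ}
    (hpl : HasPl K M) (hgood : Good d p)
    {st : List (Matrix (Fin 2) (Fin 2) K × Sg K)}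
    {B : Matrix (Fin 2) (Fin 2) K} (hok : ∀ s ∈ st, s.1.det ≠ 0 ∧ SgOK M s.2) (hB : B.det ≠ 0)
    (hprod : (st.map fun s => s.2.deg).prod = d) (x y : K × K)
    (h : wd (lin B (runS st x)) (lin B (runS st y)) = 0) : wd x y = 0 := by
  obtain ⟨v, f, e, hf1, hfM, hv⟩ := hpl p hgood.1
  have hst := gs_of5 hgl hgsp hdgs hok hprod hgood hf1 hfM hv
  rw [wd_lin] at h
  have h3 := (mul_eq_zero.mp h).resolve_left hB
  by_contra h4
  exact runS_inj v st hst x y h4 h3

/-- the bound for cycles at one prime -/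
theorem cyc_bound6 (hgl : S_GL1) (hgsp : S_GSP) (hdgs : S_DGS) (hgeo : S_GEO3) (hcomb : S_COMB) {M d p : ℕ}
    (hpl : HasPl K M)
    (hgood : Good d p) {φ : ℙ K (K × K) → ℙ K (K × K)} {st : List (Matrix (Fin 2) (Fin 2) K × Sg K)}
    {B : Matrix (Fin 2) (Fin 2) K} (hok : ∀ s ∈ st, s.1.det ≠ 0 ∧ SgOK M s.2) (hB : B.det ≠ 0)
    (hprod : (st.map fun s => s.2.deg).prod = d)
    (hφ : ∀ (x : K × K) (hx : x ≠ 0) (hy : lin B (runS st x) ≠ 0),
        φ (Projectivization.mk K x hx) = Projectivization.mk K (lin B (runS st x)) hy)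
    (P : ℙ K (K × K)) (n : ℕ) (hn : 4 ≤ n) (hmin : Function.minimalPeriod φ P = n) :
    ∀ r : ℕ, r.Prime → (r ∣ n → r ≤ p ^ M + 1) ∧ (r ≠ p → ∀ a : ℕ, r ^ a ∣ n → a ≤ (2 * d + 2) * p ^ M) := by
  obtain ⟨v, f, e, hf1, hfM, hv⟩ := hpl p hgood.1
  have hst := gs_of5 hgl hgsp hdgs hok hprod hgood hf1 hfM hv
  obtain ⟨mm, hrun⟩ := hom_runS st (fun s hs => ⟨(hst s hs).1, (hok s hs).2.prime.ne_zero⟩)
  have hn0 : (0 : ℤ) < n := by exact_mod_cast (by omega : 0 < n)
  set V : ℤ → K × K := fun i => (φ^[(i % n).toNat] P).rep with hV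
  have hVne : ∀ i, V i ≠ 0 := fun i => Projectivization.rep_nonzero _
  have hVmk : ∀ i, Projectivization.mk K (V i) (hVne i) = φ^[(i % n).toNat] P := fun i =>
    Projectivization.mk_rep _
  have hfam : Fam n V := by
    constructor
    · intro i
      simp only [hV]
      rw [Int.add_emod_right]
    · intro i j
      rw [wd_eq_zero_iff (hVne i) (hVne j), hVmk, hVmk]
      have e1 : (i % n).toNat < n := by
        have := Int.emod_lt_of_pos i hn0
        have h0 := Int.emod_nonneg i hn0.ne'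
        omega
      have e2 : (j % n).toNat < n := by
        have := Int.emod_lt_of_pos j hn0
        have h0 := Int.emod_nonneg j hn0.ne'
        omega
      rw [Function.iterate_eq_iterate_iff_of_lt_minimalPeriod (by rw [hmin]; exact e1) (by rw [hmin]; exact e2)]
      have h0 := Int.emod_nonneg i hn0.ne'
      have h1 := Int.emod_nonneg j hn0.ne'
      constructor
      · intro h
        have : i % n = j % n := by omega
        exact Int.emod_emod_of_dvd i (dvd_refl (n : ℤ)) |> fun _ => (Int.modEq_iff_dvd.mp (show j ≡ i [ZMOD n] from this.symm))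
      · intro h
        have : j ≡ i [ZMOD n] := Int.modEq_iff_dvd.mpr h
        have h2 : j % n = i % n := this
        rw [h2]
  have hcyc : ∀ i, wd (lin B (runS st (V i))) (V (i + 1)) = 0 := by
    intro i
    have h1 : lin B (runS st (V i)) ≠ 0 := lin_ne_zero hB (hrun.2 _ (hVne i))
    rw [wd_eq_zero_iff h1 (hVne (i + 1)), ← hφ (V i) (hVne i) h1, hVmk, hVmk]
    rw [← Function.iterate_succ_apply' φ]
    have hper : Function.IsPeriodicPt φ n P := hmin ▸ Function.isPeriodicPt_minimalPeriod φ P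
    have h0 := Int.emod_nonneg i hn0.ne'
    have hlt := Int.emod_lt_of_pos i hn0
    by_cases hc : i % n + 1 = n
    · have e1 : (i % n).toNat + 1 = n := by omega
      have e2 : ((i + 1) % n).toNat = 0 := by
        have : (i + 1) % n = 0 := by
          rw [Int.add_emod]
          have : i % n = n - 1 := by omega
          rw [this]
          rcases Nat.lt_or_ge 1 n with h | h
          · have h1n : (1 : ℤ) % n = 1 := Int.emod_eq_of_lt (by norm_num) (by exact_mod_cast h)
            rw [h1n]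
            simp
          · omega
        rw [this]; rfl
      rw [Nat.succ_eq_add_one, e1, e2]
      exact hper
    · have e2 : ((i + 1) % n).toNat = (i % n).toNat + 1 := by
        have : (i + 1) % n = i % n + 1 := by
          rw [Int.add_emod]
          have h1n : (1 : ℤ) % n = 1 := Int.emod_eq_of_lt (by norm_num) (by omega)
          rw [h1n]
          exact Int.emod_eq_of_lt (by omega) (by omega)
        rw [this]; omega
      rw [e2]
  obtain ⟨c, rel, dd, hfull⟩ := hgeo K v p (p ^ f) e hv st B hst hB n V hn hfam hcyc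
  have hmain := hcomb K v p (p ^ f) e n st.length V c rel dd hv hgood.1 hn hfull
  have hqle : p ^ f ≤ p ^ M := Nat.pow_le_pow_right hgood.1.pos hfM
  have hlen : st.length ≤ d := by
    have := len_le5 st (fun s hs => (hok s hs).2.prime.two_le)
    omega
  intro r hr
  refine ⟨fun h => ((hmain r hr).1 h).trans (by omega), fun h a ha => ((hmain r hr).2 h a ha).trans ?_⟩
  exact Nat.mul_le_mul (by omega) hqle

end cyc

section core

variable {K : Type} [Field K]

/-- All preperiodic vectors have a period dividing `NP`. -/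
theorem core6 (hgl : S_GL1) (hgsp : S_GSP) (hdgs : S_DGS) (hgeo : S_GEO3)
    (hcomb : S_COMB) {M d p₁ p₂ : ℕ} (hpl : HasPl K M) (hne : p₁ ≠ p₂)
    (hg₁ : Good d p₁) (hg₂ : Good d p₂)
    {st : List (Matrix (Fin 2) (Fin 2) K × Sg K)}
    {B : Matrix (Fin 2) (Fin 2) K} (hok : ∀ s ∈ st, s.1.det ≠ 0 ∧ SgOK M s.2) (hB : B.det ≠ 0)
    (hprod : (st.map fun s => s.2.deg).prod = d) {x : K × K} (hx : x ≠ 0)
    (hpre : ∃ m n : ℕ, m < n ∧ wd ((fun x => lin B (runS st x))^[m] x) ((fun x => lin B (runS st x))^[n] x) = 0) :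
    wd ((fun x => lin B (runS st x))^[NP p₁ p₂ M d] x) x = 0 := by
  obtain ⟨mm, hrun⟩ := hom_runS st (fun s hs => ⟨(hok s hs).1, (hok s hs).2.prime.ne_zero⟩)
  set T : K × K → K × K := fun x => lin B (runS st x) with hTdef
  have hT : Hom T (mm * 1) := (hom_lin hB).comp hrun
  have hnf : ∀ (x : K × K) (hx : x ≠ 0) (hy : lin B (runS st x) ≠ 0),
      actP T (Projectivization.mk K x hx) = Projectivization.mk K (lin B (runS st x)) hy :=
    fun x hx hy => actP_mk hT hx hy
  have hinj : Function.Injective (actP T) := by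
    intro P Q hPQ
    induction P using Projectivization.ind with
    | h x hx =>
    induction Q using Projectivization.ind with
    | h y hy =>
    rw [actP_mk hT hx (hT.2 x hx), actP_mk hT hy (hT.2 y hy), ← wd_eq_zero_iff] at hPQ
    rw [← wd_eq_zero_iff hx hy]
    exact inj6 hgl hgsp hdgs hpl hg₁ hok hB hprod x y hPQ
  obtain ⟨m, n, hmn, hP⟩ := hpre
  obtain ⟨t, rfl⟩ := Nat.exists_eq_add_of_lt hmn
  set P := Projectivization.mk K x hx with hPdef
  have hPP : (actP T)^[m] P = (actP T)^[m + t + 1] P := by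
    rw [hPdef, actP_iter hT hx, actP_iter hT hx, ← wd_eq_zero_iff]
    exact hP
  have hper : (actP T)^[t + 1] P = P := by
    have : (actP T)^[m] ((actP T)^[t + 1] P) = (actP T)^[m] P := by
      rw [← Function.iterate_add_apply]
      exact hPP.symm
    exact hinj.iterate m this
  have hp : Function.IsPeriodicPt (actP T) (t + 1) P := hper
  have hmp : 1 ≤ Function.minimalPeriod (actP T) P := hp.minimalPeriod_pos (by omega)
  have hdvd : Function.minimalPeriod (actP T) P ∣ NP p₁ p₂ M d := by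
    apply dvd_NP hne hmp
    · intro h4
      exact cyc_bound6 hgl hgsp hdgs hgeo hcomb hpl hg₁ hok hB hprod hnf P _ h4 rfl
    · intro h4
      exact cyc_bound6 hgl hgsp hdgs hgeo hcomb hpl hg₂ hok hB hprod hnf P _ h4 rfl
  have hN : (actP T)^[NP p₁ p₂ M d] P = P :=
    (Function.isPeriodicPt_iff_minimalPeriod_dvd).mpr hdvd
  rw [hPdef, actP_iter hT hx, ← wd_eq_zero_iff] at hN
  exact hN

end core

section transfer

variable {K E : Type} [Field K] [Field E] [Algebra K E]

/-- Preperiodic points of bounded degree are fixed by the iterate of index `NP`. -/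
theorem trans6 (hgl : S_GL1) (hgsp : S_GSP) (hdgs : S_DGS) (hgeo : S_GEO3)
    (hcomb : S_COMB) {D b d p₁ p₂ : ℕ} (hD : PlAll K D) (hne : p₁ ≠ p₂)
    (hg₁ : Good d p₁) (hg₂ : Good d p₂) {φ : ℙ E (E × E) → ℙ E (E × E)} (hφ : ExcP K E (D * b) φ d)
    {P : ℙ E (E × E)} (hP : RatLe K b P) (hpre : ∃ m n : ℕ, m < n ∧ φ^[m] P = φ^[n] P) :
    φ^[NP p₁ p₂ (D * b) d] P = P := by
  obtain ⟨st, B, hok, hB, hprod, hnf⟩ := nf5 hφ
  obtain ⟨F, hFfin, hFb, x1, x2, hx0, rfl⟩ := hP
  have hdeg : HasPl F (D * b) := hD F (D * b) (Nat.mul_le_mul_left _ hFb)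
  set σ : K →+* F := algebraMap K F with hσ
  set τ : F →+* E := algebraMap F E with hτ
  have hτσ : τ.comp σ = algebraMap K E := (IsScalarTower.algebraMap_eq K F E).symm
  set stF := mapS σ st with hstF
  set BF := B.map σ with hBF
  have hokF : ∀ s ∈ stF, s.1.det ≠ 0 ∧ SgOK (D * b) s.2 := by
    intro s hs
    rw [hstF] at hs
    unfold mapS at hs
    rw [List.mem_map] at hs
    obtain ⟨s', hs', rfl⟩ := hs
    exact ⟨det_map _ (hok s' hs').1, sgok_map σ (hok s' hs').2⟩
  have hBF0 : BF.det ≠ 0 := det_map σ hB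
  have hprodF : (stF.map fun s => s.2.deg).prod = d := by
    rw [hstF, prod_mapS, hprod]
  set TF : F × F → F × F := fun x => lin BF (runS stF x) with hTF
  have hcomm : ∀ x : F × F, lin (B.map (algebraMap K E)) (runS (mapS (algebraMap K E) st) (vec τ x)) =
      vec τ (TF x) := by
    intro x
    have e1 : B.map (algebraMap K E) = BF.map τ := by
      rw [hBF, Matrix.map_map, ← hτσ]
      rfl
    rw [e1, ← hτσ, ← mapS_comp, runS_vec, lin_vec]
  obtain ⟨mm, hrun⟩ := hom_runS stF (fun s hs => ⟨(hokF s hs).1, (hokF s hs).2.prime.ne_zero⟩)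
  have hT : Hom TF (mm * 1) := (hom_lin hBF0).comp hrun
  set x : F × F := (x1, x2) with hx
  have hxv : vec τ x = ((x1 : E), (x2 : E)) := rfl
  have hxne : x ≠ 0 := by
    intro h0
    apply hx0
    rw [← hxv, h0]
    unfold vec
    simp
  have hiter : ∀ n : ℕ, φ^[n] (Projectivization.mk E ((x1 : E), (x2 : E)) hx0) =
      Projectivization.mk E (vec τ (TF^[n] x)) (vec_ne τ (iter_ne hT hxne n)) := by
    intro n
    induction n with
    | zero => rfl
    | succ n ih =>
      have h1 : lin (B.map (algebraMap K E)) (runS (mapS (algebraMap K E) st) (vec τ (TF^[n] x))) ≠ 0 := by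
        rw [hcomm]
        exact vec_ne τ (hT.2 _ (iter_ne hT hxne n))
      rw [Function.iterate_succ_apply', ih, hnf _ _ h1]
      simp only [hcomm, Function.iterate_succ_apply']
  have hpreF : ∃ m n : ℕ, m < n ∧ wd (TF^[m] x) (TF^[n] x) = 0 := by
    obtain ⟨m, n, hmn, h⟩ := hpre
    refine ⟨m, n, hmn, ?_⟩
    rw [hiter, hiter, ← wd_eq_zero_iff] at h
    exact vec_inj τ h
  have hfin := core6 hgl hgsp hdgs hgeo hcomb hdeg hne hg₁ hg₂ hokF hBF0 hprodF hxne hpreF
  rw [hiter, ← wd_eq_zero_iff]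
  exact vec_wd τ hfin

end transfer

/-- The theorem: a universal period and a bound for the number of preperiodic points of degree at most
`b` over number fields of degree at most `D`. -/
theorem main6 (hprime : S_PRIME) (hgl : S_GL1) (hgsp : S_GSP) (hdgs : S_DGS)
    (hgeo : S_GEO3) (hcomb : S_COMB) (hcnt : S_CNT3) (D b d : ℕ) (hd : 2 ≤ d) :
    ∃ N C : ℕ, 1 ≤ N ∧ ∀ (K : Type) [Field K] [CharZero K], PlAll K D →
      ∀ φ : ℙ (AlgebraicClosure K) (AlgebraicClosure K × AlgebraicClosure K) →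
          ℙ (AlgebraicClosure K) (AlgebraicClosure K × AlgebraicClosure K),
        ExcP K (AlgebraicClosure K) (D * b) φ d →
        (∀ P, RatLe K b P → (∃ m n : ℕ, m < n ∧ φ^[m] P = φ^[n] P) → φ^[N] P = P) ∧
        {P | RatLe K b P ∧ ∃ m n : ℕ, m < n ∧ φ^[m] P = φ^[n] P}.Finite ∧
        {P | RatLe K b P ∧ ∃ m n : ℕ, m < n ∧ φ^[m] P = φ^[n] P}.ncard ≤ C := by
  obtain ⟨p₁, p₂, hne, hg₁, hg₂⟩ := good2 hprime d (by omega)
  have hNpos : 1 ≤ NP p₁ p₂ (D * b) d := by
    unfold NP
    have := pow_pos (Nat.factorial_pos (max (p₁ ^ (D * b)) (p₂ ^ (D * b)) + 1))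
      ((2 * d + 2) * max (p₁ ^ (D * b)) (p₂ ^ (D * b)))
    omega
  refine ⟨NP p₁ p₂ (D * b) d, d ^ (NP p₁ p₂ (D * b) d) + 2, hNpos, ?_⟩
  intro K _ _ hD φ hφ
  have hper : ∀ P, RatLe K b P → (∃ m n : ℕ, m < n ∧ φ^[m] P = φ^[n] P) →
      φ^[NP p₁ p₂ (D * b) d] P = P := fun P hP hpre =>
    trans6 hgl hgsp hdgs hgeo hcomb hD hne hg₁ hg₂ hφ hP hpre
  refine ⟨hper, ?_⟩
  set N := NP p₁ p₂ (D * b) d with hN
  obtain ⟨N', hN'⟩ : ∃ N', N = N' + 1 := ⟨N - 1, by omega⟩
  have hit : ExcP K (AlgebraicClosure K) (D * b) φ^[N] (d ^ N) := by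
    rw [hN']
    exact excP_iter hφ N'
  have hdN : 2 ≤ d ^ N := by
    calc 2 ≤ d := hd
      _ ≤ d ^ N := Nat.le_self_pow (by omega) d
  haveI : CharZero (AlgebraicClosure K) :=
    charZero_of_injective_algebraMap (FaithfulSMul.algebraMap_injective K (AlgebraicClosure K))
  have hc := fix_count5 hcnt hdN hit
  have hsub : {P | RatLe K b P ∧ ∃ m n : ℕ, m < n ∧ φ^[m] P = φ^[n] P} ⊆ {P | φ^[N] P = P} :=
    fun P hP => hper P hP.1 hP.2
  exact ⟨hc.1.subset hsub, (Set.ncard_le_ncard hsub hc.1).trans hc.2⟩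

end Pool.Agent.N236.UR
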