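import Pool.Agent.N236.UR.DI3
import Pool.Agent.N236.UR.Top6

/-!
# Project UR (helper236), part 5: places of finitely generated fields; degree free bound
-/

set_option autoImplicit false

open Polynomial

namespace Pool.Agent.N236.UR

open Pool.Agent.N236.UB
open scoped LinearAlgebra.Projectivization

/-- `L` has places above all primes `p` with residue fields of at most `p ^ M` elements and ramification
at most `M`. -/
def HasPlE (L : Type) [Field L] (M : ℕ) : Prop :=
  ∀ p : ℕ, p.Prime → ∃ (v : AbsoluteValue L ℝ) (f e : ℕ), 1 ≤ f ∧ f ≤ M ∧ e ≤ M ∧ Loc v p (p ^ f) e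

section places

/-- Places of a finite extension of a purely transcendental extension of `ℚ`. -/
theorem pl_fg (hext : S_EXT1) (hres : S_RESF) (hdisc : S_DISC) (htr : S_TRANS) (n : ℕ) (F : Type)
    [Field F] [Algebra (FractionRing (MvPolynomial (Fin n) ℚ)) F]
    [FiniteDimensional (FractionRing (MvPolynomial (Fin n) ℚ)) F] {M : ℕ}
    (hM : Module.finrank (FractionRing (MvPolynomial (Fin n) ℚ)) F ≤ M) : HasPlE F M := by
  intro p hp
  haveI : Fact p.Prime := ⟨hp⟩
  obtain ⟨σ⟩ := htr p n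
  obtain ⟨v, hna, hv⟩ := hext p (FractionRing (MvPolynomial (Fin n) ℚ)) F σ
  have hvp : v (p : F) = (p : ℝ)⁻¹ := by
    have h := hv (p : FractionRing (MvPolynomial (Fin n) ℚ))
    have e1 : algebraMap (FractionRing (MvPolynomial (Fin n) ℚ)) F
        (p : FractionRing (MvPolynomial (Fin n) ℚ)) = (p : F) := map_natCast _ _
    have e2 : σ (p : FractionRing (MvPolynomial (Fin n) ℚ)) = (p : ℚ_[p]) := map_natCast _ _
    rw [e1, e2, Padic.norm_p] at h
    exact h
  have hp0 : (0 : ℝ) < p := by exact_mod_cast hp.pos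
  have hp1 : (1 : ℝ) < p := by exact_mod_cast hp.one_lt
  have h0 : 0 < v (p : F) := by rw [hvp]; positivity
  have h1 : v (p : F) < 1 := by rw [hvp]; exact inv_lt_one_of_one_lt₀ hp1
  have hval : ∀ x : FractionRing (MvPolynomial (Fin n) ℚ), x ≠ 0 →
      ∃ k : ℤ, v (algebraMap _ F x) = v (p : F) ^ k := by
    intro x hx
    have hx' : σ x ≠ 0 := (map_ne_zero σ).mpr hx
    refine ⟨Padic.valuation (σ x), ?_⟩
    rw [hv, hvp, Padic.norm_eq_zpow_neg_valuation hx', inv_zpow, zpow_neg]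
  have hr : ∀ x : FractionRing (MvPolynomial (Fin n) ℚ), v (algebraMap _ F x) ≤ 1 →
      ∃ a : ℕ, v (algebraMap _ F x - (a : F)) < 1 := by
    intro x hx
    rw [hv] at hx
    obtain ⟨y, hy⟩ : ∃ y : ℤ_[p], (y : ℚ_[p]) = σ x := ⟨⟨σ x, hx⟩, rfl⟩
    obtain ⟨a, -, ha⟩ := PadicInt.exists_mem_range y
    refine ⟨a, ?_⟩
    have ha' : ‖y - (a : ℤ_[p])‖ < 1 := PadicInt.mem_nonunits.mp ((IsLocalRing.mem_maximalIdeal _).mp ha)
    have h2 := hv (x - (a : FractionRing (MvPolynomial (Fin n) ℚ)))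
    have e1 : algebraMap (FractionRing (MvPolynomial (Fin n) ℚ)) F
        (x - (a : FractionRing (MvPolynomial (Fin n) ℚ))) = algebraMap _ F x - (a : F) := by
      rw [map_sub, map_natCast]
    have e2 : σ (x - (a : FractionRing (MvPolynomial (Fin n) ℚ))) = σ x - (a : ℚ_[p]) := by
      rw [map_sub, map_natCast]
    rw [e1, e2] at h2
    rw [h2]
    have h3 : ‖y - (a : ℤ_[p])‖ = ‖σ x - (a : ℚ_[p])‖ := by
      rw [PadicInt.norm_def, PadicInt.coe_sub, PadicInt.coe_natCast, hy]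
    rw [← h3]
    exact ha'
  obtain ⟨f, hf1, hfM, O, k, hk, hkf, red, hO, hred, hsurj, hcard⟩ :=
    hres (FractionRing (MvPolynomial (Fin n) ℚ)) F v p hp hna h0 h1 hval hr
  obtain ⟨w, e, hw0, hw1, hwmax, he1, heM, hwe⟩ :=
    hdisc (FractionRing (MvPolynomial (Fin n) ℚ)) F v p hp hna h0 h1 hval
  exact ⟨v, f, e, hf1, hfM.trans hM, heM.trans hM, hna, ⟨w, hw0, hw1, hwmax, hwe.le⟩, h1,
    O, k, hk, hkf, red, hO, hred, hsurj, hcard⟩

theorem plAll_fg (hext : S_EXT1) (hres : S_RESF) (hdisc : S_DISC) (htr : S_TRANS) (n : ℕ) (K : Type)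
    [Field K] [Algebra (FractionRing (MvPolynomial (Fin n) ℚ)) K]
    [FiniteDimensional (FractionRing (MvPolynomial (Fin n) ℚ)) K] {D : ℕ}
    (hD : Module.finrank (FractionRing (MvPolynomial (Fin n) ℚ)) K ≤ D) : PlAll K D := by
  intro F _ _ _ M hM
  letI : Algebra (FractionRing (MvPolynomial (Fin n) ℚ)) F :=
    ((algebraMap K F).comp (algebraMap (FractionRing (MvPolynomial (Fin n) ℚ)) K)).toAlgebra
  haveI : IsScalarTower (FractionRing (MvPolynomial (Fin n) ℚ)) K F :=
    IsScalarTower.of_algebraMap_eq' rfl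
  haveI : FiniteDimensional (FractionRing (MvPolynomial (Fin n) ℚ)) F :=
    FiniteDimensional.trans (FractionRing (MvPolynomial (Fin n) ℚ)) K F
  have hfin : Module.finrank (FractionRing (MvPolynomial (Fin n) ℚ)) F ≤ M := by
    rw [← Module.finrank_mul_finrank (FractionRing (MvPolynomial (Fin n) ℚ)) K F]
    exact (Nat.mul_le_mul_right _ hD).trans hM
  intro p hp
  obtain ⟨v, f, e, h1, h2, -, h⟩ := pl_fg hext hres hdisc htr n F hfin p hp
  exact ⟨v, f, e, h1, h2, h⟩

end places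

section cyc

variable {K : Type} [Field K]

theorem phi_inj7 (hgl : S_GL1) (hgsp : S_GSP) {M p : ℕ} (hpl : HasPlE K M)
    (hp : p.Prime) {φ : ℙ K (K × K) → ℙ K (K × K)} {st : List (Matrix (Fin 2) (Fin 2) K × ℕ)}
    {B : Matrix (Fin 2) (Fin 2) K} (hok : OKq M p st) (hB : B.det ≠ 0)
    (hφ : ∀ (x : K × K) (hx : x ≠ 0) (hy : lin B (run st x) ≠ 0),
        φ (Projectivization.mk K x hx) = Projectivization.mk K (lin B (run st x)) hy) :
    Function.Injective φ := by
  obtain ⟨v, f, e, hf1, hfM, heM, hv⟩ := hpl p hp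
  have hst := gs_of hgl hgsp hok hp hf1 hfM heM hv
  intro P Q hPQ
  induction P using Projectivization.ind with
  | h x hx =>
  induction Q using Projectivization.ind with
  | h y hy =>
  have hne : ∀ s ∈ st, s.1.det ≠ 0 ∧ s.2 ≠ 0 := fun s hs => ⟨(hok s hs).1, by have := (hok s hs).2.1; omega⟩
  have h1 : lin B (run st x) ≠ 0 := lin_ne_zero hB (run_ne_zero st hne hx)
  have h2 : lin B (run st y) ≠ 0 := lin_ne_zero hB (run_ne_zero st hne hy)
  rw [hφ x hx h1, hφ y hy h2, ← wd_eq_zero_iff h1 h2, wd_lin] at hPQ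
  have h3 := (mul_eq_zero.mp hPQ).resolve_left hB
  rw [← wd_eq_zero_iff hx hy]
  by_contra h4
  exact run_inj3 v st hst x y h4 h3

/-- the bound for cycles at one prime -/
theorem cyc_bound7 (hgl : S_GL1) (hgsp : S_GSP) (hgeo : S_GEO2) (hcomb : S_COMB) {M p : ℕ}
    (hpl : HasPlE K M)
    (hp : p.Prime) {φ : ℙ K (K × K) → ℙ K (K × K)} {st : List (Matrix (Fin 2) (Fin 2) K × ℕ)}
    {B : Matrix (Fin 2) (Fin 2) K} (hok : OKq M p st) (hB : B.det ≠ 0)
    (hφ : ∀ (x : K × K) (hx : x ≠ 0) (hy : lin B (run st x) ≠ 0),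
        φ (Projectivization.mk K x hx) = Projectivization.mk K (lin B (run st x)) hy)
    (P : ℙ K (K × K)) (n : ℕ) (hn : 4 ≤ n) (hmin : Function.minimalPeriod φ P = n) :
    ∀ r : ℕ, r.Prime → (r ∣ n → r ≤ p ^ M + 1) ∧
      (r ≠ p → ∀ a : ℕ, r ^ a ∣ n → a ≤ (2 * st.length + 2) * p ^ M) := by
  obtain ⟨v, f, e, hf1, hfM, heM, hv⟩ := hpl p hp
  have hst := gs_of hgl hgsp hok hp hf1 hfM heM hv
  have hne : ∀ s ∈ st, s.1.det ≠ 0 ∧ s.2 ≠ 0 := fun s hs => ⟨(hok s hs).1, by have := (hok s hs).2.1; omega⟩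
  have hn0 : (0 : ℤ) < n := by exact_mod_cast (by omega : 0 < n)
  set V : ℤ → K × K := fun i => (φ^[(i % n).toNat] P).rep with hV
  have hVne : ∀ i, V i ≠ 0 := fun i => Projectivization.rep_nonzero _
  have hVmk : ∀ i, Projectivization.mk K (V i) (hVne i) = φ^[(i % n).toNat] P := fun i =>
    Projectivization.mk_rep _
  have hfam : Fam n V := by
    constructor
    · intro i
      simp only [hV]
      rw [Int.add_emod_right]
    · intro i j
      rw [wd_eq_zero_iff (hVne i) (hVne j), hVmk, hVmk]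
      have e1 : (i % n).toNat < n := by
        have := Int.emod_lt_of_pos i hn0
        have h0 := Int.emod_nonneg i hn0.ne'
        omega
      have e2 : (j % n).toNat < n := by
        have := Int.emod_lt_of_pos j hn0
        have h0 := Int.emod_nonneg j hn0.ne'
        omega
      rw [Function.iterate_eq_iterate_iff_of_lt_minimalPeriod (by rw [hmin]; exact e1) (by rw [hmin]; exact e2)]
      have h0 := Int.emod_nonneg i hn0.ne'
      have h1 := Int.emod_nonneg j hn0.ne'
      constructor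
      · intro h
        have : i % n = j % n := by omega
        exact Int.emod_emod_of_dvd i (dvd_refl (n : ℤ)) |> fun _ => (Int.modEq_iff_dvd.mp (show j ≡ i [ZMOD n] from this.symm))
      · intro h
        have : j ≡ i [ZMOD n] := Int.modEq_iff_dvd.mpr h
        have h2 : j % n = i % n := this
        rw [h2]
  have hcyc : ∀ i, wd (lin B (run st (V i))) (V (i + 1)) = 0 := by
    intro i
    have h1 : lin B (run st (V i)) ≠ 0 := lin_ne_zero hB (run_ne_zero st hne (hVne i))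
    rw [wd_eq_zero_iff h1 (hVne (i + 1)), ← hφ (V i) (hVne i) h1, hVmk, hVmk]
    rw [← Function.iterate_succ_apply' φ]
    have hper : Function.IsPeriodicPt φ n P := hmin ▸ Function.isPeriodicPt_minimalPeriod φ P
    have h0 := Int.emod_nonneg i hn0.ne'
    have hlt := Int.emod_lt_of_pos i hn0
    by_cases hc : i % n + 1 = n
    · have e1 : (i % n).toNat + 1 = n := by omega
      have e2 : ((i + 1) % n).toNat = 0 := by
        have : (i + 1) % n = 0 := by
          rw [Int.add_emod]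
          have : i % n = n - 1 := by omega
          rw [this]
          rcases Nat.lt_or_ge 1 n with h | h
          · have h1n : (1 : ℤ) % n = 1 := Int.emod_eq_of_lt (by norm_num) (by exact_mod_cast h)
            rw [h1n]
            simp
          · omega
        rw [this]; rfl
      rw [Nat.succ_eq_add_one, e1, e2]
      exact hper
    · have e2 : ((i + 1) % n).toNat = (i % n).toNat + 1 := by
        have : (i + 1) % n = i % n + 1 := by
          rw [Int.add_emod]
          have h1n : (1 : ℤ) % n = 1 := Int.emod_eq_of_lt (by norm_num) (by omega)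
          rw [h1n]
          exact Int.emod_eq_of_lt (by omega) (by omega)
        rw [this]; omega
      rw [e2]
  obtain ⟨c, rel, dd, hfull⟩ := hgeo K v p (p ^ f) e hv st B hst hB n V hn hfam hcyc
  have hmain := hcomb K v p (p ^ f) e n st.length V c rel dd hv hp hn hfull
  have hqle : p ^ f ≤ p ^ M := Nat.pow_le_pow_right hp.pos hfM
  intro r hr
  refine ⟨fun h => ((hmain r hr).1 h).trans (by omega), fun h a ha => ((hmain r hr).2 h a ha).trans ?_⟩
  exact Nat.mul_le_mul_left _ hqle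

end cyc

theorem main_di7 (hgl : S_GL1) (hgsp : S_GSP) (hgeo : S_GEO2) (hcomb : S_COMB)
    (hreal : S_REAL) (D k p₁ p₂ : ℕ) (hD1 : 1 ≤ D) (hk : 1 ≤ k) (h1 : p₁.Prime) (h2 : p₂.Prime) (hne : p₁ ≠ p₂) :
    ∃ N C : ℕ, 1 ≤ N ∧ ∀ (K : Type) [Field K], HasPlE K D →
      ∀ φ : ℙ K (K × K) → ℙ K (K × K), PowMoeb (badM D p₁ p₂) k φ →
        (∀ P : ℙ K (K × K), (∃ m n : ℕ, m < n ∧ φ^[m] P = φ^[n] P) → φ^[N] P = P) ∧
        (Nonempty (K →+* ℝ) →
          {P : ℙ K (K × K) | ∃ m n : ℕ, m < n ∧ φ^[m] P = φ^[n] P}.Finite ∧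
          {P : ℙ K (K × K) | ∃ m n : ℕ, m < n ∧ φ^[m] P = φ^[n] P}.ncard ≤ C) := by
  have hNpos : 1 ≤ NP p₁ p₂ D k := by
    unfold NP
    have := pow_pos (Nat.factorial_pos (max (p₁ ^ D) (p₂ ^ D) + 1)) ((2 * k + 2) * max (p₁ ^ D) (p₂ ^ D))
    omega
  refine ⟨NP p₁ p₂ D k, 8 * (k * NP p₁ p₂ D k) + 4, hNpos, ?_⟩
  intro K _ hD φ hφ
  obtain ⟨st, B, hok, hB, hlen, hnf⟩ := nfk hφ
  have hok1 : OKq D p₁ st := fun s hs => ⟨(hok s hs).1, (hok s hs).2.1,
    fun hle => (Nat.Prime.coprime_iff_not_dvd h1).mp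
      (Nat.Coprime.coprime_dvd_right (p_dvd_badM.1 hle) (hok s hs).2.2).symm,
    fun f hf1 hf2 => Nat.Coprime.coprime_dvd_right (dvd_badM hf1 hf2).1 (hok s hs).2.2⟩
  have hok2 : OKq D p₂ st := fun s hs => ⟨(hok s hs).1, (hok s hs).2.1,
    fun hle => (Nat.Prime.coprime_iff_not_dvd h2).mp
      (Nat.Coprime.coprime_dvd_right (p_dvd_badM.2 hle) (hok s hs).2.2).symm,
    fun f hf1 hf2 => Nat.Coprime.coprime_dvd_right (dvd_badM hf1 hf2).2 (hok s hs).2.2⟩
  have hinj : Function.Injective φ := phi_inj7 hgl hgsp hD h1 hok1 hB hnf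
  set N := NP p₁ p₂ D k with hN
  have hsub : ∀ P : ℙ K (K × K), (∃ m n : ℕ, m < n ∧ φ^[m] P = φ^[n] P) → φ^[N] P = P := by
    rintro P ⟨m, n, hmn, hP⟩
    obtain ⟨t, rfl⟩ := Nat.exists_eq_add_of_lt hmn
    have hper : φ^[t + 1] P = P := by
      have : φ^[m] (φ^[t + 1] P) = φ^[m] P := by
        rw [← Function.iterate_add_apply]
        exact hP.symm
      exact hinj.iterate m this
    have hp : Function.IsPeriodicPt φ (t + 1) P := hper
    have hmp : 1 ≤ Function.minimalPeriod φ P := hp.minimalPeriod_pos (by omega)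
    have hdvd : Function.minimalPeriod φ P ∣ N := by
      apply dvd_NP hne hmp
      · intro h4
        have := cyc_bound7 hgl hgsp hgeo hcomb hD h1 hok1 hB hnf P _ h4 rfl
        rw [hlen] at this
        exact this
      · intro h4
        have := cyc_bound7 hgl hgsp hgeo hcomb hD h2 hok2 hB hnf P _ h4 rfl
        rw [hlen] at this
        exact this
    exact (Function.isPeriodicPt_iff_minimalPeriod_dvd).mpr hdvd
  refine ⟨hsub, ?_⟩
  rintro ⟨σ⟩
  obtain ⟨N', hN'⟩ : ∃ N', N = N' + 1 := ⟨N - 1, by omega⟩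
  have hit : PowMoeb (badM D p₁ p₂) (k * N) φ^[N] := by
    rw [hN']
    exact powMoeb_iter hφ N'
  have hc := fix_real hreal σ (Nat.mul_pos hk hNpos) hit (fun m hm => odd_of3 hD1 h1 h2 hne hm)
  have hss : {P : ℙ K (K × K) | ∃ m n : ℕ, m < n ∧ φ^[m] P = φ^[n] P} ⊆ {P | φ^[N] P = P} :=
    fun P hP => hsub P hP
  exact ⟨hc.1.subset hss, (Set.ncard_le_ncard hss hc.1).trans hc.2⟩


end Pool.Agent.N236.UR
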