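import Pool.Agent.N236.UR.Stm4
import Pool.Agent.N87.UR.Geo

/-!
# Project UR (helper236), part 3: a cycle gives a full configuration, abstract good stages
After the file of helper87.
-/

set_option autoImplicit false

open Polynomial

namespace Pool.Agent.N236.UR

open Pool.Agent.N236.UB Pool.Agent.N87.UR

section fam

variable {L : Type} [Field L] {v : AbsoluteValue L ℝ} {n : ℕ}

theorem fam_gs {V : ℤ → L × L} (h : Fam n V) {T : L × L → L × L} (hT : GS v T) :
    Fam n (fun i => T (V i)) := by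
  refine ⟨fun i => by simp only [h.1 i], fun i j => ?_⟩
  rw [hT.1]
  exact h.2 i j

/-- one step -/
theorem step2 {U : ℤ → L × L} (hU : Fam n U) {T : L × L → L × L} (hT : GS v T)
    {a b c d : ℤ} (hD : Dis4 n a b c d) (hg : gr v U a b c d ≤ 1) :
    gr v (fun i => T (U i)) a b c d ≤ gr v U a b c d := by
  have hU' := fam_gs hU hT
  obtain ⟨h1, h2, h3, h4, h5, h6⟩ := hD
  have hgg := hT.2.1 (U a) (U b) (U c) (U d) (Fam.ne hU h1) (Fam.ne hU h2) (Fam.ne hU h3)
    (Fam.ne hU h4) (Fam.ne hU h5) (Fam.ne hU h6)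
  have p2 := Fam.pos (v := v) hU h2
  have p5 := Fam.pos (v := v) hU h5
  have q2 : 0 < v (wd (T (U a)) (T (U c))) := Fam.pos (v := v) hU' h2
  have q5 : 0 < v (wd (T (U b)) (T (U d))) := Fam.pos (v := v) hU' h5
  unfold gr at hg ⊢
  rw [div_le_one (mul_pos p2 p5)] at hg
  have h7 := hgg hg
  rw [div_le_div_iff₀ (mul_pos q2 q5) (mul_pos p2 p5)]
  linarith [mul_comm (v (wd (U a) (U b)) * v (wd (U c) (U d)))
    (v (wd (T (U a)) (T (U c))) * v (wd (T (U b)) (T (U d))))]

end fam

section main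

variable {L : Type} [Field L] {v : AbsoluteValue L ℝ} {n : ℕ}
  {st : List (Matrix (Fin 2) (Fin 2) L × ℕ)} {V : ℤ → L × L}

/-- the hypothesis on the steps -/
def Good2 (v : AbsoluteValue L ℝ) (st : List (Matrix (Fin 2) (Fin 2) L × ℕ)) : Prop :=
  ∀ s ∈ st, s.1.det ≠ 0 ∧ GS v (pw s.2)

theorem Good2.get (h : Good2 v st) (s : Fin st.length) :
    (st[s]).1.det ≠ 0 ∧ GS v (pw (st[s]).2) :=
  h _ (List.getElem_mem _)

theorem famW2 (h : Good2 v st) (hV : Fam n V) :
    ∀ s : ℕ, s ≤ st.length → Fam n (Wf st V s) := by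
  intro s
  induction s with
  | zero => intro _; rw [Wf_zero]; exact hV
  | succ s ih =>
    intro hs
    have ih' := ih (Nat.le_of_succ_le hs)
    have h1 := Wf_succ st V ⟨s, hs⟩
    change Wf st V (s + 1) = _ at h1
    rw [h1]
    exact fam_gs (v := v) (fam_lin ih' (h.get ⟨s, hs⟩).1) (h.get ⟨s, hs⟩).2

theorem famU2 (h : Good2 v st) (hV : Fam n V)
    (s : Fin st.length) : Fam n (Uf st V s) :=
  fam_lin (famW2 h hV s s.2.le) (h.get s).1

theorem gr_Uf2 (h : Good2 v st) (s : Fin st.length) (a b c d : ℤ) :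
    gr v (Uf st V s) a b c d = gr v (Wf st V s) a b c d :=
  gr_lin (Wf st V s) (h.get s).1 a b c d

/-- the cross-ratio goes down along the stages -/
theorem chain2 (h : Good2 v st) (hV : Fam n V)
    {a b c d : ℤ} (hD : Dis4 n a b c d) (hg : gr v V a b c d ≤ 1) :
    ∀ s : ℕ, s ≤ st.length → gr v (Wf st V s) a b c d ≤ 1 ∧
      ∀ t : ℕ, t ≤ s → gr v (Wf st V s) a b c d ≤ gr v (Wf st V t) a b c d := by
  intro s
  induction s with
  | zero =>
    intro _
    rw [Wf_zero]
    refine ⟨hg, fun t ht => ?_⟩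
    obtain rfl : t = 0 := by omega
    rw [Wf_zero]
  | succ s ih =>
    intro hs
    obtain ⟨ih1, ih2⟩ := ih (Nat.le_of_succ_le hs)
    have h1 := Wf_succ st V ⟨s, hs⟩
    change Wf st V (s + 1) = _ at h1
    have hU : gr v (Uf st V ⟨s, hs⟩) a b c d = gr v (Wf st V s) a b c d := gr_Uf2 h ⟨s, hs⟩ a b c d
    have hst := step2 (famU2 h hV ⟨s, hs⟩) (h.get ⟨s, hs⟩).2 hD (by rw [hU]; exact ih1)
    rw [hU] at hst
    rw [h1]
    refine ⟨hst.trans ih1, fun t ht => ?_⟩
    rcases Nat.lt_or_ge s t with h2 | h2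
    · obtain rfl : t = s + 1 := by omega
      rw [h1]
    · exact hst.trans (ih2 t h2)

/-- equality at the end gives equality everywhere -/
theorem chain_eq2 (h : Good2 v st) (hV : Fam n V)
    {a b c d : ℤ} (hD : Dis4 n a b c d) (hg : gr v V a b c d ≤ 1)
    (heq : gr v (Wf st V st.length) a b c d = gr v V a b c d) :
    ∀ s : ℕ, s ≤ st.length → gr v (Wf st V s) a b c d = gr v V a b c d := by
  intro s hs
  apply le_antisymm
  · have := (chain2 h hV hD hg s hs).2 0 (Nat.zero_le _)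
    rwa [Wf_zero] at this
  · rw [← heq]
    exact (chain2 h hV hD hg st.length le_rfl).2 s hs

/-- all cross-ratios are preserved: case `≤ 1` -/
theorem key02 (h : Good2 v st) (hV : Fam n V)
    {B : Matrix (Fin 2) (Fin 2) L} (hB : B.det ≠ 0) (hn : 4 ≤ n)
    (hc : ∀ i, wd (lin B (run st (V i))) (V (i + 1)) = 0)
    {a b c d : ℤ} (hD : Dis4 n a b c d) (hg : gr v V a b c d ≤ 1) :
    gr v (Wf st V st.length) a b c d = gr v V a b c d := by
  obtain ⟨lam, hl, hw⟩ := mult (W := Wf st V st.length) hB (by omega) hV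
    (famW2 h hV _ le_rfl) (fun i => by rw [Wf_length]; exact hc i)
  have hsh := gr_mult (v := v) hB hl hw
  -- one period
  have hmon : ∀ k : ℕ, gr v V (a + k) (b + k) (c + k) (d + k) ≤ 1 ∧
      gr v V (a + k) (b + k) (c + k) (d + k) ≤ gr v (Wf st V st.length) a b c d ∨ k = 0 := by
    intro k
    induction k with
    | zero => exact Or.inr rfl
    | succ k ih =>
      left
      have hk1 : gr v V (a + k) (b + k) (c + k) (d + k) ≤ 1 := by
        rcases ih with ih | ih
        · exact ih.1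
        · rw [ih]
          simpa using hg
      have hch := (chain2 h hV (Dis4.shift hD (k : ℤ)) hk1 st.length le_rfl)
      have hs := hsh (a + k) (b + k) (c + k) (d + k)
      have e1 : ∀ x : ℤ, x + ((k + 1 : ℕ) : ℤ) = x + k + 1 := by intro x; push_cast; ring
      rw [e1, e1, e1, e1, hs]
      refine ⟨hch.1, ?_⟩
      rcases ih with ih | ih
      · have := hch.2 0 (Nat.zero_le _)
        rw [Wf_zero] at this
        exact this.trans ih.2
      · rw [ih]
        simp
  have hper : gr v V (a + (n : ℕ)) (b + (n : ℕ)) (c + (n : ℕ)) (d + (n : ℕ)) = gr v V a b c d := by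
    unfold gr
    rw [hV.1, hV.1, hV.1, hV.1]
  apply le_antisymm
  · have := (chain2 h hV hD hg st.length le_rfl).2 0 (Nat.zero_le _)
    rwa [Wf_zero] at this
  · rcases hmon n with h1 | h1
    · rw [hper] at h1
      exact h1.2
    · omega

/-- all cross-ratios are preserved -/
theorem key2 (h : Good2 v st) (hV : Fam n V)
    {B : Matrix (Fin 2) (Fin 2) L} (hB : B.det ≠ 0) (hn : 4 ≤ n)
    (hc : ∀ i, wd (lin B (run st (V i))) (V (i + 1)) = 0)
    {a b c d : ℤ} (hD : Dis4 n a b c d) :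
    ∀ s : ℕ, s ≤ st.length → gr v (Wf st V s) a b c d = gr v V a b c d := by
  rcases le_or_gt (gr v V a b c d) 1 with hg | hg
  · exact chain_eq2 h hV hD hg (key02 h hV hB hn hc hD hg)
  · have hg' : gr v V a c b d ≤ 1 := by
      rw [gr_swap]
      exact inv_le_one_of_one_le₀ hg.le
    have h1 := chain_eq2 h hV (Dis4.swap hD) hg'
      (key02 h hV hB hn hc (Dis4.swap hD) hg')
    intro s hs
    have h3 := h1 s hs
    rw [gr_swap (Wf st V s) a b c d, gr_swap V a b c d] at h3
    exact inv_injective h3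

/-- the residues of the cross-ratios along the stages -/
theorem chain_cr2 {p q e : ℕ} (hL : Loc v p q e) {i u j j' : ℤ} (hD : Dis4 n i u j j')
    (hW : ∀ s : ℕ, s ≤ st.length → Fam n (Wf st V s)) (h : Good2 v st)
    (hs : ∀ s : Fin st.length,
      v (cr (Wf st V (s + 1)) i u j j' / cr (Uf st V s) i u j j' - 1) < 1) :
    ∀ s : ℕ, s ≤ st.length → v (cr (Wf st V s) i u j j' / cr V i u j j' - 1) < 1 := by
  have hcr : ∀ s : ℕ, s ≤ st.length → cr (Wf st V s) i u j j' ≠ 0 := by
    intro s hs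
    obtain ⟨h1, h2⟩ := cn_ne (hW s hs) hD
    exact div_ne_zero h1 h2
  have h0 : cr V i u j j' ≠ 0 := by
    have := hcr 0 (Nat.zero_le _)
    rwa [Wf_zero] at this
  intro s
  induction s with
  | zero =>
    intro _
    rw [Wf_zero, div_self h0, sub_self, map_zero]
    exact one_pos
  | succ s ih =>
    intro hs1
    have h1 := ih (Nat.le_of_succ_le hs1)
    have h2 := hs ⟨s, hs1⟩
    have h3 : cr (Uf st V ⟨s, hs1⟩) i u j j' = cr (Wf st V s) i u j j' :=
      cr_lin (Wf st V s) (h.get ⟨s, hs1⟩).1 i u j j'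
    rw [h3] at h2
    change v (cr (Wf st V (s + 1)) i u j j' / cr (Wf st V s) i u j j' - 1) < 1 at h2
    have h4 := one_mul_lt hL h2 h1
    rwa [div_mul_div_cancel₀ (hcr s (Nat.le_of_succ_le hs1))] at h4

end main

theorem t_geo2 (hRK : S_RK) (hCO : S_CONF) : S_GEO2 := by
  intro L _ v p q e hL st B hst hB n V hn hV hc
  have hG : Good2 v st := hst
  have hW := famW2 hG hV
  have hU := famU2 hG hV
  have hk := fun (a b c d : ℤ) (hD : Dis4 n a b c d) => key2 hG hV hB hn hc hD
  obtain ⟨lam, hl, hw⟩ := mult (W := Wf st V st.length) hB (by omega) hV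
    (hW _ le_rfl) (fun i => by rw [Wf_length]; exact hc i)
  have hsh := gr_mult (v := v) hB hl hw
  -- the metric
  obtain ⟨c, hC⟩ := hCO L v n V hn hV (fun a b c d hD => by
    have h1 : gr v V (a + 1) (b + 1) (c + 1) (d + 1) = gr v V a b c d := by
      rw [hsh]
      exact hk a b c d hD _ le_rfl
    have hD' := Dis4.shift hD 1
    obtain ⟨h2, h3, h4, h5, h6, h7⟩ := hD
    obtain ⟨g2, g3, g4, g5, g6, g7⟩ := hD'
    unfold gr at h1
    have r2 := Fam.pos (v := v) hV h3
    have r3 := Fam.pos (v := v) hV h6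
    have p2 := Fam.pos (v := v) hV g3
    have p3 := Fam.pos (v := v) hV g6
    rw [div_eq_div_iff (by positivity) (by positivity)] at h1
    linear_combination h1)
  -- the stages
  have hstage : ∀ s : Fin st.length, ∃ (rel : ℤ → ℤ → Prop) (d : ℤ → ℝ), Stg v n V c rel d ∧
      ∀ i u j j' : ℤ, Dis4 n i u j j' → (rel i u ∨ rel j j') →
        v (cr (Wf st V (s + 1)) i u j j' / cr (Uf st V s) i u j j' - 1) < 1 := by
    intro s
    have hs := hG.get s
    have hWs : Wf st V (s + 1) = fun i => pw (st[s]).2 (Uf st V s i) := Wf_succ st V s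
    obtain ⟨rel, d, hS, hR⟩ := hs.2.2.2 n (Uf st V s) hn (hU s) (fun a b c d hD => by
      have h1 := hk a b c d hD (s + 1) s.2
      have h2 := hk a b c d hD s s.2.le
      rw [← h2, ← gr_Uf2 hG s, hWs] at h1
      have hW1 := hW (s + 1) s.2
      rw [hWs] at hW1
      obtain ⟨d1, d2, d3, d4, d5, d6⟩ := hD
      have r2 := Fam.pos (v := v) (hU s) d2
      have r3 := Fam.pos (v := v) (hU s) d5
      have p2 : 0 < v (wd (pw (st[s]).2 (Uf st V s a)) (pw (st[s]).2 (Uf st V s c))) :=
        Fam.pos (v := v) hW1 d2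
      have p3 : 0 < v (wd (pw (st[s]).2 (Uf st V s b)) (pw (st[s]).2 (Uf st V s d))) :=
        Fam.pos (v := v) hW1 d5
      unfold gr at h1
      rw [div_eq_div_iff (by positivity) (by positivity)] at h1
      linear_combination h1)
    obtain ⟨d', hS'⟩ := stg_transport hRK hn hC (hU s) (fun a b c d hD => by
      rw [gr_Uf2 hG s]
      exact hk a b c d hD s s.2.le) hS
    refine ⟨rel, d', hS', fun i u j j' hD hr => ?_⟩
    have h1 := hR i u j j' hD hr
    have hW1 := hW (s + 1) s.2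
    rw [Wf_succ] at hW1 ⊢
    obtain ⟨n1, n2⟩ := cn_ne hW1 hD
    obtain ⟨m1, m2⟩ := cn_ne (hU s) hD
    have h2 : cr (fun i => pw (st[s]).2 (Uf st V s i)) i u j j' / cr (Uf st V s) i u j j' =
        (cn (fun i => pw (st[s]).2 (Uf st V s i)) i u j j' * cn (Uf st V s) i u j' j) /
        (cn (fun i => pw (st[s]).2 (Uf st V s i)) i u j' j * cn (Uf st V s) i u j j') := by
      unfold cr
      rw [div_div_div_eq]
    rw [h2, ← sub_lt_iff (mul_ne_zero n2 m1)]
    exact h1
  choose rel d hSt hR using hstage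
  refine ⟨c, rel, d, hC, hSt, fun i u j j' hD hr => ?_⟩
  have h1 := chain_cr2 hL hD hW hG (fun s => hR s i u j j' hD (hr s)) st.length le_rfl
  rw [← cr_mult hB hl hw i u j j'] at h1
  have hD' := Dis4.shift hD 1
  obtain ⟨n1, n2⟩ := cn_ne hV hD
  obtain ⟨m1, m2⟩ := cn_ne hV hD'
  have h2 : cr V (i + 1) (u + 1) (j + 1) (j' + 1) / cr V i u j j' =
      (cn V (i + 1) (u + 1) (j + 1) (j' + 1) * cn V i u j' j) /
      (cn V (i + 1) (u + 1) (j' + 1) (j + 1) * cn V i u j j') := by
    unfold cr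
    rw [div_div_div_eq]
  rw [h2, ← sub_lt_iff (mul_ne_zero m2 n1)] at h1
  exact h1

end Pool.Agent.N236.UR
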