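import Pool.Agent.N236.UR.Main
import Pool.Agent.N236.UR.DI3
import Pool.Agent.N236.UR.Geo2
import Pool.Agent.N803.UR.CRP
import Pool.Agent.N78.UR.Real
import Pool.Agent.N360.UR.GL1
import Pool.Agent.N278.UR.SC
import Pool.Agent.N222.UR.EP2
import Pool.Agent.N281.UR.GSP

/-!
# Project UR (helper236), part 3: all parts together
-/

set_option autoImplicit false

open Polynomial

namespace Pool.Agent.N236.UR

open Pool.Agent.N236.UB
open scoped LinearAlgebra.Projectivization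

theorem s_real : S_REAL := Pool.Agent.N78.UR.t_real Pool.Agent.N803.UR.t_crp
theorem s_gl1 : S_GL1 := Pool.Agent.N360.UR.t_gl1
theorem s_sc : S_SC := Pool.Agent.N278.UR.SC.t_sc
theorem s_ep2 : S_EP2 := Pool.Agent.N222.UR.t_ep2
theorem s_gsp : S_GSP := Pool.Agent.N281.UR.GSP.t_gsp s_sc s_ep2
theorem s_geo2 : S_GEO2 := t_geo2 s_rk s_conf

theorem main_di3' (D k p₁ p₂ : ℕ) (hk : 1 ≤ k) (h1 : p₁.Prime) (h2 : p₂.Prime) (hne : p₁ ≠ p₂) :
    ∃ N C : ℕ, 1 ≤ N ∧ ∀ (K : Type) [Field K] [NumberField K], Module.finrank ℚ K ≤ D →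
      ∀ φ : ℙ K (K × K) → ℙ K (K × K), PowMoeb (badM D p₁ p₂) k φ →
        (∀ P : ℙ K (K × K), (∃ m n : ℕ, m < n ∧ φ^[m] P = φ^[n] P) → φ^[N] P = P) ∧
        (Nonempty (K →+* ℝ) →
          {P : ℙ K (K × K) | ∃ m n : ℕ, m < n ∧ φ^[m] P = φ^[n] P}.Finite ∧
          {P : ℙ K (K × K) | ∃ m n : ℕ, m < n ∧ φ^[m] P = φ^[n] P}.ncard ≤ C) :=
  main_di3 s_place s_gl1 s_gsp s_geo2 s_comb s_real D k p₁ p₂ hk h1 h2 hne

/-- change of the condition on the exponents -/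
theorem PowMoeb.mono {K : Type} [Field K] {b b' k : ℕ} {φ : ℙ K (K × K) → ℙ K (K × K)}
    (hb : ∀ m : ℕ, Nat.Coprime m b → Nat.Coprime m b') (h : PowMoeb b k φ) : PowMoeb b' k φ := by
  induction h with
  | mobius g => exact PowMoeb.mobius g
  | power m hm h => exact PowMoeb.power m hm (hb m h)
  | comp f g j k hf hg ihf ihg => exact PowMoeb.comp f g j k ihf ihg

end Pool.Agent.N236.UR
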