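import Pool.Agent.N236.UB.Def

/-!
# Project UR (helper236): definitions
Uniform bounds for rational periodic points of rational functions that are compositions of
Moebius transformations and powers.
-/

set_option autoImplicit false

open Polynomial

namespace Pool.Agent.N236.UR

open Pool.Agent.N236.UB

/-- wedge product of two vectors -/
def wd {L : Type} [Field L] (x y : L × L) : L := x.1 * y.2 - x.2 * y.1

/-- the power map on vectors -/
def pw {L : Type} [Field L] (l : ℕ) (x : L × L) : L × L := (x.1 ^ l, x.2 ^ l)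

/-- a linear map on vectors -/
def lin {L : Type} [Field L] (A : Matrix (Fin 2) (Fin 2) L) (x : L × L) : L × L :=
  (A 0 0 * x.1 + A 0 1 * x.2, A 1 0 * x.1 + A 1 1 * x.2)

/-- `max(|x1 y2|, |y1 x2|)` -/
noncomputable def mm {L : Type} [Field L] (v : AbsoluteValue L ℝ) (x y : L × L) : ℝ :=
  max (v (x.1 * y.2)) (v (x.2 * y.1))

/-- An `n`-periodic family of vectors, pairwise non-parallel modulo `n`. -/
def Fam {L : Type} [Field L] (n : ℕ) (V : ℤ → L × L) : Prop :=
  (∀ i : ℤ, V (i + n) = V i) ∧ (∀ i j : ℤ, wd (V i) (V j) = 0 ↔ (n : ℤ) ∣ i - j)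

/-- the metric -/
noncomputable def dl {L : Type} [Field L] (v : AbsoluteValue L ℝ) (V : ℤ → L × L) (c : ℤ → ℝ) (i j : ℤ) : ℝ :=
  c i * c j * v (wd (V i) (V j))

/-- A configuration: a family of vectors with a shift invariant metric `dl`. -/
def Cfg {L : Type} [Field L] (v : AbsoluteValue L ℝ) (n : ℕ) (V : ℤ → L × L) (c : ℤ → ℝ) : Prop :=
  Fam n V ∧ (∀ i, 0 < c i) ∧ (∀ i : ℤ, c (i + n) = c i) ∧
  (∀ i j : ℤ, dl v V c (i + 1) (j + 1) = dl v V c i j)

/-- Stage data: an equivalence relation `rel` and positive numbers `d` such that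
`dl i j = d i d j` for non related pairs and `dl i j < d i d j` for related pairs. -/
def Stg {L : Type} [Field L] (v : AbsoluteValue L ℝ) (n : ℕ) (V : ℤ → L × L) (c : ℤ → ℝ)
    (rel : ℤ → ℤ → Prop) (d : ℤ → ℝ) : Prop :=
  Equivalence rel ∧ (∀ i j j' : ℤ, (n : ℤ) ∣ j - j' → rel i j → rel i j') ∧
  (∀ i, 0 < d i) ∧ (∀ i : ℤ, d (i + n) = d i) ∧
  (∀ i j, ¬ rel i j → dl v V c i j = d i * d j) ∧ (∀ i j, rel i j → dl v V c i j < d i * d j)

/-- pairwise incongruent modulo `n` -/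
def Dis4 (n : ℕ) (a b c d : ℤ) : Prop :=
  ¬ (n : ℤ) ∣ a - b ∧ ¬ (n : ℤ) ∣ a - c ∧ ¬ (n : ℤ) ∣ a - d ∧
  ¬ (n : ℤ) ∣ b - c ∧ ¬ (n : ℤ) ∣ b - d ∧ ¬ (n : ℤ) ∣ c - d

/-- numerator and denominator of the change of cross-ratio under the shift -/
def qnum {L : Type} [Field L] (V : ℤ → L × L) (i u j j' : ℤ) : L :=
  wd (V (i+1)) (V (j+1)) * wd (V (u+1)) (V (j'+1)) * (wd (V i) (V j') * wd (V u) (V j))
def qden {L : Type} [Field L] (V : ℤ → L × L) (i u j j' : ℤ) : L :=
  wd (V (i+1)) (V (j'+1)) * wd (V (u+1)) (V (j+1)) * (wd (V i) (V j) * wd (V u) (V j'))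

/-- Full configuration with `k` stages: the cross-ratio `(i,u;j,j')` is unchanged modulo the maximal
ideal under the shift unless some stage separates both `i, u` and `j, j'`. -/
def Full {L : Type} [Field L] (v : AbsoluteValue L ℝ) (n k : ℕ) (V : ℤ → L × L) (c : ℤ → ℝ)
    (rel : Fin k → ℤ → ℤ → Prop) (d : Fin k → ℤ → ℝ) : Prop :=
  Cfg v n V c ∧ (∀ s, Stg v n V c (rel s) (d s)) ∧
  ∀ i u j j' : ℤ, Dis4 n i u j j' → (∀ s, rel s i u ∨ rel s j j') →
    v (qnum V i u j j' - qden V i u j j') < v (qden V i u j j')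

/-- displacement ratio under the shift by `M`, seen from `u` -/
def kap {L : Type} [Field L] (V : ℤ → L × L) (u M x y : ℤ) : L :=
  (wd (V (x+M)) (V (y+M)) * (wd (V x) (V u) * wd (V y) (V u))) /
  (wd (V x) (V y) * (wd (V (x+M)) (V u) * wd (V (y+M)) (V u)))

end Pool.Agent.N236.UR
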