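import Pool.Agent.N236.UR.Asm

/-!
# Project UR (helper236): final theorem
-/

set_option autoImplicit false

open Polynomial

namespace Pool.Agent.N236.UR

open Pool.Agent.N236.UB
open scoped LinearAlgebra.Projectivization

theorem good2 (hprime : S_PRIME) (d : ℕ) (hd : 1 ≤ d) : ∃ p₁ p₂ : ℕ, p₁ ≠ p₂ ∧ Good d p₁ ∧ Good d p₂ := by
  obtain ⟨p₁, h₁⟩ := hprime d hd
  have hpos : 1 ≤ d * p₁ := Nat.mul_pos hd h₁.1.pos
  obtain ⟨p₂, h₂⟩ := hprime (d * p₁) hpos
  refine ⟨p₁, p₂, ?_, h₁, h₂.1, ?_, ?_⟩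
  · rintro rfl
    exact h₂.2.1 (Dvd.intro_left _ rfl)
  · intro h
    exact h₂.2.1 (h.mul_right _)
  · intro l hl hld
    exact h₂.2.2 l hl (hld.mul_right _)

theorem len_le {K : Type} {M : ℕ} (st : List (Matrix (Fin 2) (Fin 2) K × ℕ))
    (h : ∀ s ∈ st, 2 ≤ s.2) : st.length + 1 ≤ (st.map Prod.snd).prod := by
  induction st with
  | nil => simp
  | cons s t ih =>
    have h1 := h s (by simp)
    have h2 := ih (fun s' hs' => h s' (by simp [hs']))
    rw [List.map_cons, List.prod_cons, List.length_cons]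
    nlinarith

section cyc

variable {K : Type} [Field K]

/-- Steps with good exponents. -/
def OK (M : ℕ) (st : List (Matrix (Fin 2) (Fin 2) K × ℕ)) : Prop :=
  ∀ s ∈ st, s.1.det ≠ 0 ∧ s.2.Prime ∧ M + 1 < s.2

theorem prime_dvd {M d : ℕ} {st : List (Matrix (Fin 2) (Fin 2) K × ℕ)}
    (hp : (st.map Prod.snd).prod = d) {s : Matrix (Fin 2) (Fin 2) K × ℕ} (hs : s ∈ st) : s.2 ∣ d := by
  rw [← hp]
  exact List.dvd_prod (List.mem_map_of_mem hs)

/-- Injectivity of the composition of steps modulo scalars. -/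
theorem run_inj (hepow : S_EPOW) (v : AbsoluteValue K ℝ) {p q e M : ℕ} (hv : Loc v p q e)
    (hp : p.Prime) (st : List (Matrix (Fin 2) (Fin 2) K × ℕ))
    (h : ∀ s ∈ st, s.1.det ≠ 0 ∧ 2 ≤ s.2 ∧ ¬ p ∣ s.2 ∧ Nat.Coprime s.2 (q - 1)) :
    ∀ x y : K × K, wd x y ≠ 0 → wd (run st x) (run st y) ≠ 0 := by
  induction st with
  | nil => intro x y h; exact h
  | cons s t ih =>
    intro x y hxy
    have hs := h s (by simp)
    apply ih (fun s' hs' => h s' (by simp [hs']))
    have h1 : wd (lin s.1 x) (lin s.1 y) ≠ 0 := by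
      rw [wd_lin]
      exact mul_ne_zero hs.1 hxy
    have h2 := (hepow K v p q e s.2 hv hp (by omega) hs.2.2.1 hs.2.2.2).1 (lin s.1 x) (lin s.1 y)
    intro h3
    rw [h3, map_zero] at h2
    have h4 : 0 < v (wd (lin s.1 x) (lin s.1 y)) := v.pos h1
    have h5 : 0 < mm v (lin s.1 x) (lin s.1 y) := by
      unfold mm
      by_contra hcon
      push Not at hcon
      have h6 : v ((lin s.1 x).1 * (lin s.1 y).2) = 0 :=
        le_antisymm ((le_max_left _ _).trans hcon) (v.nonneg _)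
      have h7 : v ((lin s.1 x).2 * (lin s.1 y).1) = 0 :=
        le_antisymm ((le_max_right _ _).trans hcon) (v.nonneg _)
      rw [AbsoluteValue.eq_zero] at h6 h7
      apply h1
      unfold wd
      rw [h6, h7, sub_zero]
    have h8 : 0 < v (wd (lin s.1 x) (lin s.1 y)) * mm v (lin s.1 x) (lin s.1 y) ^ (s.2 - 1) :=
      mul_pos h4 (pow_pos h5 _)
    linarith

theorem st_good {M d p f : ℕ} {st : List (Matrix (Fin 2) (Fin 2) K × ℕ)} (hok : OK M st)
    (hprod : (st.map Prod.snd).prod = d) (hgood : Good d p) (hf1 : 1 ≤ f) (hfM : f ≤ M) :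
    ∀ s ∈ st, s.1.det ≠ 0 ∧ 2 ≤ s.2 ∧ ¬ p ∣ s.2 ∧ Nat.Coprime s.2 (p ^ f - 1) := by
  intro s hs
  obtain ⟨h1, h2, h3⟩ := hok s hs
  have hd : s.2 ∣ d := prime_dvd (M := M) hprod hs
  refine ⟨h1, h2.two_le, fun h => hgood.2.1 (h.trans hd), ?_⟩
  rw [Nat.Prime.coprime_iff_not_dvd h2]
  exact hgood.2.2 s.2 h2 hd f hf1 (by omega)

variable [NumberField K]

theorem phi_inj (hplace : S_PLACE) (hepow : S_EPOW) {M d p : ℕ} (hM : Module.finrank ℚ K ≤ M)
    (hgood : Good d p) {φ : ℙ K (K × K) → ℙ K (K × K)} {st : List (Matrix (Fin 2) (Fin 2) K × ℕ)}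
    {B : Matrix (Fin 2) (Fin 2) K} (hok : OK M st) (hB : B.det ≠ 0)
    (hprod : (st.map Prod.snd).prod = d)
    (hφ : ∀ (x : K × K) (hx : x ≠ 0) (hy : lin B (run st x) ≠ 0),
        φ (Projectivization.mk K x hx) = Projectivization.mk K (lin B (run st x)) hy) :
    Function.Injective φ := by
  obtain ⟨v, f, e, hf1, hfM, he1, heM, hv⟩ := hplace K M p hgood.1 hM
  have hst := st_good hok hprod hgood hf1 hfM
  intro P Q hPQ
  induction P using Projectivization.ind with
  | h x hx =>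
  induction Q using Projectivization.ind with
  | h y hy =>
  have hne : ∀ s ∈ st, s.1.det ≠ 0 ∧ s.2 ≠ 0 := fun s hs => ⟨(hst s hs).1, by have := (hst s hs).2.1; omega⟩
  have h1 : lin B (run st x) ≠ 0 := lin_ne_zero hB (run_ne_zero st hne hx)
  have h2 : lin B (run st y) ≠ 0 := lin_ne_zero hB (run_ne_zero st hne hy)
  rw [hφ x hx h1, hφ y hy h2, ← wd_eq_zero_iff h1 h2, wd_lin] at hPQ
  have h3 := (mul_eq_zero.mp hPQ).resolve_left hB
  rw [← wd_eq_zero_iff hx hy]
  by_contra h4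
  exact run_inj (M := M) hepow v hv hgood.1 st hst x y h4 h3

/-- the bound for cycles at one prime -/
theorem cyc_bound (hplace : S_PLACE) (hgeo : S_GEO) (hcomb : S_COMB) {M d p : ℕ}
    (hM : Module.finrank ℚ K ≤ M)
    (hgood : Good d p) {φ : ℙ K (K × K) → ℙ K (K × K)} {st : List (Matrix (Fin 2) (Fin 2) K × ℕ)}
    {B : Matrix (Fin 2) (Fin 2) K} (hok : OK M st) (hB : B.det ≠ 0)
    (hprod : (st.map Prod.snd).prod = d)
    (hφ : ∀ (x : K × K) (hx : x ≠ 0) (hy : lin B (run st x) ≠ 0),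
        φ (Projectivization.mk K x hx) = Projectivization.mk K (lin B (run st x)) hy)
    (P : ℙ K (K × K)) (n : ℕ) (hn : 4 ≤ n) (hmin : Function.minimalPeriod φ P = n) :
    ∀ r : ℕ, r.Prime → (r ∣ n → r ≤ p ^ M + 1) ∧ (r ≠ p → ∀ a : ℕ, r ^ a ∣ n → a ≤ (2 * d + 2) * p ^ M) := by
  obtain ⟨v, f, e, hf1, hfM, he1, heM, hv⟩ := hplace K M p hgood.1 hM
  have hst := st_good hok hprod hgood hf1 hfM
  have hne : ∀ s ∈ st, s.1.det ≠ 0 ∧ s.2 ≠ 0 := fun s hs => ⟨(hst s hs).1, by have := (hst s hs).2.1; omega⟩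
  have hn0 : (0 : ℤ) < n := by exact_mod_cast (by omega : 0 < n)
  set V : ℤ → K × K := fun i => (φ^[(i % n).toNat] P).rep with hV
  have hVne : ∀ i, V i ≠ 0 := fun i => Projectivization.rep_nonzero _
  have hVmk : ∀ i, Projectivization.mk K (V i) (hVne i) = φ^[(i % n).toNat] P := fun i =>
    Projectivization.mk_rep _
  have hfam : Fam n V := by
    constructor
    · intro i
      simp only [hV]
      rw [Int.add_emod_right]
    · intro i j
      rw [wd_eq_zero_iff (hVne i) (hVne j), hVmk, hVmk]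
      have e1 : (i % n).toNat < n := by
        have := Int.emod_lt_of_pos i hn0
        have h0 := Int.emod_nonneg i hn0.ne'
        omega
      have e2 : (j % n).toNat < n := by
        have := Int.emod_lt_of_pos j hn0
        have h0 := Int.emod_nonneg j hn0.ne'
        omega
      rw [Function.iterate_eq_iterate_iff_of_lt_minimalPeriod (by rw [hmin]; exact e1) (by rw [hmin]; exact e2)]
      have h0 := Int.emod_nonneg i hn0.ne'
      have h1 := Int.emod_nonneg j hn0.ne'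
      constructor
      · intro h
        have : i % n = j % n := by omega
        exact Int.emod_emod_of_dvd i (dvd_refl (n : ℤ)) |> fun _ => (Int.modEq_iff_dvd.mp (show j ≡ i [ZMOD n] from this.symm))
      · intro h
        have : j ≡ i [ZMOD n] := Int.modEq_iff_dvd.mpr h
        have h2 : j % n = i % n := this
        rw [h2]
  have hcyc : ∀ i, wd (lin B (run st (V i))) (V (i + 1)) = 0 := by
    intro i
    have h1 : lin B (run st (V i)) ≠ 0 := lin_ne_zero hB (run_ne_zero st hne (hVne i))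
    rw [wd_eq_zero_iff h1 (hVne (i + 1)), ← hφ (V i) (hVne i) h1, hVmk, hVmk]
    rw [← Function.iterate_succ_apply' φ]
    have hper : Function.IsPeriodicPt φ n P := hmin ▸ Function.isPeriodicPt_minimalPeriod φ P
    have h0 := Int.emod_nonneg i hn0.ne'
    have hlt := Int.emod_lt_of_pos i hn0
    by_cases hc : i % n + 1 = n
    · have e1 : (i % n).toNat + 1 = n := by omega
      have e2 : ((i + 1) % n).toNat = 0 := by
        have : (i + 1) % n = 0 := by
          rw [Int.add_emod]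
          have : i % n = n - 1 := by omega
          rw [this]
          rcases Nat.lt_or_ge 1 n with h | h
          · have h1n : (1 : ℤ) % n = 1 := Int.emod_eq_of_lt (by norm_num) (by exact_mod_cast h)
            rw [h1n]
            simp
          · omega
        rw [this]; rfl
      rw [Nat.succ_eq_add_one, e1, e2]
      exact hper
    · have e2 : ((i + 1) % n).toNat = (i % n).toNat + 1 := by
        have : (i + 1) % n = i % n + 1 := by
          rw [Int.add_emod]
          have h1n : (1 : ℤ) % n = 1 := Int.emod_eq_of_lt (by norm_num) (by omega)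
          rw [h1n]
          exact Int.emod_eq_of_lt (by omega) (by omega)
        rw [this]; omega
      rw [e2]
  obtain ⟨c, rel, dd, hfull⟩ := hgeo K v p (p ^ f) e hv hgood.1 st B hst hB n V hn hfam hcyc
  have hmain := hcomb K v p (p ^ f) e n st.length V c rel dd hv hgood.1 hn hfull
  have hqle : p ^ f ≤ p ^ M := Nat.pow_le_pow_right hgood.1.pos hfM
  have hlen : st.length ≤ d := by
    have := len_le (M := M) st (fun s hs => (hst s hs).2.1)
    omega
  intro r hr
  refine ⟨fun h => ((hmain r hr).1 h).trans (by omega), fun h a ha => ((hmain r hr).2 h a ha).trans ?_⟩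
  exact Nat.mul_le_mul (by omega) hqle

end cyc

/-- uniform period -/
def NP (p₁ p₂ M d : ℕ) : ℕ :=
  6 * (Nat.factorial (max (p₁ ^ M) (p₂ ^ M) + 1)) ^ ((2 * d + 2) * max (p₁ ^ M) (p₂ ^ M))

theorem dvd_NP {p₁ p₂ M d n : ℕ} (hne : p₁ ≠ p₂) (hn : 1 ≤ n)
    (h1 : 4 ≤ n → ∀ r : ℕ, r.Prime → (r ∣ n → r ≤ p₁ ^ M + 1) ∧ (r ≠ p₁ → ∀ a : ℕ, r ^ a ∣ n → a ≤ (2 * d + 2) * p₁ ^ M))
    (h2 : 4 ≤ n → ∀ r : ℕ, r.Prime → (r ∣ n → r ≤ p₂ ^ M + 1) ∧ (r ≠ p₂ → ∀ a : ℕ, r ^ a ∣ n → a ≤ (2 * d + 2) * p₂ ^ M)) :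
    n ∣ NP p₁ p₂ M d := by
  unfold NP
  set Q := max (p₁ ^ M) (p₂ ^ M) with hQ
  rcases Nat.lt_or_ge n 4 with h | h
  · have : n ∣ 6 := by
      interval_cases n <;> decide
    exact this.mul_right _
  · apply Dvd.dvd.mul_left
    rw [Nat.dvd_iff_prime_pow_dvd_dvd]
    intro r a hr ha
    rcases Nat.eq_zero_or_pos a with rfl | hapos
    · simp
    have hrn : r ∣ n := (dvd_pow_self r (by omega)).trans ha
    have hrle : r ≤ Q + 1 := ((h1 h r hr).1 hrn).trans (by have := le_max_left (p₁ ^ M) (p₂ ^ M); omega)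
    have hrf : r ∣ Nat.factorial (Q + 1) := Nat.dvd_factorial hr.pos hrle
    have hale : a ≤ (2 * d + 2) * Q := by
      by_cases hr1 : r = p₁
      · have hr2 : r ≠ p₂ := by rw [hr1]; exact hne
        exact ((h2 h r hr).2 hr2 a ha).trans (Nat.mul_le_mul_left _ (le_max_right _ _))
      · exact ((h1 h r hr).2 hr1 a ha).trans (Nat.mul_le_mul_left _ (le_max_left _ _))
    exact (pow_dvd_pow r hale).trans (pow_dvd_pow_of_dvd hrf _)

theorem moebPow_iter {K : Type} [Field K] {M : ℕ} {φ : ℙ K (K × K) → ℙ K (K × K)} {d : ℕ}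
    (h : MoebPow M φ d) (n : ℕ) : MoebPow M φ^[n + 1] (d ^ (n + 1)) := by
  induction n with
  | zero => simpa using h
  | succ n ih =>
    have e : φ^[n + 1 + 1] = φ ∘ φ^[n + 1] := by
      funext x
      exact Function.iterate_succ_apply' φ (n + 1) x
    rw [e, pow_succ' d (n + 1)]
    exact MoebPow.comp _ _ _ _ h ih

end Pool.Agent.N236.UR
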