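import Pool.Agent.N236.UR.Asm5

/-!
# Project UR (helper236), part 4: final theorem
-/

set_option autoImplicit false

open Polynomial

namespace Pool.Agent.N236.UR

open Pool.Agent.N236.UB
open scoped LinearAlgebra.Projectivization

section cyc

variable {K : Type} [Field K]

theorem len_le5 (st : List (Matrix (Fin 2) (Fin 2) K × Sg K))
    (h : ∀ s ∈ st, 2 ≤ s.2.deg) : st.length + 1 ≤ (st.map fun s => s.2.deg).prod := by
  induction st with
  | nil => simp
  | cons s t ih =>
    have h1 := h s (by simp)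
    have h2 := ih (fun s' hs' => h s' (by simp [hs']))
    rw [List.map_cons, List.prod_cons, List.length_cons]
    nlinarith

theorem gs_of5 (hgl : S_GL1) (hgsp : S_GSP) (hdgs : S_DGS) {M d p f e : ℕ} {v : AbsoluteValue K ℝ}
    {st : List (Matrix (Fin 2) (Fin 2) K × Sg K)} (hok : ∀ s ∈ st, s.1.det ≠ 0 ∧ SgOK M s.2)
    (hprod : (st.map fun s => s.2.deg).prod = d) (hgood : Good d p) (hf1 : 1 ≤ f) (hfM : f ≤ M)
    (hv : Loc v p (p ^ f) e) : ∀ s ∈ st, s.1.det ≠ 0 ∧ GS v s.2.fn := by
  rintro ⟨A, s⟩ hs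
  obtain ⟨h1, h2⟩ := hok (A, s) hs
  have hdvd : s.deg ∣ d := by
    rw [← hprod]
    exact List.dvd_prod (List.mem_map_of_mem hs)
  refine ⟨h1, ?_⟩
  cases s with
  | pow l =>
    obtain ⟨h3, h4⟩ := h2
    have hpl : ¬ p ∣ l := fun h => hgood.2.1 (h.trans hdvd)
    refine hgsp K v l hv.1 (hgl K v p (p ^ f) e l hv hgood.1 h3.two_le ?_ (Or.inl hpl))
    rw [Nat.Prime.coprime_iff_not_dvd h3]
    exact hgood.2.2 l h3 hdvd f hf1 (by omega)
  | dic l α =>
    obtain ⟨h3, h4⟩ := h2
    have hpl : ¬ p ∣ l := fun h => hgood.2.1 (h.trans hdvd)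
    refine hdgs K v p (p ^ f) e l hv hgood.1 h3 hpl ?_ α
    rw [Nat.Prime.coprime_iff_not_dvd h3, ← pow_mul]
    exact hgood.2.2 l h3 hdvd (f * 2) (by omega) (by omega)

/-- Injectivity of the composition of good steps modulo scalars. -/
theorem runS_inj (v : AbsoluteValue K ℝ) (st : List (Matrix (Fin 2) (Fin 2) K × Sg K))
    (h : ∀ s ∈ st, s.1.det ≠ 0 ∧ GS v s.2.fn) :
    ∀ x y : K × K, wd x y ≠ 0 → wd (runS st x) (runS st y) ≠ 0 := by
  induction st with
  | nil => intro x y h; exact h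
  | cons s t ih =>
    intro x y hxy
    have hs := h s (by simp)
    apply ih (fun s' hs' => h s' (by simp [hs']))
    intro h0
    rw [hs.2.1, wd_lin] at h0
    exact mul_ne_zero hs.1 hxy h0

variable [NumberField K]

theorem inj5 (hplace : S_PLACE) (hgl : S_GL1) (hgsp : S_GSP) (hdgs : S_DGS) {M d p : ℕ}
    (hM : Module.finrank ℚ K ≤ M) (hgood : Good d p)
    {st : List (Matrix (Fin 2) (Fin 2) K × Sg K)}
    {B : Matrix (Fin 2) (Fin 2) K} (hok : ∀ s ∈ st, s.1.det ≠ 0 ∧ SgOK M s.2) (hB : B.det ≠ 0)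
    (hprod : (st.map fun s => s.2.deg).prod = d) (x y : K × K)
    (h : wd (lin B (runS st x)) (lin B (runS st y)) = 0) : wd x y = 0 := by
  obtain ⟨v, f, e, hf1, hfM, he1, heM, hv⟩ := hplace K M p hgood.1 hM
  have hst := gs_of5 hgl hgsp hdgs hok hprod hgood hf1 hfM hv
  rw [wd_lin] at h
  have h3 := (mul_eq_zero.mp h).resolve_left hB
  by_contra h4
  exact runS_inj v st hst x y h4 h3

/-- the bound for cycles at one prime -/
theorem cyc_bound5 (hplace : S_PLACE) (hgl : S_GL1) (hgsp : S_GSP) (hdgs : S_DGS) (hgeo : S_GEO3) (hcomb : S_COMB) {M d p : ℕ}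
    (hM : Module.finrank ℚ K ≤ M)
    (hgood : Good d p) {φ : ℙ K (K × K) → ℙ K (K × K)} {st : List (Matrix (Fin 2) (Fin 2) K × Sg K)}
    {B : Matrix (Fin 2) (Fin 2) K} (hok : ∀ s ∈ st, s.1.det ≠ 0 ∧ SgOK M s.2) (hB : B.det ≠ 0)
    (hprod : (st.map fun s => s.2.deg).prod = d)
    (hφ : ∀ (x : K × K) (hx : x ≠ 0) (hy : lin B (runS st x) ≠ 0),
        φ (Projectivization.mk K x hx) = Projectivization.mk K (lin B (runS st x)) hy)
    (P : ℙ K (K × K)) (n : ℕ) (hn : 4 ≤ n) (hmin : Function.minimalPeriod φ P = n) :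
    ∀ r : ℕ, r.Prime → (r ∣ n → r ≤ p ^ M + 1) ∧ (r ≠ p → ∀ a : ℕ, r ^ a ∣ n → a ≤ (2 * d + 2) * p ^ M) := by
  obtain ⟨v, f, e, hf1, hfM, he1, heM, hv⟩ := hplace K M p hgood.1 hM
  have hst := gs_of5 hgl hgsp hdgs hok hprod hgood hf1 hfM hv
  obtain ⟨mm, hrun⟩ := hom_runS st (fun s hs => ⟨(hst s hs).1, (hok s hs).2.prime.ne_zero⟩)
  have hn0 : (0 : ℤ) < n := by exact_mod_cast (by omega : 0 < n)
  set V : ℤ → K × K := fun i => (φ^[(i % n).toNat] P).rep with hV
  have hVne : ∀ i, V i ≠ 0 := fun i => Projectivization.rep_nonzero _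
  have hVmk : ∀ i, Projectivization.mk K (V i) (hVne i) = φ^[(i % n).toNat] P := fun i =>
    Projectivization.mk_rep _
  have hfam : Fam n V := by
    constructor
    · intro i
      simp only [hV]
      rw [Int.add_emod_right]
    · intro i j
      rw [wd_eq_zero_iff (hVne i) (hVne j), hVmk, hVmk]
      have e1 : (i % n).toNat < n := by
        have := Int.emod_lt_of_pos i hn0
        have h0 := Int.emod_nonneg i hn0.ne'
        omega
      have e2 : (j % n).toNat < n := by
        have := Int.emod_lt_of_pos j hn0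
        have h0 := Int.emod_nonneg j hn0.ne'
        omega
      rw [Function.iterate_eq_iterate_iff_of_lt_minimalPeriod (by rw [hmin]; exact e1) (by rw [hmin]; exact e2)]
      have h0 := Int.emod_nonneg i hn0.ne'
      have h1 := Int.emod_nonneg j hn0.ne'
      constructor
      · intro h
        have : i % n = j % n := by omega
        exact Int.emod_emod_of_dvd i (dvd_refl (n : ℤ)) |> fun _ => (Int.modEq_iff_dvd.mp (show j ≡ i [ZMOD n] from this.symm))
      · intro h
        have : j ≡ i [ZMOD n] := Int.modEq_iff_dvd.mpr h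
        have h2 : j % n = i % n := this
        rw [h2]
  have hcyc : ∀ i, wd (lin B (runS st (V i))) (V (i + 1)) = 0 := by
    intro i
    have h1 : lin B (runS st (V i)) ≠ 0 := lin_ne_zero hB (hrun.2 _ (hVne i))
    rw [wd_eq_zero_iff h1 (hVne (i + 1)), ← hφ (V i) (hVne i) h1, hVmk, hVmk]
    rw [← Function.iterate_succ_apply' φ]
    have hper : Function.IsPeriodicPt φ n P := hmin ▸ Function.isPeriodicPt_minimalPeriod φ P
    have h0 := Int.emod_nonneg i hn0.ne'
    have hlt := Int.emod_lt_of_pos i hn0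
    by_cases hc : i % n + 1 = n
    · have e1 : (i % n).toNat + 1 = n := by omega
      have e2 : ((i + 1) % n).toNat = 0 := by
        have : (i + 1) % n = 0 := by
          rw [Int.add_emod]
          have : i % n = n - 1 := by omega
          rw [this]
          rcases Nat.lt_or_ge 1 n with h | h
          · have h1n : (1 : ℤ) % n = 1 := Int.emod_eq_of_lt (by norm_num) (by exact_mod_cast h)
            rw [h1n]
            simp
          · omega
        rw [this]; rfl
      rw [Nat.succ_eq_add_one, e1, e2]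
      exact hper
    · have e2 : ((i + 1) % n).toNat = (i % n).toNat + 1 := by
        have : (i + 1) % n = i % n + 1 := by
          rw [Int.add_emod]
          have h1n : (1 : ℤ) % n = 1 := Int.emod_eq_of_lt (by norm_num) (by omega)
          rw [h1n]
          exact Int.emod_eq_of_lt (by omega) (by omega)
        rw [this]; omega
      rw [e2]
  obtain ⟨c, rel, dd, hfull⟩ := hgeo K v p (p ^ f) e hv st B hst hB n V hn hfam hcyc
  have hmain := hcomb K v p (p ^ f) e n st.length V c rel dd hv hgood.1 hn hfull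
  have hqle : p ^ f ≤ p ^ M := Nat.pow_le_pow_right hgood.1.pos hfM
  have hlen : st.length ≤ d := by
    have := len_le5 st (fun s hs => (hok s hs).2.prime.two_le)
    omega
  intro r hr
  refine ⟨fun h => ((hmain r hr).1 h).trans (by omega), fun h a ha => ((hmain r hr).2 h a ha).trans ?_⟩
  exact Nat.mul_le_mul (by omega) hqle

end cyc

end Pool.Agent.N236.UR
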