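import Pool.Agent.N236.UR.Stm5
import Pool.Agent.N236.UR.Geo2

/-!
# Project UR (helper236), part 4: a cycle gives a full configuration, lists of stages
After the file of helper87.
-/

set_option autoImplicit false

open Polynomial

namespace Pool.Agent.N236.UR

open Pool.Agent.N236.UB Pool.Agent.N87.UR

section runs

variable {L : Type} [Field L]

theorem runS_append (s t : List (Matrix (Fin 2) (Fin 2) L × Sg L)) (x : L × L) :
    runS (s ++ t) x = runS t (runS s x) := by
  induction s generalizing x with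
  | nil => rfl
  | cons a s ih => exact ih _

/-- the partial runs -/
noncomputable def WS (st : List (Matrix (Fin 2) (Fin 2) L × Sg L)) (V : ℤ → L × L) (s : ℕ) (i : ℤ) : L × L :=
  runS (st.take s) (V i)

/-- after the linear map of the next step -/
noncomputable def US (st : List (Matrix (Fin 2) (Fin 2) L × Sg L)) (V : ℤ → L × L) (s : Fin st.length)
    (i : ℤ) : L × L := lin (st[s]).1 (WS st V s i)

variable (st : List (Matrix (Fin 2) (Fin 2) L × Sg L)) (V : ℤ → L × L)

theorem WS_zero : WS st V 0 = V := by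
  funext i
  unfold WS
  rw [List.take_zero]
  rfl

theorem WS_succ (s : Fin st.length) : WS st V (s + 1) = fun i => (st[s]).2.fn (US st V s i) := by
  funext i
  unfold WS US
  have h : st.take ((s : ℕ) + 1) = st.take s ++ [st[s]] := (List.take_append_getElem s.2).symm
  rw [h, runS_append]
  rfl

theorem WS_length (i : ℤ) : WS st V st.length i = runS st (V i) := by
  unfold WS
  rw [List.take_length]

end runs

section main

variable {L : Type} [Field L] {v : AbsoluteValue L ℝ} {n : ℕ}
  {st : List (Matrix (Fin 2) (Fin 2) L × Sg L)} {V : ℤ → L × L}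

/-- the hypothesis on the steps -/
def Good3 (v : AbsoluteValue L ℝ) (st : List (Matrix (Fin 2) (Fin 2) L × Sg L)) : Prop :=
  ∀ s ∈ st, s.1.det ≠ 0 ∧ GS v s.2.fn

theorem Good3.get (h : Good3 v st) (s : Fin st.length) :
    (st[s]).1.det ≠ 0 ∧ GS v (st[s]).2.fn :=
  h _ (List.getElem_mem _)

theorem famW3 (h : Good3 v st) (hV : Fam n V) :
    ∀ s : ℕ, s ≤ st.length → Fam n (WS st V s) := by
  intro s
  induction s with
  | zero => intro _; rw [WS_zero]; exact hV
  | succ s ih =>
    intro hs
    have ih' := ih (Nat.le_of_succ_le hs)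
    have h1 := WS_succ st V ⟨s, hs⟩
    change WS st V (s + 1) = _ at h1
    rw [h1]
    exact fam_gs (v := v) (fam_lin ih' (h.get ⟨s, hs⟩).1) (h.get ⟨s, hs⟩).2

theorem famU3 (h : Good3 v st) (hV : Fam n V)
    (s : Fin st.length) : Fam n (US st V s) :=
  fam_lin (famW3 h hV s s.2.le) (h.get s).1

theorem gr_US3 (h : Good3 v st) (s : Fin st.length) (a b c d : ℤ) :
    gr v (US st V s) a b c d = gr v (WS st V s) a b c d :=
  gr_lin (WS st V s) (h.get s).1 a b c d

/-- the cross-ratio goes down along the stages -/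
theorem chain3 (h : Good3 v st) (hV : Fam n V)
    {a b c d : ℤ} (hD : Dis4 n a b c d) (hg : gr v V a b c d ≤ 1) :
    ∀ s : ℕ, s ≤ st.length → gr v (WS st V s) a b c d ≤ 1 ∧
      ∀ t : ℕ, t ≤ s → gr v (WS st V s) a b c d ≤ gr v (WS st V t) a b c d := by
  intro s
  induction s with
  | zero =>
    intro _
    rw [WS_zero]
    refine ⟨hg, fun t ht => ?_⟩
    obtain rfl : t = 0 := by omega
    rw [WS_zero]
  | succ s ih =>
    intro hs
    obtain ⟨ih1, ih2⟩ := ih (Nat.le_of_succ_le hs)
    have h1 := WS_succ st V ⟨s, hs⟩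
    change WS st V (s + 1) = _ at h1
    have hU : gr v (US st V ⟨s, hs⟩) a b c d = gr v (WS st V s) a b c d := gr_US3 h ⟨s, hs⟩ a b c d
    have hst := step2 (famU3 h hV ⟨s, hs⟩) (h.get ⟨s, hs⟩).2 hD (by rw [hU]; exact ih1)
    rw [hU] at hst
    rw [h1]
    refine ⟨hst.trans ih1, fun t ht => ?_⟩
    rcases Nat.lt_or_ge s t with h2 | h2
    · obtain rfl : t = s + 1 := by omega
      rw [h1]
    · exact hst.trans (ih2 t h2)

/-- equality at the end gives equality everywhere -/
theorem chain_eq3 (h : Good3 v st) (hV : Fam n V)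
    {a b c d : ℤ} (hD : Dis4 n a b c d) (hg : gr v V a b c d ≤ 1)
    (heq : gr v (WS st V st.length) a b c d = gr v V a b c d) :
    ∀ s : ℕ, s ≤ st.length → gr v (WS st V s) a b c d = gr v V a b c d := by
  intro s hs
  apply le_antisymm
  · have := (chain3 h hV hD hg s hs).2 0 (Nat.zero_le _)
    rwa [WS_zero] at this
  · rw [← heq]
    exact (chain3 h hV hD hg st.length le_rfl).2 s hs

/-- all cross-ratios are preserved: case `≤ 1` -/
theorem key03 (h : Good3 v st) (hV : Fam n V)
    {B : Matrix (Fin 2) (Fin 2) L} (hB : B.det ≠ 0) (hn : 4 ≤ n)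
    (hc : ∀ i, wd (lin B (runS st (V i))) (V (i + 1)) = 0)
    {a b c d : ℤ} (hD : Dis4 n a b c d) (hg : gr v V a b c d ≤ 1) :
    gr v (WS st V st.length) a b c d = gr v V a b c d := by
  obtain ⟨lam, hl, hw⟩ := mult (W := WS st V st.length) hB (by omega) hV
    (famW3 h hV _ le_rfl) (fun i => by rw [WS_length]; exact hc i)
  have hsh := gr_mult (v := v) hB hl hw
  -- one period
  have hmon : ∀ k : ℕ, gr v V (a + k) (b + k) (c + k) (d + k) ≤ 1 ∧
      gr v V (a + k) (b + k) (c + k) (d + k) ≤ gr v (WS st V st.length) a b c d ∨ k = 0 := by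
    intro k
    induction k with
    | zero => exact Or.inr rfl
    | succ k ih =>
      left
      have hk1 : gr v V (a + k) (b + k) (c + k) (d + k) ≤ 1 := by
        rcases ih with ih | ih
        · exact ih.1
        · rw [ih]
          simpa using hg
      have hch := (chain3 h hV (Dis4.shift hD (k : ℤ)) hk1 st.length le_rfl)
      have hs := hsh (a + k) (b + k) (c + k) (d + k)
      have e1 : ∀ x : ℤ, x + ((k + 1 : ℕ) : ℤ) = x + k + 1 := by intro x; push_cast; ring
      rw [e1, e1, e1, e1, hs]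
      refine ⟨hch.1, ?_⟩
      rcases ih with ih | ih
      · have := hch.2 0 (Nat.zero_le _)
        rw [WS_zero] at this
        exact this.trans ih.2
      · rw [ih]
        simp
  have hper : gr v V (a + (n : ℕ)) (b + (n : ℕ)) (c + (n : ℕ)) (d + (n : ℕ)) = gr v V a b c d := by
    unfold gr
    rw [hV.1, hV.1, hV.1, hV.1]
  apply le_antisymm
  · have := (chain3 h hV hD hg st.length le_rfl).2 0 (Nat.zero_le _)
    rwa [WS_zero] at this
  · rcases hmon n with h1 | h1
    · rw [hper] at h1
      exact h1.2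
    · omega

/-- all cross-ratios are preserved -/
theorem key3 (h : Good3 v st) (hV : Fam n V)
    {B : Matrix (Fin 2) (Fin 2) L} (hB : B.det ≠ 0) (hn : 4 ≤ n)
    (hc : ∀ i, wd (lin B (runS st (V i))) (V (i + 1)) = 0)
    {a b c d : ℤ} (hD : Dis4 n a b c d) :
    ∀ s : ℕ, s ≤ st.length → gr v (WS st V s) a b c d = gr v V a b c d := by
  rcases le_or_gt (gr v V a b c d) 1 with hg | hg
  · exact chain_eq3 h hV hD hg (key03 h hV hB hn hc hD hg)
  · have hg' : gr v V a c b d ≤ 1 := by
      rw [gr_swap]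
      exact inv_le_one_of_one_le₀ hg.le
    have h1 := chain_eq3 h hV (Dis4.swap hD) hg'
      (key03 h hV hB hn hc (Dis4.swap hD) hg')
    intro s hs
    have h3 := h1 s hs
    rw [gr_swap (WS st V s) a b c d, gr_swap V a b c d] at h3
    exact inv_injective h3

/-- the residues of the cross-ratios along the stages -/
theorem chain_cr3 {p q e : ℕ} (hL : Loc v p q e) {i u j j' : ℤ} (hD : Dis4 n i u j j')
    (hW : ∀ s : ℕ, s ≤ st.length → Fam n (WS st V s)) (h : Good3 v st)
    (hs : ∀ s : Fin st.length,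
      v (cr (WS st V (s + 1)) i u j j' / cr (US st V s) i u j j' - 1) < 1) :
    ∀ s : ℕ, s ≤ st.length → v (cr (WS st V s) i u j j' / cr V i u j j' - 1) < 1 := by
  have hcr : ∀ s : ℕ, s ≤ st.length → cr (WS st V s) i u j j' ≠ 0 := by
    intro s hs
    obtain ⟨h1, h2⟩ := cn_ne (hW s hs) hD
    exact div_ne_zero h1 h2
  have h0 : cr V i u j j' ≠ 0 := by
    have := hcr 0 (Nat.zero_le _)
    rwa [WS_zero] at this
  intro s
  induction s with
  | zero =>
    intro _
    rw [WS_zero, div_self h0, sub_self, map_zero]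
    exact one_pos
  | succ s ih =>
    intro hs1
    have h1 := ih (Nat.le_of_succ_le hs1)
    have h2 := hs ⟨s, hs1⟩
    have h3 : cr (US st V ⟨s, hs1⟩) i u j j' = cr (WS st V s) i u j j' :=
      cr_lin (WS st V s) (h.get ⟨s, hs1⟩).1 i u j j'
    rw [h3] at h2
    change v (cr (WS st V (s + 1)) i u j j' / cr (WS st V s) i u j j' - 1) < 1 at h2
    have h4 := one_mul_lt hL h2 h1
    rwa [div_mul_div_cancel₀ (hcr s (Nat.le_of_succ_le hs1))] at h4

end main

theorem t_geo3 (hRK : S_RK) (hCO : S_CONF) : S_GEO3 := by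
  intro L _ v p q e hL st B hst hB n V hn hV hc
  have hG : Good3 v st := hst
  have hW := famW3 hG hV
  have hU := famU3 hG hV
  have hk := fun (a b c d : ℤ) (hD : Dis4 n a b c d) => key3 hG hV hB hn hc hD
  obtain ⟨lam, hl, hw⟩ := mult (W := WS st V st.length) hB (by omega) hV
    (hW _ le_rfl) (fun i => by rw [WS_length]; exact hc i)
  have hsh := gr_mult (v := v) hB hl hw
  -- the metric
  obtain ⟨c, hC⟩ := hCO L v n V hn hV (fun a b c d hD => by
    have h1 : gr v V (a + 1) (b + 1) (c + 1) (d + 1) = gr v V a b c d := by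
      rw [hsh]
      exact hk a b c d hD _ le_rfl
    have hD' := Dis4.shift hD 1
    obtain ⟨h2, h3, h4, h5, h6, h7⟩ := hD
    obtain ⟨g2, g3, g4, g5, g6, g7⟩ := hD'
    unfold gr at h1
    have r2 := Fam.pos (v := v) hV h3
    have r3 := Fam.pos (v := v) hV h6
    have p2 := Fam.pos (v := v) hV g3
    have p3 := Fam.pos (v := v) hV g6
    rw [div_eq_div_iff (by positivity) (by positivity)] at h1
    linear_combination h1)
  -- the stages
  have hstage : ∀ s : Fin st.length, ∃ (rel : ℤ → ℤ → Prop) (d : ℤ → ℝ), Stg v n V c rel d ∧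
      ∀ i u j j' : ℤ, Dis4 n i u j j' → (rel i u ∨ rel j j') →
        v (cr (WS st V (s + 1)) i u j j' / cr (US st V s) i u j j' - 1) < 1 := by
    intro s
    have hs := hG.get s
    have hWs : WS st V (s + 1) = fun i => (st[s]).2.fn (US st V s i) := WS_succ st V s
    obtain ⟨rel, d, hS, hR⟩ := hs.2.2.2 n (US st V s) hn (hU s) (fun a b c d hD => by
      have h1 := hk a b c d hD (s + 1) s.2
      have h2 := hk a b c d hD s s.2.le
      rw [← h2, ← gr_US3 hG s, hWs] at h1
      have hW1 := hW (s + 1) s.2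
      rw [hWs] at hW1
      obtain ⟨d1, d2, d3, d4, d5, d6⟩ := hD
      have r2 := Fam.pos (v := v) (hU s) d2
      have r3 := Fam.pos (v := v) (hU s) d5
      have p2 : 0 < v (wd ((st[s]).2.fn (US st V s a)) ((st[s]).2.fn (US st V s c))) :=
        Fam.pos (v := v) hW1 d2
      have p3 : 0 < v (wd ((st[s]).2.fn (US st V s b)) ((st[s]).2.fn (US st V s d))) :=
        Fam.pos (v := v) hW1 d5
      unfold gr at h1
      rw [div_eq_div_iff (by positivity) (by positivity)] at h1
      linear_combination h1)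
    obtain ⟨d', hS'⟩ := stg_transport hRK hn hC (hU s) (fun a b c d hD => by
      rw [gr_US3 hG s]
      exact hk a b c d hD s s.2.le) hS
    refine ⟨rel, d', hS', fun i u j j' hD hr => ?_⟩
    have h1 := hR i u j j' hD hr
    have hW1 := hW (s + 1) s.2
    rw [WS_succ] at hW1 ⊢
    obtain ⟨n1, n2⟩ := cn_ne hW1 hD
    obtain ⟨m1, m2⟩ := cn_ne (hU s) hD
    have h2 : cr (fun i => (st[s]).2.fn (US st V s i)) i u j j' / cr (US st V s) i u j j' =
        (cn (fun i => (st[s]).2.fn (US st V s i)) i u j j' * cn (US st V s) i u j' j) /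
        (cn (fun i => (st[s]).2.fn (US st V s i)) i u j' j * cn (US st V s) i u j j') := by
      unfold cr
      rw [div_div_div_eq]
    rw [h2, ← sub_lt_iff (mul_ne_zero n2 m1)]
    exact h1
  choose rel d hSt hR using hstage
  refine ⟨c, rel, d, hC, hSt, fun i u j j' hD hr => ?_⟩
  have h1 := chain_cr3 hL hD hW hG (fun s => hR s i u j j' hD (hr s)) st.length le_rfl
  rw [← cr_mult hB hl hw i u j j'] at h1
  have hD' := Dis4.shift hD 1
  obtain ⟨n1, n2⟩ := cn_ne hV hD
  obtain ⟨m1, m2⟩ := cn_ne hV hD'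
  have h2 : cr V (i + 1) (u + 1) (j + 1) (j' + 1) / cr V i u j j' =
      (cn V (i + 1) (u + 1) (j + 1) (j' + 1) * cn V i u j' j) /
      (cn V (i + 1) (u + 1) (j' + 1) (j + 1) * cn V i u j j') := by
    unfold cr
    rw [div_div_div_eq]
  rw [h2, ← sub_lt_iff (mul_ne_zero m2 n1)] at h1
  exact h1

end Pool.Agent.N236.UR
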