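import Pool.Agent.N236.UR.Pre
import Pool.Agent.N87.UR.Geo

/-!
# Project UR (helper236): all parts together
-/

set_option autoImplicit false

open Polynomial

namespace Pool.Agent.N236.UR

open Pool.Agent.N236.UB
open scoped LinearAlgebra.Projectivization

theorem s_geo : S_GEO := Pool.Agent.N87.UR.t_geo s_epow s_rk s_conf s_stg

/-- For all `D` and `d ≥ 2` there are `N` and `C` such that for number fields of degree at most `D` and
compositions of Moebius maps and powers of prime exponents `> D + 1`, of degree `d`, all preperiodic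
points have a period dividing `N`, and there are at most `C`. -/
theorem main_all (D d : ℕ) (hd : 2 ≤ d) :
    ∃ N C : ℕ, 1 ≤ N ∧ ∀ (K : Type) [Field K] [NumberField K], Module.finrank ℚ K ≤ D →
      ∀ φ : ℙ K (K × K) → ℙ K (K × K), MoebPow D φ d →
        (∀ P : ℙ K (K × K), (∃ m n : ℕ, m < n ∧ φ^[m] P = φ^[n] P) → φ^[N] P = P) ∧
        {P : ℙ K (K × K) | ∃ m n : ℕ, m < n ∧ φ^[m] P = φ^[n] P}.Finite ∧
        {P : ℙ K (K × K) | ∃ m n : ℕ, m < n ∧ φ^[m] P = φ^[n] P}.ncard ≤ C :=
  main' s_geo D d hd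

end Pool.Agent.N236.UR
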