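import Pool.Agent.N236.UR.Top6
import Pool.Agent.N236.UR.DIMain3
import Pool.Agent.N236.UR.Geo3
import Pool.Agent.N322.UR.DV1
import Pool.Agent.N281.UR.MR4
import Pool.Agent.N492.UR.POS
import Pool.Agent.N7.UR.DE
import Pool.Agent.N985.UR.RED
import Pool.Agent.N591.UR.DGS
import Pool.Agent.N618.UR.CNT3

/-!
# Project UR (helper236), part 4: all parts together
-/

set_option autoImplicit false

open Polynomial

namespace Pool.Agent.N236.UR

open Pool.Agent.N236.UB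
open scoped LinearAlgebra.Projectivization

theorem s_dv1 : S_DV1 := Pool.Agent.N322.UR.t_dv1
theorem s_mr4 : S_MR4 := Pool.Agent.N281.UR.MR4.t_mr4
theorem s_pos : S_POS := Pool.Agent.N492.UR.t_pos
theorem s_de : S_DE := Pool.Agent.N7.UR.DE.t_de
theorem s_red : S_RED := Pool.Agent.N985.UR.RED.t_red s_de
theorem s_dgs : S_DGS := Pool.Agent.N591.UR.DGS.t_dgs s_dv1 s_mr4 s_pos s_red
theorem s_cnt3 : S_CNT3 := Pool.Agent.N618.UR.t_cnt3
theorem s_geo3 : S_GEO3 := t_geo3 s_rk s_conf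

theorem plAll_nf (K : Type) [Field K] [NumberField K] {D : ℕ} (hD : Module.finrank ℚ K ≤ D) :
    PlAll K D := by
  intro F _ _ _ M hM p hp
  have hF : NumberField F := NumberField.of_module_finite K F
  have hfin : Module.finrank ℚ F ≤ M := by
    have hst : IsScalarTower ℚ K F := inferInstance
    rw [← Module.finrank_mul_finrank ℚ K F]
    exact (Nat.mul_le_mul_right _ hD).trans hM
  obtain ⟨v, f, e, h1, h2, -, -, h⟩ := s_place F M p hp hfin
  exact ⟨v, f, e, h1, h2, h⟩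

theorem main6' (D b d : ℕ) (hd : 2 ≤ d) :
    ∃ N C : ℕ, 1 ≤ N ∧ ∀ (K : Type) [Field K] [CharZero K], PlAll K D →
      ∀ φ : ℙ (AlgebraicClosure K) (AlgebraicClosure K × AlgebraicClosure K) →
          ℙ (AlgebraicClosure K) (AlgebraicClosure K × AlgebraicClosure K),
        ExcP K (AlgebraicClosure K) (D * b) φ d →
        (∀ P, RatLe K b P → (∃ m n : ℕ, m < n ∧ φ^[m] P = φ^[n] P) → φ^[N] P = P) ∧
        {P | RatLe K b P ∧ ∃ m n : ℕ, m < n ∧ φ^[m] P = φ^[n] P}.Finite ∧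
        {P | RatLe K b P ∧ ∃ m n : ℕ, m < n ∧ φ^[m] P = φ^[n] P}.ncard ≤ C :=
  main6 s_prime s_gl1 s_gsp s_dgs s_geo3 s_comb s_cnt3 D b d hd

theorem main5' (D b d : ℕ) (hd : 2 ≤ d) :
    ∃ N C : ℕ, 1 ≤ N ∧ ∀ (K : Type) [Field K] [NumberField K], Module.finrank ℚ K ≤ D →
      ∀ φ : ℙ (AlgebraicClosure K) (AlgebraicClosure K × AlgebraicClosure K) →
          ℙ (AlgebraicClosure K) (AlgebraicClosure K × AlgebraicClosure K),
        ExcP K (AlgebraicClosure K) (D * b) φ d →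
        (∀ P, RatLe K b P → (∃ m n : ℕ, m < n ∧ φ^[m] P = φ^[n] P) → φ^[N] P = P) ∧
        {P | RatLe K b P ∧ ∃ m n : ℕ, m < n ∧ φ^[m] P = φ^[n] P}.Finite ∧
        {P | RatLe K b P ∧ ∃ m n : ℕ, m < n ∧ φ^[m] P = φ^[n] P}.ncard ≤ C := by
  obtain ⟨N, C, h1, h⟩ := main6' D b d hd
  exact ⟨N, C, h1, fun K _ _ hD φ hφ => h K (plAll_nf K hD) φ hφ⟩

end Pool.Agent.N236.UR
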