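import Pool.Agent.N236.UR.Main5
import Pool.Agent.N236.UR.DI7
import Pool.Agent.N186.UR.EXT1
import Pool.Agent.N722.UR.RESF
import Pool.Agent.N966.UR.DISC
import Pool.Agent.N562.UR.TRANS

/-!
# Project UR (helper236), part 5: all parts together
-/

set_option autoImplicit false

open Polynomial

namespace Pool.Agent.N236.UR

open Pool.Agent.N236.UB
open scoped LinearAlgebra.Projectivization

theorem s_ext1 : S_EXT1 := Pool.Agent.N186.UR.EXT1.t_ext1
theorem s_resf : S_RESF := Pool.Agent.N722.UR.t_resf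
theorem s_disc : S_DISC := Pool.Agent.N966.UR.t_disc
theorem s_trans : S_TRANS := Pool.Agent.N562.UR.t_trans

/-- The uniform bound over all finitely generated fields of degree at most `D`. -/
theorem main_fg (D b d : ℕ) (hd : 2 ≤ d) :
    ∃ N C : ℕ, 1 ≤ N ∧ ∀ (n : ℕ) (K : Type) [Field K]
      [Algebra (FractionRing (MvPolynomial (Fin n) ℚ)) K]
      [FiniteDimensional (FractionRing (MvPolynomial (Fin n) ℚ)) K],
      Module.finrank (FractionRing (MvPolynomial (Fin n) ℚ)) K ≤ D →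
      ∀ φ : ℙ (AlgebraicClosure K) (AlgebraicClosure K × AlgebraicClosure K) →
          ℙ (AlgebraicClosure K) (AlgebraicClosure K × AlgebraicClosure K),
        ExcP K (AlgebraicClosure K) (D * b) φ d →
        (∀ P, RatLe K b P → (∃ m n : ℕ, m < n ∧ φ^[m] P = φ^[n] P) → φ^[N] P = P) ∧
        {P | RatLe K b P ∧ ∃ m n : ℕ, m < n ∧ φ^[m] P = φ^[n] P}.Finite ∧
        {P | RatLe K b P ∧ ∃ m n : ℕ, m < n ∧ φ^[m] P = φ^[n] P}.ncard ≤ C := by
  obtain ⟨N, C, h1, h⟩ := main6' D b d hd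
  refine ⟨N, C, h1, fun n K _ _ _ hD φ hφ => ?_⟩
  haveI : CharZero (FractionRing (MvPolynomial (Fin n) ℚ)) :=
    charZero_of_injective_algebraMap
      (FaithfulSMul.algebraMap_injective ℚ (FractionRing (MvPolynomial (Fin n) ℚ)))
  haveI : CharZero K := charZero_of_injective_algebraMap
      (algebraMap (FractionRing (MvPolynomial (Fin n) ℚ)) K).injective
  exact h K (plAll_fg s_ext1 s_resf s_disc s_trans n K hD) φ hφ

/-- The bound independent of the degree over all finitely generated fields of degree at most `D`. -/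
theorem main_di_fg (D k p₁ p₂ : ℕ) (hk : 1 ≤ k) (h1 : p₁.Prime) (h2 : p₂.Prime) (hne : p₁ ≠ p₂) :
    ∃ N C : ℕ, 1 ≤ N ∧ ∀ (n : ℕ) (K : Type) [Field K]
      [Algebra (FractionRing (MvPolynomial (Fin n) ℚ)) K]
      [FiniteDimensional (FractionRing (MvPolynomial (Fin n) ℚ)) K],
      Module.finrank (FractionRing (MvPolynomial (Fin n) ℚ)) K ≤ D →
      ∀ φ : ℙ K (K × K) → ℙ K (K × K), PowMoeb (badM D p₁ p₂) k φ →
        (∀ P : ℙ K (K × K), (∃ m n : ℕ, m < n ∧ φ^[m] P = φ^[n] P) → φ^[N] P = P) ∧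
        (Nonempty (K →+* ℝ) →
          {P : ℙ K (K × K) | ∃ m n : ℕ, m < n ∧ φ^[m] P = φ^[n] P}.Finite ∧
          {P : ℙ K (K × K) | ∃ m n : ℕ, m < n ∧ φ^[m] P = φ^[n] P}.ncard ≤ C) := by
  rcases Nat.eq_zero_or_pos D with rfl | hD
  · refine ⟨1, 0, le_rfl, fun n K _ _ _ hD => ?_⟩
    have : 0 < Module.finrank (FractionRing (MvPolynomial (Fin n) ℚ)) K := Module.finrank_pos
    omega
  · obtain ⟨N, C, h3, h⟩ := main_di7 s_gl1 s_gsp s_geo2 s_comb s_real D k p₁ p₂ hD hk h1 h2 hne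
    exact ⟨N, C, h3, fun n K _ _ _ hK φ hφ =>
      h K (pl_fg s_ext1 s_resf s_disc s_trans n K hK) φ hφ⟩

end Pool.Agent.N236.UR
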