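import Pool.Agent.N236.UR.Def

/-!
# Project UR (helper236): statements of the parts
-/

set_option autoImplicit false

open Polynomial

namespace Pool.Agent.N236.UR

open Pool.Agent.N236.UB

/-- power maps on vectors: exact formula and four point inequality. -/
def S_EPOW : Prop := ∀ (L : Type) [Field L] (v : AbsoluteValue L ℝ) (p q e l : ℕ), Loc v p q e →
  p.Prime → 1 ≤ l → ¬ p ∣ l → Nat.Coprime l (q - 1) →
  (∀ x y : L × L, v (wd (pw l x) (pw l y)) = v (wd x y) * mm v x y ^ (l - 1)) ∧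
  (∀ a b c d : L × L, wd a b ≠ 0 → wd a c ≠ 0 → wd a d ≠ 0 → wd b c ≠ 0 → wd b d ≠ 0 → wd c d ≠ 0 →
    v (wd a b) * v (wd c d) ≤ v (wd a c) * v (wd b d) → mm v a b * mm v c d ≤ mm v a c * mm v b d)

/-- rank one lemma -/
def S_RK : Prop := ∀ (n : ℕ) (R : ℤ → ℤ → ℝ), 4 ≤ n → (∀ i j, R i j = R j i) →
  (∀ i j : ℤ, R (i + n) j = R i j) → (∀ i j, ¬ (n : ℤ) ∣ i - j → 0 < R i j) →
  (∀ a b c d : ℤ, Dis4 n a b c d → R a b * R c d = R a c * R b d) →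
  ∃ b : ℤ → ℝ, (∀ i, 0 < b i) ∧ (∀ i : ℤ, b (i + n) = b i) ∧ ∀ i j, ¬ (n : ℤ) ∣ i - j → R i j = b i * b j

/-- existence of the invariant metric -/
def S_CONF : Prop := ∀ (L : Type) [Field L] (v : AbsoluteValue L ℝ) (n : ℕ) (V : ℤ → L × L), 4 ≤ n →
  Fam n V → (∀ a b c d : ℤ, Dis4 n a b c d →
    v (wd (V (a+1)) (V (b+1))) * v (wd (V (c+1)) (V (d+1))) * (v (wd (V a) (V c)) * v (wd (V b) (V d))) =
    v (wd (V (a+1)) (V (c+1))) * v (wd (V (b+1)) (V (d+1))) * (v (wd (V a) (V b)) * v (wd (V c) (V d)))) →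
  ∃ c : ℤ → ℝ, Cfg v n V c

/-- the invariant metric is an ultrametric -/
def S_ULT : Prop := ∀ (L : Type) [Field L] (v : AbsoluteValue L ℝ) (p q e n : ℕ) (V : ℤ → L × L) (c : ℤ → ℝ),
  Loc v p q e → 4 ≤ n → Cfg v n V c →
    (∀ x y z : ℤ, dl v V c x y ≤ max (dl v V c x z) (dl v V c z y)) ∧
    (∀ x y t : ℤ, dl v V c (x + t) (y + t) = dl v V c x y) ∧
    (∀ x y : ℤ, dl v V c x y = dl v V c y x) ∧ (∀ x y : ℤ, dl v V c x y = 0 ↔ (n : ℤ) ∣ x - y) ∧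
    (∀ x y : ℤ, 0 ≤ dl v V c x y)

/-- the power stage. -/
def S_STG : Prop := ∀ (L : Type) [Field L] (v : AbsoluteValue L ℝ) (p q e l n : ℕ), Loc v p q e →
  p.Prime → 2 ≤ l → ¬ p ∣ l → Nat.Coprime l (q - 1) → 4 ≤ n → ∀ V : ℤ → L × L, Fam n V →
  (∀ a b c d : ℤ, Dis4 n a b c d → mm v (V a) (V b) * mm v (V c) (V d) = mm v (V a) (V c) * mm v (V b) (V d)) →
  ∃ (rel : ℤ → ℤ → Prop) (d : ℤ → ℝ), Stg v n V (fun _ => 1) rel d ∧
    ∀ i u j j' : ℤ, Dis4 n i u j j' → (rel i u ∨ rel j j') →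
      v (wd (pw l (V i)) (pw l (V j)) * wd (pw l (V u)) (pw l (V j')) * (wd (V i) (V j') * wd (V u) (V j)) -
         wd (pw l (V i)) (pw l (V j')) * wd (pw l (V u)) (pw l (V j)) * (wd (V i) (V j) * wd (V u) (V j'))) <
      v (wd (pw l (V i)) (pw l (V j')) * wd (pw l (V u)) (pw l (V j)) * (wd (V i) (V j) * wd (V u) (V j')))

/-- at most `q` points equidistant from each other and from `u`. -/
def S_RES : Prop := ∀ (L : Type) [Field L] (v : AbsoluteValue L ℝ) (p q e : ℕ), Loc v p q e →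
  ∀ (V : ℤ → L × L) (c : ℤ → ℝ) (u : ℤ) (f : Fin (q + 1) → ℤ) (s s' : ℝ), (∀ i, 0 < c i) → 0 < s → 0 < s' →
    (∀ a b, a ≠ b → dl v V c (f a) (f b) = s) → (∀ a, dl v V c (f a) u = s') → False

/-- growth of the distances in the subgroups of `r`-power order. -/
def S_GROW : Prop := ∀ (L : Type) [Field L] (v : AbsoluteValue L ℝ) (p q e n : ℕ) (V : ℤ → L × L) (c : ℤ → ℝ),
  Loc v p q e → 4 ≤ n → Cfg v n V c → ∀ r : ℕ, r.Prime →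
    (r ∣ n → r ≤ q + 1) ∧
    (∀ j : ℕ, 1 ≤ j → r ^ (j + q) ∣ n →
      dl v V c 0 ((n / r ^ j : ℕ) : ℤ) < dl v V c 0 ((n / r ^ (j + q) : ℕ) : ℤ))

/-- the exceptional depth of a stage -/
def S_CLE : Prop := ∀ (L : Type) [Field L] (v : AbsoluteValue L ℝ) (p q e n : ℕ) (V : ℤ → L × L) (c : ℤ → ℝ)
  (rel : ℤ → ℤ → Prop) (d : ℤ → ℝ), Loc v p q e → 4 ≤ n → Cfg v n V c → Stg v n V c rel d →
  ∃ ρ : ℝ, ∀ x u y y' : ℤ, dl v V c x y < dl v V c x u → dl v V c x y' < dl v V c x u →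
    ¬ rel x u → ¬ rel y y' → min (dl v V c x y) (dl v V c x y') ≤ ρ ∧ ρ ≤ max (dl v V c x y) (dl v V c x y')

/-- displacement ratios are constant modulo the maximal ideal in a window without exceptional depth. -/
def S_KAP : Prop := ∀ (L : Type) [Field L] (v : AbsoluteValue L ℝ) (p q e n k : ℕ) (V : ℤ → L × L) (c : ℤ → ℝ)
  (rel : Fin k → ℤ → ℤ → Prop) (d : Fin k → ℤ → ℝ), Loc v p q e → 4 ≤ n → Full v n k V c rel d →
  ∀ (s s' : ℝ) (u : ℤ), 0 < s → s ≤ s' → s' < dl v V c 0 u →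
    (∀ x u' y y' : ℤ, s ≤ dl v V c x y → dl v V c x y ≤ s' → s ≤ dl v V c x y' → dl v V c x y' ≤ s' →
      s' < dl v V c x u' → ∀ t, rel t x u' ∨ rel t y y') →
    ∀ M : ℤ, dl v V c 0 M ≤ s' → ∀ x y x' y' : ℤ,
      dl v V c 0 x ≤ s' → dl v V c 0 y ≤ s' → dl v V c 0 x' ≤ s' → dl v V c 0 y' ≤ s' →
      s ≤ dl v V c x y → s ≤ dl v V c x' y' →
      v (kap V u M x y) = 1 ∧ v (kap V u M x y - kap V u M x' y') < 1

/-- no two levels with branching divisible by `r` in such a window. -/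
def S_LEV : Prop := ∀ (L : Type) [Field L] (v : AbsoluteValue L ℝ) (p q e n k : ℕ) (V : ℤ → L × L) (c : ℤ → ℝ)
  (rel : Fin k → ℤ → ℤ → Prop) (d : Fin k → ℤ → ℝ), Loc v p q e → p.Prime → 4 ≤ n → Full v n k V c rel d →
  ∀ (r j j' : ℕ) (u : ℤ), r.Prime → r ≠ p → 1 ≤ j → j < j' → r ^ j' ∣ n →
    dl v V c 0 ((n / r ^ j : ℕ) : ℤ) < dl v V c 0 ((n / r ^ j' : ℕ) : ℤ) →
    dl v V c 0 ((n / r ^ j' : ℕ) : ℤ) < dl v V c 0 u →
    (∀ x u' y y' : ℤ, dl v V c 0 ((n / r ^ j : ℕ) : ℤ) ≤ dl v V c x y →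
      dl v V c x y ≤ dl v V c 0 ((n / r ^ j' : ℕ) : ℤ) → dl v V c 0 ((n / r ^ j : ℕ) : ℤ) ≤ dl v V c x y' →
      dl v V c x y' ≤ dl v V c 0 ((n / r ^ j' : ℕ) : ℤ) →
      dl v V c 0 ((n / r ^ j' : ℕ) : ℤ) < dl v V c x u' → ∀ t, rel t x u' ∨ rel t y y') → False

/-- the bound for the exponents -/
def S_COMB : Prop := ∀ (L : Type) [Field L] (v : AbsoluteValue L ℝ) (p q e n k : ℕ) (V : ℤ → L × L) (c : ℤ → ℝ)
  (rel : Fin k → ℤ → ℤ → Prop) (d : Fin k → ℤ → ℝ), Loc v p q e → p.Prime → 4 ≤ n → Full v n k V c rel d →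
  ∀ r : ℕ, r.Prime → (r ∣ n → r ≤ q + 1) ∧ (r ≠ p → ∀ a : ℕ, r ^ a ∣ n → a ≤ (2 * k + 2) * q)

end Pool.Agent.N236.UR
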