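import Pool.Agent.N236.UR.Top
import Pool.Agent.N236.UB.Main
import Pool.Agent.N106.UR.EPow
import Pool.Agent.N318.UR.RK
import Pool.Agent.N803.UR.Conf
import Pool.Agent.N56.UR.ULT
import Pool.Agent.N160.UR.STG
import Pool.Agent.N56.UR.RES
import Pool.Agent.N727.UR.GROW
import Pool.Agent.N823.UR.CLE
import Pool.Agent.N622.UR.KAP
import Pool.Agent.N878.UR.LEV
import Pool.Agent.N823.UR.COMB
import Pool.Agent.N645.UR.CNT

/-!
# Project UR (helper236): the parts other than S_GEO together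
-/

set_option autoImplicit false

open Polynomial

namespace Pool.Agent.N236.UR

open Pool.Agent.N236.UB
open scoped LinearAlgebra.Projectivization

theorem s_epow : S_EPOW := Pool.Agent.N106.UR.t_epow
theorem s_rk : S_RK := Pool.Agent.N318.UR.t_rk
theorem s_conf : S_CONF := Pool.Agent.N803.UR.t_conf s_rk
theorem s_ult : S_ULT := Pool.Agent.N56.UR.t_ULT
theorem s_stg : S_STG := Pool.Agent.N160.UR.t_stg s_epow
theorem s_res : S_RES := Pool.Agent.N56.UR.t_RES
theorem s_grow : S_GROW := Pool.Agent.N727.UR.t_grow s_ult s_res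
theorem s_cle : S_CLE := Pool.Agent.N823.UR.t_cle s_ult
theorem s_kap : S_KAP := Pool.Agent.N622.UR.t_kap s_ult
theorem s_lev : S_LEV := Pool.Agent.N878.UR.t_lev s_ult s_kap
theorem s_comb : S_COMB := Pool.Agent.N823.UR.t_comb s_ult s_grow s_cle s_lev
theorem s_cnt : S_CNT := Pool.Agent.N645.UR.t_cnt

/-- The theorem with a universal period `N`. -/
theorem main' (hgeo : S_GEO) (D d : ℕ) (hd : 2 ≤ d) :
    ∃ N C : ℕ, 1 ≤ N ∧ ∀ (K : Type) [Field K] [NumberField K], Module.finrank ℚ K ≤ D →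
      ∀ φ : ℙ K (K × K) → ℙ K (K × K), MoebPow D φ d →
        (∀ P : ℙ K (K × K), (∃ m n : ℕ, m < n ∧ φ^[m] P = φ^[n] P) → φ^[N] P = P) ∧
        {P : ℙ K (K × K) | ∃ m n : ℕ, m < n ∧ φ^[m] P = φ^[n] P}.Finite ∧
        {P : ℙ K (K × K) | ∃ m n : ℕ, m < n ∧ φ^[m] P = φ^[n] P}.ncard ≤ C := by
  obtain ⟨p₁, p₂, hne, hg₁, hg₂⟩ := good2 s_prime d (by omega)
  have hNpos : 1 ≤ NP p₁ p₂ D d := by
    unfold NP
    have := pow_pos (Nat.factorial_pos (max (p₁ ^ D) (p₂ ^ D) + 1)) ((2 * d + 2) * max (p₁ ^ D) (p₂ ^ D))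
    omega
  refine ⟨NP p₁ p₂ D d, d ^ (NP p₁ p₂ D d) + 2, hNpos, ?_⟩
  intro K _ _ hD φ hφ
  obtain ⟨st, B, hok, hB, hprod, hnf⟩ := nf hφ
  have hinj : Function.Injective φ := phi_inj s_place s_epow hD hg₁ hok hB hprod hnf
  set N := NP p₁ p₂ D d with hN
  have hsub : ∀ P : ℙ K (K × K), (∃ m n : ℕ, m < n ∧ φ^[m] P = φ^[n] P) → φ^[N] P = P := by
    rintro P ⟨m, n, hmn, hP⟩
    obtain ⟨k, rfl⟩ := Nat.exists_eq_add_of_lt hmn
    have hper : φ^[k + 1] P = P := by
      have : φ^[m] (φ^[k + 1] P) = φ^[m] P := by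
        rw [← Function.iterate_add_apply]
        exact hP.symm
      exact hinj.iterate m this
    have hp : Function.IsPeriodicPt φ (k + 1) P := hper
    have hmp : 1 ≤ Function.minimalPeriod φ P := hp.minimalPeriod_pos (by omega)
    have hdvd : Function.minimalPeriod φ P ∣ N := by
      apply dvd_NP hne hmp
      · intro h4
        exact cyc_bound s_place hgeo s_comb hD hg₁ hok hB hprod hnf P _ h4 rfl
      · intro h4
        exact cyc_bound s_place hgeo s_comb hD hg₂ hok hB hprod hnf P _ h4 rfl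
    exact (Function.isPeriodicPt_iff_minimalPeriod_dvd).mpr hdvd
  refine ⟨hsub, ?_⟩
  obtain ⟨N', hN'⟩ : ∃ N', N = N' + 1 := ⟨N - 1, by omega⟩
  have hit : MoebPow D φ^[N] (d ^ N) := by
    rw [hN']
    exact moebPow_iter hφ N'
  have hdN : 2 ≤ d ^ N := by
    calc 2 ≤ d := hd
      _ ≤ d ^ N := Nat.le_self_pow (by omega) d
  have hc := fix_count s_cnt hdN hit
  exact ⟨hc.1.subset hsub, (Set.ncard_le_ncard hsub hc.1).trans hc.2⟩

end Pool.Agent.N236.UR
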