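import Pool.Agent.N236.UR.TowE
import Pool.Agent.N236.UR.DIMain3

/-!
# Project UR (helper236), part 7: towers, bounds independent of the degree
-/

set_option autoImplicit false

open Polynomial

namespace Pool.Agent.N236.UR.Rs

open Pool.Agent.N236.UR Pool.Agent.N236.UB Pool.Agent.N236.UR.Sym
open scoped LinearAlgebra.Projectivization

/-- the one-dimensional theorem for compositions with at least one and at most `k` powers -/
def DimR (R : Prop) (K : Type) [Field K] (q k N C : ℕ) : Prop :=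
  ∀ (φ : ℙ K (K × K) → ℙ K (K × K)) (j : ℕ), 1 ≤ j → j ≤ k → PowMoeb q j φ →
        (∀ P, (∃ m n : ℕ, m < n ∧ φ^[m] P = φ^[n] P) → φ^[N] P = P) ∧
        (R → {P | ∃ m n : ℕ, m < n ∧ φ^[m] P = φ^[n] P}.Finite ∧
        {P | ∃ m n : ℕ, m < n ∧ φ^[m] P = φ^[n] P}.ncard ≤ C)

/-- the bound: a universal period, and the number of the points if `R` holds -/
def BdR (R : Prop) {K : Type} [Field K] {n : ℕ} (T : (Fin (n + 1) → K) → (Fin (n + 1) → K))
    (N C : ℕ) : Prop :=
  (∀ v, v ≠ 0 → PV T v → ∃ c : K, c ≠ 0 ∧ T^[N] v = c • v) ∧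
    (R → {P : ℙ K (Fin (n + 1) → K) | PV T P.rep}.Finite ∧
    {P : ℙ K (Fin (n + 1) → K) | PV T P.rep}.ncard ≤ C)

section gen

variable {K : Type} [Field K] {m d : ℕ}

/-- a line with a return map in the class -/
theorem gen_lineR {R : Prop} {T : (Fin (m + 1) → K) → (Fin (m + 1) → K)} (hE : HomV T d)
    {ι : K → Fin (m + 1) → K} (hι : ∀ (t t' c : K), c ≠ 0 → ι t' = c • ι t → t' = t)
    {N : ℕ} (hN : 1 ≤ N) {lam : K} (hlam : lam ≠ 0) {φ : ℙ K (K × K) → ℙ K (K × K)}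
    (hφ : ∀ t : K, ∃ t' : K, T^[N] (ι t) = lam • ι t' ∧ φ (aff t) = aff t') {N1 C1 : ℕ}
    (h1 : (∀ P, (∃ m n : ℕ, m < n ∧ φ^[m] P = φ^[n] P) → φ^[N1] P = P) ∧
        (R → {P | ∃ m n : ℕ, m < n ∧ φ^[m] P = φ^[n] P}.Finite ∧
        {P | ∃ m n : ℕ, m < n ∧ φ^[m] P = φ^[n] P}.ncard ≤ C1)) :
    (∀ t, PV T (ι t) → ∃ c : K, c ≠ 0 ∧ T^[N1 * N] (ι t) = c • ι t) ∧
      (R → {t | PV T (ι t)}.Finite ∧ {t | PV T (ι t)}.ncard ≤ C1) := by
  have hit : ∀ (z : K) (j : ℕ), ∃ (c w : K), c ≠ 0 ∧ T^[j * N] (ι z) = c • ι w ∧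
      φ^[j] (aff z) = aff w := by
    intro z j
    induction j with
    | zero => exact ⟨1, z, one_ne_zero, by simp, rfl⟩
    | succ j ih =>
      obtain ⟨c, w, hc, h1, h2⟩ := ih
      obtain ⟨w', h3, h4⟩ := hφ w
      refine ⟨c ^ d ^ N * lam, w', mul_ne_zero (pow_ne_zero _ hc) hlam, ?_, ?_⟩
      · have e : (j + 1) * N = N + j * N := by ring
        rw [e, Function.iterate_add_apply, h1, hE.iter, h3, smul_smul]
      · rw [Function.iterate_succ_apply', h2, h4]
  have hpre : ∀ t, PV T (ι t) → ∃ m k : ℕ, m < k ∧ φ^[m] (aff t) = φ^[k] (aff t) := by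
    rintro z ⟨m, k, hmk, c, hc, h⟩
    refine ⟨m, k, hmk, ?_⟩
    obtain ⟨c', hc', h'⟩ := orb hE hmk hc h (s := m * N) (Nat.le_mul_of_pos_right m (by omega)) N
    have e : m * N + N * (k - m) = k * N := by
      rw [Nat.mul_sub, mul_comm N k, mul_comm N m]
      have : m * N ≤ k * N := Nat.mul_le_mul_right _ hmk.le
      omega
    rw [e] at h'
    obtain ⟨c1, w1, hc1, h1, h2⟩ := hit z m
    obtain ⟨c2, w2, hc2, h3, h4⟩ := hit z k
    rw [h2, h4]
    rw [h3, h1, smul_smul] at h'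
    have h5 : ι w2 = (c2⁻¹ * (c' * c1)) • ι w1 := by
      rw [← smul_smul, ← h', smul_smul, inv_mul_cancel₀ hc2, one_smul]
    rw [hι w1 w2 _ (mul_ne_zero (inv_ne_zero hc2) (mul_ne_zero hc' hc1)) h5]
  refine ⟨?_, fun hR => ?_⟩
  · intro t ht
    have h3 := h1.1 (aff t) (hpre t ht)
    obtain ⟨c, w, hc, h4, h5⟩ := hit t N1
    rw [h3] at h5
    rw [← aff_inj h5] at h4
    exact ⟨c, hc, h4⟩
  · have h4 : aff '' {t | PV T (ι t)} ⊆ {P | ∃ m n : ℕ, m < n ∧ φ^[m] P = φ^[n] P} := by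
      rintro _ ⟨z, hz, rfl⟩
      exact hpre z hz
    have h5 : Set.InjOn (aff : K → ℙ K (K × K)) {t | PV T (ι t)} := fun z _ w _ h => aff_inj h
    have h6 := (h1.2 hR).1.subset h4
    refine ⟨Set.Finite.of_finite_image h6 h5, ?_⟩
    rw [← Set.ncard_image_of_injOn h5]
    exact (Set.ncard_le_ncard h4 (h1.2 hR).1).trans (h1.2 hR).2

end gen

section aff

variable {K : Type} [Field K]

/-- affine maps -/
def affEquiv (c g : K) (hc : c ≠ 0) : (K × K) ≃ₗ[K] (K × K) where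
  toFun x := (c * x.1 + g * x.2, x.2)
  invFun x := (c⁻¹ * (x.1 - g * x.2), x.2)
  map_add' x y := by
    apply Prod.ext
    · simp only [Prod.fst_add, Prod.snd_add]; ring
    · rfl
  map_smul' a x := by
    apply Prod.ext
    · simp only [Prod.smul_fst, Prod.smul_snd, smul_eq_mul, RingHom.id_apply]; ring
    · rfl
  left_inv x := by
    apply Prod.ext
    · simp only [add_sub_cancel_right]
      rw [← mul_assoc, inv_mul_cancel₀ hc, one_mul]
    · rfl
  right_inv x := by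
    apply Prod.ext
    · simp only
      rw [← mul_assoc, mul_inv_cancel₀ hc, one_mul, sub_add_cancel]
    · rfl

/-- affine maps are in the class -/
theorem affR (q : ℕ) {c : K} (hc : c ≠ 0) (g : K) :
    ∃ φ : ℙ K (K × K) → ℙ K (K × K), PowMoeb q 0 φ ∧ ∀ z : K, φ (aff z) = aff (c * z + g) := by
  refine ⟨_, PowMoeb.mobius (affEquiv c g hc), ?_⟩
  intro z
  unfold aff
  simp only [Projectivization.map_mk]
  congr 1
  change (c * z + g * 1, (1 : K)) = _
  rw [mul_one]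

/-- maps `z ↦ c z ^ m + g` -/
theorem uniR {q m : ℕ} (hm : 2 ≤ m) (hmq : Nat.Coprime m q) {c : K} (hc : c ≠ 0) (g : K) :
    ∃ φ : ℙ K (K × K) → ℙ K (K × K), PowMoeb q 1 φ ∧ ∀ z : K, φ (aff z) = aff (c * z ^ m + g) := by
  obtain ⟨ψ, h1, h2⟩ := affR q hc g
  refine ⟨ψ ∘ powP m, ?_, ?_⟩
  · have := PowMoeb.comp _ _ _ _ h1 (PowMoeb.power (K := K) (b := q) m hm hmq)
    rwa [zero_add] at this
  · intro z
    have h3 : powP m (aff z) = aff (z ^ m) := by
      unfold aff
      rw [powP_mk (by omega) (one_ne' z)]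
      congr 1
      unfold pw
      simp
    rw [Function.comp_apply, h3, h2]

end aff

section fib

variable {K : Type} [Field K] {n : ℕ}

/-- The maps `z ↦ F (u, z)`, `u ≠ 0`, are compositions of Moebius maps and of at least one and at most `s`
power maps with exponents prime to `q`. -/
def FibR (q s : ℕ) (F : (Fin (n + 2) → K) → K) : Prop :=
  (∀ u : Fin (n + 1) → K, u ≠ 0 → ∃ (φ : ℙ K (K × K) → ℙ K (K × K)) (j : ℕ), 1 ≤ j ∧ j ≤ s ∧
    PowMoeb q j φ ∧ ∀ z : K, φ (aff z) = aff (F (Fin.snoc u z))) ∧ F (Fin.snoc 0 1) ≠ 0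

variable {T : (Fin (n + 1) → K) → (Fin (n + 1) → K)} {F : (Fin (n + 2) → K) → K} {q s d : ℕ}

theorem hom_extR (hT : HomV T d) (hF : ∀ (a : K) x, F (a • x) = a ^ d * F x)
    (hfib : FibR q s F) : HomV (ext T F) d := by
  constructor
  · intro a x
    obtain ⟨u, z, rfl⟩ : ∃ (u : Fin (n + 1) → K) (z : K), x = Fin.snoc u z :=
      ⟨Fin.init x, x (Fin.last _), (snoc_init x).symm⟩
    have h1 := smul_snoc a u z
    have h2 := hF a (Fin.snoc u z)
    rw [h1] at h2 ⊢
    rw [ext_snoc, ext_snoc, h2, hT.1, smul_snoc]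
  · intro x hx h0
    obtain ⟨u, z, rfl⟩ : ∃ (u : Fin (n + 1) → K) (z : K), x = Fin.snoc u z :=
      ⟨Fin.init x, x (Fin.last _), (snoc_init x).symm⟩
    rw [ext_snoc, ← snoc_zero] at h0
    obtain ⟨h1, h2⟩ := snoc_inj h0
    have hu : u = 0 := by
      by_contra hu
      exact hT.2 u hu h1
    subst hu
    have e : (Fin.snoc 0 z : Fin (n + 2) → K) = z • Fin.snoc 0 1 := by
      rw [smul_snoc, smul_zero, mul_one]
    have hz : z ≠ 0 := by
      rintro rfl
      exact hx snoc_zero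
    rw [e, hF] at h2
    exact hfib.2 ((mul_eq_zero.1 h2).resolve_left (pow_ne_zero _ hz))

/-- iterates on a fibre -/
theorem fib_iterR (hT : HomV T d) (hfib : FibR q s F) {u : Fin (n + 1) → K} (hu : u ≠ 0) (k : ℕ) :
    ∃ (φ : ℙ K (K × K) → ℙ K (K × K)) (j : ℕ), k ≤ j ∧ j ≤ s * k ∧ PowMoeb q j φ ∧ ∀ z : K, ∃ w : K,
      (ext T F)^[k] (Fin.snoc u z) = Fin.snoc (T^[k] u) w ∧ φ (aff z) = aff w := by
  induction k with
  | zero =>
    obtain ⟨φ, h1, h2⟩ := affR (K := K) q one_ne_zero 0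
    refine ⟨φ, 0, le_rfl, Nat.zero_le _, h1, fun z => ⟨z, rfl, ?_⟩⟩
    rw [h2, one_mul, add_zero]
  | succ k ih =>
    obtain ⟨φ, j, hj1, hj2, hφ, h⟩ := ih
    obtain ⟨ψ, i, hi1, hi2, hψ, hψ'⟩ := hfib.1 (T^[k] u) (hT.iter_ne hu k)
    refine ⟨ψ ∘ φ, i + j, by omega, ?_, PowMoeb.comp _ _ _ _ hψ hφ, ?_⟩
    · have e : s * (k + 1) = s + s * k := by ring
      rw [e]
      exact Nat.add_le_add hi2 hj2
    intro z
    obtain ⟨w, hw, hφw⟩ := h z
    refine ⟨F (Fin.snoc (T^[k] u) w), ?_, ?_⟩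
    · rw [Function.iterate_succ_apply', hw, ext_snoc, Function.iterate_succ_apply']
    · rw [Function.comp_apply, hφw, hψ']

/-- the return map -/
theorem retR (hT : HomV T d) (hfib : FibR q s F) {u : Fin (n + 1) → K} (hu : u ≠ 0) {N : ℕ} {lam : K}
    (hlam : lam ≠ 0) (hN : T^[N] u = lam • u) :
    ∃ (φ : ℙ K (K × K) → ℙ K (K × K)) (j : ℕ), N ≤ j ∧ j ≤ s * N ∧ PowMoeb q j φ ∧ ∀ z : K, ∃ w : K,
      (ext T F)^[N] (Fin.snoc u z) = lam • Fin.snoc u w ∧ φ (aff z) = aff w := by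
  obtain ⟨φ, j, hj1, hj2, hφ, h⟩ := fib_iterR hT hfib hu N
  obtain ⟨ψ, h1, h2⟩ := affR (K := K) q (inv_ne_zero hlam) 0
  refine ⟨ψ ∘ φ, j, hj1, hj2, ?_, ?_⟩
  · have := PowMoeb.comp _ _ _ _ h1 hφ
    rwa [zero_add] at this
  · intro z
    obtain ⟨w, hw, hφw⟩ := h z
    refine ⟨lam⁻¹ * w, ?_, ?_⟩
    · rw [hw, hN, smul_snoc, ← mul_assoc, mul_inv_cancel₀ hlam, one_mul]
    · rw [Function.comp_apply, hφw, h2, add_zero]

/-- the line over a periodic point -/
theorem lineR {R : Prop} (hT : HomV T d) (hF : ∀ (a : K) x, F (a • x) = a ^ d * F x)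
    (hfib : FibR q s F) {N C N1 C1 : ℕ} (hN : 1 ≤ N) (hb : BdR R T N C) (h1 : DimR R K q (s * N) N1 C1)
    {u : Fin (n + 1) → K} (hu : u ≠ 0) (pu : PV T u) :
    (∀ t : K, PV (ext T F) (Fin.snoc u t) → ∃ c : K, c ≠ 0 ∧
      (ext T F)^[N1 * N] (Fin.snoc u t) = c • Fin.snoc u t) ∧
      (R → {t : K | PV (ext T F) (Fin.snoc u t)}.Finite ∧
      {t : K | PV (ext T F) (Fin.snoc u t)}.ncard ≤ C1) := by
  obtain ⟨lam, hlam, hN'⟩ := hb.1 u hu pu
  obtain ⟨φ, j, hj1, hj2, hφ, hφ'⟩ := retR hT hfib hu hlam hN'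
  refine gen_lineR (hom_extR hT hF hfib) (ι := fun t => Fin.snoc u t) ?_ hN hlam (φ := φ) hφ'
    (h1 φ j (by omega) hj2 hφ)
  intro t t' c hc h
  rw [smul_snoc] at h
  obtain ⟨g1, g2⟩ := snoc_inj h
  obtain ⟨i, hi⟩ := Function.ne_iff.1 hu
  have g3 := congrFun g1 i
  simp only [Pi.smul_apply, smul_eq_mul] at g3
  have hc1 : c = 1 := by
    have : c * u i = 1 * u i := by rw [one_mul]; exact g3.symm
    exact mul_right_cancel₀ hi this
  rw [g2, hc1, one_mul]

/-- **The step.** -/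
theorem bd_extR {R : Prop} (hT : HomV T d) (hd : d ≠ 0) (hF : ∀ (a : K) x, F (a • x) = a ^ d * F x)
    (hfib : FibR q s F) {N C N1 C1 : ℕ} (hN : 1 ≤ N) (hb : BdR R T N C) (h1 : DimR R K q (s * N) N1 C1) :
    BdR R (ext T F) (N1 * N) (C * C1 + 1) := by
  classical
  have hE := hom_extR hT hF hfib
  have hline := fun {u : Fin (n + 1) → K} (hu : u ≠ 0) (pu : PV T u) => lineR hT hF hfib hN hb h1 hu pu
  refine ⟨?_, fun hR => ?_⟩
  · intro x hx hpre
    obtain ⟨u, z, rfl⟩ : ∃ (u : Fin (n + 1) → K) (z : K), x = Fin.snoc u z :=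
      ⟨Fin.init x, x (Fin.last _), (snoc_init x).symm⟩
    by_cases hu : u = 0
    · subst hu
      have hz : z ≠ 0 := by
        rintro rfl
        exact hx snoc_zero
      rw [snoc_zero_eq]
      apply fix_smul hE _ hz
      have h2 : ∃ c : K, c ≠ 0 ∧ (ext T F)^[1] (spec n K) = c • spec n K := by
        refine ⟨F (spec n K), hfib.2, ?_⟩
        rw [Function.iterate_one, ← snoc_zero_eq]
        unfold spec
        rw [ext_snoc, hom_zero hT hd]
      have h3 := fix_mul hE h2 (N1 * N)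
      rwa [mul_one] at h3
    · exact (hline hu (base_pre hpre)).1 z hpre
  · obtain ⟨hfin, hcard⟩ := hb.2 hR
    have hne : ∀ (Q : ℙ K (Fin (n + 1) → K)) (z : K), (Fin.snoc Q.rep z : Fin (n + 2) → K) ≠ 0 := by
      intro Q z h0
      rw [← snoc_zero] at h0
      exact Q.rep_nonzero (snoc_inj h0).1
    set S : Set (ℙ K (Fin (n + 1 + 1) → K)) := {P | PV (ext T F) P.rep} with hS
    set SQ : Set (ℙ K (Fin (n + 1) → K)) := {P | PV T P.rep} with hSQ
    set Z : ℙ K (Fin (n + 1) → K) → Set K := fun Q => {z | PV (ext T F) (Fin.snoc Q.rep z)} with hZ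
    set G : ℙ K (Fin (n + 1) → K) → Set (ℙ K (Fin (n + 1 + 1) → K)) := fun Q =>
      (fun z => Projectivization.mk K (Fin.snoc Q.rep z : Fin (n + 2) → K) (hne Q z)) '' Z Q with hG
    have hZf : ∀ Q ∈ SQ, (Z Q).Finite ∧ (Z Q).ncard ≤ C1 := fun Q hQ => (hline Q.rep_nonzero hQ).2 hR
    have hsub : S ⊆ {Projectivization.mk K (spec n K) spec_ne} ∪ ⋃ Q ∈ hfin.toFinset, G Q := by
      intro P hP
      have hPm : P = Projectivization.mk K P.rep P.rep_nonzero := (Projectivization.mk_rep P).symm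
      obtain ⟨u, z, hx⟩ : ∃ (u : Fin (n + 1) → K) (z : K), P.rep = Fin.snoc u z :=
        ⟨Fin.init P.rep, P.rep (Fin.last _), (snoc_init P.rep).symm⟩
      by_cases hu : u = 0
      · left
        subst hu
        rw [Set.mem_singleton_iff, hPm, Projectivization.mk_eq_mk_iff']
        exact ⟨z, by rw [hx, snoc_zero_eq]⟩
      · right
        obtain ⟨a, ha, hrep⟩ := exists_rep hu
        have hpre : PV (ext T F) (Fin.snoc (a • u) (a * z)) := by
          rw [← smul_snoc, ← hx]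
          exact PV.smul hE hP ha
        rw [Set.mem_iUnion]
        refine ⟨Projectivization.mk K u hu, ?_⟩
        rw [Set.mem_iUnion]
        refine ⟨?_, ?_⟩
        · rw [Set.Finite.mem_toFinset]
          change PV T (Projectivization.mk K u hu).rep
          rw [hrep]
          exact base_pre hpre
        · refine ⟨a * z, ?_, ?_⟩
          · change PV (ext T F) (Fin.snoc (Projectivization.mk K u hu).rep (a * z))
            rw [hrep]
            exact hpre
          · rw [hPm]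
            simp only
            rw [Projectivization.mk_eq_mk_iff']
            exact ⟨a, by rw [hrep, hx, smul_snoc]⟩
    have hGf : ∀ Q ∈ hfin.toFinset, (G Q).Finite := by
      intro Q hQ
      rw [Set.Finite.mem_toFinset] at hQ
      exact (hZf Q hQ).1.image _
    have hGc : ∀ Q ∈ hfin.toFinset, (G Q).ncard ≤ C1 := by
      intro Q hQ
      rw [Set.Finite.mem_toFinset] at hQ
      exact (Set.ncard_image_le (hZf Q hQ).1).trans (hZf Q hQ).2
    have hUf : (⋃ Q ∈ hfin.toFinset, G Q).Finite :=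
      Set.Finite.biUnion (Finset.finite_toSet _) hGf
    have hall : ({Projectivization.mk K (spec n K) spec_ne} ∪ ⋃ Q ∈ hfin.toFinset, G Q).Finite :=
      (Set.finite_singleton _).union hUf
    refine ⟨hall.subset hsub, (Set.ncard_le_ncard hsub hall).trans ((Set.ncard_union_le _ _).trans ?_)⟩
    rw [Set.ncard_singleton]
    have h2 : (⋃ Q ∈ hfin.toFinset, G Q).ncard ≤ C * C1 := by
      refine (Finset.set_ncard_biUnion_le _ _).trans ((Finset.sum_le_sum hGc).trans ?_)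
      rw [Finset.sum_const, smul_eq_mul, ← Set.ncard_eq_toFinset_card _ hfin]
      exact Nat.mul_le_mul_right _ hcard
    omega

end fib

section join

variable {K : Type} [Field K] {a b d : ℕ}
variable {T₁ : (Fin (a + 1) → K) → (Fin (a + 1) → K)} {T₂ : (Fin (b + 1) → K) → (Fin (b + 1) → K)}

/-- the join line -/
theorem join_lineR {R : Prop} {q : ℕ} (h₁ : HomV T₁ d) (h₂ : HomV T₂ d) (_hd : d ≠ 0)
    (hp : 2 ≤ d ∧ Nat.Coprime d q) {N C : ℕ} (hN : 1 ≤ N) (b₁ : BdR R T₁ N C)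
    (b₂ : BdR R T₂ N C) {N1 C1 : ℕ} (h1 : DimR R K q 1 N1 C1) {u : Fin (a + 1) → K}
    {w : Fin (b + 1) → K} (hu : u ≠ 0) (hw : w ≠ 0) (pu : PV T₁ u) (pw : PV T₂ w) :
    (∀ t : K, PV (join T₁ T₂) (app u (t • w)) → ∃ c : K, c ≠ 0 ∧
      (join T₁ T₂)^[N1 * N] (app u (t • w)) = c • app u (t • w)) ∧
      (R → {t : K | PV (join T₁ T₂) (app u (t • w))}.Finite ∧
      {t : K | PV (join T₁ T₂) (app u (t • w))}.ncard ≤ C1) := by
  obtain ⟨lam, hlam, e1⟩ := b₁.1 u hu pu
  obtain ⟨mu, hmu, e2⟩ := b₂.1 w hw pw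
  have hdN : 2 ≤ d ^ N := hp.1.trans (Nat.le_self_pow (by omega) d)
  obtain ⟨φ, hφ, hφ'⟩ := uniR (K := K) hdN (Nat.Coprime.pow_left N hp.2)
    (mul_ne_zero hmu (inv_ne_zero hlam)) 0
  refine gen_lineR (hom_join h₁ h₂) (ι := fun t => app u (t • w)) ?_ hN hlam (φ := φ) ?_
    (h1 φ 1 le_rfl le_rfl hφ)
  · intro t t' c hc h
    rw [smul_app] at h
    have g1 := congrArg lft h
    have g2 := congrArg rgt h
    rw [lft_app, lft_app] at g1
    rw [rgt_app, rgt_app] at g2
    obtain ⟨i, hi⟩ := Function.ne_iff.1 hu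
    have g3 := congrFun g1 i
    simp only [Pi.smul_apply, smul_eq_mul] at g3
    have hc1 : c = 1 := by
      have : c * u i = 1 * u i := by rw [one_mul]; exact g3.symm
      exact mul_right_cancel₀ hi this
    rw [hc1, one_smul] at g2
    obtain ⟨j, hj⟩ := Function.ne_iff.1 hw
    have g4 := congrFun g2 j
    simp only [Pi.smul_apply, smul_eq_mul] at g4
    exact mul_right_cancel₀ hj g4
  · intro t
    refine ⟨mu * lam⁻¹ * t ^ d ^ N, ?_, by rw [hφ' t, add_zero]⟩
    rw [join_iter, e1, h₂.iter, e2, smul_app, smul_smul, smul_smul]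
    congr 2
    field_simp

/-- **Joins.** -/
theorem bd_joinR {Rp : Prop} {q : ℕ} (h₁ : HomV T₁ d) (h₂ : HomV T₂ d) (hd : d ≠ 0)
    (hp : 2 ≤ d ∧ Nat.Coprime d q) {N C : ℕ} (hN : 1 ≤ N) (b₁ : BdR Rp T₁ N C)
    (b₂ : BdR Rp T₂ N C) {N1 C1 : ℕ} (h1 : DimR Rp K q 1 N1 C1) :
    BdR Rp (join T₁ T₂) (N1 * N) (C + C + C * (C * C1)) := by
  classical
  have hE := hom_join h₁ h₂
  refine ⟨?_, fun hRp => ?_⟩
  · intro x hx hpre
    obtain ⟨u, w, rfl⟩ : ∃ (u : Fin (a + 1) → K) (w : Fin (b + 1) → K), x = app u w :=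
      ⟨lft x, rgt x, (app_self x).symm⟩
    by_cases hu : u = 0
    · subst hu
      have hw : w ≠ 0 := by
        rintro rfl
        exact hx app_zero
      obtain ⟨c, hc, h⟩ := fix_mul h₂ (b₂.1 w hw (pv_right hpre)) N1
      refine ⟨c, hc, ?_⟩
      rw [join_iter, zero_iter h₁ hd, h, smul_app, smul_zero]
    · by_cases hw : w = 0
      · subst hw
        obtain ⟨c, hc, h⟩ := fix_mul h₁ (b₁.1 u hu (pv_left hpre)) N1
        refine ⟨c, hc, ?_⟩
        rw [join_iter, zero_iter h₂ hd, h, smul_app, smul_zero]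
      · have h3 := (join_lineR h₁ h₂ hd hp hN b₁ b₂ h1 hu hw (pv_left hpre) (pv_right hpre)).1 1
        rw [one_smul] at h3
        exact h3 hpre
  · have hne1 : ∀ Q : ℙ K (Fin (a + 1) → K), app Q.rep (0 : Fin (b + 1) → K) ≠ 0 := by
      intro Q h0
      rw [← app_zero] at h0
      have := congrArg lft h0
      rw [lft_app, lft_app] at this
      exact Q.rep_nonzero this
    have hne2 : ∀ Q : ℙ K (Fin (b + 1) → K), app (0 : Fin (a + 1) → K) Q.rep ≠ 0 := by
      intro Q h0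
      rw [← app_zero] at h0
      have := congrArg rgt h0
      rw [rgt_app, rgt_app] at this
      exact Q.rep_nonzero this
    have hne3 : ∀ (Q : ℙ K (Fin (a + 1) → K)) (w : Fin (b + 1) → K), app Q.rep w ≠ 0 := by
      intro Q w h0
      rw [← app_zero] at h0
      have := congrArg lft h0
      rw [lft_app, lft_app] at this
      exact Q.rep_nonzero this
    set S : Set (ℙ K (Fin (a + 1 + b + 1) → K)) := {P | PV (join T₁ T₂) P.rep} with hS
    set f1 : ℙ K (Fin (a + 1) → K) → ℙ K (Fin (a + 1 + b + 1) → K) := fun Q =>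
      Projectivization.mk K (app Q.rep 0) (hne1 Q) with hf1
    set f2 : ℙ K (Fin (b + 1) → K) → ℙ K (Fin (a + 1 + b + 1) → K) := fun Q =>
      Projectivization.mk K (app 0 Q.rep) (hne2 Q) with hf2
    set Z : ℙ K (Fin (a + 1) → K) → ℙ K (Fin (b + 1) → K) → Set K := fun Q R =>
      {t | PV (join T₁ T₂) (app Q.rep (t • R.rep))} with hZ
    set G : ℙ K (Fin (a + 1) → K) → ℙ K (Fin (b + 1) → K) → Set (ℙ K (Fin (a + 1 + b + 1) → K)) :=
      fun Q R => (fun t => Projectivization.mk K (app Q.rep (t • R.rep)) (hne3 Q _)) '' Z Q R with hG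
    have hZf : ∀ Q ∈ (b₁.2 hRp).1.toFinset, ∀ R ∈ (b₂.2 hRp).1.toFinset, (Z Q R).Finite ∧ (Z Q R).ncard ≤ C1 := by
      intro Q hQ R hR
      rw [Set.Finite.mem_toFinset] at hQ hR
      exact (join_lineR h₁ h₂ hd hp hN b₁ b₂ h1 Q.rep_nonzero R.rep_nonzero hQ hR).2 hRp
    have hpm : ∀ {n : ℕ} (u : Fin (n + 1) → K) (hu : u ≠ 0),
        ∃ α : K, α ≠ 0 ∧ u = α • (Projectivization.mk K u hu).rep := by
      intro n u hu
      obtain ⟨α, hα, h⟩ := exists_rep hu
      exact ⟨α⁻¹, inv_ne_zero hα, by rw [h, smul_smul, inv_mul_cancel₀ hα, one_smul]⟩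
    have hsub : S ⊆ (f1 '' {P | PV T₁ P.rep} ∪ f2 '' {P | PV T₂ P.rep}) ∪
        ⋃ Q ∈ (b₁.2 hRp).1.toFinset, ⋃ R ∈ (b₂.2 hRp).1.toFinset, G Q R := by
      intro P hP
      have hPm : P = Projectivization.mk K P.rep P.rep_nonzero := (Projectivization.mk_rep P).symm
      obtain ⟨u, w, hx⟩ : ∃ (u : Fin (a + 1) → K) (w : Fin (b + 1) → K), P.rep = app u w :=
        ⟨lft P.rep, rgt P.rep, (app_self P.rep).symm⟩
      have hP' : PV (join T₁ T₂) (app u w) := by
        rw [← hx]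
        exact hP
      by_cases hu : u = 0
      · left; right
        have hw : w ≠ 0 := by
          intro h
          rw [hu, h, app_zero] at hx
          exact P.rep_nonzero hx
        obtain ⟨α, hα, h⟩ := exists_rep hw
        refine ⟨Projectivization.mk K w hw, ?_, ?_⟩
        · change PV T₂ (Projectivization.mk K w hw).rep
          rw [h]
          exact PV.smul h₂ (pv_right hP') hα
        · rw [hPm]
          simp only [hf2]
          rw [Projectivization.mk_eq_mk_iff']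
          refine ⟨α, ?_⟩
          rw [hx, hu, smul_app, smul_zero, h]
      · by_cases hw : w = 0
        · left; left
          obtain ⟨α, hα, h⟩ := exists_rep hu
          refine ⟨Projectivization.mk K u hu, ?_, ?_⟩
          · change PV T₁ (Projectivization.mk K u hu).rep
            rw [h]
            exact PV.smul h₁ (pv_left hP') hα
          · rw [hPm]
            simp only [hf1]
            rw [Projectivization.mk_eq_mk_iff']
            refine ⟨α, ?_⟩
            rw [hx, hw, smul_app, smul_zero, h]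
        · right
          obtain ⟨α, hα, h⟩ := exists_rep hu
          obtain ⟨β, hβ, h'⟩ := exists_rep hw
          rw [Set.mem_iUnion]
          refine ⟨Projectivization.mk K u hu, ?_⟩
          rw [Set.mem_iUnion]
          refine ⟨?_, ?_⟩
          · rw [Set.Finite.mem_toFinset]
            change PV T₁ (Projectivization.mk K u hu).rep
            rw [h]
            exact PV.smul h₁ (pv_left hP') hα
          rw [Set.mem_iUnion]
          refine ⟨Projectivization.mk K w hw, ?_⟩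
          rw [Set.mem_iUnion]
          refine ⟨?_, ?_⟩
          · rw [Set.Finite.mem_toFinset]
            change PV T₂ (Projectivization.mk K w hw).rep
            rw [h']
            exact PV.smul h₂ (pv_right hP') hβ
          have e : app (Projectivization.mk K u hu).rep ((α * β⁻¹) • (Projectivization.mk K w hw).rep) =
              α • app u w := by
            rw [h, h', smul_smul, mul_assoc, inv_mul_cancel₀ hβ, mul_one, smul_app]
          refine ⟨α * β⁻¹, ?_, ?_⟩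
          · change PV (join T₁ T₂) (app (Projectivization.mk K u hu).rep
              ((α * β⁻¹) • (Projectivization.mk K w hw).rep))
            rw [e]
            exact PV.smul hE hP' hα
          · rw [hPm]
            simp only
            rw [Projectivization.mk_eq_mk_iff']
            exact ⟨α, by rw [e, hx]⟩
    have hGf : ∀ Q ∈ (b₁.2 hRp).1.toFinset, ∀ R ∈ (b₂.2 hRp).1.toFinset, (G Q R).Finite ∧ (G Q R).ncard ≤ C1 := by
      intro Q hQ R hR
      obtain ⟨g1, g2⟩ := hZf Q hQ R hR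
      exact ⟨g1.image _, (Set.ncard_image_le g1).trans g2⟩
    have hUf : ∀ Q ∈ (b₁.2 hRp).1.toFinset, (⋃ R ∈ (b₂.2 hRp).1.toFinset, G Q R).Finite ∧
        (⋃ R ∈ (b₂.2 hRp).1.toFinset, G Q R).ncard ≤ C * C1 := by
      intro Q hQ
      refine ⟨Set.Finite.biUnion (Finset.finite_toSet _) fun R hR => (hGf Q hQ R hR).1, ?_⟩
      refine (Finset.set_ncard_biUnion_le _ _).trans
        ((Finset.sum_le_sum fun R hR => (hGf Q hQ R hR).2).trans ?_)
      rw [Finset.sum_const, smul_eq_mul, ← Set.ncard_eq_toFinset_card _ (b₂.2 hRp).1]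
      exact Nat.mul_le_mul_right _ (b₂.2 hRp).2
    have hVf : (⋃ Q ∈ (b₁.2 hRp).1.toFinset, ⋃ R ∈ (b₂.2 hRp).1.toFinset, G Q R).Finite :=
      Set.Finite.biUnion (Finset.finite_toSet _) fun Q hQ => (hUf Q hQ).1
    have hVc : (⋃ Q ∈ (b₁.2 hRp).1.toFinset, ⋃ R ∈ (b₂.2 hRp).1.toFinset, G Q R).ncard ≤ C * (C * C1) := by
      refine (Finset.set_ncard_biUnion_le _ _).trans
        ((Finset.sum_le_sum fun Q hQ => (hUf Q hQ).2).trans ?_)
      rw [Finset.sum_const, smul_eq_mul, ← Set.ncard_eq_toFinset_card _ (b₁.2 hRp).1]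
      exact Nat.mul_le_mul_right _ (b₁.2 hRp).2
    have hall := (((b₁.2 hRp).1.image f1).union ((b₂.2 hRp).1.image f2)).union hVf
    refine ⟨hall.subset hsub, (Set.ncard_le_ncard hsub hall).trans ((Set.ncard_union_le _ _).trans ?_)⟩
    have i1 := (Set.ncard_image_le (f := f1) (b₁.2 hRp).1).trans (b₁.2 hRp).2
    have i2 := (Set.ncard_image_le (f := f2) (b₂.2 hRp).1).trans (b₂.2 hRp).2
    have i3 := Set.ncard_union_le (f1 '' {P | PV T₁ P.rep}) (f2 '' {P | PV T₂ P.rep})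
    omega

end join

section misc

variable {K : Type} [Field K] {n : ℕ} {T : (Fin (n + 1) → K) → (Fin (n + 1) → K)} {d : ℕ} {R : Prop}

theorem BdR.mono (hT : HomV T d) {N C C' : ℕ} (h : BdR R T N C) (t : ℕ) (hC : C ≤ C') :
    BdR R T (t * N) C' :=
  ⟨fun v hv hp => fix_mul hT (h.1 v hv hp) t, fun hR => ⟨(h.2 hR).1, (h.2 hR).2.trans hC⟩⟩

/-- coordinate changes -/
theorem BdR.conj (hT : HomV T d) {N C : ℕ} (hb : BdR R T N C)
    {A B : Matrix (Fin (n + 1)) (Fin (n + 1)) K} (hAB : A * B = 1)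
    {U : (Fin (n + 1) → K) → (Fin (n + 1) → K)} (h : ∀ v, U v = B.mulVec (T (A.mulVec v))) :
    BdR R U N C := by
  have hBA : B * A = 1 := mul_eq_one_comm.mp hAB
  have hBA' : ∀ v, B.mulVec (A.mulVec v) = v := fun v => by
    rw [Matrix.mulVec_mulVec, hBA, Matrix.one_mulVec]
  have hAne : ∀ v, v ≠ 0 → A.mulVec v ≠ 0 := by
    intro v hv h0
    apply hv
    rw [← hBA' v, h0, Matrix.mulVec_zero]
  have hit := iter_conj hAB h
  have hpv : ∀ v, PV U v → PV T (A.mulVec v) := by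
    rintro v ⟨m, k, hmk, c, hc, h1⟩
    refine ⟨m, k, hmk, c, hc, ?_⟩
    rw [← hit, ← hit, h1, Matrix.mulVec_smul]
  refine ⟨?_, fun hR => ?_⟩
  · intro v hv hp
    obtain ⟨c, hc, h1⟩ := hb.1 _ (hAne v hv) (hpv v hp)
    refine ⟨c, hc, ?_⟩
    rw [← hit, ← Matrix.mulVec_smul] at h1
    have := congrArg B.mulVec h1
    rwa [hBA', hBA'] at this
  · set f : ℙ K (Fin (n + 1) → K) → ℙ K (Fin (n + 1) → K) := fun P =>
      Projectivization.mk K (A.mulVec P.rep) (hAne _ P.rep_nonzero) with hf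
    have hinj : Function.Injective f := by
      intro P Q hPQ
      simp only [hf] at hPQ
      rw [Projectivization.mk_eq_mk_iff'] at hPQ
      obtain ⟨a, ha⟩ := hPQ
      rw [← P.mk_rep, ← Q.mk_rep, Projectivization.mk_eq_mk_iff']
      refine ⟨a, ?_⟩
      rw [← Matrix.mulVec_smul] at ha
      have := congrArg B.mulVec ha
      rwa [hBA', hBA'] at this
    have hsub : f '' {P | PV U P.rep} ⊆ {P | PV T P.rep} := by
      rintro _ ⟨P, hP, rfl⟩
      change PV T (Projectivization.mk K (A.mulVec P.rep) (hAne _ P.rep_nonzero)).rep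
      obtain ⟨a, ha, h1⟩ := exists_rep (hAne _ P.rep_nonzero)
      rw [h1]
      exact PV.smul hT (hpv _ hP) ha
    have h6 := (hb.2 hR).1.subset hsub
    refine ⟨Set.Finite.of_finite_image h6 hinj.injOn, ?_⟩
    rw [← Set.ncard_image_of_injective _ hinj]
    exact (Set.ncard_le_ncard hsub (hb.2 hR).1).trans (hb.2 hR).2

theorem bd_lineR {T : (Fin (1 + 1) → K) → (Fin (1 + 1) → K)} (hT : HomV T d)
    {φ : ℙ K (K × K) → ℙ K (K × K)}
    (hφ : ∀ (v : Fin (1 + 1) → K) (hv : (v 0, v 1) ≠ 0) (hTv : (T v 0, T v 1) ≠ 0),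
      φ (Projectivization.mk K (v 0, v 1) hv) = Projectivization.mk K (T v 0, T v 1) hTv)
    {N C : ℕ}
    (h : (∀ P, (∃ m n : ℕ, m < n ∧ φ^[m] P = φ^[n] P) → φ^[N] P = P) ∧
        (R → {P | ∃ m n : ℕ, m < n ∧ φ^[m] P = φ^[n] P}.Finite ∧
        {P | ∃ m n : ℕ, m < n ∧ φ^[m] P = φ^[n] P}.ncard ≤ C)) : BdR R T N C := by
  have hit : ∀ (v : Fin (1 + 1) → K) (hv : v ≠ 0) (k : ℕ),
      φ^[k] (Projectivization.mk K (v 0, v 1) (pair_ne hv)) =
        Projectivization.mk K (T^[k] v 0, T^[k] v 1) (pair_ne (hT.iter_ne hv k)) := by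
    intro v hv k
    induction k with
    | zero => rfl
    | succ k ih =>
      rw [Function.iterate_succ_apply', ih, hφ _ _ (pair_ne (hT.2 _ (hT.iter_ne hv k)))]
      simp only [Function.iterate_succ_apply']
  have hprop : ∀ (v w : Fin (1 + 1) → K) (hv : v ≠ 0) (hw : w ≠ 0),
      Projectivization.mk K (v 0, v 1) (pair_ne hv) = Projectivization.mk K (w 0, w 1) (pair_ne hw) →
      ∃ c : K, c ≠ 0 ∧ v = c • w := by
    intro v w hv hw h
    rw [Projectivization.mk_eq_mk_iff'] at h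
    obtain ⟨c, hc⟩ := h
    have h1 : v = c • w := by
      funext j
      fin_cases j
      · exact (congrArg Prod.fst hc).symm
      · exact (congrArg Prod.snd hc).symm
    refine ⟨c, ?_, h1⟩
    rintro rfl
    rw [zero_smul] at h1
    exact hv h1
  have hpre : ∀ (v : Fin (1 + 1) → K) (hv : v ≠ 0), PV T v →
      ∃ m n : ℕ, m < n ∧ φ^[m] (Projectivization.mk K (v 0, v 1) (pair_ne hv)) =
        φ^[n] (Projectivization.mk K (v 0, v 1) (pair_ne hv)) := by
    rintro v hv ⟨m, k, hmk, c, hc, h1⟩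
    refine ⟨m, k, hmk, ?_⟩
    rw [hit v hv, hit v hv, eq_comm, Projectivization.mk_eq_mk_iff']
    refine ⟨c, ?_⟩
    rw [h1]
    rfl
  refine ⟨?_, fun hR => ?_⟩
  · intro v hv hp
    have h1 := h.1 _ (hpre v hv hp)
    rw [hit v hv] at h1
    exact hprop _ _ (hT.iter_ne hv N) hv h1
  · set f : ℙ K (Fin (1 + 1) → K) → ℙ K (K × K) := fun P =>
      Projectivization.mk K (P.rep 0, P.rep 1) (pair_ne P.rep_nonzero) with hf
    have hinj : Function.Injective f := by
      intro P Q hPQ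
      obtain ⟨c, hc, h1⟩ := hprop _ _ P.rep_nonzero Q.rep_nonzero hPQ
      rw [← P.mk_rep, ← Q.mk_rep, Projectivization.mk_eq_mk_iff']
      exact ⟨c, h1.symm⟩
    have hsub : f '' {P | PV T P.rep} ⊆ {P | ∃ m n : ℕ, m < n ∧ φ^[m] P = φ^[n] P} := by
      rintro _ ⟨P, hP, rfl⟩
      exact hpre _ P.rep_nonzero hP
    have h6 := (h.2 hR).1.subset hsub
    refine ⟨Set.Finite.of_finite_image h6 hinj.injOn, ?_⟩
    rw [← Set.ncard_image_of_injective _ hinj]
    exact (Set.ncard_le_ncard hsub (h.2 hR).1).trans (h.2 hR).2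

end misc

end Pool.Agent.N236.UR.Rs
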