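import Pool.Agent.N236.UR.RTow2

/-!
# Project UR (helper236), part 7: the theorem for towers, independent of the degree
-/

set_option autoImplicit false



namespace Pool.Agent.N236.UR.Rs

open Pool.Agent.N236.UR Pool.Agent.N236.UB Pool.Agent.N236.UR.Sym
open scoped LinearAlgebra.Projectivization

/-- Homogeneous self-maps `T` of degree `d` of `K ^ (n + 1)` without zeros (endomorphisms of
`n`-dimensional projective space over `K`) built from

* `point`: the space of dimension zero;
* `line`: the maps of the projective line which are compositions of Moebius maps over `K` and of at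
  least one and at most `s` power maps with exponents prime to `q`;
* `ext`: from a map `T` in dimension `n` the skew products `(u, z) ↦ (T u, F (u, z))` for which
  `z ↦ F (u, z)` is such a composition for every `u ≠ 0` (condition `FibR`);
* `join`: from two maps the map `(u, w) ↦ (T₁ u, T₂ w)` if `d` is prime to `q`;
* `conj`: coordinate changes over `K`. -/
inductive Tow (K : Type) [Field K] (q s d : ℕ) :
    (n : ℕ) → ((Fin (n + 1) → K) → (Fin (n + 1) → K)) → Prop
  | point (a : K) (ha : a ≠ 0) : Tow K q s d 0 (fun v _ => a * v 0 ^ d)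
  | line (T : (Fin (1 + 1) → K) → (Fin (1 + 1) → K)) (φ : ℙ K (K × K) → ℙ K (K × K)) (j : ℕ)
      (hj : 1 ≤ j) (hjs : j ≤ s) (hT : HomV T d) (hφ : PowMoeb q j φ)
      (h : ∀ (v : Fin (1 + 1) → K) (hv : (v 0, v 1) ≠ 0) (hTv : (T v 0, T v 1) ≠ 0),
        φ (Projectivization.mk K (v 0, v 1) hv) = Projectivization.mk K (T v 0, T v 1) hTv) :
      Tow K q s d 1 T
  | ext (n : ℕ) (T : (Fin (n + 1) → K) → (Fin (n + 1) → K)) (F : (Fin (n + 2) → K) → K)
      (hT : Tow K q s d n T) (hF : ∀ (a : K) x, F (a • x) = a ^ d * F x) (hfib : FibR q s F) :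
      Tow K q s d (n + 1) (ext T F)
  | join (a b : ℕ) (T₁ : (Fin (a + 1) → K) → (Fin (a + 1) → K))
      (T₂ : (Fin (b + 1) → K) → (Fin (b + 1) → K)) (h₁ : Tow K q s d a T₁) (h₂ : Tow K q s d b T₂)
      (hp : Nat.Coprime d q) : Tow K q s d (a + 1 + b) (join T₁ T₂)
  | conj (n : ℕ) (T U : (Fin (n + 1) → K) → (Fin (n + 1) → K))
      (A B : Matrix (Fin (n + 1)) (Fin (n + 1)) K) (hT : Tow K q s d n T) (hAB : A * B = 1)
      (h : ∀ v, U v = B.mulVec (T (A.mulVec v))) : Tow K q s d n U

section main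

theorem tow_hom {K : Type} [Field K] {q s d n : ℕ}
    {T : (Fin (n + 1) → K) → (Fin (n + 1) → K)} (h : Tow K q s d n T) : HomV T d := by
  induction h with
  | point a ha => exact hom_point ha
  | line T φ j hj hjs hT hφ h => exact hT
  | ext n T F hT hF hfib ih => exact hom_extR ih hF hfib
  | join a b T₁ T₂ h₁ h₂ hp ih₁ ih₂ => exact hom_join ih₁ ih₂
  | conj n T U A B hT hAB h ih =>
    have hBA : B * A = 1 := mul_eq_one_comm.mp hAB
    refine ⟨fun a v => ?_, fun v hv => ?_⟩
    · rw [h, h, Matrix.mulVec_smul, ih.1, Matrix.mulVec_smul]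
    · rw [h]
      intro h0
      have h1 : T (A.mulVec v) = 0 := by
        have := congrArg A.mulVec h0
        rwa [Matrix.mulVec_mulVec, hAB, Matrix.one_mulVec, Matrix.mulVec_zero] at this
      apply ih.2 _ _ h1
      intro h2
      apply hv
      have := congrArg B.mulVec h2
      rwa [Matrix.mulVec_mulVec, hBA, Matrix.one_mulVec, Matrix.mulVec_zero] at this

theorem dim_all (D p₁ p₂ : ℕ) (h1 : p₁.Prime) (h2 : p₂.Prime) (hne : p₁ ≠ p₂) (k : ℕ) :
    ∃ N C : ℕ, 1 ≤ N ∧ ∀ (K : Type) [Field K] [NumberField K], Module.finrank ℚ K ≤ D →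
      DimR (Nonempty (K →+* ℝ)) K (badM D p₁ p₂) k N C := by
  induction k with
  | zero =>
    refine ⟨1, 0, le_rfl, ?_⟩
    intro K _ _ _ φ j hj1 hj2
    omega
  | succ k ih =>
    obtain ⟨N, C, hN, H⟩ := ih
    obtain ⟨N', C', hN', H'⟩ := main_di3' D (k + 1) p₁ p₂ (by omega) h1 h2 hne
    refine ⟨N * N', C + C', Nat.mul_pos hN hN', ?_⟩
    intro K _ _ hK φ j hj1 hj2 hφ
    rcases Nat.lt_or_ge j (k + 1) with hlt | hge
    · obtain ⟨g1, g2⟩ := H K hK φ j hj1 (by omega) hφ
      refine ⟨fun P hP => ?_, fun hR => ⟨(g2 hR).1, (g2 hR).2.trans (by omega)⟩⟩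
      rw [Function.iterate_mul]
      exact Function.iterate_fixed (g1 P hP) N'
    · have hj : j = k + 1 := by omega
      subst hj
      obtain ⟨g1, g2⟩ := H' K hK φ hφ
      refine ⟨fun P hP => ?_, fun hR => ⟨(g2 hR).1, (g2 hR).2.trans (by omega)⟩⟩
      rw [mul_comm, Function.iterate_mul]
      exact Function.iterate_fixed (g1 P hP) N

/-- **The theorem for towers.** -/
theorem tow_main (D p₁ p₂ : ℕ) (h1 : p₁.Prime) (h2 : p₂.Prime) (hne : p₁ ≠ p₂) (s n : ℕ) :
    ∃ N C : ℕ, 1 ≤ N ∧ ∀ (K : Type) [Field K] [NumberField K], Module.finrank ℚ K ≤ D → ∀ d : ℕ,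
      2 ≤ d → ∀ m : ℕ, m ≤ n → ∀ T : (Fin (m + 1) → K) → (Fin (m + 1) → K),
        Tow K (badM D p₁ p₂) s d m T → BdR (Nonempty (K →+* ℝ)) T N C := by
  induction n with
  | zero =>
    refine ⟨1, 1, le_rfl, ?_⟩
    intro K _ _ _ d hd m hm T h
    induction h with
    | point a ha => exact ⟨(bd_point ha).1, fun _ => (bd_point ha).2⟩
    | line T φ j hj hjs hT hφ h => omega
    | ext n T F hT hF hfib ih => omega
    | join a b T₁ T₂ h₁ h₂ hp ih₁ ih₂ => omega
    | conj n T U A B hT hAB h ih => exact BdR.conj (tow_hom hT) (ih hm) hAB h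
  | succ n IH =>
    obtain ⟨N, C, hN, IH⟩ := IH
    obtain ⟨N1, C1, hN1, H1⟩ := dim_all D p₁ p₂ h1 h2 hne (s * N + s + 1)
    obtain ⟨N', hN'⟩ : ∃ N', N' = N1 * N := ⟨_, rfl⟩
    obtain ⟨C', hC'⟩ : ∃ C', C' = (C * C1 + 1) + (C + C + C * (C * C1)) + C1 := ⟨_, rfl⟩
    refine ⟨N', C', ?_, ?_⟩
    · rw [hN']
      exact Nat.mul_pos hN1 hN
    intro K _ _ hK d hd m hm T h
    have hd0 : d ≠ 0 := by omega
    by_cases hmn : m ≤ n
    · have h1 := IH K hK d hd m hmn T h
      rw [hN']
      refine h1.mono (tow_hom h) _ ?_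
      rw [hC']
      nlinarith [Nat.zero_le (C * C1), Nat.zero_le (C * (C * C1))]
    · have hm' : m = n + 1 := by omega
      clear hm hmn
      have hdim : ∀ k : ℕ, k ≤ s * N + s + 1 →
          DimR (Nonempty (K →+* ℝ)) K (badM D p₁ p₂) k N1 C1 := fun k hk φ j hj1 hj2 hφ =>
        H1 K hK φ j hj1 (by omega) hφ
      induction h with
      | point a ha => omega
      | line T φ j hj hjs hT hφ h =>
        have h1 := bd_lineR hT h (H1 K hK φ j hj (by omega) hφ)
        rw [hN', mul_comm]
        exact h1.mono hT _ (by rw [hC']; omega)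
      | ext k T F hT hF hfib ih =>
        have hk : k = n := by omega
        subst hk
        have h1 := bd_extR (tow_hom hT) hd0 hF hfib hN (IH K hK d hd k le_rfl T hT)
          (hdim (s * N) (by omega))
        rw [hN']
        have h3 := h1.mono (hom_extR (tow_hom hT) hF hfib) 1
          (show C * C1 + 1 ≤ C' by rw [hC']; omega)
        rwa [one_mul] at h3
      | join a b T₁ T₂ h₁ h₂ hp ih₁ ih₂ =>
        have h1 := bd_joinR (tow_hom h₁) (tow_hom h₂) hd0 ⟨hd, hp⟩ hN
          (IH K hK d hd a (by omega) T₁ h₁) (IH K hK d hd b (by omega) T₂ h₂) (hdim 1 (by omega))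
        rw [hN']
        have h3 := h1.mono (hom_join (tow_hom h₁) (tow_hom h₂)) 1
          (show C + C + C * (C * C1) ≤ C' by rw [hC']; omega)
        rwa [one_mul] at h3
      | conj k T U A B hT hAB h ih => exact BdR.conj (tow_hom hT) (ih hm') hAB h

/-- The theorem for maps with an iterate in the class. -/
theorem tow_root (D p₁ p₂ : ℕ) (h1 : p₁.Prime) (h2 : p₂.Prime) (hne : p₁ ≠ p₂) (s n r : ℕ)
    (hr : 1 ≤ r) :
    ∃ N C : ℕ, 1 ≤ N ∧ ∀ (K : Type) [Field K] [NumberField K], Module.finrank ℚ K ≤ D → ∀ d : ℕ,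
      2 ≤ d → ∀ T : (Fin (n + 1) → K) → (Fin (n + 1) → K), (∀ (a : K) v, T (a • v) = a ^ d • T v) →
        Tow K (badM D p₁ p₂) s (d ^ r) n T^[r] → BdR (Nonempty (K →+* ℝ)) T N C := by
  obtain ⟨N, C, hN, H⟩ := tow_main D p₁ p₂ h1 h2 hne s n
  refine ⟨r * N, C, Nat.mul_pos hr hN, ?_⟩
  intro K _ _ hK d hd T hhom hT
  have hdr : 2 ≤ d ^ r := by
    calc 2 ≤ d := hd
      _ ≤ d ^ r := Nat.le_self_pow (by omega) d
  have hU := tow_hom hT
  have hT0 : T 0 = 0 := by
    have := hhom 0 0
    rwa [smul_zero, zero_pow (by omega), zero_smul] at this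
  have hz : ∀ k, T^[k] 0 = 0 := by
    intro k
    induction k with
    | zero => rfl
    | succ k ih => rw [Function.iterate_succ_apply', ih, hT0]
  have hTh : HomV T d := by
    refine ⟨hhom, fun v hv h0 => hU.2 v hv ?_⟩
    obtain ⟨s, rfl⟩ : ∃ s, r = s + 1 := ⟨r - 1, by omega⟩
    rw [Function.iterate_succ_apply, h0, hz]
  have hb := H K hK _ hdr n le_rfl _ hT
  have hpv : ∀ v, PV T v → PV T^[r] v := by
    rintro v ⟨m, k, hmk, c, hc, h⟩
    obtain ⟨c', hc', h'⟩ := orb hTh hmk hc h (s := r * m) (Nat.le_mul_of_pos_left m (by omega)) r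
    refine ⟨m, k, hmk, c', hc', ?_⟩
    rw [← Function.iterate_mul, ← Function.iterate_mul]
    have e : r * m + r * (k - m) = r * k := by
      rw [← Nat.mul_add]
      congr 1
      omega
    rwa [e] at h'
  refine ⟨?_, fun hR => ?_⟩
  · intro v hv hp
    have := hb.1 v hv (hpv v hp)
    rwa [← Function.iterate_mul] at this
  · have hsub : {P : ℙ K (Fin (n + 1) → K) | PV T P.rep} ⊆ {P | PV T^[r] P.rep} :=
      fun P hP => hpv _ hP
    exact ⟨(hb.2 hR).1.subset hsub, (Set.ncard_le_ncard hsub (hb.2 hR).1).trans (hb.2 hR).2⟩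

end main

section tri

variable {K : Type} [Field K] {q d : ℕ}

/-- triangular maps -/
theorem triR (hd : 2 ≤ d) (hp : Nat.Coprime d q) (n : ℕ) :
    ∀ (a : Fin (n + 1) → K) (g : Fin (n + 1) → (Fin (n + 1) → K) → K), (∀ k, a k ≠ 0) →
      (∀ k (c : K) v, g k (c • v) = c ^ d * g k v) →
      (∀ k v w, (∀ i, i < k → v i = w i) → g k v = g k w) →
      Tow K q 1 d n (fun v k => a k * v k ^ d + g k v) := by
  have hd0 : d ≠ 0 := by omega
  induction n with
  | zero =>
    intro a g ha hg hdep
    have h0 : ∀ v, g 0 v = 0 := by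
      intro v
      have h1 : g 0 v = g 0 0 := hdep 0 v 0 (fun i hi => by
        exfalso
        have := Fin.lt_def.mp hi
        simp at this)
      have h2 := hg 0 0 0
      rw [smul_zero, zero_pow hd0, zero_mul] at h2
      rw [h1, h2]
    have e : (fun (v : Fin (0 + 1) → K) (k : Fin (0 + 1)) => a k * v k ^ d + g k v) =
        fun v _ => a 0 * v 0 ^ d := by
      funext v k
      rw [z0 k, h0, add_zero]
    rw [e]
    exact Tow.point (a 0) (ha 0)
  | succ n ih =>
    intro a g ha hg hdep
    have hagree : ∀ (k : Fin (n + 1)) (x : Fin (n + 2) → K),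
        g k.castSucc (Fin.snoc (Fin.init x) 0) = g k.castSucc x := by
      intro k x
      apply hdep
      intro i hi
      obtain ⟨j, rfl⟩ : ∃ j : Fin (n + 1), i = j.castSucc := by
        have h2 : (i : ℕ) < n + 1 := by
          have h3 := Fin.lt_def.mp hi
          have h4 := k.2
          simp only [Fin.val_castSucc] at h3
          omega
        exact ⟨⟨i, h2⟩, rfl⟩
      rw [Fin.snoc_castSucc]
      rfl
    have hlast : ∀ (u : Fin (n + 1) → K) (z : K),
        g (Fin.last (n + 1)) (Fin.snoc u z) = g (Fin.last (n + 1)) (Fin.snoc u 0) := by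
      intro u z
      apply hdep
      intro i hi
      obtain ⟨j, rfl⟩ : ∃ j : Fin (n + 1), i = j.castSucc := by
        have h3 := Fin.lt_def.mp hi
        exact ⟨⟨i, by simpa using h3⟩, rfl⟩
      rw [Fin.snoc_castSucc, Fin.snoc_castSucc]
    have h1 := ih (fun k => a k.castSucc) (fun k u => g k.castSucc (Fin.snoc u 0)) (fun k => ha _)
      (by
        intro k c v
        have e : (Fin.snoc (c • v) 0 : Fin (n + 2) → K) = c • Fin.snoc v 0 := by
          rw [smul_snoc, mul_zero]
        rw [e]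
        exact hg _ _ _)
      (by
        intro k v w h
        apply hdep
        intro i hi
        obtain ⟨j, rfl⟩ : ∃ j : Fin (n + 1), i = j.castSucc := by
          have h2 : (i : ℕ) < n + 1 := by
            have h3 := Fin.lt_def.mp hi
            have h4 := k.2
            simp only [Fin.val_castSucc] at h3
            omega
          exact ⟨⟨i, h2⟩, rfl⟩
        rw [Fin.snoc_castSucc, Fin.snoc_castSucc]
        exact h j (by simpa using hi))
    have h2 := Tow.ext n _ (fun x => a (Fin.last _) * x (Fin.last _) ^ d + g (Fin.last _) x) h1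
      (by
        intro c x
        simp only [Pi.smul_apply, smul_eq_mul, mul_pow, hg]
        ring)
      (by
        refine ⟨?_, ?_⟩
        · intro u hu
          obtain ⟨φ, h3, h4⟩ := uniR (K := K) hd hp (ha (Fin.last _))
            (g (Fin.last (n + 1)) (Fin.snoc u 0))
          refine ⟨φ, 1, le_rfl, le_rfl, h3, fun z => ?_⟩
          rw [h4]
          beta_reduce
          rw [Fin.snoc_last, hlast u z]
        · beta_reduce
          rw [Fin.snoc_last, hlast 0 1]
          have h5 : g (Fin.last (n + 1)) (Fin.snoc (0 : Fin (n + 1) → K) 0) = 0 := by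
            have h6 := hg (Fin.last (n + 1)) 0 0
            rw [smul_zero, zero_pow hd0, zero_mul] at h6
            have e : (Fin.snoc (0 : Fin (n + 1) → K) 0 : Fin (n + 2) → K) = 0 := snoc_zero
            rw [e]
            exact h6
          rw [h5, add_zero, one_pow, mul_one]
          exact ha _)
    have e : (fun (v : Fin (n + 1 + 1) → K) (k : Fin (n + 1 + 1)) => a k * v k ^ d + g k v) =
        ext (fun (v : Fin (n + 1) → K) (k : Fin (n + 1)) =>
          a k.castSucc * v k ^ d + g k.castSucc (Fin.snoc v 0))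
        (fun x => a (Fin.last _) * x (Fin.last _) ^ d + g (Fin.last _) x) := by
      funext x k
      unfold ext
      refine Fin.lastCases ?_ (fun k => ?_) k
      · rw [Fin.snoc_last]
      · rw [Fin.snoc_castSucc]
        beta_reduce
        rw [hagree]
        rfl
    rw [e]
    exact h2

end tri

end Pool.Agent.N236.UR.Rs
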