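import Pool.Agent.N236.UR.RTow3

/-!
# Project UR (helper236), part 7: an explicit family of triangular endomorphisms
-/

set_option autoImplicit false

namespace Pool.Agent.N236.UR.Rs

open Pool.Agent.N236.UR Pool.Agent.N236.UB Pool.Agent.N236.UR.Sym
open scoped LinearAlgebra.Projectivization

section base

variable {K : Type} [Field K] {q d : ℕ}

/-- the linear map of a matrix -/
noncomputable def matEquiv (A : Matrix (Fin 2) (Fin 2) K) (hA : A.det ≠ 0) : (K × K) ≃ₗ[K] (K × K) where
  toFun x := lin A x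
  invFun x := lin A⁻¹ x
  map_add' x y := by
    unfold lin
    apply Prod.ext
    · simp only [Prod.fst_add, Prod.snd_add]; ring
    · simp only [Prod.fst_add, Prod.snd_add]; ring
  map_smul' a x := lin_smul A a x
  left_inv x := by
    beta_reduce
    rw [← lin_mul, Matrix.nonsing_inv_mul A (isUnit_iff_ne_zero.mpr hA)]
    unfold lin
    simp
  right_inv x := by
    beta_reduce
    rw [← lin_mul, Matrix.mul_nonsing_inv A (isUnit_iff_ne_zero.mpr hA)]
    unfold lin
    simp

theorem base_line (hd : 2 ≤ d) (hp : Nat.Coprime d q) {A : Matrix (Fin 2) (Fin 2) K} (hA : A.det ≠ 0)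
    {T : (Fin (1 + 1) → K) → (Fin (1 + 1) → K)} (h0 : ∀ v, T v 0 = A 0 0 * v 0 ^ d + A 0 1 * v 1 ^ d)
    (h1 : ∀ v, T v 1 = A 1 0 * v 0 ^ d + A 1 1 * v 1 ^ d) : Tow K q 1 d 1 T := by
  have hpair : ∀ v, (T v 0, T v 1) = lin A (pw d (v 0, v 1)) := by
    intro v
    rw [h0, h1]
    rfl
  have hT : HomV T d := by
    constructor
    · intro c v
      funext j
      fin_cases j
      · change T (c • v) 0 = c ^ d * T v 0
        rw [h0, h0]
        simp only [Pi.smul_apply, smul_eq_mul, mul_pow]
        ring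
      · change T (c • v) 1 = c ^ d * T v 1
        rw [h1, h1]
        simp only [Pi.smul_apply, smul_eq_mul, mul_pow]
        ring
    · intro v hv h
      have h2 : lin A (pw d (v 0, v 1)) = 0 := by
        rw [← hpair, h]
        rfl
      exact lin_ne_zero hA (pw_ne_zero (by omega) (pair_ne hv)) h2
  refine Tow.line T (_ ∘ powP d) (0 + 1) (by omega) (by omega) hT
    (PowMoeb.comp _ _ _ _ (PowMoeb.mobius (matEquiv A hA)) (PowMoeb.power d hd hp)) ?_
  intro v hv hTv
  rw [Function.comp_apply, powP_mk (by omega) hv]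
  simp only [Projectivization.map_mk]
  congr 1
  exact (hpair v).symm

end base

section step

variable {K : Type} [Field K] {q d n : ℕ}

/-- adding one variable -/
theorem tri_step (hd : 2 ≤ d) (hp : Nat.Coprime d q)
    {T : (Fin (n + 2) → K) → (Fin (n + 2) → K)}
    (hdep : ∀ (k : Fin (n + 1)) v w, (∀ i : Fin (n + 1), v i.castSucc = w i.castSucc) →
      T v k.castSucc = T w k.castSucc)
    {a : K} (ha : a ≠ 0) {G : (Fin (n + 2) → K) → K}
    (hG : ∀ (c : K) v, G (c • v) = c ^ d * G v)
    (hGd : ∀ v w, (∀ i : Fin (n + 1), v i.castSucc = w i.castSucc) → G v = G w)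
    (hlast : ∀ v, T v (Fin.last (n + 1)) = a * v (Fin.last (n + 1)) ^ d + G v)
    (h : Tow K q 1 d n (fun u k => T (Fin.snoc u 0) k.castSucc)) : Tow K q 1 d (n + 1) T := by
  have hd0 : d ≠ 0 := by omega
  have hGs : ∀ (u : Fin (n + 1) → K) (z : K), G (Fin.snoc u z) = G (Fin.snoc u 0) := by
    intro u z
    apply hGd
    intro i
    rw [Fin.snoc_castSucc, Fin.snoc_castSucc]
  have h2 := Tow.ext n _ (fun x => T x (Fin.last (n + 1))) h
    (by
      intro c x
      beta_reduce
      rw [hlast, hlast, hG]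
      simp only [Pi.smul_apply, smul_eq_mul, mul_pow]
      ring)
    (by
      refine ⟨?_, ?_⟩
      · intro u hu
        obtain ⟨φ, h3, h4⟩ := uniR (K := K) hd hp ha (G (Fin.snoc u 0))
        refine ⟨φ, 1, le_rfl, le_rfl, h3, fun z => ?_⟩
        rw [h4]
        beta_reduce
        rw [hlast, Fin.snoc_last, hGs u z]
      · beta_reduce
        rw [hlast, Fin.snoc_last, hGs 0 1]
        have h5 : G (Fin.snoc (0 : Fin (n + 1) → K) 0) = 0 := by
          have h6 := hG 0 0
          rw [smul_zero, zero_pow hd0, zero_mul] at h6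
          have e : (Fin.snoc (0 : Fin (n + 1) → K) 0 : Fin (n + 2) → K) = 0 := snoc_zero
          rw [e]
          exact h6
        rw [h5, add_zero, one_pow, mul_one]
        exact ha)
  have e : T = Sym.ext (fun u k => T (Fin.snoc u 0) k.castSucc) (fun x => T x (Fin.last (n + 1))) := by
    funext x k
    unfold Sym.ext
    refine Fin.lastCases ?_ (fun k => ?_) k
    · rw [Fin.snoc_last]
    · rw [Fin.snoc_castSucc]
      beta_reduce
      apply hdep
      intro i
      rw [Fin.snoc_castSucc]
      rfl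
  rw [e]
  exact h2

end step

section fam

variable {K : Type} [Field K] {q d : ℕ}

/-- block triangular maps -/
theorem block_tri (hd : 2 ≤ d) (hp : Nat.Coprime d q) {A : Matrix (Fin 2) (Fin 2) K} (hA : A.det ≠ 0)
    (n : ℕ) : ∀ (T : (Fin (n + 2) → K) → (Fin (n + 2) → K)) (a : Fin (n + 2) → K)
      (g : Fin (n + 2) → (Fin (n + 2) → K) → K),
      (∀ v, T v 0 = A 0 0 * v 0 ^ d + A 0 1 * v 1 ^ d) →
      (∀ v, T v 1 = A 1 0 * v 0 ^ d + A 1 1 * v 1 ^ d) →
      (∀ k : Fin (n + 2), 2 ≤ (k : ℕ) → a k ≠ 0 ∧ (∀ v, T v k = a k * v k ^ d + g k v) ∧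
        (∀ (c : K) v, g k (c • v) = c ^ d * g k v) ∧
        (∀ v w, (∀ i, i < k → v i = w i) → g k v = g k w)) →
      Tow K q 1 d (n + 1) T := by
  induction n with
  | zero =>
    intro T a g h0 h1 _
    exact base_line hd hp hA h0 h1
  | succ n ih =>
    intro T a g h0 h1 h2
    have hcs : ∀ (k : Fin (n + 2)) (v w : Fin (n + 3) → K),
        (∀ i : Fin (n + 2), v i.castSucc = w i.castSucc) → T v k.castSucc = T w k.castSucc := by
      intro k v w hvw
      have e0 : v 0 = w 0 := hvw 0
      have e1 : v 1 = w 1 := hvw 1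
      by_cases hk : 2 ≤ ((k.castSucc : Fin (n + 3)) : ℕ)
      · obtain ⟨-, g1, -, g3⟩ := h2 k.castSucc hk
        rw [g1, g1, hvw k, g3 v w]
        intro i hi
        obtain ⟨j, rfl⟩ : ∃ j : Fin (n + 2), i = j.castSucc := by
          have h2 : (i : ℕ) < n + 2 := by
            have h3 := Fin.lt_def.mp hi
            have h4 := k.2
            simp only [Fin.val_castSucc] at h3
            omega
          exact ⟨⟨i, h2⟩, rfl⟩
        exact hvw j
      · have hk' : (k.castSucc : Fin (n + 3)) = 0 ∨ (k.castSucc : Fin (n + 3)) = 1 := by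
          rcases Nat.lt_or_ge ((k.castSucc : Fin (n + 3)) : ℕ) 1 with h | h
          · left; exact Fin.ext (by rw [Fin.val_zero]; omega)
          · right; exact Fin.ext (by rw [Fin.val_one]; omega)
        rcases hk' with h | h
        · rw [h, h0, h0, e0, e1]
        · rw [h, h1, h1, e0, e1]
    have hl2 : 2 ≤ ((Fin.last (n + 2) : Fin (n + 3)) : ℕ) := by
      rw [Fin.val_last]
      omega
    obtain ⟨l1, l2, l3, l4⟩ := h2 (Fin.last (n + 2)) hl2
    refine tri_step hd hp hcs l1 l3 ?_ l2 ?_
    · intro v w hvw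
      apply l4
      intro i hi
      obtain ⟨j, rfl⟩ : ∃ j : Fin (n + 2), i = j.castSucc := by
        have h3 := Fin.lt_def.mp hi
        exact ⟨⟨i, by simpa using h3⟩, rfl⟩
      exact hvw j
    · refine ih _ (fun k => a k.castSucc) (fun k u => g k.castSucc (Fin.snoc u 0)) ?_ ?_ ?_
      · intro v
        have e0 : (Fin.snoc v 0 : Fin (n + 3) → K) 0 = v 0 := Fin.snoc_castSucc (α := fun _ => K) 0 v 0
        have e1 : (Fin.snoc v 0 : Fin (n + 3) → K) 1 = v 1 := Fin.snoc_castSucc (α := fun _ => K) 0 v 1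
        change T (Fin.snoc v 0) 0 = _
        rw [h0, e0, e1]
      · intro v
        have e0 : (Fin.snoc v 0 : Fin (n + 3) → K) 0 = v 0 := Fin.snoc_castSucc (α := fun _ => K) 0 v 0
        have e1 : (Fin.snoc v 0 : Fin (n + 3) → K) 1 = v 1 := Fin.snoc_castSucc (α := fun _ => K) 0 v 1
        change T (Fin.snoc v 0) 1 = _
        rw [h1, e0, e1]
      · intro k hk
        obtain ⟨g0, g1, g2, g3⟩ := h2 k.castSucc (by simpa using hk)
        refine ⟨g0, ?_, ?_, ?_⟩
        · intro v
          beta_reduce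
          rw [g1, Fin.snoc_castSucc]
        · intro c v
          have e : (Fin.snoc (c • v) 0 : Fin (n + 3) → K) = c • Fin.snoc v 0 := by
            rw [smul_snoc, mul_zero]
          beta_reduce
          rw [e]
          exact g2 _ _
        · intro v w hvw
          apply g3
          intro i hi
          obtain ⟨j, rfl⟩ : ∃ j : Fin (n + 2), i = j.castSucc := by
            have h2 : (i : ℕ) < n + 2 := by
              have h3 := Fin.lt_def.mp hi
              have h4 := k.2
              simp only [Fin.val_castSucc] at h3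
              omega
            exact ⟨⟨i, h2⟩, rfl⟩
          rw [Fin.snoc_castSucc, Fin.snoc_castSucc]
          exact hvw j (by simpa using hi)

end fam

section poly

variable {K : Type} [Field K] {n : ℕ}

theorem eval_hom {d : ℕ} {Φ : Fin (n + 1) → MvPolynomial (Fin (n + 1)) K}
    (h : ∀ j, (Φ j).IsHomogeneous d) (a : K) (v : Fin (n + 1) → K) : aN Φ (a • v) = a ^ d • aN Φ v := by
  funext j
  exact eval_smul_hom (h j) a v

theorem eval_dep {p : MvPolynomial (Fin (n + 1)) K} {k : Fin (n + 1)} (h : ∀ i ∈ p.vars, i < k)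
    {v w : Fin (n + 1) → K} (hvw : ∀ i, i < k → v i = w i) :
    MvPolynomial.eval v p = MvPolynomial.eval w p :=
  MvPolynomial.eval₂Hom_congr' rfl (fun i hi _ => hvw i (h i hi)) rfl

end poly

end Pool.Agent.N236.UR.Rs
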