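import Pool.Agent.N236.UR.Stm

/-!
# Project UR (helper236): statements of the parts, maps
-/

set_option autoImplicit false

open Polynomial

namespace Pool.Agent.N236.UR

open Pool.Agent.N236.UB

/-- A step: a linear map followed by a power map. The list is applied from left to right. -/
def run {L : Type} [Field L] : List (Matrix (Fin 2) (Fin 2) L × ℕ) → L × L → L × L
  | [], x => x
  | s :: t, x => run t (pw s.2 (lin s.1 x))

/-- A cycle of length `n >= 4` of a composition of steps gives a full configuration. -/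
def S_GEO : Prop := ∀ (L : Type) [Field L] (v : AbsoluteValue L ℝ) (p q e : ℕ), Loc v p q e → p.Prime →
  ∀ (st : List (Matrix (Fin 2) (Fin 2) L × ℕ)) (B : Matrix (Fin 2) (Fin 2) L),
    (∀ s ∈ st, s.1.det ≠ 0 ∧ 2 ≤ s.2 ∧ ¬ p ∣ s.2 ∧ Nat.Coprime s.2 (q - 1)) → B.det ≠ 0 →
    ∀ (n : ℕ) (V : ℤ → L × L), 4 ≤ n → Fam n V →
      (∀ i, wd (lin B (run st (V i))) (V (i + 1)) = 0) →
      ∃ (c : ℤ → ℝ) (rel : Fin st.length → ℤ → ℤ → Prop) (d : Fin st.length → ℤ → ℝ),
        Full v n st.length V c rel d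

/-- Number of affine fixed points. -/
def S_CNT : Prop := ∀ (K : Type) [Field K] [CharZero K]
  (st : List (Matrix (Fin 2) (Fin 2) K × ℕ)) (B : Matrix (Fin 2) (Fin 2) K),
    (∀ s ∈ st, s.1.det ≠ 0 ∧ 2 ≤ s.2) → B.det ≠ 0 → st ≠ [] →
    ∀ S : Finset K, (∀ x ∈ S, wd (lin B (run st (x, 1))) (x, 1) = 0) →
      S.card ≤ (st.map Prod.snd).prod + 1

end Pool.Agent.N236.UR
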