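import Pool.Agent.N236.UR.Stm4

/-!
# Project UR (helper236), part 4: Dickson stages, statements
-/

set_option autoImplicit false

open Polynomial

namespace Pool.Agent.N236.UR

open Pool.Agent.N236.UB

/-- the homogeneous Dickson map on vectors -/
noncomputable def dkm {L : Type} [Field L] (l : ℕ) (α : L) (x : L × L) : L × L :=
  ((dickson 1 (α * x.2 ^ 2) l).eval x.1, x.2 ^ l)

/-- `max(|x1 y2|, |y1 x2|, R |x2 y2|)` -/
noncomputable def mr {L : Type} [Field L] (v : AbsoluteValue L ℝ) (R : ℝ) (x y : L × L) : ℝ :=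
  max (mm v x y) (R * (v x.2 * v y.2))

/-- the norm at the position `s` -/
noncomputable def NN {L : Type} [Field L] (v : AbsoluteValue L ℝ) (s : ℝ) (x : L × L) : ℝ :=
  max (v x.1) (s * v x.2)

/-- divided differences of the Dickson polynomials -/
noncomputable def DE {L : Type} [Field L] (a A B : L) : ℕ → L
  | 0 => 0
  | 1 => 1
  | (n + 2) => (dickson 1 a (n + 1)).eval A + B * DE a A B (n + 1) - a * DE a A B n

/-- the quotient `wd (dkm x) (dkm y) / wd x y` -/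
noncomputable def phiD {L : Type} [Field L] (l : ℕ) (α : L) (x y : L × L) : L :=
  DE (α * x.2 ^ 2 * y.2 ^ 2) (x.1 * y.2) (x.2 * y.1) l

/-- Values of differences of Dickson polynomials. -/
def S_DV1 : Prop := ∀ (L : Type) [Field L] (v : AbsoluteValue L ℝ) (p q e l : ℕ), Loc v p q e →
  p.Prime → l.Prime → ¬ p ∣ l → Nat.Coprime l (q ^ 2 - 1) → ∀ a A B : L,
    v ((dickson 1 a l).eval A - (dickson 1 a l).eval B) =
      v (A - B) * max (max (v A) (v B)) (Real.sqrt (v a)) ^ (l - 1)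

/-- four point inequality for `mr` -/
def S_MR4 : Prop := ∀ (L : Type) [Field L] (v : AbsoluteValue L ℝ),
  (∀ x y : L, v (x + y) ≤ max (v x) (v y)) → ∀ R : ℝ, 0 ≤ R →
  ∀ a b c d : L × L, wd a b ≠ 0 → wd a c ≠ 0 → wd a d ≠ 0 → wd b c ≠ 0 → wd b d ≠ 0 → wd c d ≠ 0 →
    v (wd a b) * v (wd c d) ≤ v (wd a c) * v (wd b d) →
      mr v R a b * mr v R c d ≤ mr v R a c * mr v R b d

/-- the position of a family -/
def S_POS : Prop := ∀ (L : Type) [Field L] (v : AbsoluteValue L ℝ) (R : ℝ), 0 ≤ R →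
  ∀ (n : ℕ) (V : ℤ → L × L), 4 ≤ n → Fam n V →
    (∀ a b c d : ℤ, Dis4 n a b c d →
      mr v R (V a) (V b) * mr v R (V c) (V d) = mr v R (V a) (V c) * mr v R (V b) (V d)) →
    ∃ s : ℝ, 0 < s ∧ R ≤ s ∧ ∀ i j : ℤ, ¬ (n : ℤ) ∣ i - j →
      mr v R (V i) (V j) * s = NN v s (V i) * NN v s (V j)

/-- Divided differences: formula, symmetry, size, small changes. -/
def S_DE : Prop := ∀ (L : Type) [Field L] (v : AbsoluteValue L ℝ),
  (∀ x y : L, v (x + y) ≤ max (v x) (v y)) →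
  (∀ (a A B : L) (n : ℕ), (dickson 1 a n).eval A - (dickson 1 a n).eval B = (A - B) * DE a A B n) ∧
  (∀ (a A B : L) (n : ℕ), DE a A B n = DE a B A n) ∧
  (∀ (a A B : L) (M : ℝ) (n : ℕ), 0 < M → 1 ≤ n → v A ≤ M → v B ≤ M → v a ≤ M ^ 2 →
    v (DE a A B n) ≤ M ^ (n - 1)) ∧
  (∀ (c a A B a' A' B' : L) (M : ℝ) (n : ℕ), 0 < M → 1 ≤ n →
    v (c * A) ≤ M → v (c * B) ≤ M → v (c ^ 2 * a) ≤ M ^ 2 → v A' ≤ M → v B' ≤ M → v a' ≤ M ^ 2 →
    v (A' - c * A) < M → v (B' - c * B) < M → v (a' - c ^ 2 * a) < M ^ 2 →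
    v (DE a' A' B' n - c ^ (n - 1) * DE a A B n) < M ^ (n - 1))

/-- The quotient `phiD`: formula, symmetry, size, and dependence on a vector up to small changes. -/
def S_RED : Prop := ∀ (L : Type) [Field L] (v : AbsoluteValue L ℝ),
  (∀ x y : L, v (x + y) ≤ max (v x) (v y)) → ∀ (l : ℕ) (α : L) (s : ℝ), 1 ≤ l → 0 < s → v α ≤ s ^ 2 →
  (∀ x y : L × L, wd (dkm l α x) (dkm l α y) = wd x y * phiD l α x y) ∧
  (∀ x y : L × L, phiD l α x y = phiD l α y x) ∧
  (∀ x y : L × L, 0 < NN v s x → 0 < NN v s y →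
    v (phiD l α x y) * s ^ (l - 1) ≤ (NN v s x * NN v s y) ^ (l - 1)) ∧
  (∀ x x' : L × L, 0 < NN v s x → 0 < NN v s x' → s * v (wd x x') < NN v s x * NN v s x' →
    ∃ c : L, v c * NN v s x = NN v s x' ∧ ∀ y : L × L, 0 < NN v s y →
      v (phiD l α x' y - c ^ (l - 1) * phiD l α x y) * s ^ (l - 1) < (NN v s x' * NN v s y) ^ (l - 1))

/-- Dickson maps are good stages. -/
def S_DGS : Prop := ∀ (L : Type) [Field L] (v : AbsoluteValue L ℝ) (p q e l : ℕ), Loc v p q e →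
  p.Prime → l.Prime → ¬ p ∣ l → Nat.Coprime l (q ^ 2 - 1) → ∀ α : L, GS v (dkm l α)

/-- Stages: power maps and Dickson maps. -/
inductive Sg (K : Type) : Type
  | pow (m : ℕ) : Sg K
  | dic (l : ℕ) (α : K) : Sg K

/-- the map of a stage on vectors -/
noncomputable def Sg.fn {K : Type} [Field K] : Sg K → K × K → K × K
  | .pow m => pw m
  | .dic l α => dkm l α

/-- the degree of a stage -/
def Sg.deg {K : Type} : Sg K → ℕ
  | .pow m => m
  | .dic l _ => l

/-- A step: a linear map followed by a stage. The list is applied from left to right. -/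
noncomputable def runS {L : Type} [Field L] : List (Matrix (Fin 2) (Fin 2) L × Sg L) → L × L → L × L
  | [], x => x
  | s :: t, x => runS t (s.2.fn (lin s.1 x))

/-- A cycle of length `n >= 4` of a composition of good steps gives a full configuration. -/
def S_GEO3 : Prop := ∀ (L : Type) [Field L] (v : AbsoluteValue L ℝ) (p q e : ℕ), Loc v p q e →
  ∀ (st : List (Matrix (Fin 2) (Fin 2) L × Sg L)) (B : Matrix (Fin 2) (Fin 2) L),
    (∀ s ∈ st, s.1.det ≠ 0 ∧ GS v s.2.fn) → B.det ≠ 0 →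
    ∀ (n : ℕ) (V : ℤ → L × L), 4 ≤ n → Fam n V →
      (∀ i, wd (lin B (runS st (V i))) (V (i + 1)) = 0) →
      ∃ (c : ℤ → ℝ) (rel : Fin st.length → ℤ → ℤ → Prop) (d : Fin st.length → ℤ → ℝ),
        Full v n st.length V c rel d

/-- Number of affine fixed points. -/
def S_CNT3 : Prop := ∀ (K : Type) [Field K] [CharZero K]
  (st : List (Matrix (Fin 2) (Fin 2) K × Sg K)) (B : Matrix (Fin 2) (Fin 2) K),
    (∀ s ∈ st, s.1.det ≠ 0 ∧ 2 ≤ s.2.deg) → B.det ≠ 0 → st ≠ [] →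
    ∀ S : Finset K, (∀ x ∈ S, wd (lin B (runS st (x, 1))) (x, 1) = 0) →
      S.card ≤ (st.map fun s => s.2.deg).prod + 1

end Pool.Agent.N236.UR
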