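import Pool.Agent.N236.UR.Asm

/-!
# Project UR (helper236), part 6: binary forms and their zeros
-/

set_option autoImplicit false

open Polynomial

namespace Pool.Agent.N236.UR.Sym

open Pool.Agent.N236.UR
open scoped LinearAlgebra.Projectivization

variable {E : Type} [Field E]

/-- the product of the linear forms `b X - a Y`, dehomogenised -/
noncomputable def fo {n : ℕ} (p : Fin n → E × E) : E[X] := ∏ i, (C (p i).2 * X - C (p i).1)

/-- its coefficients -/
noncomputable def pt {n : ℕ} (p : Fin n → E × E) : Fin (n + 1) → E :=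
  fun j => (fo p).coeff j

theorem lin_deg (p : E × E) : (C p.2 * X - C p.1).natDegree ≤ 1 := by
  refine (natDegree_sub_le _ _).trans (max_le ((natDegree_C_mul_le _ _).trans natDegree_X_le) ?_)
  rw [natDegree_C]
  omega

theorem fo_deg {n : ℕ} (p : Fin n → E × E) : (fo p).natDegree ≤ n := by
  refine (natDegree_prod_le _ _).trans ?_
  refine (Finset.sum_le_sum fun i _ => lin_deg (p i)).trans ?_
  simp

/-- the value of a binary form -/
noncomputable def hf {n : ℕ} (v : Fin (n + 1) → E) (s t : E) : E :=
  ∑ j : Fin (n + 1), v j * s ^ (j : ℕ) * t ^ (n - (j : ℕ))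

theorem hf_pt {n : ℕ} (p : Fin n → E × E) (s t : E) :
    hf (pt p) s t = ∏ i, ((p i).2 * s - (p i).1 * t) := by
  by_cases ht : t = 0
  · subst ht
    have h1 : hf (pt p) s 0 = (fo p).coeff n * s ^ n := by
      unfold hf
      rw [Finset.sum_eq_single (Fin.last n)]
      · simp [pt]
      · intro j _ hj
        have : n - (j : ℕ) ≠ 0 := by
          have := j.2
          have : (j : ℕ) ≠ n := fun h => hj (Fin.ext h)
          omega
        rw [zero_pow this, mul_zero]
      · intro h
        exact absurd (Finset.mem_univ _) h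
    have h2 := coeff_prod_of_natDegree_le (s := (Finset.univ : Finset (Fin n)))
      (f := fun i => C (p i).2 * X - C (p i).1) 1 (fun i _ => lin_deg (p i))
    rw [Finset.card_univ, Fintype.card_fin, mul_one] at h2
    rw [h1]
    unfold fo
    rw [h2]
    simp only [mul_zero, sub_zero]
    rw [Finset.prod_mul_distrib, Finset.prod_const, Finset.card_univ, Fintype.card_fin]
    congr 1
    refine Finset.prod_congr rfl fun i _ => ?_
    simp [coeff_X, coeff_C]
  · have h1 : hf (pt p) s t = t ^ n * (fo p).eval (s / t) := by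
      unfold hf pt
      rw [eval_eq_sum_range' (Nat.lt_succ_of_le (fo_deg p)), Finset.mul_sum, Finset.sum_range]
      refine Finset.sum_congr rfl fun j _ => ?_
      have hj : (j : ℕ) ≤ n := by have := j.2; omega
      have e1 : t ^ n = t ^ (j : ℕ) * t ^ (n - (j : ℕ)) := by
        rw [← pow_add]
        congr 1
        omega
      rw [div_pow, e1]
      field_simp
    rw [h1]
    unfold fo
    rw [eval_prod]
    have h2 : t ^ n = ∏ _i : Fin n, t := by simp
    rw [h2, ← Finset.prod_mul_distrib]
    refine Finset.prod_congr rfl fun i _ => ?_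
    rw [eval_sub, eval_mul, eval_C, eval_C, eval_X]
    field_simp

/-- factorisation -/
theorem exists_fo [IsAlgClosed E] (n : ℕ) : ∀ g : E[X], g ≠ 0 → g.natDegree ≤ n →
    ∃ c : E, c ≠ 0 ∧ ∃ p : Fin n → E × E, (∀ i, p i ≠ 0) ∧ g = C c * fo p := by
  induction n with
  | zero =>
    intro g hg hd
    have h1 := eq_C_of_natDegree_le_zero hd
    refine ⟨g.coeff 0, ?_, Fin.elim0, fun i => i.elim0, ?_⟩
    · intro h
      rw [h, map_zero] at h1
      exact hg h1
    · simp only [fo, Finset.univ_eq_empty, Finset.prod_empty, mul_one]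
      exact h1
  | succ n ih =>
    intro g hg hd
    by_cases h : g.natDegree ≤ n
    · obtain ⟨c, hc, p, hp, hgp⟩ := ih g hg h
      refine ⟨c, hc, Fin.cons (-1, 0) p, ?_, ?_⟩
      · intro i
        refine Fin.cases ?_ (fun i => ?_) i
        · intro h0
          have := congrArg Prod.fst h0
          simp at this
        · exact hp i
      · rw [hgp]
        congr 1
        unfold fo
        rw [Fin.prod_univ_succ]
        simp
    · have h1 : g.natDegree = n + 1 := by omega
      have hdeg : g.degree ≠ 0 := by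
        rw [degree_eq_natDegree hg, h1]
        exact_mod_cast Nat.succ_ne_zero n
      obtain ⟨r, hr⟩ := IsAlgClosed.exists_root g hdeg
      obtain ⟨q, hq⟩ := dvd_iff_isRoot.2 hr
      have hq0 : q ≠ 0 := by
        rintro rfl
        rw [mul_zero] at hq
        exact hg hq
      have hqd : q.natDegree ≤ n := by
        have h2 := congrArg natDegree hq
        rw [natDegree_mul (X_sub_C_ne_zero r) hq0, natDegree_X_sub_C, h1] at h2
        omega
      obtain ⟨c, hc, p, hp, hgp⟩ := ih q hq0 hqd
      refine ⟨c, hc, Fin.cons (r, 1) p, ?_, ?_⟩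
      · intro i
        refine Fin.cases ?_ (fun i => ?_) i
        · intro h0
          have := congrArg Prod.snd h0
          simp at this
        · exact hp i
      · rw [hq, hgp]
        unfold fo
        rw [Fin.prod_univ_succ]
        simp
        ring

/-- proportional forms have the same zeros -/
theorem zero_of_prop {n : ℕ} {p q : Fin n → E × E} {c : E} (h : pt p = c • pt q)
    (hc : c ≠ 0) (i : Fin n) : ∃ j, wd (q j) (p i) = 0 := by
  have h1 : hf (pt p) (p i).1 (p i).2 = 0 := by
    rw [hf_pt]
    refine Finset.prod_eq_zero (Finset.mem_univ i) ?_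
    ring
  have h2 : hf (pt p) (p i).1 (p i).2 = c * hf (pt q) (p i).1 (p i).2 := by
    rw [h]
    unfold hf
    rw [Finset.mul_sum]
    refine Finset.sum_congr rfl fun j _ => ?_
    rw [Pi.smul_apply, smul_eq_mul]
    ring
  rw [h2, hf_pt] at h1
  obtain ⟨j, -, hj⟩ := Finset.prod_eq_zero_iff.1 ((mul_eq_zero.1 h1).resolve_left hc)
  refine ⟨j, ?_⟩
  unfold wd
  linear_combination -hj

/-- proportional factors -/
theorem pt_of_prop {n : ℕ} {p q : Fin n → E × E} {c : Fin n → E}
    (h : ∀ i, p i = c i • q i) : pt p = (∏ i, c i) • pt q := by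
  funext j
  unfold pt fo
  rw [Pi.smul_apply, smul_eq_mul, ← coeff_C_mul, map_prod, ← Finset.prod_mul_distrib]
  congr 1
  refine Finset.prod_congr rfl fun i _ => ?_
  rw [h i]
  simp only [Prod.smul_fst, Prod.smul_snd, smul_eq_mul, map_mul]
  ring

/-- the tuple of the coefficients of the form with the given zeros -/
noncomputable def ptP {n : ℕ} (p : Fin n → ℙ E (E × E)) : Fin (n + 1) → E := pt fun i => (p i).rep

theorem ptP_ne {n : ℕ} (p : Fin n → ℙ E (E × E)) : ptP p ≠ 0 := by
  intro h0
  have h1 : fo (fun i => (p i).rep) = 0 := by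
    ext j
    by_cases hj : j < n + 1
    · have := congrFun h0 ⟨j, hj⟩
      simpa [ptP, pt] using this
    · rw [coeff_eq_zero_of_natDegree_lt, coeff_zero]
      exact lt_of_le_of_lt (fo_deg _) (by omega)
  unfold fo at h1
  rw [Finset.prod_eq_zero_iff] at h1
  obtain ⟨i, -, hi⟩ := h1
  apply (p i).rep_nonzero
  have h2 : (p i).rep.2 = 0 := by
    have := congrArg (fun g : E[X] => g.coeff 1) hi
    simpa [coeff_X, coeff_C] using this
  have h3 : (p i).rep.1 = 0 := by
    have := congrArg (fun g : E[X] => g.coeff 0) hi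
    simpa [coeff_X, coeff_C] using this
  exact Prod.ext h3 h2

/-- every point is a product of linear forms -/
theorem exists_ptP [IsAlgClosed E] {n : ℕ} (v : Fin (n + 1) → E) (hv : v ≠ 0) :
    ∃ (p : Fin n → ℙ E (E × E)) (c : E), c ≠ 0 ∧ v = c • ptP p := by
  classical
  set g : E[X] := ∑ j : Fin (n + 1), C (v j) * X ^ (j : ℕ) with hg
  have hcoef : ∀ j : Fin (n + 1), g.coeff j = v j := by
    intro j
    rw [hg, finsetSum_coeff, Finset.sum_eq_single j]
    · rw [coeff_C_mul, coeff_X_pow_self, mul_one]
    · intro i _ hij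
      rw [coeff_C_mul, coeff_X_pow, if_neg (fun h => hij (Fin.ext h.symm)), mul_zero]
    · intro h
      exact absurd (Finset.mem_univ _) h
  have hg0 : g ≠ 0 := by
    intro h
    apply hv
    funext j
    rw [← hcoef, h, coeff_zero]
    rfl
  have hgd : g.natDegree ≤ n := by
    rw [hg]
    refine natDegree_sum_le_of_forall_le _ _ fun j _ => ?_
    refine (natDegree_C_mul_X_pow_le _ _).trans ?_
    have := j.2
    omega
  obtain ⟨c, hc, p, hp, hgp⟩ := exists_fo n g hg0 hgd
  choose a ha using fun i => Projectivization.exists_smul_eq_mk_rep E (p i) (hp i)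
  have h1 : ptP (fun i => Projectivization.mk E (p i) (hp i)) = (∏ i, (a i : E)) • pt p := by
    unfold ptP
    apply pt_of_prop
    intro i
    exact (ha i).symm
  have ha0 : (∏ i, (a i : E)) ≠ 0 := Finset.prod_ne_zero_iff.mpr fun i _ => (a i).ne_zero
  refine ⟨fun i => Projectivization.mk E (p i) (hp i), c * (∏ i, (a i : E))⁻¹,
    mul_ne_zero hc (inv_ne_zero ha0), ?_⟩
  rw [h1, smul_smul, mul_assoc, inv_mul_cancel₀ ha0, mul_one]
  funext j
  rw [← hcoef, hgp, coeff_C_mul]
  rfl

/-- proportional forms have the same zeros -/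
theorem zeroP {n : ℕ} {p q : Fin n → ℙ E (E × E)} {c : E} (h : ptP p = c • ptP q)
    (hc : c ≠ 0) (i : Fin n) : ∃ j, q j = p i := by
  obtain ⟨j, hj⟩ := zero_of_prop h hc i
  refine ⟨j, ?_⟩
  rw [wd_eq_zero_iff (q j).rep_nonzero (p i).rep_nonzero] at hj
  simpa using hj

end Pool.Agent.N236.UR.Sym
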