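import Pool.Agent.N236.UR.SymA
import Pool.Agent.N236.UR.Main5

/-!
# Project UR (helper236), part 6: symmetric powers
-/

set_option autoImplicit false

open Polynomial

namespace Pool.Agent.N236.UR.Sym

open Pool.Agent.N236.UR
open scoped LinearAlgebra.Projectivization

section iter

variable {K E : Type} [Field K] [Field E] [Algebra K E] {n : ℕ}

/-- the value of a tuple of forms -/
noncomputable def aN (Φ : Fin (n + 1) → MvPolynomial (Fin (n + 1)) K)
    (v : Fin (n + 1) → K) : Fin (n + 1) → K := fun j => MvPolynomial.eval v (Φ j)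

/-- the tuple represents the symmetric power -/
def IsSym (φ : ℙ E (E × E) → ℙ E (E × E)) (Φ : Fin (n + 1) → MvPolynomial (Fin (n + 1)) K) : Prop :=
  ∀ p : Fin n → ℙ E (E × E), ∃ c : E, c ≠ 0 ∧
    (fun j => MvPolynomial.aeval (ptP p) (Φ j)) = c • ptP (fun i => φ (p i))

/-- the vector over the large field -/
def up (E : Type) [Field E] [Algebra K E] (v : Fin (n + 1) → K) : Fin (n + 1) → E :=
  fun j => algebraMap K E (v j)

theorem up_inj {v w : Fin (n + 1) → K} (h : up E v = up E w) : v = w := by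
  funext j
  exact (algebraMap K E).injective (congrFun h j)

theorem up_smul (a : K) (v : Fin (n + 1) → K) : up E (a • v) = algebraMap K E a • up E v := by
  funext j
  simp [up]

theorem up_ne {v : Fin (n + 1) → K} (hv : v ≠ 0) : up E v ≠ 0 := by
  intro h
  apply hv
  apply up_inj (E := E)
  rw [h]
  funext j
  simp [up]

theorem eval_smul_hom {σ : Type} {p : MvPolynomial σ K} {m : ℕ} (hp : p.IsHomogeneous m) (t : K)
    (z : σ → K) : MvPolynomial.eval (t • z) p = t ^ m * MvPolynomial.eval z p := by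
  rw [MvPolynomial.eval_eq, MvPolynomial.eval_eq, Finset.mul_sum]
  refine Finset.sum_congr rfl fun e he => ?_
  have h1 : ∏ i ∈ e.support, (t • z) i ^ e i = t ^ m * ∏ i ∈ e.support, z i ^ e i := by
    simp only [Pi.smul_apply, smul_eq_mul, mul_pow, Finset.prod_mul_distrib]
    rw [Finset.prod_pow_eq_pow_sum]
    congr 2
    have := hp.degree_eq_sum_deg_support he
    rw [this]
  rw [h1]
  ring

theorem aeval_smul_hom {σ : Type} {p : MvPolynomial σ K} {m : ℕ} (hp : p.IsHomogeneous m) (t : E)
    (z : σ → E) : MvPolynomial.aeval (t • z) p = t ^ m * MvPolynomial.aeval z p := by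
  have h1 : ∀ u : σ → E, MvPolynomial.aeval u p =
      MvPolynomial.eval u (MvPolynomial.map (algebraMap K E) p) := by
    intro u
    rw [MvPolynomial.eval_map, MvPolynomial.aeval_def]
  rw [h1, h1]
  exact eval_smul_hom (hp.map _) t z

/-- one step -/
theorem step {d : ℕ} {φ : ℙ E (E × E) → ℙ E (E × E)} {Φ : Fin (n + 1) → MvPolynomial (Fin (n + 1)) K}
    (hhom : ∀ j, (Φ j).IsHomogeneous d) (hΦ : IsSym φ Φ) {v : Fin (n + 1) → K}
    {p : Fin n → ℙ E (E × E)} {c : E} (hc : c ≠ 0) (hv : up E v = c • ptP p) :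
    ∃ c' : E, c' ≠ 0 ∧ up E (aN Φ v) = c' • ptP (fun i => φ (p i)) := by
  obtain ⟨c1, hc1, h1⟩ := hΦ p
  refine ⟨c ^ d * c1, mul_ne_zero (pow_ne_zero _ hc) hc1, ?_⟩
  rw [← smul_smul, ← h1]
  funext j
  have h2 : up E (aN Φ v) j = MvPolynomial.aeval (up E v) (Φ j) := by
    have h3 := MvPolynomial.aeval_algebraMap_apply (A := K) E v (Φ j)
    change algebraMap K E (MvPolynomial.eval v (Φ j)) = _
    rw [MvPolynomial.aeval_eq_eval] at h3
    exact h3.symm
  rw [h2, hv]
  rw [aeval_smul_hom (hhom j)]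
  rfl

/-- iterates -/
theorem iter {d : ℕ} {φ : ℙ E (E × E) → ℙ E (E × E)} {Φ : Fin (n + 1) → MvPolynomial (Fin (n + 1)) K}
    (hhom : ∀ j, (Φ j).IsHomogeneous d) (hΦ : IsSym φ Φ) {v : Fin (n + 1) → K}
    {p : Fin n → ℙ E (E × E)} {c : E} (hc : c ≠ 0) (hv : up E v = c • ptP p) (k : ℕ) :
    ∃ c' : E, c' ≠ 0 ∧ up E ((aN Φ)^[k] v) = c' • ptP (fun i => φ^[k] (p i)) := by
  induction k with
  | zero => exact ⟨c, hc, hv⟩
  | succ k ih =>
    obtain ⟨c', hc', h⟩ := ih
    obtain ⟨c'', hc'', h'⟩ := step hhom hΦ hc' h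
    refine ⟨c'', hc'', ?_⟩
    rw [Function.iterate_succ_apply', h']
    congr 2
    funext i
    rw [Function.iterate_succ_apply']

/-- the zeros of a preperiodic form are preperiodic -/
theorem pre_zero {φ : ℙ E (E × E) → ℙ E (E × E)} {p : Fin n → ℙ E (E × E)} {m k : ℕ} (hmk : m < k)
    {c : E} (hc : c ≠ 0) (h : ptP (fun i => φ^[k] (p i)) = c • ptP (fun i => φ^[m] (p i))) (i : Fin n) :
    ∃ a b, a < b ∧ φ^[a] (p i) = φ^[b] (p i) := by
  have h2 : ∀ i, ∃ j, φ^[m] (p j) = φ^[k] (p i) := fun i => zeroP h hc i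
  obtain ⟨δ, hδ, hkδ⟩ : ∃ δ, 0 < δ ∧ k = m + δ := ⟨k - m, by omega, by omega⟩
  have h3 : ∀ t : ℕ, ∀ i, ∃ j, φ^[m] (p j) = φ^[m + t * δ] (p i) := by
    intro t
    induction t with
    | zero =>
      intro i
      exact ⟨i, by rw [zero_mul, add_zero]⟩
    | succ t ih =>
      intro i
      obtain ⟨j, hj⟩ := ih i
      obtain ⟨j', hj'⟩ := h2 j
      refine ⟨j', ?_⟩
      have e1 : m + (t + 1) * δ = δ + (m + t * δ) := by ring
      rw [hj', e1, Function.iterate_add_apply φ δ, ← hj, ← Function.iterate_add_apply, hkδ, add_comm δ m]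
  choose J hJ using fun t => h3 t i
  obtain ⟨t, t', htt, he⟩ := Finite.exists_ne_map_eq_of_infinite J
  have key : ∀ t t', t < t' → J t = J t' → ∃ a b, a < b ∧ φ^[a] (p i) = φ^[b] (p i) := by
    intro t t' h he
    refine ⟨m + t * δ, m + t' * δ, ?_, ?_⟩
    · have := Nat.mul_lt_mul_of_pos_right h hδ
      omega
    · rw [← hJ t, ← hJ t', he]
  rcases lt_or_gt_of_ne htt with h | h
  · exact key t t' h he
  · exact key t' t h he.symm

/-- the degree of the zeros of a form -/
theorem deg_zero (hn : 1 ≤ n) {v : Fin (n + 1) → K} (hv : v ≠ 0)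
    {p : Fin n → ℙ E (E × E)} {c : E} (hp : up E v = c • ptP p) (i : Fin n) :
    RatLe K n (p i) := by
  classical
  by_cases h1 : (p i).rep.2 = 0
  · have h10 : (((1 : (⊥ : IntermediateField K E)) : E), ((0 : (⊥ : IntermediateField K E)) : E)) ≠ 0 := by
      simp
    refine ⟨⊥, inferInstance, ?_, 1, 0, h10, ?_⟩
    · rw [IntermediateField.finrank_bot]
      exact hn
    · have h2 : p i = Projectivization.mk E (p i).rep (p i).rep_nonzero := (Projectivization.mk_rep _).symm
      rw [h2, ← wd_eq_zero_iff]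
      unfold wd
      rw [h1]
      simp
  · obtain ⟨x, hx⟩ : ∃ x, x = (p i).rep.1 / (p i).rep.2 := ⟨_, rfl⟩
    obtain ⟨g, hg⟩ : ∃ g : Polynomial K, g = ∑ j : Fin (n + 1), Polynomial.C (v j) *
      Polynomial.X ^ (j : ℕ) := ⟨_, rfl⟩
    have hgd : g.natDegree ≤ n := by
      rw [hg]
      refine Polynomial.natDegree_sum_le_of_forall_le _ _ fun j _ => ?_
      refine (Polynomial.natDegree_C_mul_X_pow_le _ _).trans ?_
      have := j.2
      omega
    have hg0 : g ≠ 0 := by
      intro h
      apply hv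
      funext j
      have h2 : g.coeff (j : ℕ) = v j := by
        rw [hg, Polynomial.finsetSum_coeff, Finset.sum_eq_single j]
        · rw [Polynomial.coeff_C_mul, Polynomial.coeff_X_pow_self, mul_one]
        · intro i _ hij
          rw [Polynomial.coeff_C_mul, Polynomial.coeff_X_pow, if_neg (fun h => hij (Fin.ext h.symm)),
            mul_zero]
        · intro h
          exact absurd (Finset.mem_univ _) h
      rw [← h2, h, Polynomial.coeff_zero]
      rfl
    have hroot : Polynomial.aeval x g = 0 := by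
      have h2 : hf (up E v) (p i).rep.1 (p i).rep.2 = 0 := by
        have e : hf (up E v) (p i).rep.1 (p i).rep.2 = c * hf (ptP p) (p i).rep.1 (p i).rep.2 := by
          rw [hp]
          unfold hf
          rw [Finset.mul_sum]
          refine Finset.sum_congr rfl fun j _ => ?_
          rw [Pi.smul_apply, smul_eq_mul]
          ring
        rw [e]
        unfold ptP
        rw [hf_pt, Finset.prod_eq_zero (Finset.mem_univ i), mul_zero]
        ring
      have h4 : (p i).rep.2 ^ n * Polynomial.aeval x g = 0 := by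
        rw [← h2, hg, map_sum, Finset.mul_sum]
        unfold hf
        refine Finset.sum_congr rfl fun j _ => ?_
        have hj : (j : ℕ) ≤ n := by have := j.2; omega
        have e1 : (p i).rep.2 ^ n = (p i).rep.2 ^ (j : ℕ) * (p i).rep.2 ^ (n - (j : ℕ)) := by
          rw [← pow_add]
          congr 1
          omega
        rw [map_mul, Polynomial.aeval_C, map_pow, Polynomial.aeval_X, hx, div_pow, e1]
        have e2 : algebraMap K E (v j) = up E v j := rfl
        rw [e2]
        field_simp
      exact (mul_eq_zero.1 h4).resolve_left (pow_ne_zero _ h1)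
    have hint : IsIntegral K x := (isAlgebraic_iff_isIntegral.1 ⟨g, hg0, hroot⟩)
    have hfd : FiniteDimensional K (IntermediateField.adjoin K {x}) :=
      IntermediateField.adjoin.finiteDimensional hint
    have hx1 : ((((⟨x, IntermediateField.mem_adjoin_simple_self K x⟩ :
        IntermediateField.adjoin K {x}) : E)), (((1 : IntermediateField.adjoin K {x}) : E))) ≠ 0 := by
      simp
    refine ⟨IntermediateField.adjoin K {x}, hfd, ?_,
      ⟨x, IntermediateField.mem_adjoin_simple_self K x⟩, 1, hx1, ?_⟩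
    · rw [IntermediateField.adjoin.finrank hint]
      exact (Polynomial.natDegree_le_of_dvd (minpoly.dvd K x hroot) hg0).trans hgd
    · have h2 : p i = Projectivization.mk E (p i).rep (p i).rep_nonzero := (Projectivization.mk_rep _).symm
      rw [h2, ← wd_eq_zero_iff]
      unfold wd
      simp only [hx, OneMemClass.coe_one, mul_one]
      field_simp
      ring

end iter

end Pool.Agent.N236.UR.Sym
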