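import Pool.Agent.N236.UR.SymB

/-!
# Project UR (helper236), part 6: the theorem for the symmetric powers
-/

set_option autoImplicit false

open Polynomial

namespace Pool.Agent.N236.UR.Sym

open Pool.Agent.N236.UR
open scoped LinearAlgebra.Projectivization

/-- the preperiodic points of a tuple of forms -/
def Pre {K : Type} [Field K] {n : ℕ} (Φ : Fin (n + 1) → MvPolynomial (Fin (n + 1)) K) :
    Set (ℙ K (Fin (n + 1) → K)) :=
  {P | ∃ m k : ℕ, m < k ∧ ∃ c : K, c ≠ 0 ∧ (aN Φ)^[k] P.rep = c • (aN Φ)^[m] P.rep}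

section down

variable {K E : Type} [Field K] [Field E] [Algebra K E] {n : ℕ}

/-- descent of proportionality -/
theorem descend {v w : Fin (n + 1) → K} (hw : w ≠ 0) {c : E} (hc : c ≠ 0) (h : up E v = c • up E w) :
    ∃ a : K, a ≠ 0 ∧ v = a • w := by
  obtain ⟨j, hj⟩ := Function.ne_iff.1 hw
  have hj' : w j ≠ 0 := hj
  have hc' : c = algebraMap K E (v j / w j) := by
    have h4 := congrFun h j
    rw [Pi.smul_apply, smul_eq_mul] at h4
    have h5 : algebraMap K E (w j) ≠ 0 := fun h0 => hj' ((map_eq_zero _).1 h0)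
    rw [map_div₀, eq_div_iff h5]
    exact h4.symm
  refine ⟨v j / w j, ?_, ?_⟩
  · intro h0
    rw [h0, map_zero] at hc'
    exact hc hc'
  · apply up_inj (E := E)
    rw [h, up_smul, hc']

end down

/-- The theorem for symmetric powers. -/
theorem mainSym (D n d : ℕ) (hn : 1 ≤ n) (hd : 2 ≤ d) :
    ∃ N C : ℕ, 1 ≤ N ∧ ∀ (K : Type) [Field K] [CharZero K], PlAll K D →
      ∀ φ : ℙ (AlgebraicClosure K) (AlgebraicClosure K × AlgebraicClosure K) →
          ℙ (AlgebraicClosure K) (AlgebraicClosure K × AlgebraicClosure K),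
        ExcP K (AlgebraicClosure K) (D * n) φ d →
      ∀ Φ : Fin (n + 1) → MvPolynomial (Fin (n + 1)) K, (∀ j, (Φ j).IsHomogeneous d) → IsSym φ Φ →
        (∀ P ∈ Pre Φ, ∃ c : K, c ≠ 0 ∧ (aN Φ)^[N] P.rep = c • P.rep) ∧
        (Pre Φ).Finite ∧ (Pre Φ).ncard ≤ C := by
  classical
  obtain ⟨N, C, hN, hmain⟩ := main6' D n d hd
  refine ⟨N, C ^ n, hN, ?_⟩
  intro K _ _ hD φ hφ Φ hhom hΦ
  obtain ⟨hfix, hfin, hcard⟩ := hmain K hD φ hφ
  set E := AlgebraicClosure K with hE
  set T : Set (ℙ E (E × E)) := {P | RatLe K n P ∧ ∃ m n : ℕ, m < n ∧ φ^[m] P = φ^[n] P} with hT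
  choose p c hc hp using fun P : ℙ K (Fin (n + 1) → K) =>
    exists_ptP (E := E) (up E P.rep) (up_ne P.rep_nonzero)
  have hmem : ∀ P ∈ Pre Φ, ∀ i, p P i ∈ T := by
    intro P hP i
    refine ⟨deg_zero hn P.rep_nonzero (hp P) i, ?_⟩
    obtain ⟨m, k, hmk, a, ha, h⟩ := hP
    obtain ⟨c1, hc1, h1⟩ := iter hhom hΦ (hc P) (hp P) m
    obtain ⟨c2, hc2, h2⟩ := iter hhom hΦ (hc P) (hp P) k
    have ha' : algebraMap K E a ≠ 0 := fun h0 => ha ((map_eq_zero _).1 h0)
    have h3 : c2 • ptP (fun i => φ^[k] (p P i)) = algebraMap K E a • c1 • ptP (fun i => φ^[m] (p P i)) := by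
      rw [← h2, ← h1, h, up_smul]
    have h4 : ptP (fun i => φ^[k] (p P i)) = (c2⁻¹ * (algebraMap K E a * c1)) •
        ptP (fun i => φ^[m] (p P i)) := by
      rw [← smul_smul, ← smul_smul, ← h3, smul_smul, inv_mul_cancel₀ hc2, one_smul]
    exact pre_zero hmk (mul_ne_zero (inv_ne_zero hc2) (mul_ne_zero ha' hc1)) h4 i
  have hinj : ∀ P Q : ℙ K (Fin (n + 1) → K), p P = p Q → P = Q := by
    intro P Q h
    have h1 : up E P.rep = (c P * (c Q)⁻¹) • up E Q.rep := by
      rw [hp P, hp Q, h, smul_smul, mul_assoc, inv_mul_cancel₀ (hc Q), mul_one]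
    obtain ⟨a, ha, h2⟩ := descend Q.rep_nonzero (mul_ne_zero (hc P) (inv_ne_zero (hc Q))) h1
    rw [← P.mk_rep, ← Q.mk_rep, Projectivization.mk_eq_mk_iff']
    exact ⟨a, h2.symm⟩
  have hsub : (p '' Pre Φ) ⊆ Set.pi Set.univ (fun _ : Fin n => T) := by
    rintro _ ⟨P, hP, rfl⟩ i _
    exact hmem P hP i
  have hpi : (Set.pi Set.univ (fun _ : Fin n => T)).Finite := Set.Finite.pi fun _ => hfin
  have himf : (p '' Pre Φ).Finite := hpi.subset hsub
  have hPf : (Pre Φ).Finite := Set.Finite.of_finite_image himf (fun P _ Q _ h => hinj P Q h)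
  refine ⟨?_, hPf, ?_⟩
  · intro P hP
    obtain ⟨c1, hc1, h1⟩ := iter hhom hΦ (hc P) (hp P) N
    have h2 : (fun i => φ^[N] (p P i)) = p P := by
      funext i
      exact hfix _ (hmem P hP i).1 (hmem P hP i).2
    rw [h2] at h1
    have h3 : up E ((aN Φ)^[N] P.rep) = (c1 * (c P)⁻¹) • up E P.rep := by
      rw [h1, hp P, smul_smul, mul_assoc, inv_mul_cancel₀ (hc P), mul_one]
    exact descend P.rep_nonzero (mul_ne_zero hc1 (inv_ne_zero (hc P))) h3
  · rw [← Set.ncard_image_of_injective (Pre Φ) (f := p) (fun P Q h => hinj P Q h)]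
    refine (Set.ncard_le_ncard hsub hpi).trans ?_
    have h1 : (Set.pi Set.univ (fun _ : Fin n => T)).ncard = T.ncard ^ n := by
      have h2 : (Set.pi Set.univ (fun _ : Fin n => T)) =
          ((Fintype.piFinset fun _ : Fin n => hfin.toFinset : Finset (Fin n → ℙ E (E × E))) :
            Set (Fin n → ℙ E (E × E))) := by
        ext f
        simp
      rw [h2, Set.ncard_coe_finset, Fintype.card_piFinset, Finset.prod_const, Finset.card_univ,
        Fintype.card_fin, Set.ncard_eq_toFinset_card T hfin]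
    rw [h1]
    exact Nat.pow_le_pow_left hcard n

end Pool.Agent.N236.UR.Sym
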