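import Pool.Agent.N236.UR.Fin5

/-!
# Project UR (helper236), part 4: the theorem
-/

set_option autoImplicit false

open Polynomial

namespace Pool.Agent.N236.UR

open Pool.Agent.N236.UB
open scoped LinearAlgebra.Projectivization

/-- `P` has coordinates in an extension of `K` inside `E` of degree at most `B`. -/
def RatLe (K : Type) {E : Type} [Field K] [Field E] [Algebra K E] (B : ℕ) (P : ℙ E (E × E)) : Prop :=
  ∃ F : IntermediateField K E, FiniteDimensional K F ∧ Module.finrank K F ≤ B ∧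
    ∃ (x y : F) (h : ((x : E), (y : E)) ≠ 0), P = Projectivization.mk E ((x : E), (y : E)) h

section core

variable {K : Type} [Field K]

theorem iter_ne {T : K × K → K × K} {m : ℕ} (hT : Hom T m) {x : K × K} (hx : x ≠ 0) (n : ℕ) :
    T^[n] x ≠ 0 := by
  induction n with
  | zero => exact hx
  | succ n ih => rw [Function.iterate_succ_apply']; exact hT.2 _ ih

theorem actP_iter {T : K × K → K × K} {m : ℕ} (hT : Hom T m) {x : K × K} (hx : x ≠ 0) (n : ℕ) :
    (actP T)^[n] (Projectivization.mk K x hx) = Projectivization.mk K (T^[n] x) (iter_ne hT hx n) := by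
  induction n with
  | zero => rfl
  | succ n ih =>
    rw [Function.iterate_succ_apply', ih, actP_mk hT (iter_ne hT hx n) (hT.2 _ (iter_ne hT hx n))]
    simp only [Function.iterate_succ_apply']

variable [NumberField K]

/-- All preperiodic vectors have a period dividing `NP`. -/
theorem core5 (hplace : S_PLACE) (hgl : S_GL1) (hgsp : S_GSP) (hdgs : S_DGS) (hgeo : S_GEO3)
    (hcomb : S_COMB) {M d p₁ p₂ : ℕ} (hM : Module.finrank ℚ K ≤ M) (hne : p₁ ≠ p₂)
    (hg₁ : Good d p₁) (hg₂ : Good d p₂)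
    {st : List (Matrix (Fin 2) (Fin 2) K × Sg K)}
    {B : Matrix (Fin 2) (Fin 2) K} (hok : ∀ s ∈ st, s.1.det ≠ 0 ∧ SgOK M s.2) (hB : B.det ≠ 0)
    (hprod : (st.map fun s => s.2.deg).prod = d) {x : K × K} (hx : x ≠ 0)
    (hpre : ∃ m n : ℕ, m < n ∧ wd ((fun x => lin B (runS st x))^[m] x) ((fun x => lin B (runS st x))^[n] x) = 0) :
    wd ((fun x => lin B (runS st x))^[NP p₁ p₂ M d] x) x = 0 := by
  obtain ⟨mm, hrun⟩ := hom_runS st (fun s hs => ⟨(hok s hs).1, (hok s hs).2.prime.ne_zero⟩)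
  set T : K × K → K × K := fun x => lin B (runS st x) with hTdef
  have hT : Hom T (mm * 1) := (hom_lin hB).comp hrun
  have hnf : ∀ (x : K × K) (hx : x ≠ 0) (hy : lin B (runS st x) ≠ 0),
      actP T (Projectivization.mk K x hx) = Projectivization.mk K (lin B (runS st x)) hy :=
    fun x hx hy => actP_mk hT hx hy
  have hinj : Function.Injective (actP T) := by
    intro P Q hPQ
    induction P using Projectivization.ind with
    | h x hx =>
    induction Q using Projectivization.ind with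
    | h y hy =>
    rw [actP_mk hT hx (hT.2 x hx), actP_mk hT hy (hT.2 y hy), ← wd_eq_zero_iff] at hPQ
    rw [← wd_eq_zero_iff hx hy]
    exact inj5 hplace hgl hgsp hdgs hM hg₁ hok hB hprod x y hPQ
  obtain ⟨m, n, hmn, hP⟩ := hpre
  obtain ⟨t, rfl⟩ := Nat.exists_eq_add_of_lt hmn
  set P := Projectivization.mk K x hx with hPdef
  have hPP : (actP T)^[m] P = (actP T)^[m + t + 1] P := by
    rw [hPdef, actP_iter hT hx, actP_iter hT hx, ← wd_eq_zero_iff]
    exact hP
  have hper : (actP T)^[t + 1] P = P := by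
    have : (actP T)^[m] ((actP T)^[t + 1] P) = (actP T)^[m] P := by
      rw [← Function.iterate_add_apply]
      exact hPP.symm
    exact hinj.iterate m this
  have hp : Function.IsPeriodicPt (actP T) (t + 1) P := hper
  have hmp : 1 ≤ Function.minimalPeriod (actP T) P := hp.minimalPeriod_pos (by omega)
  have hdvd : Function.minimalPeriod (actP T) P ∣ NP p₁ p₂ M d := by
    apply dvd_NP hne hmp
    · intro h4
      exact cyc_bound5 hplace hgl hgsp hdgs hgeo hcomb hM hg₁ hok hB hprod hnf P _ h4 rfl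
    · intro h4
      exact cyc_bound5 hplace hgl hgsp hdgs hgeo hcomb hM hg₂ hok hB hprod hnf P _ h4 rfl
  have hN : (actP T)^[NP p₁ p₂ M d] P = P :=
    (Function.isPeriodicPt_iff_minimalPeriod_dvd).mpr hdvd
  rw [hPdef, actP_iter hT hx, ← wd_eq_zero_iff] at hN
  exact hN

end core

section transfer

theorem sgmap_comp {K F E : Type} [Field K] [Field F] [Field E] (σ : K →+* F) (τ : F →+* E) (s : Sg K) :
    (s.map σ).map τ = s.map (τ.comp σ) := by
  cases s <;> rfl

theorem mapS_comp {K F E : Type} [Field K] [Field F] [Field E] (σ : K →+* F) (τ : F →+* E)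
    (st : List (Matrix (Fin 2) (Fin 2) K × Sg K)) : mapS τ (mapS σ st) = mapS (τ.comp σ) st := by
  unfold mapS
  rw [List.map_map]
  apply List.map_congr_left
  intro s _
  simp only [Function.comp_apply, sgmap_comp, Matrix.map_map, Prod.mk.injEq, and_true]
  rfl

theorem sgok_map {K F : Type} [Field K] [Field F] (σ : K →+* F) {M : ℕ} {s : Sg K} (h : SgOK M s) :
    SgOK M (s.map σ) := by
  cases s <;> exact h

variable {K E : Type} [Field K] [Field E] [Algebra K E] [NumberField K]

/-- Preperiodic points of bounded degree are fixed by the iterate of index `NP`. -/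
theorem trans5 (hplace : S_PLACE) (hgl : S_GL1) (hgsp : S_GSP) (hdgs : S_DGS) (hgeo : S_GEO3)
    (hcomb : S_COMB) {D b d p₁ p₂ : ℕ} (hD : Module.finrank ℚ K ≤ D) (hne : p₁ ≠ p₂)
    (hg₁ : Good d p₁) (hg₂ : Good d p₂) {φ : ℙ E (E × E) → ℙ E (E × E)} (hφ : ExcP K E (D * b) φ d)
    {P : ℙ E (E × E)} (hP : RatLe K b P) (hpre : ∃ m n : ℕ, m < n ∧ φ^[m] P = φ^[n] P) :
    φ^[NP p₁ p₂ (D * b) d] P = P := by
  obtain ⟨st, B, hok, hB, hprod, hnf⟩ := nf5 hφ
  obtain ⟨F, hFfin, hFb, x1, x2, hx0, rfl⟩ := hP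
  haveI : NumberField F := NumberField.of_module_finite K F
  have hdeg : Module.finrank ℚ F ≤ D * b := by
    rw [← Module.finrank_mul_finrank ℚ K F]
    exact Nat.mul_le_mul hD hFb
  set σ : K →+* F := algebraMap K F with hσ
  set τ : F →+* E := algebraMap F E with hτ
  have hτσ : τ.comp σ = algebraMap K E := (IsScalarTower.algebraMap_eq K F E).symm
  set stF := mapS σ st with hstF
  set BF := B.map σ with hBF
  have hokF : ∀ s ∈ stF, s.1.det ≠ 0 ∧ SgOK (D * b) s.2 := by
    intro s hs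
    rw [hstF] at hs
    unfold mapS at hs
    rw [List.mem_map] at hs
    obtain ⟨s', hs', rfl⟩ := hs
    exact ⟨det_map _ (hok s' hs').1, sgok_map σ (hok s' hs').2⟩
  have hBF0 : BF.det ≠ 0 := det_map σ hB
  have hprodF : (stF.map fun s => s.2.deg).prod = d := by
    rw [hstF, prod_mapS, hprod]
  set TF : F × F → F × F := fun x => lin BF (runS stF x) with hTF
  have hcomm : ∀ x : F × F, lin (B.map (algebraMap K E)) (runS (mapS (algebraMap K E) st) (vec τ x)) =
      vec τ (TF x) := by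
    intro x
    have e1 : B.map (algebraMap K E) = BF.map τ := by
      rw [hBF, Matrix.map_map, ← hτσ]
      rfl
    rw [e1, ← hτσ, ← mapS_comp, runS_vec, lin_vec]
  obtain ⟨mm, hrun⟩ := hom_runS stF (fun s hs => ⟨(hokF s hs).1, (hokF s hs).2.prime.ne_zero⟩)
  have hT : Hom TF (mm * 1) := (hom_lin hBF0).comp hrun
  set x : F × F := (x1, x2) with hx
  have hxv : vec τ x = ((x1 : E), (x2 : E)) := rfl
  have hxne : x ≠ 0 := by
    intro h0
    apply hx0
    rw [← hxv, h0]
    unfold vec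
    simp
  have hiter : ∀ n : ℕ, φ^[n] (Projectivization.mk E ((x1 : E), (x2 : E)) hx0) =
      Projectivization.mk E (vec τ (TF^[n] x)) (vec_ne τ (iter_ne hT hxne n)) := by
    intro n
    induction n with
    | zero => rfl
    | succ n ih =>
      have h1 : lin (B.map (algebraMap K E)) (runS (mapS (algebraMap K E) st) (vec τ (TF^[n] x))) ≠ 0 := by
        rw [hcomm]
        exact vec_ne τ (hT.2 _ (iter_ne hT hxne n))
      rw [Function.iterate_succ_apply', ih, hnf _ _ h1]
      simp only [hcomm, Function.iterate_succ_apply']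
  have hpreF : ∃ m n : ℕ, m < n ∧ wd (TF^[m] x) (TF^[n] x) = 0 := by
    obtain ⟨m, n, hmn, h⟩ := hpre
    refine ⟨m, n, hmn, ?_⟩
    rw [hiter, hiter, ← wd_eq_zero_iff] at h
    exact vec_inj τ h
  have hfin := core5 hplace hgl hgsp hdgs hgeo hcomb hdeg hne hg₁ hg₂ hokF hBF0 hprodF hxne hpreF
  rw [hiter, ← wd_eq_zero_iff]
  exact vec_wd τ hfin

end transfer

section count

variable {K E : Type} [Field K] [Field E] [Algebra K E] [CharZero E]

theorem fix_count5 (hcnt : S_CNT3) {M : ℕ}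
    {φ : ℙ E (E × E) → ℙ E (E × E)} {d : ℕ} (hd : 2 ≤ d) (h : ExcP K E M φ d) :
    {P : ℙ E (E × E) | φ P = P}.Finite ∧ {P : ℙ E (E × E) | φ P = P}.ncard ≤ d + 2 := by
  obtain ⟨st, B, hok, hB, hprod, hφ⟩ := nf5 h
  set stE := mapS (algebraMap K E) st with hstE
  set BE := B.map (algebraMap K E) with hBE
  have hok' : ∀ s ∈ stE, s.1.det ≠ 0 ∧ 2 ≤ s.2.deg := by
    intro s hs
    rw [hstE] at hs
    unfold mapS at hs
    rw [List.mem_map] at hs
    obtain ⟨s', hs', rfl⟩ := hs
    refine ⟨det_map _ (hok s' hs').1, ?_⟩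
    rw [deg_map]
    exact (hok s' hs').2.prime.two_le
  obtain ⟨mm, hrun⟩ := hom_runS stE (fun s hs => ⟨(hok' s hs).1, by have := (hok' s hs).2; omega⟩)
  have hprodE : (stE.map fun s => s.2.deg).prod = d := by
    rw [hstE, prod_mapS, hprod]
  have hst : stE ≠ [] := by
    intro h0
    rw [h0] at hprodE
    simp at hprodE
    omega
  have hBE0 : BE.det ≠ 0 := det_map _ hB
  set F : Set E := {x : E | wd (lin BE (runS stE (x, 1))) (x, 1) = 0} with hF
  have hFc : F.Finite ∧ F.ncard ≤ d + 1 := by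
    apply finite_of_card_le
    intro S hS
    have := hcnt E stE BE hok' hBE0 hst S (fun x hx => hS hx)
    rwa [hprodE] at this
  have h10 : ((1 : E), (0 : E)) ≠ 0 := by simp
  have hx1 : ∀ x : E, ((x : E), (1 : E)) ≠ 0 := fun x => by simp
  have hsub : {P : ℙ E (E × E) | φ P = P} ⊆
      insert (Projectivization.mk E ((1 : E), (0 : E)) h10)
        ((fun x : E => Projectivization.mk E (x, (1 : E)) (hx1 x)) '' F) := by
    intro P hP
    induction P using Projectivization.ind with
    | h y hy =>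
    rw [Set.mem_insert_iff]
    by_cases h2 : y.2 = 0
    · left
      rw [← wd_eq_zero_iff hy h10]
      unfold wd
      simp [h2]
    · right
      have hyx : Projectivization.mk E y hy = Projectivization.mk E (y.1 / y.2, (1 : E)) (hx1 _) := by
        rw [← wd_eq_zero_iff hy (hx1 _)]
        unfold wd
        field_simp
        ring
      refine ⟨y.1 / y.2, ?_, hyx.symm⟩
      have h3 : lin BE (runS stE (y.1 / y.2, 1)) ≠ 0 := lin_ne_zero hBE0 (hrun.2 _ (hx1 _))
      have hP' : φ (Projectivization.mk E y hy) = Projectivization.mk E y hy := hP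
      rw [hyx, hφ _ (hx1 _) h3, ← wd_eq_zero_iff h3 (hx1 _)] at hP'
      exact hP'
  have hfin : (insert (Projectivization.mk E ((1 : E), (0 : E)) h10)
        ((fun x : E => Projectivization.mk E (x, (1 : E)) (hx1 x)) '' F)).Finite :=
    (hFc.1.image _).insert _
  refine ⟨hfin.subset hsub, ?_⟩
  calc _ ≤ _ := Set.ncard_le_ncard hsub hfin
    _ ≤ ((fun x : E => Projectivization.mk E (x, (1 : E)) (hx1 x)) '' F).ncard + 1 := Set.ncard_insert_le _ _
    _ ≤ F.ncard + 1 := by
        have := Set.ncard_image_le (f := fun x : E => Projectivization.mk E (x, (1 : E)) (hx1 x)) hFc.1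
        omega
    _ ≤ d + 2 := by have := hFc.2; omega

end count

/-- The theorem: a universal period and a bound for the number of preperiodic points of degree at most
`b` over number fields of degree at most `D`. -/
theorem main5 (hplace : S_PLACE) (hprime : S_PRIME) (hgl : S_GL1) (hgsp : S_GSP) (hdgs : S_DGS)
    (hgeo : S_GEO3) (hcomb : S_COMB) (hcnt : S_CNT3) (D b d : ℕ) (hd : 2 ≤ d) :
    ∃ N C : ℕ, 1 ≤ N ∧ ∀ (K : Type) [Field K] [NumberField K], Module.finrank ℚ K ≤ D →
      ∀ φ : ℙ (AlgebraicClosure K) (AlgebraicClosure K × AlgebraicClosure K) →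
          ℙ (AlgebraicClosure K) (AlgebraicClosure K × AlgebraicClosure K),
        ExcP K (AlgebraicClosure K) (D * b) φ d →
        (∀ P, RatLe K b P → (∃ m n : ℕ, m < n ∧ φ^[m] P = φ^[n] P) → φ^[N] P = P) ∧
        {P | RatLe K b P ∧ ∃ m n : ℕ, m < n ∧ φ^[m] P = φ^[n] P}.Finite ∧
        {P | RatLe K b P ∧ ∃ m n : ℕ, m < n ∧ φ^[m] P = φ^[n] P}.ncard ≤ C := by
  obtain ⟨p₁, p₂, hne, hg₁, hg₂⟩ := good2 hprime d (by omega)
  have hNpos : 1 ≤ NP p₁ p₂ (D * b) d := by
    unfold NP
    have := pow_pos (Nat.factorial_pos (max (p₁ ^ (D * b)) (p₂ ^ (D * b)) + 1))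
      ((2 * d + 2) * max (p₁ ^ (D * b)) (p₂ ^ (D * b)))
    omega
  refine ⟨NP p₁ p₂ (D * b) d, d ^ (NP p₁ p₂ (D * b) d) + 2, hNpos, ?_⟩
  intro K _ _ hD φ hφ
  have hper : ∀ P, RatLe K b P → (∃ m n : ℕ, m < n ∧ φ^[m] P = φ^[n] P) →
      φ^[NP p₁ p₂ (D * b) d] P = P := fun P hP hpre =>
    trans5 hplace hgl hgsp hdgs hgeo hcomb hD hne hg₁ hg₂ hφ hP hpre
  refine ⟨hper, ?_⟩
  set N := NP p₁ p₂ (D * b) d with hN
  obtain ⟨N', hN'⟩ : ∃ N', N = N' + 1 := ⟨N - 1, by omega⟩
  have hit : ExcP K (AlgebraicClosure K) (D * b) φ^[N] (d ^ N) := by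
    rw [hN']
    exact excP_iter hφ N'
  have hdN : 2 ≤ d ^ N := by
    calc 2 ≤ d := hd
      _ ≤ d ^ N := Nat.le_self_pow (by omega) d
  haveI : CharZero (AlgebraicClosure K) :=
    charZero_of_injective_algebraMap (FaithfulSMul.algebraMap_injective K (AlgebraicClosure K))
  have hc := fix_count5 hcnt hdN hit
  have hsub : {P | RatLe K b P ∧ ∃ m n : ℕ, m < n ∧ φ^[m] P = φ^[n] P} ⊆ {P | φ^[N] P = P} :=
    fun P hP => hper P hP.1 hP.2
  exact ⟨hc.1.subset hsub, (Set.ncard_le_ncard hsub hc.1).trans hc.2⟩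

end Pool.Agent.N236.UR
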