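import Pool.Agent.N236.UR.SymC

/-!
# Project UR (helper236), part 6: towers
-/

set_option autoImplicit false

open Polynomial

namespace Pool.Agent.N236.UR.Sym

open Pool.Agent.N236.UR Pool.Agent.N236.UB
open scoped LinearAlgebra.Projectivization

section dim1

/-- the theorem for rational points of the projective line -/
theorem main6K (D d : ℕ) (hd : 2 ≤ d) :
    ∃ N C : ℕ, 1 ≤ N ∧ ∀ (K : Type) [Field K] [CharZero K], PlAll K D →
      ∀ φ : ℙ K (K × K) → ℙ K (K × K), ExcP K K D φ d →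
        (∀ P, (∃ m n : ℕ, m < n ∧ φ^[m] P = φ^[n] P) → φ^[N] P = P) ∧
        {P | ∃ m n : ℕ, m < n ∧ φ^[m] P = φ^[n] P}.Finite ∧
        {P | ∃ m n : ℕ, m < n ∧ φ^[m] P = φ^[n] P}.ncard ≤ C := by
  obtain ⟨p₁, p₂, hne, hg₁, hg₂⟩ := good2 s_prime d (by omega)
  have hNpos : 1 ≤ NP p₁ p₂ (D * 1) d := by
    unfold NP
    have := pow_pos (Nat.factorial_pos (max (p₁ ^ (D * 1)) (p₂ ^ (D * 1)) + 1))
      ((2 * d + 2) * max (p₁ ^ (D * 1)) (p₂ ^ (D * 1)))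
    omega
  refine ⟨NP p₁ p₂ (D * 1) d, d ^ (NP p₁ p₂ (D * 1) d) + 2, hNpos, ?_⟩
  intro K _ _ hD φ hφ
  have hφ1 : ExcP K K (D * 1) φ d := by rw [mul_one]; exact hφ
  have hrat : ∀ P : ℙ K (K × K), RatLe K 1 P := by
    intro P
    refine ⟨⊤, inferInstance, ?_, ⟨P.rep.1, IntermediateField.mem_top⟩,
      ⟨P.rep.2, IntermediateField.mem_top⟩, P.rep_nonzero, (Projectivization.mk_rep P).symm⟩
    rw [IntermediateField.finrank_top', Module.finrank_self]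
  have hper : ∀ P, (∃ m n : ℕ, m < n ∧ φ^[m] P = φ^[n] P) →
      φ^[NP p₁ p₂ (D * 1) d] P = P := fun P hpre =>
    trans6 s_gl1 s_gsp s_dgs s_geo3 s_comb hD hne hg₁ hg₂ hφ1 (hrat P) hpre
  refine ⟨hper, ?_⟩
  set N := NP p₁ p₂ (D * 1) d with hN
  obtain ⟨N', hN'⟩ : ∃ N', N = N' + 1 := ⟨N - 1, by omega⟩
  have hit : ExcP K K (D * 1) φ^[N] (d ^ N) := by
    rw [hN']
    exact excP_iter hφ1 N'
  have hdN : 2 ≤ d ^ N := by
    calc 2 ≤ d := hd
      _ ≤ d ^ N := Nat.le_self_pow (by omega) d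
  have hc := fix_count5 s_cnt3 hdN hit
  have hsub : {P | ∃ m n : ℕ, m < n ∧ φ^[m] P = φ^[n] P} ⊆ {P | φ^[N] P = P} :=
    fun P hP => hper P hP
  exact ⟨hc.1.subset hsub, (Set.ncard_le_ncard hsub hc.1).trans hc.2⟩

end dim1

section vec

variable {K : Type} [Field K] {n : ℕ}

/-- preperiodic vectors -/
def PV (T : (Fin (n + 1) → K) → (Fin (n + 1) → K)) (v : Fin (n + 1) → K) : Prop :=
  ∃ m k : ℕ, m < k ∧ ∃ c : K, c ≠ 0 ∧ T^[k] v = c • T^[m] v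

/-- the bound -/
def Bd (T : (Fin (n + 1) → K) → (Fin (n + 1) → K)) (N C : ℕ) : Prop :=
  (∀ v, v ≠ 0 → PV T v → ∃ c : K, c ≠ 0 ∧ T^[N] v = c • v) ∧
    {P : ℙ K (Fin (n + 1) → K) | PV T P.rep}.Finite ∧
    {P : ℙ K (Fin (n + 1) → K) | PV T P.rep}.ncard ≤ C

/-- homogeneous maps without zeros -/
def HomV (T : (Fin (n + 1) → K) → (Fin (n + 1) → K)) (d : ℕ) : Prop :=
  (∀ (a : K) v, T (a • v) = a ^ d • T v) ∧ ∀ v, v ≠ 0 → T v ≠ 0

variable {T : (Fin (n + 1) → K) → (Fin (n + 1) → K)} {d : ℕ}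

theorem HomV.iter (hT : HomV T d) (a : K) (v : Fin (n + 1) → K) (k : ℕ) :
    T^[k] (a • v) = a ^ d ^ k • T^[k] v := by
  induction k with
  | zero => simp
  | succ k ih =>
    rw [Function.iterate_succ_apply', Function.iterate_succ_apply', ih, hT.1, ← pow_mul, pow_succ]

theorem HomV.iter_ne (hT : HomV T d) {v : Fin (n + 1) → K} (hv : v ≠ 0) (k : ℕ) : T^[k] v ≠ 0 := by
  induction k with
  | zero => exact hv
  | succ k ih => rw [Function.iterate_succ_apply']; exact hT.2 _ ih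

theorem PV.smul (hT : HomV T d) {v : Fin (n + 1) → K} (h : PV T v) {a : K} (ha : a ≠ 0) :
    PV T (a • v) := by
  obtain ⟨m, k, hmk, c, hc, h⟩ := h
  refine ⟨m, k, hmk, a ^ d ^ k * c * (a ^ d ^ m)⁻¹,
    mul_ne_zero (mul_ne_zero (pow_ne_zero _ ha) hc) (inv_ne_zero (pow_ne_zero _ ha)), ?_⟩
  rw [hT.iter, hT.iter, h, smul_smul, smul_smul, mul_assoc (a ^ d ^ k * c),
    inv_mul_cancel₀ (pow_ne_zero _ ha), mul_one]

theorem fix_smul (hT : HomV T d) {v : Fin (n + 1) → K} {N : ℕ} (h : ∃ c : K, c ≠ 0 ∧ T^[N] v = c • v)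
    {a : K} (ha : a ≠ 0) : ∃ c : K, c ≠ 0 ∧ T^[N] (a • v) = c • (a • v) := by
  obtain ⟨c, hc, h⟩ := h
  refine ⟨a ^ d ^ N * c * a⁻¹, mul_ne_zero (mul_ne_zero (pow_ne_zero _ ha) hc) (inv_ne_zero ha), ?_⟩
  rw [hT.iter, h, smul_smul, smul_smul, mul_assoc (a ^ d ^ N * c), inv_mul_cancel₀ ha, mul_one]

theorem fix_mul (hT : HomV T d) {v : Fin (n + 1) → K} {N : ℕ} (h : ∃ c : K, c ≠ 0 ∧ T^[N] v = c • v)
    (t : ℕ) : ∃ c : K, c ≠ 0 ∧ T^[t * N] v = c • v := by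
  obtain ⟨c, hc, h⟩ := h
  induction t with
  | zero => exact ⟨1, one_ne_zero, by simp⟩
  | succ t ih =>
    obtain ⟨c', hc', h'⟩ := ih
    refine ⟨c ^ d ^ (t * N) * c', mul_ne_zero (pow_ne_zero _ hc) hc', ?_⟩
    rw [add_mul, one_mul, Function.iterate_add_apply, h, hT.iter, h', smul_smul]

/-- along the orbit -/
theorem orb (hT : HomV T d) {v : Fin (n + 1) → K} {m k : ℕ} (hmk : m < k) {c : K} (hc : c ≠ 0)
    (h : T^[k] v = c • T^[m] v) {s : ℕ} (hs : m ≤ s) (t : ℕ) :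
    ∃ c' : K, c' ≠ 0 ∧ T^[s + t * (k - m)] v = c' • T^[s] v := by
  have h1 : ∀ s, m ≤ s → ∃ c' : K, c' ≠ 0 ∧ T^[s + (k - m)] v = c' • T^[s] v := by
    intro s hs
    refine ⟨c ^ d ^ (s - m), pow_ne_zero _ hc, ?_⟩
    have e1 : s + (k - m) = (s - m) + k := by omega
    have e2 : s = (s - m) + m := by omega
    rw [e1, Function.iterate_add_apply, h, hT.iter]
    congr 1
    rw [← Function.iterate_add_apply, ← e2]
  induction t with
  | zero => exact ⟨1, one_ne_zero, by simp⟩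
  | succ t ih =>
    obtain ⟨c1, hc1, h2⟩ := ih
    obtain ⟨c2, hc2, h3⟩ := h1 (s + t * (k - m)) (by omega)
    refine ⟨c2 * c1, mul_ne_zero hc2 hc1, ?_⟩
    have e : s + (t + 1) * (k - m) = s + t * (k - m) + (k - m) := by ring
    rw [e, h3, h2, smul_smul]

/-- every vector is proportional to the representative of its point -/
theorem exists_rep {v : Fin (n + 1) → K} (hv : v ≠ 0) :
    ∃ a : K, a ≠ 0 ∧ (Projectivization.mk K v hv).rep = a • v := by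
  obtain ⟨a, ha⟩ := Projectivization.exists_smul_eq_mk_rep K v hv
  exact ⟨a, a.ne_zero, ha.symm⟩

end vec

end Pool.Agent.N236.UR.Sym
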