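import Pool.Agent.N236.UR.TowA

/-!
# Project UR (helper236), part 6: one step of a tower
-/

set_option autoImplicit false

open Polynomial

namespace Pool.Agent.N236.UR.Sym

open Pool.Agent.N236.UR Pool.Agent.N236.UB
open scoped LinearAlgebra.Projectivization

section fib

variable {K : Type} [Field K] {n : ℕ}

theorem one_ne' (z : K) : ((z : K), (1 : K)) ≠ 0 := by
  intro h
  have := congrArg Prod.snd h
  simp at this

/-- the point of the projective line with the coordinate `z` -/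
def aff (z : K) : ℙ K (K × K) := Projectivization.mk K (z, 1) (one_ne' z)

theorem aff_inj {z w : K} (h : aff z = aff w) : z = w := by
  unfold aff at h
  rw [← wd_eq_zero_iff] at h
  unfold wd at h
  linear_combination h

/-- the fibre maps are members of the class -/
def Fib (D d : ℕ) (F : (Fin (n + 2) → K) → K) : Prop :=
  (∀ u : Fin (n + 1) → K, u ≠ 0 → ∃ φ : ℙ K (K × K) → ℙ K (K × K), ExcP K K D φ d ∧
    ∀ z : K, φ (aff z) = aff (F (Fin.snoc u z))) ∧ F (Fin.snoc 0 1) ≠ 0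

variable {T : (Fin (n + 1) → K) → (Fin (n + 1) → K)} {F : (Fin (n + 2) → K) → K} {D d : ℕ}

/-- the extended map -/
def ext (T : (Fin (n + 1) → K) → (Fin (n + 1) → K)) (F : (Fin (n + 2) → K) → K) :
    (Fin (n + 1 + 1) → K) → (Fin (n + 1 + 1) → K) := fun x => Fin.snoc (T (Fin.init x)) (F x)

theorem snoc_init (x : Fin (n + 2) → K) : (Fin.snoc (Fin.init x) (x (Fin.last (n + 1))) : Fin (n + 2) → K) = x :=
  Fin.snoc_init_self x

theorem ext_snoc (u : Fin (n + 1) → K) (z : K) :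
    ext T F (Fin.snoc u z) = Fin.snoc (T u) (F (Fin.snoc u z)) := by
  unfold ext
  rw [Fin.init_snoc]

theorem smul_snoc (a : K) (u : Fin (n + 1) → K) (z : K) :
    a • (Fin.snoc u z : Fin (n + 2) → K) = Fin.snoc (a • u) (a * z) := by
  funext i
  refine Fin.lastCases ?_ (fun i => ?_) i
  · simp
  · simp

theorem snoc_inj {u u' : Fin (n + 1) → K} {z z' : K}
    (h : (Fin.snoc u z : Fin (n + 2) → K) = Fin.snoc u' z') : u = u' ∧ z = z' := by
  constructor
  · have := congrArg Fin.init h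
    rwa [Fin.init_snoc, Fin.init_snoc] at this
  · have := congrFun h (Fin.last (n + 1))
    rwa [Fin.snoc_last, Fin.snoc_last] at this

theorem snoc_zero : (Fin.snoc (0 : Fin (n + 1) → K) (0 : K) : Fin (n + 2) → K) = 0 := by
  funext i
  refine Fin.lastCases ?_ (fun i => ?_) i
  · simp
  · simp

theorem hom_zero (hT : HomV T d) (hd : d ≠ 0) : T 0 = 0 := by
  have := hT.1 0 0
  rwa [smul_zero, zero_pow hd, zero_smul] at this

theorem hom_ext (hT : HomV T d) (hd : d ≠ 0) (hF : ∀ (a : K) x, F (a • x) = a ^ d * F x)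
    (hfib : Fib D d F) : HomV (ext T F) d := by
  constructor
  · intro a x
    obtain ⟨u, z, rfl⟩ : ∃ (u : Fin (n + 1) → K) (z : K), x = Fin.snoc u z :=
      ⟨Fin.init x, x (Fin.last _), (snoc_init x).symm⟩
    have h1 := smul_snoc a u z
    have h2 := hF a (Fin.snoc u z)
    rw [h1] at h2 ⊢
    rw [ext_snoc, ext_snoc, h2, hT.1, smul_snoc]
  · intro x hx h0
    obtain ⟨u, z, rfl⟩ : ∃ (u : Fin (n + 1) → K) (z : K), x = Fin.snoc u z :=
      ⟨Fin.init x, x (Fin.last _), (snoc_init x).symm⟩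
    rw [ext_snoc, ← snoc_zero] at h0
    obtain ⟨h1, h2⟩ := snoc_inj h0
    have hu : u = 0 := by
      by_contra hu
      exact hT.2 u hu h1
    subst hu
    have e : (Fin.snoc 0 z : Fin (n + 2) → K) = z • Fin.snoc 0 1 := by
      rw [smul_snoc, smul_zero, mul_one]
    have hz : z ≠ 0 := by
      rintro rfl
      exact hx snoc_zero
    rw [e, hF] at h2
    exact hfib.2 ((mul_eq_zero.1 h2).resolve_left (pow_ne_zero _ hz))

/-- iterates on a fibre -/
theorem fib_iter (hT : HomV T d) (hfib : Fib D d F) {u : Fin (n + 1) → K} (hu : u ≠ 0) (k : ℕ) :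
    ∃ φ : ℙ K (K × K) → ℙ K (K × K), ExcP K K D φ (d ^ k) ∧ ∀ z : K, ∃ w : K,
      (ext T F)^[k] (Fin.snoc u z) = Fin.snoc (T^[k] u) w ∧ φ (aff z) = aff w := by
  induction k with
  | zero =>
    refine ⟨_, by rw [pow_zero]; exact ExcP.mobius (1 : Matrix (Fin 2) (Fin 2) K) (by simp), ?_⟩
    intro z
    refine ⟨z, rfl, ?_⟩
    have h1 : lin ((1 : Matrix (Fin 2) (Fin 2) K).map (algebraMap K K)) ((z : K), (1 : K)) = (z, 1) := by
      rw [Matrix.map_one _ (map_zero _) (map_one _)]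
      unfold lin
      simp
    unfold aff
    rw [actP_mk (hom_lin (det_map _ (by simp))) (one_ne' z) (by rw [h1]; exact one_ne' z)]
    simp only [h1]
  | succ k ih =>
    obtain ⟨φ, hφ, h⟩ := ih
    obtain ⟨ψ, hψ, hψ'⟩ := hfib.1 (T^[k] u) (hT.iter_ne hu k)
    refine ⟨ψ ∘ φ, by rw [pow_succ']; exact ExcP.comp _ _ _ _ hψ hφ, ?_⟩
    intro z
    obtain ⟨w, hw, hφw⟩ := h z
    refine ⟨F (Fin.snoc (T^[k] u) w), ?_, ?_⟩
    · rw [Function.iterate_succ_apply', hw, ext_snoc, Function.iterate_succ_apply']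
    · rw [Function.comp_apply, hφw, hψ']

/-- the return map -/
theorem ret (hT : HomV T d) (hfib : Fib D d F) {u : Fin (n + 1) → K} (hu : u ≠ 0) {N : ℕ} {lam : K}
    (hlam : lam ≠ 0) (hN : T^[N] u = lam • u) :
    ∃ φ : ℙ K (K × K) → ℙ K (K × K), ExcP K K D φ (d ^ N) ∧ ∀ z : K, ∃ w : K,
      (ext T F)^[N] (Fin.snoc u z) = lam • Fin.snoc u w ∧ φ (aff z) = aff w := by
  obtain ⟨φ, hφ, h⟩ := fib_iter hT hfib hu N
  set A : Matrix (Fin 2) (Fin 2) K := !![lam⁻¹, 0; 0, 1] with hA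
  have hAd : A.det ≠ 0 := by
    rw [hA, Matrix.det_fin_two_of]
    simpa using hlam
  refine ⟨actP (lin (A.map (algebraMap K K))) ∘ φ, ?_, ?_⟩
  · have := ExcP.comp _ _ _ _ (ExcP.mobius (K := K) (E := K) (M := D) A hAd) hφ
    rwa [one_mul] at this
  · intro z
    obtain ⟨w, hw, hφw⟩ := h z
    refine ⟨lam⁻¹ * w, ?_, ?_⟩
    · rw [hw, hN, smul_snoc, ← mul_assoc, mul_inv_cancel₀ hlam, one_mul]
    · rw [Function.comp_apply, hφw]
      have h1 : lin (A.map (algebraMap K K)) ((w : K), (1 : K)) = (lam⁻¹ * w, 1) := by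
        unfold lin
        simp [hA]
      unfold aff
      rw [actP_mk (hom_lin (det_map _ hAd)) (one_ne' w) (by rw [h1]; exact one_ne' _)]
      simp only [h1]

/-- iterates of the return map -/
theorem ret_iter (hT : HomV T d) (hd : d ≠ 0) (hF : ∀ (a : K) x, F (a • x) = a ^ d * F x)
    (hfib : Fib D d F) {u : Fin (n + 1) → K} {N : ℕ} {lam : K} (hlam : lam ≠ 0)
    {φ : ℙ K (K × K) → ℙ K (K × K)}
    (hφ : ∀ z : K, ∃ w : K, (ext T F)^[N] (Fin.snoc u z) = lam • Fin.snoc u w ∧ φ (aff z) = aff w)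
    (z : K) (j : ℕ) : ∃ (c w : K), c ≠ 0 ∧ (ext T F)^[j * N] (Fin.snoc u z) = c • Fin.snoc u w ∧
      φ^[j] (aff z) = aff w := by
  have hE := hom_ext hT hd hF hfib
  induction j with
  | zero => exact ⟨1, z, one_ne_zero, by simp, rfl⟩
  | succ j ih =>
    obtain ⟨c, w, hc, h1, h2⟩ := ih
    obtain ⟨w', h3, h4⟩ := hφ w
    refine ⟨c ^ d ^ N * lam, w', mul_ne_zero (pow_ne_zero _ hc) hlam, ?_, ?_⟩
    · have e : (j + 1) * N = N + j * N := by ring
      rw [e, Function.iterate_add_apply, h1, hE.iter, h3, smul_smul]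
    · rw [Function.iterate_succ_apply', h2, h4]

/-- preperiodic on the fibre -/
theorem fib_pre (hT : HomV T d) (hd : d ≠ 0) (hF : ∀ (a : K) x, F (a • x) = a ^ d * F x)
    (hfib : Fib D d F) {u : Fin (n + 1) → K} (hu : u ≠ 0) {N : ℕ} (hN1 : 1 ≤ N) {lam : K}
    (hlam : lam ≠ 0) {φ : ℙ K (K × K) → ℙ K (K × K)}
    (hφ : ∀ z : K, ∃ w : K, (ext T F)^[N] (Fin.snoc u z) = lam • Fin.snoc u w ∧ φ (aff z) = aff w)
    {z : K} (hz : PV (ext T F) (Fin.snoc u z)) : ∃ m k : ℕ, m < k ∧ φ^[m] (aff z) = φ^[k] (aff z) := by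
  have hE := hom_ext hT hd hF hfib
  obtain ⟨m, k, hmk, c, hc, h⟩ := hz
  refine ⟨m, k, hmk, ?_⟩
  obtain ⟨c', hc', h'⟩ := orb hE hmk hc h (s := m * N) (Nat.le_mul_of_pos_right m (by omega)) N
  have e : m * N + N * (k - m) = k * N := by
    rw [Nat.mul_sub, mul_comm N k, mul_comm N m]
    have : m * N ≤ k * N := Nat.mul_le_mul_right _ hmk.le
    omega
  rw [e] at h'
  obtain ⟨c1, w1, hc1, h1, h2⟩ := ret_iter hT hd hF hfib hlam hφ z m
  obtain ⟨c2, w2, hc2, h3, h4⟩ := ret_iter hT hd hF hfib hlam hφ z k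
  rw [h2, h4]
  rw [h3, h1, smul_smul, smul_snoc, smul_snoc] at h'
  obtain ⟨h5, h6⟩ := snoc_inj h'
  have h7 : c2 = c' * c1 := by
    obtain ⟨i, hi⟩ := Function.ne_iff.1 hu
    have := congrFun h5 i
    simp only [Pi.smul_apply, smul_eq_mul] at this
    exact mul_right_cancel₀ hi this
  rw [h7] at h6
  rw [mul_left_cancel₀ (mul_ne_zero hc' hc1) h6]

end fib

end Pool.Agent.N236.UR.Sym
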