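import Pool.Agent.N236.UR.TowB

/-!
# Project UR (helper236), part 6: one step of a tower, counting
-/

set_option autoImplicit false

open Polynomial

namespace Pool.Agent.N236.UR.Sym

open Pool.Agent.N236.UR Pool.Agent.N236.UB
open scoped LinearAlgebra.Projectivization

section bd

variable {K : Type} [Field K] {n : ℕ} {T : (Fin (n + 1) → K) → (Fin (n + 1) → K)}
  {F : (Fin (n + 2) → K) → K} {D d : ℕ}

theorem base_pre {u : Fin (n + 1) → K} {z : K} (h : PV (ext T F) (Fin.snoc u z)) : PV T u := by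
  have h1 : ∀ k : ℕ, Fin.init ((ext T F)^[k] (Fin.snoc u z)) = T^[k] u := by
    intro k
    induction k with
    | zero => simp [Fin.init_snoc]
    | succ k ih =>
      rw [Function.iterate_succ_apply', Function.iterate_succ_apply', ← ih]
      unfold ext
      rw [Fin.init_snoc]
  obtain ⟨m, k, hmk, c, hc, h⟩ := h
  refine ⟨m, k, hmk, c, hc, ?_⟩
  rw [← h1, ← h1, h]
  rfl

/-- the one-dimensional theorem for one degree -/
def Dim1 (K : Type) [Field K] (D e N C : ℕ) : Prop :=
  ∀ φ : ℙ K (K × K) → ℙ K (K × K), ExcP K K D φ e →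
        (∀ P, (∃ m n : ℕ, m < n ∧ φ^[m] P = φ^[n] P) → φ^[N] P = P) ∧
        {P | ∃ m n : ℕ, m < n ∧ φ^[m] P = φ^[n] P}.Finite ∧
        {P | ∃ m n : ℕ, m < n ∧ φ^[m] P = φ^[n] P}.ncard ≤ C

/-- the special point -/
def spec (n : ℕ) (K : Type) [Field K] : Fin (n + 2) → K := Fin.snoc 0 1

theorem spec_ne : spec n K ≠ 0 := by
  intro h
  have := congrFun h (Fin.last _)
  unfold spec at this
  rw [Fin.snoc_last] at this
  exact one_ne_zero this

theorem snoc_zero_eq (z : K) : (Fin.snoc 0 z : Fin (n + 2) → K) = z • spec n K := by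
  unfold spec
  rw [smul_snoc, smul_zero, mul_one]

/-- **The step.** -/
theorem bd_ext (hT : HomV T d) (hd : d ≠ 0) (hF : ∀ (a : K) x, F (a • x) = a ^ d * F x)
    (hfib : Fib D d F) {N C N1 C1 : ℕ} (hN : 1 ≤ N) (hb : Bd T N C) (h1 : Dim1 K D (d ^ N) N1 C1) :
    Bd (ext T F) (N1 * N) (C * C1 + 1) := by
  classical
  have hE := hom_ext hT hd hF hfib
  obtain ⟨hfix, hfin, hcard⟩ := hb
  refine ⟨?_, ?_⟩
  · intro x hx hpre
    obtain ⟨u, z, rfl⟩ : ∃ (u : Fin (n + 1) → K) (z : K), x = Fin.snoc u z :=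
      ⟨Fin.init x, x (Fin.last _), (snoc_init x).symm⟩
    by_cases hu : u = 0
    · subst hu
      have hz : z ≠ 0 := by
        rintro rfl
        exact hx snoc_zero
      rw [snoc_zero_eq]
      apply fix_smul hE _ hz
      have h2 : ∃ c : K, c ≠ 0 ∧ (ext T F)^[1] (spec n K) = c • spec n K := by
        refine ⟨F (spec n K), hfib.2, ?_⟩
        rw [Function.iterate_one, ← snoc_zero_eq]
        unfold spec
        rw [ext_snoc, hom_zero hT hd]
      have h3 := fix_mul hE h2 (N1 * N)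
      rwa [mul_one] at h3
    · obtain ⟨lam, hlam, hN'⟩ := hfix u hu (base_pre hpre)
      obtain ⟨φ, hφ, hφ'⟩ := ret hT hfib hu hlam hN'
      obtain ⟨m, k, hmk, h2⟩ := fib_pre hT hd hF hfib hu hN hlam hφ' hpre
      have h3 := (h1 φ hφ).1 (aff z) ⟨m, k, hmk, h2⟩
      obtain ⟨c, w, hc, h4, h5⟩ := ret_iter hT hd hF hfib hlam hφ' z N1
      rw [h3] at h5
      rw [← aff_inj h5] at h4
      exact ⟨c, hc, h4⟩
  · have hne : ∀ (Q : ℙ K (Fin (n + 1) → K)) (z : K), (Fin.snoc Q.rep z : Fin (n + 2) → K) ≠ 0 := by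
      intro Q z h0
      rw [← snoc_zero] at h0
      exact Q.rep_nonzero (snoc_inj h0).1
    set S : Set (ℙ K (Fin (n + 1 + 1) → K)) := {P | PV (ext T F) P.rep} with hS
    set SQ : Set (ℙ K (Fin (n + 1) → K)) := {P | PV T P.rep} with hSQ
    set Z : ℙ K (Fin (n + 1) → K) → Set K := fun Q => {z | PV (ext T F) (Fin.snoc Q.rep z)} with hZ
    set G : ℙ K (Fin (n + 1) → K) → Set (ℙ K (Fin (n + 1 + 1) → K)) := fun Q =>
      (fun z => Projectivization.mk K (Fin.snoc Q.rep z : Fin (n + 2) → K) (hne Q z)) '' Z Q with hG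
    have hZf : ∀ Q ∈ SQ, (Z Q).Finite ∧ (Z Q).ncard ≤ C1 := by
      intro Q hQ
      obtain ⟨lam, hlam, hN'⟩ := hfix Q.rep Q.rep_nonzero hQ
      obtain ⟨φ, hφ, hφ'⟩ := ret hT hfib Q.rep_nonzero hlam hN'
      obtain ⟨-, h2, h3⟩ := h1 φ hφ
      have h4 : aff '' (Z Q) ⊆ {P | ∃ m n : ℕ, m < n ∧ φ^[m] P = φ^[n] P} := by
        rintro _ ⟨z, hz, rfl⟩
        exact fib_pre hT hd hF hfib Q.rep_nonzero hN hlam hφ' hz
      have h5 : Set.InjOn (aff : K → ℙ K (K × K)) (Z Q) := fun z _ w _ h => aff_inj h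
      have h6 := h2.subset h4
      refine ⟨Set.Finite.of_finite_image h6 h5, ?_⟩
      rw [← Set.ncard_image_of_injOn h5]
      exact (Set.ncard_le_ncard h4 h2).trans h3
    have hsub : S ⊆ {Projectivization.mk K (spec n K) spec_ne} ∪ ⋃ Q ∈ hfin.toFinset, G Q := by
      intro P hP
      have hPm : P = Projectivization.mk K P.rep P.rep_nonzero := (Projectivization.mk_rep P).symm
      obtain ⟨u, z, hx⟩ : ∃ (u : Fin (n + 1) → K) (z : K), P.rep = Fin.snoc u z :=
        ⟨Fin.init P.rep, P.rep (Fin.last _), (snoc_init P.rep).symm⟩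
      by_cases hu : u = 0
      · left
        subst hu
        rw [Set.mem_singleton_iff, hPm, Projectivization.mk_eq_mk_iff']
        exact ⟨z, by rw [hx, snoc_zero_eq]⟩
      · right
        obtain ⟨a, ha, hrep⟩ := exists_rep hu
        have hpre : PV (ext T F) (Fin.snoc (a • u) (a * z)) := by
          rw [← smul_snoc, ← hx]
          exact PV.smul hE hP ha
        rw [Set.mem_iUnion]
        refine ⟨Projectivization.mk K u hu, ?_⟩
        rw [Set.mem_iUnion]
        refine ⟨?_, ?_⟩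
        · rw [Set.Finite.mem_toFinset]
          change PV T (Projectivization.mk K u hu).rep
          rw [hrep]
          exact base_pre hpre
        · refine ⟨a * z, ?_, ?_⟩
          · change PV (ext T F) (Fin.snoc (Projectivization.mk K u hu).rep (a * z))
            rw [hrep]
            exact hpre
          · rw [hPm]
            simp only
            rw [Projectivization.mk_eq_mk_iff']
            exact ⟨a, by rw [hrep, hx, smul_snoc]⟩
    have hGf : ∀ Q ∈ hfin.toFinset, (G Q).Finite := by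
      intro Q hQ
      rw [Set.Finite.mem_toFinset] at hQ
      exact (hZf Q hQ).1.image _
    have hGc : ∀ Q ∈ hfin.toFinset, (G Q).ncard ≤ C1 := by
      intro Q hQ
      rw [Set.Finite.mem_toFinset] at hQ
      exact (Set.ncard_image_le (hZf Q hQ).1).trans (hZf Q hQ).2
    have hUf : (⋃ Q ∈ hfin.toFinset, G Q).Finite :=
      Set.Finite.biUnion (Finset.finite_toSet _) hGf
    have hall : ({Projectivization.mk K (spec n K) spec_ne} ∪ ⋃ Q ∈ hfin.toFinset, G Q).Finite :=
      (Set.finite_singleton _).union hUf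
    refine ⟨hall.subset hsub, (Set.ncard_le_ncard hsub hall).trans ((Set.ncard_union_le _ _).trans ?_)⟩
    rw [Set.ncard_singleton]
    have h2 : (⋃ Q ∈ hfin.toFinset, G Q).ncard ≤ C * C1 := by
      refine (Finset.set_ncard_biUnion_le _ _).trans ((Finset.sum_le_sum hGc).trans ?_)
      rw [Finset.sum_const, smul_eq_mul, ← Set.ncard_eq_toFinset_card _ hfin]
      exact Nat.mul_le_mul_right _ hcard
    omega

end bd

section mono

variable {K : Type} [Field K] {n : ℕ} {T : (Fin (n + 1) → K) → (Fin (n + 1) → K)} {d : ℕ}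

theorem Bd.mono (hT : HomV T d) {N C C' : ℕ} (h : Bd T N C) (t : ℕ) (hC : C ≤ C') : Bd T (t * N) C' :=
  ⟨fun v hv hp => fix_mul hT (h.1 v hv hp) t, h.2.1, h.2.2.trans hC⟩

theorem iter_conj {A B : Matrix (Fin (n + 1)) (Fin (n + 1)) K} (hAB : A * B = 1)
    {U : (Fin (n + 1) → K) → (Fin (n + 1) → K)} (h : ∀ v, U v = B.mulVec (T (A.mulVec v))) (k : ℕ) :
    ∀ v, A.mulVec (U^[k] v) = T^[k] (A.mulVec v) := by
  induction k with
  | zero => intro v; rfl
  | succ k ih =>
    intro v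
    rw [Function.iterate_succ_apply', Function.iterate_succ_apply', h, ← ih, Matrix.mulVec_mulVec, hAB,
      Matrix.one_mulVec]

/-- coordinate changes -/
theorem Bd.conj (hT : HomV T d) {N C : ℕ} (hb : Bd T N C)
    {A B : Matrix (Fin (n + 1)) (Fin (n + 1)) K} (hAB : A * B = 1)
    {U : (Fin (n + 1) → K) → (Fin (n + 1) → K)} (h : ∀ v, U v = B.mulVec (T (A.mulVec v))) :
    HomV U d ∧ Bd U N C := by
  have hBA : B * A = 1 := mul_eq_one_comm.mp hAB
  have hBA' : ∀ v, B.mulVec (A.mulVec v) = v := fun v => by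
    rw [Matrix.mulVec_mulVec, hBA, Matrix.one_mulVec]
  have hAne : ∀ v, v ≠ 0 → A.mulVec v ≠ 0 := by
    intro v hv h0
    apply hv
    rw [← hBA' v, h0, Matrix.mulVec_zero]
  have hBne : ∀ v, v ≠ 0 → B.mulVec v ≠ 0 := by
    intro v hv h0
    apply hv
    have := congrArg A.mulVec h0
    rwa [Matrix.mulVec_mulVec, hAB, Matrix.one_mulVec, Matrix.mulVec_zero] at this
  have hit := iter_conj hAB h
  have hU : HomV U d := by
    refine ⟨fun a v => ?_, fun v hv => ?_⟩
    · rw [h, h, Matrix.mulVec_smul, hT.1, Matrix.mulVec_smul]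
    · rw [h]
      exact hBne _ (hT.2 _ (hAne v hv))
  have hpv : ∀ v, PV U v → PV T (A.mulVec v) := by
    rintro v ⟨m, k, hmk, c, hc, h1⟩
    refine ⟨m, k, hmk, c, hc, ?_⟩
    rw [← hit, ← hit, h1, Matrix.mulVec_smul]
  refine ⟨hU, ?_, ?_⟩
  · intro v hv hp
    obtain ⟨c, hc, h1⟩ := hb.1 _ (hAne v hv) (hpv v hp)
    refine ⟨c, hc, ?_⟩
    rw [← hit, ← Matrix.mulVec_smul] at h1
    have := congrArg B.mulVec h1
    rwa [hBA', hBA'] at this
  · set f : ℙ K (Fin (n + 1) → K) → ℙ K (Fin (n + 1) → K) := fun P =>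
      Projectivization.mk K (A.mulVec P.rep) (hAne _ P.rep_nonzero) with hf
    have hinj : Function.Injective f := by
      intro P Q hPQ
      simp only [hf] at hPQ
      rw [Projectivization.mk_eq_mk_iff'] at hPQ
      obtain ⟨a, ha⟩ := hPQ
      rw [← P.mk_rep, ← Q.mk_rep, Projectivization.mk_eq_mk_iff']
      refine ⟨a, ?_⟩
      rw [← Matrix.mulVec_smul] at ha
      have := congrArg B.mulVec ha
      rwa [hBA', hBA'] at this
    have hsub : f '' {P | PV U P.rep} ⊆ {P | PV T P.rep} := by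
      rintro _ ⟨P, hP, rfl⟩
      change PV T (Projectivization.mk K (A.mulVec P.rep) (hAne _ P.rep_nonzero)).rep
      obtain ⟨a, ha, h1⟩ := exists_rep (hAne _ P.rep_nonzero)
      rw [h1]
      exact PV.smul hT (hpv _ hP) ha
    have h6 := hb.2.1.subset hsub
    refine ⟨Set.Finite.of_finite_image h6 hinj.injOn, ?_⟩
    rw [← Set.ncard_image_of_injective _ hinj]
    exact (Set.ncard_le_ncard hsub hb.2.1).trans hb.2.2

end mono

end Pool.Agent.N236.UR.Sym
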