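import Pool.Agent.N236.UR.TowC

/-!
# Project UR (helper236), part 6: the bases of the towers
-/

set_option autoImplicit false

open Polynomial

namespace Pool.Agent.N236.UR.Sym

open Pool.Agent.N236.UR Pool.Agent.N236.UB
open scoped LinearAlgebra.Projectivization

section sym

variable {K : Type} [Field K] {n d D : ℕ}

theorem hom_sym {E : Type} [Field E] [Algebra K E] [IsAlgClosed E]
    {φ : ℙ E (E × E) → ℙ E (E × E)} {Φ : Fin (n + 1) → MvPolynomial (Fin (n + 1)) K}
    (hhom : ∀ j, (Φ j).IsHomogeneous d) (hΦ : IsSym φ Φ) : HomV (aN Φ) d := by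
  constructor
  · intro a v
    funext j
    exact eval_smul_hom (hhom j) a v
  · intro v hv h0
    obtain ⟨p, c, hc, hp⟩ := exists_ptP (E := E) (up E v) (up_ne hv)
    obtain ⟨c', hc', h1⟩ := step hhom hΦ hc hp
    rw [h0] at h1
    have h2 : up E (0 : Fin (n + 1) → K) = 0 := by
      funext j
      simp [up]
    rw [h2] at h1
    exact smul_ne_zero hc' (ptP_ne _) h1.symm

/-- the symmetric powers -/
theorem bd_sym {N C : ℕ} {Φ : Fin (n + 1) → MvPolynomial (Fin (n + 1)) K} (hT : HomV (aN Φ) d)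
    (h : (∀ P ∈ Pre Φ, ∃ c : K, c ≠ 0 ∧ (aN Φ)^[N] P.rep = c • P.rep) ∧
        (Pre Φ).Finite ∧ (Pre Φ).ncard ≤ C) : Bd (aN Φ) N C := by
  refine ⟨?_, h.2.1, h.2.2⟩
  intro v hv hp
  obtain ⟨a, ha, h1⟩ := exists_rep hv
  have h2 : PV (aN Φ) (Projectivization.mk K v hv).rep := by
    rw [h1]
    exact PV.smul hT hp ha
  have h3 := h.1 (Projectivization.mk K v hv) h2
  rw [h1] at h3
  have h4 := fix_smul hT h3 (inv_ne_zero ha)
  rwa [smul_smul, inv_mul_cancel₀ ha, one_smul] at h4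

end sym

section point

variable {K : Type} [Field K] {d : ℕ}

theorem z0 (j : Fin (0 + 1)) : j = 0 := Fin.ext (by have := j.2; simp only [Fin.val_zero]; omega)

theorem hom_point {a : K} (ha : a ≠ 0) :
    HomV (n := 0) (fun (v : Fin (0 + 1) → K) _ => a * v 0 ^ d) d := by
  constructor
  · intro c v
    funext j
    simp only [Pi.smul_apply, smul_eq_mul, mul_pow]
    ring
  · intro v hv h0
    have h1 := congrFun h0 0
    simp only [Pi.zero_apply] at h1
    have h2 : v 0 ^ d = 0 := (mul_eq_zero.1 h1).resolve_left ha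
    apply hv
    funext j
    have hj : j = 0 := z0 j
    rw [hj]
    exact pow_eq_zero_iff_of_pos' h2
where
  pow_eq_zero_iff_of_pos' {x : K} {m : ℕ} (h : x ^ m = 0) : x = 0 := by
    by_contra hx
    exact pow_ne_zero m hx h

theorem bd_point {a : K} (ha : a ≠ 0) :
    Bd (n := 0) (fun (v : Fin (0 + 1) → K) _ => a * v 0 ^ d) 1 1 := by
  have hall : ∀ v w : Fin (0 + 1) → K, v ≠ 0 → w ≠ 0 → ∃ c : K, c ≠ 0 ∧ w = c • v := by
    intro v w hv hw
    have hv0 : v 0 ≠ 0 := by
      intro h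
      apply hv
      funext j
      rw [z0 j]
      exact h
    have hw0 : w 0 ≠ 0 := by
      intro h
      apply hw
      funext j
      rw [z0 j]
      exact h
    refine ⟨w 0 / v 0, div_ne_zero hw0 hv0, ?_⟩
    funext j
    rw [z0 j, Pi.smul_apply, smul_eq_mul, div_mul_cancel₀ _ hv0]
  have hsub : ∀ P Q : ℙ K (Fin (0 + 1) → K), P = Q := by
    intro P Q
    obtain ⟨c, hc, h⟩ := hall Q.rep P.rep Q.rep_nonzero P.rep_nonzero
    rw [← P.mk_rep, ← Q.mk_rep, Projectivization.mk_eq_mk_iff']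
    exact ⟨c, h.symm⟩
  have hss : Subsingleton (ℙ K (Fin (0 + 1) → K)) := ⟨hsub⟩
  refine ⟨fun v hv _ => ?_, Set.toFinite _, ?_⟩
  · rw [Function.iterate_one]
    exact hall v _ hv ((hom_point ha).2 v hv)
  · exact Set.ncard_le_one_iff_subsingleton.mpr (Set.subsingleton_of_subsingleton)

end point

section line

variable {K : Type} [Field K] {d D : ℕ}

theorem pair_ne {v : Fin (1 + 1) → K} (hv : v ≠ 0) : ((v 0 : K), (v 1 : K)) ≠ 0 := by
  intro h
  apply hv
  funext j
  fin_cases j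
  · exact congrArg Prod.fst h
  · exact congrArg Prod.snd h

theorem bd_line {T : (Fin (1 + 1) → K) → (Fin (1 + 1) → K)} (hT : HomV T d)
    {φ : ℙ K (K × K) → ℙ K (K × K)}
    (hφ : ∀ (v : Fin (1 + 1) → K) (hv : (v 0, v 1) ≠ 0) (hTv : (T v 0, T v 1) ≠ 0),
      φ (Projectivization.mk K (v 0, v 1) hv) = Projectivization.mk K (T v 0, T v 1) hTv)
    {N C : ℕ}
    (h : (∀ P, (∃ m n : ℕ, m < n ∧ φ^[m] P = φ^[n] P) → φ^[N] P = P) ∧
        {P | ∃ m n : ℕ, m < n ∧ φ^[m] P = φ^[n] P}.Finite ∧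
        {P | ∃ m n : ℕ, m < n ∧ φ^[m] P = φ^[n] P}.ncard ≤ C) : Bd T N C := by
  have hit : ∀ (v : Fin (1 + 1) → K) (hv : v ≠ 0) (k : ℕ),
      φ^[k] (Projectivization.mk K (v 0, v 1) (pair_ne hv)) =
        Projectivization.mk K (T^[k] v 0, T^[k] v 1) (pair_ne (hT.iter_ne hv k)) := by
    intro v hv k
    induction k with
    | zero => rfl
    | succ k ih =>
      rw [Function.iterate_succ_apply', ih, hφ _ _ (pair_ne (hT.2 _ (hT.iter_ne hv k)))]
      simp only [Function.iterate_succ_apply']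
  have hprop : ∀ (v w : Fin (1 + 1) → K) (hv : v ≠ 0) (hw : w ≠ 0),
      Projectivization.mk K (v 0, v 1) (pair_ne hv) = Projectivization.mk K (w 0, w 1) (pair_ne hw) →
      ∃ c : K, c ≠ 0 ∧ v = c • w := by
    intro v w hv hw h
    rw [Projectivization.mk_eq_mk_iff'] at h
    obtain ⟨c, hc⟩ := h
    have h1 : v = c • w := by
      funext j
      fin_cases j
      · exact (congrArg Prod.fst hc).symm
      · exact (congrArg Prod.snd hc).symm
    refine ⟨c, ?_, h1⟩
    rintro rfl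
    rw [zero_smul] at h1
    exact hv h1
  have hpre : ∀ (v : Fin (1 + 1) → K) (hv : v ≠ 0), PV T v →
      ∃ m n : ℕ, m < n ∧ φ^[m] (Projectivization.mk K (v 0, v 1) (pair_ne hv)) =
        φ^[n] (Projectivization.mk K (v 0, v 1) (pair_ne hv)) := by
    rintro v hv ⟨m, k, hmk, c, hc, h1⟩
    refine ⟨m, k, hmk, ?_⟩
    rw [hit v hv, hit v hv, eq_comm, Projectivization.mk_eq_mk_iff']
    refine ⟨c, ?_⟩
    rw [h1]
    rfl
  refine ⟨?_, ?_⟩
  · intro v hv hp
    have h1 := h.1 _ (hpre v hv hp)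
    rw [hit v hv] at h1
    exact hprop _ _ (hT.iter_ne hv N) hv h1
  · set f : ℙ K (Fin (1 + 1) → K) → ℙ K (K × K) := fun P =>
      Projectivization.mk K (P.rep 0, P.rep 1) (pair_ne P.rep_nonzero) with hf
    have hinj : Function.Injective f := by
      intro P Q hPQ
      obtain ⟨c, hc, h1⟩ := hprop _ _ P.rep_nonzero Q.rep_nonzero hPQ
      rw [← P.mk_rep, ← Q.mk_rep, Projectivization.mk_eq_mk_iff']
      exact ⟨c, h1.symm⟩
    have hsub : f '' {P | PV T P.rep} ⊆ {P | ∃ m n : ℕ, m < n ∧ φ^[m] P = φ^[n] P} := by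
      rintro _ ⟨P, hP, rfl⟩
      exact hpre _ P.rep_nonzero hP
    have h6 := h.2.1.subset hsub
    refine ⟨Set.Finite.of_finite_image h6 hinj.injOn, ?_⟩
    rw [← Set.ncard_image_of_injective _ hinj]
    exact (Set.ncard_le_ncard hsub h.2.1).trans h.2.2

end line

end Pool.Agent.N236.UR.Sym
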