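import Pool.Agent.N236.UR.TowD

/-!
# Project UR (helper236), part 6: joins
-/

set_option autoImplicit false

open Polynomial

namespace Pool.Agent.N236.UR.Sym

open Pool.Agent.N236.UR Pool.Agent.N236.UB
open scoped LinearAlgebra.Projectivization

section gen

variable {K : Type} [Field K] {m d : ℕ}

/-- a line with a return map in the class -/
theorem gen_line {T : (Fin (m + 1) → K) → (Fin (m + 1) → K)} (hE : HomV T d)
    {ι : K → Fin (m + 1) → K} (hι : ∀ (t t' c : K), c ≠ 0 → ι t' = c • ι t → t' = t)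
    {N : ℕ} (hN : 1 ≤ N) {lam : K} (hlam : lam ≠ 0) {φ : ℙ K (K × K) → ℙ K (K × K)}
    (hφ : ∀ t : K, ∃ t' : K, T^[N] (ι t) = lam • ι t' ∧ φ (aff t) = aff t') {N1 C1 : ℕ}
    (h1 : (∀ P, (∃ m n : ℕ, m < n ∧ φ^[m] P = φ^[n] P) → φ^[N1] P = P) ∧
        {P | ∃ m n : ℕ, m < n ∧ φ^[m] P = φ^[n] P}.Finite ∧
        {P | ∃ m n : ℕ, m < n ∧ φ^[m] P = φ^[n] P}.ncard ≤ C1) :
    (∀ t, PV T (ι t) → ∃ c : K, c ≠ 0 ∧ T^[N1 * N] (ι t) = c • ι t) ∧
      {t | PV T (ι t)}.Finite ∧ {t | PV T (ι t)}.ncard ≤ C1 := by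
  have hit : ∀ (z : K) (j : ℕ), ∃ (c w : K), c ≠ 0 ∧ T^[j * N] (ι z) = c • ι w ∧
      φ^[j] (aff z) = aff w := by
    intro z j
    induction j with
    | zero => exact ⟨1, z, one_ne_zero, by simp, rfl⟩
    | succ j ih =>
      obtain ⟨c, w, hc, h1, h2⟩ := ih
      obtain ⟨w', h3, h4⟩ := hφ w
      refine ⟨c ^ d ^ N * lam, w', mul_ne_zero (pow_ne_zero _ hc) hlam, ?_, ?_⟩
      · have e : (j + 1) * N = N + j * N := by ring
        rw [e, Function.iterate_add_apply, h1, hE.iter, h3, smul_smul]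
      · rw [Function.iterate_succ_apply', h2, h4]
  have hpre : ∀ t, PV T (ι t) → ∃ m k : ℕ, m < k ∧ φ^[m] (aff t) = φ^[k] (aff t) := by
    rintro z ⟨m, k, hmk, c, hc, h⟩
    refine ⟨m, k, hmk, ?_⟩
    obtain ⟨c', hc', h'⟩ := orb hE hmk hc h (s := m * N) (Nat.le_mul_of_pos_right m (by omega)) N
    have e : m * N + N * (k - m) = k * N := by
      rw [Nat.mul_sub, mul_comm N k, mul_comm N m]
      have : m * N ≤ k * N := Nat.mul_le_mul_right _ hmk.le
      omega
    rw [e] at h'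
    obtain ⟨c1, w1, hc1, h1, h2⟩ := hit z m
    obtain ⟨c2, w2, hc2, h3, h4⟩ := hit z k
    rw [h2, h4]
    rw [h3, h1, smul_smul] at h'
    have h5 : ι w2 = (c2⁻¹ * (c' * c1)) • ι w1 := by
      rw [← smul_smul, ← h', smul_smul, inv_mul_cancel₀ hc2, one_smul]
    rw [hι w1 w2 _ (mul_ne_zero (inv_ne_zero hc2) (mul_ne_zero hc' hc1)) h5]
  refine ⟨?_, ?_⟩
  · intro t ht
    have h3 := h1.1 (aff t) (hpre t ht)
    obtain ⟨c, w, hc, h4, h5⟩ := hit t N1
    rw [h3] at h5
    rw [← aff_inj h5] at h4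
    exact ⟨c, hc, h4⟩
  · have h4 : aff '' {t | PV T (ι t)} ⊆ {P | ∃ m n : ℕ, m < n ∧ φ^[m] P = φ^[n] P} := by
      rintro _ ⟨z, hz, rfl⟩
      exact hpre z hz
    have h5 : Set.InjOn (aff : K → ℙ K (K × K)) {t | PV T (ι t)} := fun z _ w _ h => aff_inj h
    have h6 := h1.2.1.subset h4
    refine ⟨Set.Finite.of_finite_image h6 h5, ?_⟩
    rw [← Set.ncard_image_of_injOn h5]
    exact (Set.ncard_le_ncard h4 h1.2.1).trans h1.2.2

/-- the power maps -/
theorem pow_exc {D : ℕ} : ∀ d : ℕ, d ≠ 0 → (∀ p : ℕ, p.Prime → p ∣ d → D + 1 < p) →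
    ∃ φ : ℙ K (K × K) → ℙ K (K × K), ExcP K K D φ d ∧ ∀ z : K, φ (aff z) = aff (z ^ d) := by
  intro d
  induction d using Nat.recOnMul with
  | zero => intro h; exact absurd rfl h
  | one =>
    intro _ _
    refine ⟨_, ExcP.mobius (1 : Matrix (Fin 2) (Fin 2) K) (by simp), ?_⟩
    intro z
    have h1 : lin ((1 : Matrix (Fin 2) (Fin 2) K).map (algebraMap K K)) ((z : K), (1 : K)) = (z, 1) := by
      rw [Matrix.map_one _ (map_zero _) (map_one _)]
      unfold lin
      simp
    unfold aff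
    rw [actP_mk (hom_lin (det_map _ (by simp))) (one_ne' z) (by rw [h1]; exact one_ne' z)]
    simp only [h1, pow_one]
  | prime p hp =>
    intro _ h
    refine ⟨_, ExcP.power p hp (h p hp dvd_rfl), ?_⟩
    intro z
    have h1 : pw p ((z : K), (1 : K)) = (z ^ p, 1) := by
      unfold pw
      simp
    unfold aff
    rw [actP_mk (hom_pw hp.ne_zero) (one_ne' z) (by rw [h1]; exact one_ne' _)]
    simp only [h1]
  | mul a b iha ihb =>
    intro h0 h
    obtain ⟨φ, h1, h2⟩ := iha (fun h3 => h0 (by rw [h3, zero_mul]))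
      (fun p hp hpa => h p hp (hpa.mul_right b))
    obtain ⟨ψ, h3, h4⟩ := ihb (fun h3 => h0 (by rw [h3, mul_zero]))
      (fun p hp hpb => h p hp (hpb.mul_left a))
    refine ⟨φ ∘ ψ, ExcP.comp _ _ _ _ h1 h3, ?_⟩
    intro z
    rw [Function.comp_apply, h4, h2, ← pow_mul, mul_comm b a]

/-- twisted power maps -/
theorem twist_exc {D : ℕ} {d : ℕ} (hd : d ≠ 0) (h : ∀ p : ℕ, p.Prime → p ∣ d → D + 1 < p) {c : K}
    (hc : c ≠ 0) :
    ∃ φ : ℙ K (K × K) → ℙ K (K × K), ExcP K K D φ d ∧ ∀ z : K, φ (aff z) = aff (c * z ^ d) := by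
  obtain ⟨φ, h1, h2⟩ := pow_exc (K := K) d hd h
  set A : Matrix (Fin 2) (Fin 2) K := !![c, 0; 0, 1] with hA
  have hAd : A.det ≠ 0 := by
    rw [hA, Matrix.det_fin_two_of]
    simpa using hc
  refine ⟨actP (lin (A.map (algebraMap K K))) ∘ φ, ?_, ?_⟩
  · have := ExcP.comp _ _ _ _ (ExcP.mobius (K := K) (E := K) (M := D) A hAd) h1
    rwa [one_mul] at this
  · intro z
    rw [Function.comp_apply, h2]
    have h1 : lin (A.map (algebraMap K K)) ((z ^ d : K), (1 : K)) = (c * z ^ d, 1) := by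
      unfold lin
      simp [hA]
    unfold aff
    rw [actP_mk (hom_lin (det_map _ hAd)) (one_ne' _) (by rw [h1]; exact one_ne' _)]
    simp only [h1]

end gen

section join

variable {K : Type} [Field K] {a b d : ℕ}

/-- the vector with the given parts -/
def app (u : Fin (a + 1) → K) (w : Fin (b + 1) → K) : Fin (a + 1 + b + 1) → K :=
  (Fin.append u w : Fin (a + 1 + (b + 1)) → K)

/-- the first part -/
def lft (x : Fin (a + 1 + b + 1) → K) : Fin (a + 1) → K :=
  fun i => x (Fin.castAdd (b + 1) i : Fin (a + 1 + (b + 1)))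

/-- the second part -/
def rgt (x : Fin (a + 1 + b + 1) → K) : Fin (b + 1) → K :=
  fun i => x (Fin.natAdd (a + 1) i : Fin (a + 1 + (b + 1)))

/-- the join -/
def join (T₁ : (Fin (a + 1) → K) → (Fin (a + 1) → K)) (T₂ : (Fin (b + 1) → K) → (Fin (b + 1) → K)) :
    (Fin (a + 1 + b + 1) → K) → (Fin (a + 1 + b + 1) → K) :=
  fun x => app (T₁ (lft x)) (T₂ (rgt x))

theorem lft_app (u : Fin (a + 1) → K) (w : Fin (b + 1) → K) : lft (app u w) = u := by
  funext i
  exact Fin.append_left u w i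

theorem rgt_app (u : Fin (a + 1) → K) (w : Fin (b + 1) → K) : rgt (app u w) = w := by
  funext i
  exact Fin.append_right u w i

theorem app_self (x : Fin (a + 1 + b + 1) → K) : app (lft x) (rgt x) = x := by
  funext i
  exact Fin.addCases (m := a + 1) (n := b + 1) (motive := fun i => app (lft x) (rgt x) i = x i)
    (fun i => Fin.append_left _ _ i) (fun i => Fin.append_right _ _ i) i

theorem lft_smul (c : K) (x : Fin (a + 1 + b + 1) → K) : lft (c • x) = c • lft x := rfl

theorem rgt_smul (c : K) (x : Fin (a + 1 + b + 1) → K) : rgt (c • x) = c • rgt x := rfl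

theorem app_ext {x y : Fin (a + 1 + b + 1) → K} (h1 : lft x = lft y) (h2 : rgt x = rgt y) : x = y := by
  rw [← app_self x, ← app_self y, h1, h2]

theorem smul_app (c : K) (u : Fin (a + 1) → K) (w : Fin (b + 1) → K) :
    c • app u w = app (c • u) (c • w) := by
  apply app_ext
  · rw [lft_smul, lft_app, lft_app]
  · rw [rgt_smul, rgt_app, rgt_app]

theorem app_zero : (app (0 : Fin (a + 1) → K) (0 : Fin (b + 1) → K)) = 0 := by
  apply app_ext
  · rw [lft_app]
    rfl
  · rw [rgt_app]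
    rfl

variable {T₁ : (Fin (a + 1) → K) → (Fin (a + 1) → K)} {T₂ : (Fin (b + 1) → K) → (Fin (b + 1) → K)}

theorem join_app (u : Fin (a + 1) → K) (w : Fin (b + 1) → K) :
    join T₁ T₂ (app u w) = app (T₁ u) (T₂ w) := by
  unfold join
  rw [lft_app, rgt_app]

theorem join_iter (u : Fin (a + 1) → K) (w : Fin (b + 1) → K) (k : ℕ) :
    (join T₁ T₂)^[k] (app u w) = app (T₁^[k] u) (T₂^[k] w) := by
  induction k with
  | zero => rfl
  | succ k ih => rw [Function.iterate_succ_apply', ih, join_app, Function.iterate_succ_apply',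
      Function.iterate_succ_apply']

theorem hom_join (h₁ : HomV T₁ d) (h₂ : HomV T₂ d) : HomV (join T₁ T₂) d := by
  constructor
  · intro c x
    unfold join
    rw [lft_smul, rgt_smul, h₁.1, h₂.1, smul_app]
  · intro x hx h0
    have e1 : T₁ (lft x) = 0 := by
      have := congrArg lft h0
      unfold join at this
      rw [lft_app] at this
      exact this
    have e2 : T₂ (rgt x) = 0 := by
      have := congrArg rgt h0
      unfold join at this
      rw [rgt_app] at this
      exact this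
    have h3 : lft x = 0 := by
      by_contra h
      exact h₁.2 _ h e1
    have h4 : rgt x = 0 := by
      by_contra h
      exact h₂.2 _ h e2
    apply hx
    rw [← app_self x, h3, h4, app_zero]

theorem pv_left {u : Fin (a + 1) → K} {w : Fin (b + 1) → K} (h : PV (join T₁ T₂) (app u w)) :
    PV T₁ u := by
  obtain ⟨m, k, hmk, c, hc, h⟩ := h
  refine ⟨m, k, hmk, c, hc, ?_⟩
  rw [join_iter, join_iter, smul_app] at h
  have := congrArg lft h
  rwa [lft_app, lft_app] at this

theorem pv_right {u : Fin (a + 1) → K} {w : Fin (b + 1) → K} (h : PV (join T₁ T₂) (app u w)) :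
    PV T₂ w := by
  obtain ⟨m, k, hmk, c, hc, h⟩ := h
  refine ⟨m, k, hmk, c, hc, ?_⟩
  rw [join_iter, join_iter, smul_app] at h
  have := congrArg rgt h
  rwa [rgt_app, rgt_app] at this

theorem zero_iter {n : ℕ} {T : (Fin (n + 1) → K) → (Fin (n + 1) → K)} (hT : HomV T d) (hd : d ≠ 0)
    (k : ℕ) : T^[k] 0 = 0 := by
  induction k with
  | zero => rfl
  | succ k ih => rw [Function.iterate_succ_apply', ih, hom_zero hT hd]

/-- the join line -/
theorem join_line {D : ℕ} (h₁ : HomV T₁ d) (h₂ : HomV T₂ d) (hd : d ≠ 0)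
    (hp : ∀ p : ℕ, p.Prime → p ∣ d → D + 1 < p) {N C : ℕ} (hN : 1 ≤ N) (b₁ : Bd T₁ N C)
    (b₂ : Bd T₂ N C) {N1 C1 : ℕ} (h1 : Dim1 K D (d ^ N) N1 C1) {u : Fin (a + 1) → K}
    {w : Fin (b + 1) → K} (hu : u ≠ 0) (hw : w ≠ 0) (pu : PV T₁ u) (pw : PV T₂ w) :
    (∀ t : K, PV (join T₁ T₂) (app u (t • w)) → ∃ c : K, c ≠ 0 ∧
      (join T₁ T₂)^[N1 * N] (app u (t • w)) = c • app u (t • w)) ∧
      {t : K | PV (join T₁ T₂) (app u (t • w))}.Finite ∧
      {t : K | PV (join T₁ T₂) (app u (t • w))}.ncard ≤ C1 := by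
  obtain ⟨lam, hlam, e1⟩ := b₁.1 u hu pu
  obtain ⟨mu, hmu, e2⟩ := b₂.1 w hw pw
  have hpN : ∀ p : ℕ, p.Prime → p ∣ d ^ N → D + 1 < p := fun p hp1 hp2 =>
    hp p hp1 (hp1.dvd_of_dvd_pow hp2)
  obtain ⟨φ, hφ, hφ'⟩ := twist_exc (K := K) (pow_ne_zero N hd) hpN (mul_ne_zero hmu (inv_ne_zero hlam))
  refine gen_line (hom_join h₁ h₂) (ι := fun t => app u (t • w)) ?_ hN hlam (φ := φ) ?_ (h1 φ hφ)
  · intro t t' c hc h
    rw [smul_app] at h
    have g1 := congrArg lft h
    have g2 := congrArg rgt h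
    rw [lft_app, lft_app] at g1
    rw [rgt_app, rgt_app] at g2
    obtain ⟨i, hi⟩ := Function.ne_iff.1 hu
    have g3 := congrFun g1 i
    simp only [Pi.smul_apply, smul_eq_mul] at g3
    have hc1 : c = 1 := by
      have : c * u i = 1 * u i := by rw [one_mul]; exact g3.symm
      exact mul_right_cancel₀ hi this
    rw [hc1, one_smul] at g2
    obtain ⟨j, hj⟩ := Function.ne_iff.1 hw
    have g4 := congrFun g2 j
    simp only [Pi.smul_apply, smul_eq_mul] at g4
    exact mul_right_cancel₀ hj g4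
  · intro t
    refine ⟨mu * lam⁻¹ * t ^ d ^ N, ?_, hφ' t⟩
    rw [join_iter, e1, h₂.iter, e2, smul_app, smul_smul, smul_smul]
    congr 2
    field_simp

/-- **Joins.** -/
theorem bd_join {D : ℕ} (h₁ : HomV T₁ d) (h₂ : HomV T₂ d) (hd : d ≠ 0)
    (hp : ∀ p : ℕ, p.Prime → p ∣ d → D + 1 < p) {N C : ℕ} (hN : 1 ≤ N) (b₁ : Bd T₁ N C)
    (b₂ : Bd T₂ N C) {N1 C1 : ℕ} (h1 : Dim1 K D (d ^ N) N1 C1) :
    Bd (join T₁ T₂) (N1 * N) (C + C + C * (C * C1)) := by
  classical
  have hE := hom_join h₁ h₂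
  refine ⟨?_, ?_⟩
  · intro x hx hpre
    obtain ⟨u, w, rfl⟩ : ∃ (u : Fin (a + 1) → K) (w : Fin (b + 1) → K), x = app u w :=
      ⟨lft x, rgt x, (app_self x).symm⟩
    by_cases hu : u = 0
    · subst hu
      have hw : w ≠ 0 := by
        rintro rfl
        exact hx app_zero
      obtain ⟨c, hc, h⟩ := fix_mul h₂ (b₂.1 w hw (pv_right hpre)) N1
      refine ⟨c, hc, ?_⟩
      rw [join_iter, zero_iter h₁ hd, h, smul_app, smul_zero]
    · by_cases hw : w = 0
      · subst hw
        obtain ⟨c, hc, h⟩ := fix_mul h₁ (b₁.1 u hu (pv_left hpre)) N1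
        refine ⟨c, hc, ?_⟩
        rw [join_iter, zero_iter h₂ hd, h, smul_app, smul_zero]
      · have h3 := (join_line h₁ h₂ hd hp hN b₁ b₂ h1 hu hw (pv_left hpre) (pv_right hpre)).1 1
        rw [one_smul] at h3
        exact h3 hpre
  · have hne1 : ∀ Q : ℙ K (Fin (a + 1) → K), app Q.rep (0 : Fin (b + 1) → K) ≠ 0 := by
      intro Q h0
      rw [← app_zero] at h0
      have := congrArg lft h0
      rw [lft_app, lft_app] at this
      exact Q.rep_nonzero this
    have hne2 : ∀ Q : ℙ K (Fin (b + 1) → K), app (0 : Fin (a + 1) → K) Q.rep ≠ 0 := by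
      intro Q h0
      rw [← app_zero] at h0
      have := congrArg rgt h0
      rw [rgt_app, rgt_app] at this
      exact Q.rep_nonzero this
    have hne3 : ∀ (Q : ℙ K (Fin (a + 1) → K)) (w : Fin (b + 1) → K), app Q.rep w ≠ 0 := by
      intro Q w h0
      rw [← app_zero] at h0
      have := congrArg lft h0
      rw [lft_app, lft_app] at this
      exact Q.rep_nonzero this
    set S : Set (ℙ K (Fin (a + 1 + b + 1) → K)) := {P | PV (join T₁ T₂) P.rep} with hS
    set f1 : ℙ K (Fin (a + 1) → K) → ℙ K (Fin (a + 1 + b + 1) → K) := fun Q =>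
      Projectivization.mk K (app Q.rep 0) (hne1 Q) with hf1
    set f2 : ℙ K (Fin (b + 1) → K) → ℙ K (Fin (a + 1 + b + 1) → K) := fun Q =>
      Projectivization.mk K (app 0 Q.rep) (hne2 Q) with hf2
    set Z : ℙ K (Fin (a + 1) → K) → ℙ K (Fin (b + 1) → K) → Set K := fun Q R =>
      {t | PV (join T₁ T₂) (app Q.rep (t • R.rep))} with hZ
    set G : ℙ K (Fin (a + 1) → K) → ℙ K (Fin (b + 1) → K) → Set (ℙ K (Fin (a + 1 + b + 1) → K)) :=
      fun Q R => (fun t => Projectivization.mk K (app Q.rep (t • R.rep)) (hne3 Q _)) '' Z Q R with hG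
    have hZf : ∀ Q ∈ b₁.2.1.toFinset, ∀ R ∈ b₂.2.1.toFinset, (Z Q R).Finite ∧ (Z Q R).ncard ≤ C1 := by
      intro Q hQ R hR
      rw [Set.Finite.mem_toFinset] at hQ hR
      exact (join_line h₁ h₂ hd hp hN b₁ b₂ h1 Q.rep_nonzero R.rep_nonzero hQ hR).2
    have hpm : ∀ {n : ℕ} (u : Fin (n + 1) → K) (hu : u ≠ 0),
        ∃ α : K, α ≠ 0 ∧ u = α • (Projectivization.mk K u hu).rep := by
      intro n u hu
      obtain ⟨α, hα, h⟩ := exists_rep hu
      exact ⟨α⁻¹, inv_ne_zero hα, by rw [h, smul_smul, inv_mul_cancel₀ hα, one_smul]⟩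
    have hsub : S ⊆ (f1 '' {P | PV T₁ P.rep} ∪ f2 '' {P | PV T₂ P.rep}) ∪
        ⋃ Q ∈ b₁.2.1.toFinset, ⋃ R ∈ b₂.2.1.toFinset, G Q R := by
      intro P hP
      have hPm : P = Projectivization.mk K P.rep P.rep_nonzero := (Projectivization.mk_rep P).symm
      obtain ⟨u, w, hx⟩ : ∃ (u : Fin (a + 1) → K) (w : Fin (b + 1) → K), P.rep = app u w :=
        ⟨lft P.rep, rgt P.rep, (app_self P.rep).symm⟩
      have hP' : PV (join T₁ T₂) (app u w) := by
        rw [← hx]
        exact hP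
      by_cases hu : u = 0
      · left; right
        have hw : w ≠ 0 := by
          intro h
          rw [hu, h, app_zero] at hx
          exact P.rep_nonzero hx
        obtain ⟨α, hα, h⟩ := exists_rep hw
        refine ⟨Projectivization.mk K w hw, ?_, ?_⟩
        · change PV T₂ (Projectivization.mk K w hw).rep
          rw [h]
          exact PV.smul h₂ (pv_right hP') hα
        · rw [hPm]
          simp only [hf2]
          rw [Projectivization.mk_eq_mk_iff']
          refine ⟨α, ?_⟩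
          rw [hx, hu, smul_app, smul_zero, h]
      · by_cases hw : w = 0
        · left; left
          obtain ⟨α, hα, h⟩ := exists_rep hu
          refine ⟨Projectivization.mk K u hu, ?_, ?_⟩
          · change PV T₁ (Projectivization.mk K u hu).rep
            rw [h]
            exact PV.smul h₁ (pv_left hP') hα
          · rw [hPm]
            simp only [hf1]
            rw [Projectivization.mk_eq_mk_iff']
            refine ⟨α, ?_⟩
            rw [hx, hw, smul_app, smul_zero, h]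
        · right
          obtain ⟨α, hα, h⟩ := exists_rep hu
          obtain ⟨β, hβ, h'⟩ := exists_rep hw
          rw [Set.mem_iUnion]
          refine ⟨Projectivization.mk K u hu, ?_⟩
          rw [Set.mem_iUnion]
          refine ⟨?_, ?_⟩
          · rw [Set.Finite.mem_toFinset]
            change PV T₁ (Projectivization.mk K u hu).rep
            rw [h]
            exact PV.smul h₁ (pv_left hP') hα
          rw [Set.mem_iUnion]
          refine ⟨Projectivization.mk K w hw, ?_⟩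
          rw [Set.mem_iUnion]
          refine ⟨?_, ?_⟩
          · rw [Set.Finite.mem_toFinset]
            change PV T₂ (Projectivization.mk K w hw).rep
            rw [h']
            exact PV.smul h₂ (pv_right hP') hβ
          have e : app (Projectivization.mk K u hu).rep ((α * β⁻¹) • (Projectivization.mk K w hw).rep) =
              α • app u w := by
            rw [h, h', smul_smul, mul_assoc, inv_mul_cancel₀ hβ, mul_one, smul_app]
          refine ⟨α * β⁻¹, ?_, ?_⟩
          · change PV (join T₁ T₂) (app (Projectivization.mk K u hu).rep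
              ((α * β⁻¹) • (Projectivization.mk K w hw).rep))
            rw [e]
            exact PV.smul hE hP' hα
          · rw [hPm]
            simp only
            rw [Projectivization.mk_eq_mk_iff']
            exact ⟨α, by rw [e, hx]⟩
    have hGf : ∀ Q ∈ b₁.2.1.toFinset, ∀ R ∈ b₂.2.1.toFinset, (G Q R).Finite ∧ (G Q R).ncard ≤ C1 := by
      intro Q hQ R hR
      obtain ⟨g1, g2⟩ := hZf Q hQ R hR
      exact ⟨g1.image _, (Set.ncard_image_le g1).trans g2⟩
    have hUf : ∀ Q ∈ b₁.2.1.toFinset, (⋃ R ∈ b₂.2.1.toFinset, G Q R).Finite ∧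
        (⋃ R ∈ b₂.2.1.toFinset, G Q R).ncard ≤ C * C1 := by
      intro Q hQ
      refine ⟨Set.Finite.biUnion (Finset.finite_toSet _) fun R hR => (hGf Q hQ R hR).1, ?_⟩
      refine (Finset.set_ncard_biUnion_le _ _).trans
        ((Finset.sum_le_sum fun R hR => (hGf Q hQ R hR).2).trans ?_)
      rw [Finset.sum_const, smul_eq_mul, ← Set.ncard_eq_toFinset_card _ b₂.2.1]
      exact Nat.mul_le_mul_right _ b₂.2.2
    have hVf : (⋃ Q ∈ b₁.2.1.toFinset, ⋃ R ∈ b₂.2.1.toFinset, G Q R).Finite :=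
      Set.Finite.biUnion (Finset.finite_toSet _) fun Q hQ => (hUf Q hQ).1
    have hVc : (⋃ Q ∈ b₁.2.1.toFinset, ⋃ R ∈ b₂.2.1.toFinset, G Q R).ncard ≤ C * (C * C1) := by
      refine (Finset.set_ncard_biUnion_le _ _).trans
        ((Finset.sum_le_sum fun Q hQ => (hUf Q hQ).2).trans ?_)
      rw [Finset.sum_const, smul_eq_mul, ← Set.ncard_eq_toFinset_card _ b₁.2.1]
      exact Nat.mul_le_mul_right _ b₁.2.2
    have hall := ((b₁.2.1.image f1).union (b₂.2.1.image f2)).union hVf
    refine ⟨hall.subset hsub, (Set.ncard_le_ncard hsub hall).trans ((Set.ncard_union_le _ _).trans ?_)⟩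
    have i1 := (Set.ncard_image_le (f := f1) b₁.2.1).trans b₁.2.2
    have i2 := (Set.ncard_image_le (f := f2) b₂.2.1).trans b₂.2.2
    have i3 := Set.ncard_union_le (f1 '' {P | PV T₁ P.rep}) (f2 '' {P | PV T₂ P.rep})
    omega

end join

end Pool.Agent.N236.UR.Sym
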